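import Pool.Agent.SmallRank.IrrOne
import Pool.Agent.SmallRank.PrWts
import Pool.Agent.SmallRank.PairEx

/-!
# The complement of the range of an extremal element is irreducible (PACKAGE FX9)

Notation: `P = c * f`, `Q = f * c`, `R = 1 - P - Q`. All commute with `e` (`e * P = P`, `P * e = P`
as `f * e = f`, `e * Q = 0`, `Q * e = 0`).

Proof. Let `Y` be the span of the `(P * z) u`, `z ∈ g`, `e * z = z * e`, `u ∈ U`. Claim: `U ⊔ Y` is
stable
under all `a ∈ g` with `e * a = a * e`. For `u ∈ U` (`u = (e - P) u`): `P u = 0`, `Q u = 0`,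
`e u = u`, `R u = u`.
`P * a * Q = P * e * a * Q = P * a * e * Q = 0`, `Q * a * P = Q * a * e * P = Q * e * a * P = 0`,
so `a = a₋ + a₀ + a₊` with
`a₋ = R * a * P + Q * a * R` (`Pr.wt_m1`), `a₊ = P * a * R + R * a * Q` (`Pr.wt_1`) and
`a₀ = P * a * P + Q * a * Q + R * a * R` (`Pr.wt_0`) (`Pool/Agent/SmallRank/PrWts.lean`; expand
`1 * a * 1`,
`1 = P + Q + R`). All three are in `g` and commute with `e`.

On `u ∈ U`: `a₋ u = Q (a u) = 0` (`Q * a * e = Q * e * a = 0`), `a₀ u ∈ U` by `hst` (`a₀` commutes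
with `P`
and `Q`), `a₊ u = P (a u) ∈ Y`.

On `y = (P * z) u`: `y = z₊ u` (`Q u = 0`, `R u = u`) with `z₊ ∈ g` of the same kind.
`a₊ (z₊ u) = (P * a * R * z * Q) u = 0`.
`a₀ (z₊ u) = (a₀ * z₊ - z₊ * a₀) u + z₊ (a₀ u)`; `s = a₀ * z₊ - z₊ * a₀ ∈ g` commutes with `e`, and
`s u = P (s u)`
(`a₀ * z₊ = P a P z R + R a R z Q`, `z₊ * a₀ = P z R a R + R z Q a Q`, `Q u = 0`, `Q a u = 0`), so
`s u ∈ Y`, and `z₊ (a₀ u) = P (z (a₀ u)) ∈ Y` because `a₀ u ∈ U`.
`a₋ (z₊ u) = (a₋ * z₊ - z₊ * a₋) u + z₊ (a₋ u)`, `a₋ u = 0`, and `s = a₋ * z₊ - z₊ * a₋ ∈ g`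
commutes with `e`, `P`
and `Q` (`a₋ * z₊ = R a P z R + Q a R z Q`, `z₊ * a₋ = P z R a P + R z Q a R`), so `s u ∈ U`.

`U ⊔ Y ≤ range e` (`e * P = P`). By `irr_range` (`Pool/Agent/SmallRank/IrrOne.lean`) it is `⊥`
(then `U = ⊥`) or `range e`. In the second
case let `v = (e - P) v'`; then `v ∈ range e`, `v = u + y`, `(e - P) v = v` (`e - P` is
idempotent), `(e - P) y = 0` (`y ∈ range P`), so `v = (e - P) u = u ∈ U`.
-/

set_option autoImplicit false
set_option linter.unusedSectionVars false

namespace Pool.Agent.FQA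

open Module Pool.Agent.SmallRank

variable {K V : Type*} [Field K] [CharZero K] [IsAlgClosed K] [AddCommGroup V] [Module K V]
  [FiniteDimensional K V]

theorem irr_bot {g : Submodule K (End K V)} {e c f : End K V} {ρ : ℕ} (B : Pr g e c f ρ)
    {U : Submodule K V} (hU : U ≤ LinearMap.range (e - c * f))
    (hst : ∀ z ∈ g, e * z = z * e → c * f * z = z * (c * f) → f * c * z = z * (f * c) →
      ∀ u ∈ U, z u ∈ U) :
    U = ⊥ ∨ U = LinearMap.range (e - c * f) := by
  obtain ⟨P, hP⟩ : ∃ P, P = c * f := ⟨_, rfl⟩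
  obtain ⟨Q, hQ⟩ : ∃ Q, Q = f * c := ⟨_, rfl⟩
  obtain ⟨R, hR⟩ : ∃ R, R = 1 - P - Q := ⟨_, rfl⟩
  have hwt_m1 : ∀ z ∈ g, R * z * P + Q * z * R ∈ g := fun z hz => by
    rw [hR, hP, hQ]; exact B.wt_m1 hz
  have hwt_1 : ∀ z ∈ g, P * z * R + R * z * Q ∈ g := fun z hz => by
    rw [hR, hP, hQ]; exact B.wt_1 hz
  have hwt_0 : ∀ z ∈ g, P * z * P + Q * z * Q + R * z * R ∈ g := fun z hz => by
    rw [hR, hP, hQ]; exact B.wt_0 hz
  rw [← hP] at hU ⊢
  rw [← hP, ← hQ] at hst
  -- the idempotents
  have PP : P * P = P := by rw [hP]; exact B.idemP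
  have QQ : Q * Q = Q := by rw [hQ]; exact B.idemQ
  have PQ : P * Q = 0 := by
    rw [hP, hQ, mul_assoc, ← mul_assoc f f c, B.ff, zero_mul, mul_zero]
  have QP : Q * P = 0 := by
    rw [hP, hQ, mul_assoc, ← mul_assoc c c f, B.cc, zero_mul, mul_zero]
  have PR : P * R = 0 := by rw [hR, mul_sub, mul_sub, mul_one, PP, PQ, sub_self, sub_zero]
  have QR : Q * R = 0 := by rw [hR, mul_sub, mul_sub, mul_one, QP, QQ, sub_zero, sub_self]
  have RP : R * P = 0 := by rw [hR, sub_mul, sub_mul, one_mul, PP, QP, sub_self, sub_zero]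
  have RQ : R * Q = 0 := by rw [hR, sub_mul, sub_mul, one_mul, PQ, QQ, sub_zero, sub_self]
  have RR : R * R = R := by
    conv_lhs => rw [hR, mul_sub, mul_sub, mul_one, ← hR, RP, RQ, sub_zero, sub_zero]
  have PP' : ∀ x, P * (P * x) = P * x := fun x => by rw [← mul_assoc, PP]
  have QQ' : ∀ x, Q * (Q * x) = Q * x := fun x => by rw [← mul_assoc, QQ]
  have RR' : ∀ x, R * (R * x) = R * x := fun x => by rw [← mul_assoc, RR]
  have PQ' : ∀ x, P * (Q * x) = 0 := fun x => by rw [← mul_assoc, PQ, zero_mul]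
  have QP' : ∀ x, Q * (P * x) = 0 := fun x => by rw [← mul_assoc, QP, zero_mul]
  have PR' : ∀ x, P * (R * x) = 0 := fun x => by rw [← mul_assoc, PR, zero_mul]
  have QR' : ∀ x, Q * (R * x) = 0 := fun x => by rw [← mul_assoc, QR, zero_mul]
  have RP' : ∀ x, R * (P * x) = 0 := fun x => by rw [← mul_assoc, RP, zero_mul]
  have RQ' : ∀ x, R * (Q * x) = 0 := fun x => by rw [← mul_assoc, RQ, zero_mul]
  have eP : e * P = P := by rw [hP, ← mul_assoc, B.ec]
  have Pe : P * e = P := by rw [hP, mul_assoc, B.fe]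
  have eQ : e * Q = 0 := by rw [hQ, ← mul_assoc, B.ef, zero_mul]
  have Qe : Q * e = 0 := by rw [hQ, mul_assoc, B.ce, mul_zero]
  have ee : e * e = e := B.G.idem
  have cP : Commute e P := by rw [Commute, SemiconjBy, eP, Pe]
  have cQ : Commute e Q := by rw [Commute, SemiconjBy, eQ, Qe]
  have cR : Commute e R := by
    rw [hR]
    exact ((Commute.one_right e).sub_right cP).sub_right cQ
  -- vectors
  have Qz : ∀ w : V, e w = w → Q w = 0 := by
    intro w hw
    rw [← hw, ← Module.End.mul_apply, Qe, LinearMap.zero_apply]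
  have hfix : ∀ u ∈ U, (e - P) u = u := by
    intro u hu
    obtain ⟨w, rfl⟩ := hU hu
    have h1 : (e - P) * (e - P) = e - P := by
      rw [mul_sub, sub_mul, sub_mul, ee, Pe, eP, PP, sub_self, sub_zero]
    rw [← Module.End.mul_apply, h1]
  have hPu : ∀ u ∈ U, P u = 0 := by
    intro u hu
    rw [← hfix u hu, ← Module.End.mul_apply, mul_sub, Pe, PP, sub_self, LinearMap.zero_apply]
  have heu : ∀ u ∈ U, e u = u := by
    intro u hu
    have h1 := hfix u hu
    rw [LinearMap.sub_apply, hPu u hu, sub_zero] at h1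
    exact h1
  have hRu : ∀ w : V, P w = 0 → Q w = 0 → R w = w := by
    intro w h1 h2
    rw [hR, LinearMap.sub_apply, LinearMap.sub_apply, h1, h2, sub_zero, sub_zero,
      Module.End.one_apply]
  have hRU : ∀ u ∈ U, R u = u := fun u hu => hRu u (hPu u hu) (Qz u (heu u hu))
  have hea : ∀ a : End K V, e * a = a * e → ∀ w, e w = w → e (a w) = a w := by
    intro a ha w hw
    rw [← Module.End.mul_apply, ha, Module.End.mul_apply, hw]
  have hplus : ∀ a : End K V, ∀ u ∈ U, (P * a * R + R * a * Q) u = P (a u) := by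
    intro a u hu
    rw [LinearMap.add_apply, Module.End.mul_apply, Module.End.mul_apply, Module.End.mul_apply,
      Module.End.mul_apply, hRU u hu, Qz u (heu u hu), map_zero, map_zero, add_zero]
  have hminus : ∀ a : End K V, e * a = a * e → ∀ u ∈ U, (R * a * P + Q * a * R) u = 0 := by
    intro a ha u hu
    rw [LinearMap.add_apply, Module.End.mul_apply, Module.End.mul_apply, Module.End.mul_apply,
      Module.End.mul_apply, hRU u hu, hPu u hu, map_zero, map_zero, zero_add,
      Qz _ (hea a ha u (heu u hu))]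
  have hzero : ∀ a ∈ g, e * a = a * e → ∀ u ∈ U,
      (P * a * P + Q * a * Q + R * a * R) u ∈ U := by
    intro a hag ha u hu
    refine hst _ (hwt_0 a hag) ?_ ?_ ?_ u hu
    · have ha' : Commute e a := ha
      exact (((cP.mul_right ha').mul_right cP).add_right
        ((cQ.mul_right ha').mul_right cQ)).add_right ((cR.mul_right ha').mul_right cR)
    · simp only [mul_add, add_mul, mul_assoc, PP, PP', PQ', PR', QP, RP, mul_zero, zero_add,
        add_zero]
    · simp only [mul_add, add_mul, mul_assoc, QQ, QQ', QP', QR', PQ, RQ, mul_zero, zero_add,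
        add_zero]
  set Y : Submodule K V := Submodule.span K {w | ∃ z ∈ g, e * z = z * e ∧ ∃ u ∈ U, P (z u) = w}
    with hY
  have hYm : ∀ z ∈ g, e * z = z * e → ∀ u ∈ U, P (z u) ∈ Y := fun z hz hc u hu =>
    Submodule.subset_span ⟨z, hz, hc, u, hu, rfl⟩
  have hdec : ∀ a : End K V, e * a = a * e → a = (R * a * P + Q * a * R) +
      (P * a * P + Q * a * Q + R * a * R) + (P * a * R + R * a * Q) := by
    intro a ha
    have h1 : P * a * Q = 0 := by
      rw [← Pe, mul_assoc P e a, ha, ← mul_assoc, mul_assoc, eQ, mul_zero]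
    have h2 : Q * a * P = 0 := by
      rw [← eP, ← mul_assoc, mul_assoc Q a e, ← ha, ← mul_assoc, Qe, zero_mul, zero_mul]
    have h3 : P + Q + R = 1 := by rw [hR]; abel
    calc a = (P + Q + R) * a * (P + Q + R) := by rw [h3, one_mul, mul_one]
      _ = P * a * P + P * a * Q + P * a * R + (Q * a * P + Q * a * Q + Q * a * R) +
          (R * a * P + R * a * Q + R * a * R) := by
        simp only [add_mul, mul_add]
        abel
      _ = _ := by
        rw [h1, h2]
        abel
  have hstab : ∀ a ∈ g, e * a = a * e → ∀ w ∈ U ⊔ Y, a w ∈ U ⊔ Y := by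
    intro a hag ha
    have ha' : Commute e a := ha
    have hU' : ∀ u ∈ U, a u ∈ U ⊔ Y := by
      intro u hu
      have h1 := LinearMap.congr_fun (hdec a ha) u
      rw [LinearMap.add_apply, LinearMap.add_apply, hminus a ha u hu, hplus a u hu,
        zero_add] at h1
      rw [h1]
      exact add_mem ((le_sup_left : U ≤ U ⊔ Y) (hzero a hag ha u hu))
        ((le_sup_right : Y ≤ U ⊔ Y) (hYm a hag ha u hu))
    have hY' : ∀ z ∈ g, e * z = z * e → ∀ u ∈ U, a (P (z u)) ∈ U ⊔ Y := by
      intro z hzg hz u hu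
      have hz' : Commute e z := hz
      have h1 := LinearMap.congr_fun (hdec a ha) (P (z u))
      rw [LinearMap.add_apply, LinearMap.add_apply] at h1
      have h2 : (P * a * R + R * a * Q) (P (z u)) = 0 := by
        have h0 : (P * a * R + R * a * Q) * P = 0 := by
          simp only [add_mul, mul_assoc, RP, QP, mul_zero, add_zero]
        rw [← Module.End.mul_apply, h0, LinearMap.zero_apply]
      have czp : Commute e (P * z * R + R * z * Q) :=
        ((cP.mul_right hz').mul_right cR).add_right ((cR.mul_right hz').mul_right cQ)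
      have hzp := hwt_1 z hzg
      have hm := hwt_m1 a hag
      have h0 := hwt_0 a hag
      -- degree minus one
      have h3 : (R * a * P + Q * a * R) (P (z u)) ∈ U := by
        have h4 : ((R * a * P + Q * a * R) * (P * z * R + R * z * Q) -
            (P * z * R + R * z * Q) * (R * a * P + Q * a * R)) u ∈ U := by
          refine hst _ (B.G.lie _ hm _ hzp) ?_ ?_ ?_ u hu
          · have cm : Commute e (R * a * P + Q * a * R) :=
              ((cR.mul_right ha').mul_right cP).add_right ((cQ.mul_right ha').mul_right cR)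
            exact (cm.mul_right czp).sub_right (czp.mul_right cm)
          · simp only [mul_add, add_mul, mul_sub, sub_mul, mul_assoc, PP, PP', PQ', PR', QP, RP,
              RR', QQ', RP', RQ', QP', QR', mul_zero, zero_mul, zero_add, add_zero]
          · simp only [mul_add, add_mul, mul_sub, sub_mul, mul_assoc, QQ, PP', PQ', PR', PQ, RQ,
              RR', QQ', RP', RQ', QP', QR', mul_zero, zero_mul, zero_add, add_zero, sub_zero]
        rw [LinearMap.sub_apply, Module.End.mul_apply, Module.End.mul_apply, hplus z u hu,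
          hminus a ha u hu, map_zero, sub_zero] at h4
        exact h4
      -- degree zero
      have h5 : (P * a * P + Q * a * Q + R * a * R) (P (z u)) ∈ Y := by
        have hu0 := hzero a hag ha u hu
        have h6 : P (z ((P * a * P + Q * a * Q + R * a * R) u)) ∈ Y := hYm z hzg hz _ hu0
        have c0 : Commute e (P * a * P + Q * a * Q + R * a * R) :=
          (((cP.mul_right ha').mul_right cP).add_right
            ((cQ.mul_right ha').mul_right cQ)).add_right ((cR.mul_right ha').mul_right cR)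
        have h7 := hYm _ (B.G.lie _ h0 _ hzp)
          ((c0.mul_right czp).sub_right (czp.mul_right c0)) u hu
        rw [LinearMap.sub_apply, Module.End.mul_apply, Module.End.mul_apply, hplus z u hu,
          hplus z _ hu0, map_sub] at h7
        have h8 : P ((P * a * P + Q * a * Q + R * a * R) (P (z u))) =
            (P * a * P + Q * a * Q + R * a * R) (P (z u)) := by
          have h11 : P * ((P * a * P + Q * a * Q + R * a * R) * P) =
              (P * a * P + Q * a * Q + R * a * R) * P := by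
            simp only [mul_add, add_mul, mul_assoc, PP, PP', PQ', PR', QP, RP, mul_zero,
              add_zero]
          exact LinearMap.congr_fun h11 (z u)
        have h9 : P (P (z ((P * a * P + Q * a * Q + R * a * R) u))) =
            P (z ((P * a * P + Q * a * Q + R * a * R) u)) := by
          rw [← Module.End.mul_apply, PP]
        rw [h8, h9] at h7
        have h10 := add_mem h7 h6
        rwa [sub_add_cancel] at h10
      rw [h1, h2, add_zero]
      exact add_mem ((le_sup_left : U ≤ U ⊔ Y) h3) ((le_sup_right : Y ≤ U ⊔ Y) h5)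
    have h3 : U ⊔ Y ≤ (U ⊔ Y).comap a := by
      refine sup_le (fun u hu => hU' u hu) (Submodule.span_le.2 ?_)
      rintro w ⟨z, hzg, hz, u, hu, rfl⟩
      exact hY' z hzg hz u hu
    exact fun w hw => h3 hw
  have hYP : ∀ y ∈ Y, P y = y := by
    intro y hy
    have h1 : Y ≤ LinearMap.ker (P - 1) := by
      refine Submodule.span_le.2 ?_
      rintro w ⟨z, hzg, hz, u, hu, rfl⟩
      rw [SetLike.mem_coe, LinearMap.mem_ker, LinearMap.sub_apply, Module.End.one_apply,
        ← Module.End.mul_apply, PP, sub_self]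
    have h2 := LinearMap.mem_ker.1 (h1 hy)
    rw [LinearMap.sub_apply, Module.End.one_apply, sub_eq_zero] at h2
    exact h2
  have hle : U ⊔ Y ≤ LinearMap.range e := by
    refine sup_le (fun u hu => ⟨u, heu u hu⟩) fun y hy => ⟨y, ?_⟩
    rw [← hYP y hy, ← Module.End.mul_apply, eP]
  rcases irr_range B.G hle hstab with h | h
  · exact Or.inl (le_bot_iff.1 (h ▸ le_sup_left))
  · refine Or.inr (le_antisymm hU ?_)
    rintro _ ⟨v, rfl⟩
    have hv : (e - P) v ∈ LinearMap.range e := by
      refine ⟨(e - P) v, ?_⟩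
      rw [← Module.End.mul_apply, mul_sub, ee, eP]
    rw [← h] at hv
    obtain ⟨u, hu, y, hy, huy⟩ := Submodule.mem_sup.1 hv
    have h1 : (e - P) ((e - P) v) = (e - P) v := by
      rw [← Module.End.mul_apply]
      congr 1
      rw [mul_sub, sub_mul, sub_mul, ee, Pe, eP, PP, sub_self, sub_zero]
    have h2 : (e - P) y = 0 := by
      rw [← hYP y hy, ← Module.End.mul_apply, sub_mul, eP, PP, sub_self, LinearMap.zero_apply]
    rw [← h1, ← huy, map_add, hfix u hu, h2, add_zero]
    exact hu

end Pool.Agent.FQA
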