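import Pool.Agent.SmallRank.Full

/-!
# Two orthogonal pairs which fill the space (PACKAGE FX1)

`Pr.exists_two`. Proof. Let `n = finrank K V`. `x ≠ 0`, so `ρ ≤ rk x` (`B.min`). First `rk x = ρ`
and
`n = 4 ρ`: as in the proof of `Pr.inj_of_zero` (`Pool/Agent/SmallRank/Full.lean`): `range c` and
`range x`
are disjoint (`(c * f) (c a) = c a`, `(c * f) (x b) = 0`) and contained in `range e`
(`e * c = c`, `e * x = x`), so `ρ + rk x ≤ rk e = n / 2 ≤ 2 ρ`, hence `rk x ≤ ρ`, so `rk x = ρ`,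
and
`2 ρ ≤ rk e ≤ 2 ρ`. `exists_pair'` (`Pool/Agent/SmallRank/PairEx.lean`) gives `y` with
`B' : Pr g e x y ρ`, `y * c = 0`, `c * y = 0`. `c * f` and `x * y` are idempotents (`B.idemP`,
`B'.idemP`)
of rank `ρ` (`Pr.rkP`) with `c * f * (x * y) = 0`, `x * y * (c * f) = 0` (`f * x = 0`, `y * c = 0`),
so
`p = c * f + x * y` is an idempotent of rank `2 ρ = rk e` (`rk_add_idem`) with `e * p = p`,
`p * e = p` (`f * e = f`, `y * e = y`), so `p = e` by `idem_eq` (`Pool/Agent/SmallRank/Frame.lean`).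
In the same way (`Pr.rkQ`, `Pr.idemQ`, `rk_compl`: `rk (1 - e) = n - rk e = 2 ρ`)
`f * c + y * x = 1 - e`
(`(1 - e) * f = f`, `c * (1 - e) = c`; `c * y = 0`, `x * f = 0`).
`ext1` is `B.symm.czc` (`Pr.symm`), `ext2` is `B'.symm.czc`. `rkq`: `Pr.rkQ` twice. -/

set_option autoImplicit false
set_option linter.unusedSectionVars false

namespace Pool.Agent.FQA

open Module Pool.Agent.SmallRank

variable {K V : Type*} [Field K] [CharZero K] [IsAlgClosed K] [AddCommGroup V] [Module K V]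
  [FiniteDimensional K V]

/-- Two orthogonal extremal pairs which fill the space. -/
structure Two (g : Submodule K (End K V)) (e c f x y : End K V) : Prop where
  G : Gr g e
  cu : c ∈ up g e
  fd : f ∈ dn g e
  xu : x ∈ up g e
  yd : y ∈ dn g e
  cfc : c * f * c = c
  fcf : f * c * f = f
  xyx : x * y * x = x
  yxy : y * x * y = y
  fx : f * x = 0
  xf : x * f = 0
  yc : y * c = 0
  cy : c * y = 0
  hP : c * f + x * y = e
  hQ : f * c + y * x = 1 - e
  ext1 : ∀ z ∈ g, ∃ κ : K, f * z * f = κ • f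
  ext2 : ∀ z ∈ g, ∃ κ : K, y * z * y = κ • y
  rkq : rk (f * c) = rk (y * x)

theorem exists_two {g : Submodule K (End K V)} {e c f : End K V} {ρ : ℕ} (B : Pr g e c f ρ)
    (hbal : 2 * rk e = finrank K V) (hρ : finrank K V ≤ 4 * ρ) {x : End K V} (hx : x ∈ up g e)
    (hx0 : x ≠ 0) (hfx : f * x = 0) (hxf : x * f = 0) : ∃ y, Two g e c f x y := by
  have hex : e * x = x := hx.2.1
  have hdis : Disjoint (LinearMap.range c) (LinearMap.range x) := by
    rw [Submodule.disjoint_def]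
    rintro u ⟨a, rfl⟩ ⟨b, hb⟩
    have h3 : (c * f) (c a) = 0 := by
      rw [← hb, ← Module.End.mul_apply, mul_assoc, hfx, mul_zero, LinearMap.zero_apply]
    rw [← Module.End.mul_apply, B.cfc] at h3
    exact h3
  have hle : LinearMap.range c ⊔ LinearMap.range x ≤ LinearMap.range e := by
    refine sup_le ?_ ?_
    · rintro _ ⟨u, rfl⟩
      exact ⟨c u, by rw [← Module.End.mul_apply, B.ec]⟩
    · rintro _ ⟨u, rfl⟩
      exact ⟨x u, by rw [← Module.End.mul_apply, hex]⟩
  have hsum : ρ + rk x ≤ rk e := by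
    have h4 := Submodule.finrank_mono hle
    have h5 := Submodule.finrank_sup_add_finrank_inf_eq (LinearMap.range c) (LinearMap.range x)
    rw [hdis.eq_bot, finrank_bot, add_zero] at h5
    have h7 := B.rkc
    change finrank K (LinearMap.range c) = ρ at h7
    change ρ + finrank K (LinearMap.range x) ≤ finrank K (LinearMap.range e)
    omega
  have hmin := B.min x hx hx0
  have hrx : rk x = ρ := by omega
  have hre : rk e = 2 * ρ := by omega
  obtain ⟨y, B', hyc, hcy⟩ := exists_pair' B hx hx0 hrx hfx hxf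
  have hce : c * (1 - e) = c := by rw [mul_sub, mul_one, B.ce, sub_zero]
  have hxe : x * (1 - e) = x := by rw [mul_sub, mul_one, B'.ce, sub_zero]
  have hef : (1 - e) * f = f := by rw [sub_mul, one_mul, B.ef, sub_zero]
  have hey : (1 - e) * y = y := by rw [sub_mul, one_mul, B'.ef, sub_zero]
  have h1 : c * f * (x * y) = 0 := by
    rw [mul_assoc, ← mul_assoc f x y, hfx, zero_mul, mul_zero]
  have h2 : x * y * (c * f) = 0 := by
    rw [mul_assoc, ← mul_assoc y c f, hyc, zero_mul, mul_zero]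
  have h3 : f * c * (y * x) = 0 := by
    rw [mul_assoc, ← mul_assoc c y x, hcy, zero_mul, mul_zero]
  have h4 : y * x * (f * c) = 0 := by
    rw [mul_assoc, ← mul_assoc x f c, hxf, zero_mul, mul_zero]
  refine ⟨y, ⟨B.G, B.cu, B.fd, hx, B'.fd, B.cfc, B.fcf, B'.cfc, B'.fcf, hfx, hxf, hyc, hcy,
    ?_, ?_, fun z hz => B.symm.czc hz, fun z hz => B'.symm.czc hz, by rw [B.rkQ, B'.rkQ]⟩⟩
  · refine idem_eq B.G.idem ?_ ?_ ?_ ?_
    · rw [mul_add, add_mul, add_mul, B.idemP, B'.idemP, h1, h2, add_zero, zero_add]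
    · rw [mul_add, ← mul_assoc, ← mul_assoc, B.ec, hex]
    · rw [add_mul, mul_assoc, mul_assoc, B.fe, B'.fe]
    · rw [rk_add_idem B.idemP B'.idemP h1 h2, B.rkP, B'.rkP]
      omega
  · have hc := rk_compl B.G.idem
    refine idem_eq B.G.idem' ?_ ?_ ?_ ?_
    · rw [mul_add, add_mul, add_mul, B.idemQ, B'.idemQ, h3, h4, add_zero, zero_add]
    · rw [mul_add, ← mul_assoc, ← mul_assoc, hef, hey]
    · rw [add_mul, mul_assoc, mul_assoc, hce, hxe]
    · rw [rk_add_idem B.idemQ B'.idemQ h3 h4, B.rkQ, B'.rkQ]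
      omega

end Pool.Agent.FQA
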