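import Pool.Agent.FQA.CapA
import Pool.Agent.SmallRank.Symp
import Pool.Agent.Tube.Cliff

/-!
# Capacity two: the dimension is a power of two (PACKAGE FX2)

Proof. Write `p = 1 - e`, `u = c + x`, `u' = f + y`; `u ∈ up g e`, `u' ∈ dn g e`.
`u * u' = c f + c y + x f + x y = e`, `u' * u = f c + y x = 1 - e = p` (`T.hP`, `T.hQ`).

Let `S` be the submodule of the `s` with `p * s = s`, `s * p = s`, `u * s ∈ g`, `trace s = 0`. The
claim is
`Tube.Cl p S` (`Pool/Agent/Tube/Cliff.lean`); then `Tube.Cl.pow_two` gives `rk p = 2 ^ m`.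

(1) If `p * s = s`, `s * p = s`, `u * s ∈ g` (call this `s ∈ J`) then `u * s ∈ up g e`
(`e * u = u`, `s * e = s * p * e = 0` as `p * e = 0`) and `u' * (u * s) = p * s = s`. For `a ∈ up
g e` we have `u' * a ∈ J`: `u * (u' * a) = e * a = a`. If `s ∈ J` then `s * s ∈ J`:
`u * (s * s) = (u * s) * u' * (u * s) ∈ up g e` by `Gr.quad_up`. `p ∈ J` (`u * p = u`),
`q1 = f * c ∈ J` (`q1 = u' * c`, `y * c = 0`) and `q2 = y * x = u' * x ∈ J`; `q1 + q2 = p`, `q1 *
q2 = 0 = q2 * q1`
(`c * y = 0`, `x * f = 0`), `q1 * q1 = q1`, `q2 * q2 = q2`.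

(2) For `s ∈ J` there are `κ1`, `κ2` with `q1 * s * q1 = κ1 • q1`, `q2 * s * q2 = κ2 • q2`: with
`z = u * s ∈ g`:
`s = u' * z`, `c * u' = c * f` (`c * y = 0`), so `q1 * s * q1 = f * (c * u' * z) * (f * c) =
f * c * f * z * f * c = (f * z * f) * c = κ1 • (f * c)` by `T.ext1`. The same for `q2` with
`x * u' = x * y` and `T.ext2`.

(3) `s ∈ J`: put `d = q1 * s * q2 + q2 * s * q1 = s - κ1 • q1 - κ2 • q2` (`s = p * s * p`), so
`d ∈ J`.
`trace s = κ1 * rk q1 + κ2 * rk q2` (`trace (q1 * s * q2) = trace (s * q2 * q1) = 0`;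
`trace_idem`) `= (κ1 + κ2) * rk q1`
(`T.rkq`; `rk q1 ≠ 0` because `c ≠ 0`: otherwise ... in fact if `q1 = 0` then `rk q2 = 0`, `p = 0`,
`e = 1`, against
`T.G.ne1`). So for `s ∈ S`: `κ2 = - κ1` and `s = κ1 • (q1 - q2) + d`.

(4) `d * d ∈ J` by (1), so by (2) `q1 * (d * d) * q1 = λ1 • q1`, `q2 * (d * d) * q2 = λ2 • q2`.
`d * d = q1 s q2 s q1 + q2 s q1 s q2 = λ1 • q1 + λ2 • q2`. Taking traces
(`trace (q1 s q2 s q1) = trace (q1 s q2 * s q1)`, `trace (q2 s q1 s q2) = trace (s q2 * q2 s q1)`,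
both are
`trace (q1 * s * q2 * s)`) `λ1 * rk q1 = λ2 * rk q2`, so `λ1 = λ2`, `d * d = λ1 • p`.

(5) `s * s = κ1² • (q1 - q2)² + κ1 • ((q1 - q2) * d + d * (q1 - q2)) + d * d`, `(q1 - q2)² = p`,
`(q1 - q2) * d = q1 s q2 - q2 s q1 = - d * (q1 - q2)`. So `s * s = (κ1² + λ1) • p`: field `sq`.

(6) `irr`: let `W ≤ range p` be stable under `S`. Every `s ∈ J` is `(s - κ • p) + κ • p` with
`κ = trace s / rk p`, `s - κ • p ∈ S`, so `J W ⊆ W` (`p w = w` for `w ∈ W`). Let
`U = W ⊔ W.map u`. `U` is stable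
under `a ∈ up g e`: `a w = u (u' a w)` with `u' * a ∈ J`, `a (u w) = 0` (`Gr.up_mul_up`). `U` is
stable
under `b ∈ dn g e`: `b w = b (p w) = 0` (`b * p = 0` as `b * e = b`), `b (u w) ∈ W` because `b * u ∈ J`:
`p * b = b`, `u * p = u`, `u * (b * u) ∈ up g e` (`Gr.quad_up`). By `Gr.irr_ud`
(`Pool/Agent/SmallRank/Symp.lean`) `U = ⊥` or
`U = ⊤`. If `U = ⊥` then `W = ⊥`. If `U = ⊤` and `v ∈ range p` write `v = w + u w'`; `v = p v = p w +
p (u w') = w + 0`
(`p * u = 0`), so `v ∈ W`. -/

set_option autoImplicit false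
set_option linter.unusedSectionVars false

namespace Pool.Agent.FQA

open Module Pool.Agent.SmallRank

variable {K V : Type*} [Field K] [CharZero K] [IsAlgClosed K] [AddCommGroup V] [Module K V]
  [FiniteDimensional K V]

namespace Two

variable {g : Submodule K (End K V)} {e c f x y : End K V}

/-- the operators of the corner of `1 - e` which come from degree one -/
def J (g : Submodule K (End K V)) (e u : End K V) : Submodule K (End K V) where
  carrier := {s | (1 - e) * s = s ∧ s * (1 - e) = s ∧ u * s ∈ g}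
  add_mem' := fun {a b} ha hb => ⟨by rw [mul_add, ha.1, hb.1], by rw [add_mul, ha.2.1, hb.2.1],
    by rw [mul_add]; exact g.add_mem ha.2.2 hb.2.2⟩
  zero_mem' := ⟨mul_zero _, zero_mul _, by rw [mul_zero]; exact g.zero_mem⟩
  smul_mem' := fun k a ha => ⟨by rw [mul_smul_comm, ha.1], by rw [smul_mul_assoc, ha.2.1],
    by rw [mul_smul_comm]; exact g.smul_mem k ha.2.2⟩

theorem mem_J {u s : End K V} :
    s ∈ J g e u ↔ (1 - e) * s = s ∧ s * (1 - e) = s ∧ u * s ∈ g := Iff.rfl

variable (T : Two g e c f x y)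
include T

theorem uu : (c + x) * (f + y) = e := by
  have h : (c + x) * (f + y) = c * f + x * y + c * y + x * f := by noncomm_ring
  rw [h, T.cy, T.xf, add_zero, add_zero, T.hP]

theorem uu' : (f + y) * (c + x) = 1 - e := by
  have h : (f + y) * (c + x) = f * c + y * x + f * x + y * c := by noncomm_ring
  rw [h, T.fx, T.yc, add_zero, add_zero, T.hQ]

theorem hu : c + x ∈ up g e := (up g e).add_mem T.cu T.xu

theorem hu' : f + y ∈ dn g e := (dn g e).add_mem T.fd T.yd

theorem up_p {a : End K V} (ha : a ∈ up g e) : a * (1 - e) = a := by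
  rw [mul_sub, mul_one, ha.2.2, sub_zero]

theorem p_dn {b : End K V} (hb : b ∈ dn g e) : (1 - e) * b = b := by
  rw [sub_mul, one_mul, hb.2.1, sub_zero]

theorem J_up {s : End K V} (hs : s ∈ J g e (c + x)) : (c + x) * s ∈ up g e := by
  refine ⟨hs.2.2, ?_, ?_⟩
  · rw [← mul_assoc, T.hu.2.1]
  · rw [mul_assoc, ← hs.2.1, mul_assoc, T.G.e2, mul_zero, mul_zero]

theorem J_back {s : End K V} (hs : s ∈ J g e (c + x)) : (f + y) * ((c + x) * s) = s := by
  rw [← mul_assoc, T.uu', hs.1]

theorem up_J {a : End K V} (ha : a ∈ up g e) : (f + y) * a ∈ J g e (c + x) := by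
  refine ⟨?_, ?_, ?_⟩
  · rw [← mul_assoc, T.p_dn T.hu']
  · rw [mul_assoc, T.up_p ha]
  · rw [← mul_assoc, T.uu, ha.2.1]
    exact ha.1

theorem q1_J : f * c ∈ J g e (c + x) := by
  have h := T.up_J T.cu
  rwa [add_mul, T.yc, add_zero] at h

theorem q2_J : y * x ∈ J g e (c + x) := by
  have h := T.up_J T.xu
  rwa [add_mul, T.fx, zero_add] at h

theorem sq_J {s : End K V} (hs : s ∈ J g e (c + x)) : s * s ∈ J g e (c + x) := by
  refine ⟨by rw [← mul_assoc, hs.1], by rw [mul_assoc, hs.2.1], ?_⟩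
  have h : (c + x) * (s * s) = ((c + x) * s) * (f + y) * ((c + x) * s) := by
    rw [mul_assoc ((c + x) * s), T.J_back hs, ← mul_assoc]
  rw [h]
  exact (T.G.quad_up (T.J_up hs) T.hu'.1).1

theorem ext1_J {s : End K V} (hs : s ∈ J g e (c + x)) :
    ∃ κ : K, f * c * s * (f * c) = κ • (f * c) := by
  obtain ⟨κ, hκ⟩ := T.ext1 _ hs.2.2
  refine ⟨κ, ?_⟩
  have h1 : f * c * (f + y) = f := by
    rw [mul_add, T.fcf, mul_assoc, T.cy, mul_zero, add_zero]
  have h2 : f * c * s = f * ((c + x) * s) := by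
    conv_lhs => rw [← T.J_back hs]
    rw [← mul_assoc (f * c), h1]
  rw [h2, ← mul_assoc, hκ, smul_mul_assoc]

theorem ext2_J {s : End K V} (hs : s ∈ J g e (c + x)) :
    ∃ κ : K, y * x * s * (y * x) = κ • (y * x) := by
  obtain ⟨κ, hκ⟩ := T.ext2 _ hs.2.2
  refine ⟨κ, ?_⟩
  have h1 : y * x * (f + y) = y := by
    rw [mul_add, T.yxy, mul_assoc, T.xf, mul_zero, zero_add]
  have h2 : y * x * s = y * ((c + x) * s) := by
    conv_lhs => rw [← T.J_back hs]
    rw [← mul_assoc (y * x), h1]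
  rw [h2, ← mul_assoc, hκ, smul_mul_assoc]

theorem q11 : f * c * (f * c) = f * c := by rw [← mul_assoc, T.fcf]

theorem q22 : y * x * (y * x) = y * x := by rw [← mul_assoc, T.yxy]

theorem q12 : f * c * (y * x) = 0 := by rw [mul_assoc, ← mul_assoc c, T.cy, zero_mul, mul_zero]

theorem q21 : y * x * (f * c) = 0 := by rw [mul_assoc, ← mul_assoc x, T.xf, zero_mul, mul_zero]

theorem rk1 : (rk (f * c) : K) ≠ 0 := by
  intro h
  have h1 : rk (f * c) = 0 := by exact_mod_cast h
  have h2 : rk (y * x) = 0 := by rw [← T.rkq, h1]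
  have h3 := T.hQ
  rw [rk_eq_zero.1 h1, rk_eq_zero.1 h2, add_zero] at h3
  exact T.G.ne1 (sub_eq_zero.1 h3.symm).symm

/-- the squares of the elements of trace zero are scalar -/
theorem sq_S {s : End K V} (hs : s ∈ J g e (c + x)) (ht : LinearMap.trace K V s = 0) :
    ∃ κ : K, s * s = κ • (1 - e) := by
  obtain ⟨κ₁, h1⟩ := T.ext1_J hs
  obtain ⟨κ₂, h2⟩ := T.ext2_J hs
  have q11 := T.q11
  have q22 := T.q22
  have q12 := T.q12
  have q21 := T.q21
  have hQ := T.hQ
  have hr1 := T.rk1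
  have t1 : LinearMap.trace K V (f * c) = (rk (f * c) : K) := trace_idem q11
  have t2 : LinearMap.trace K V (y * x) = (rk (f * c) : K) := by
    rw [trace_idem q22, T.rkq]
  have m1 := T.q1_J
  have m2 := T.q2_J
  set q := f * c with hq
  set q' := y * x with hq'
  set A := q * s * q' with hA
  set B := q' * s * q with hB
  clear_value A B q q'
  have e1 : q * A = A := by rw [hA, ← mul_assoc, ← mul_assoc, q11]
  have e2 : A * q' = A := by rw [hA, mul_assoc, q22]
  have e3 : q' * A = 0 := by rw [hA, ← mul_assoc, ← mul_assoc, q21, zero_mul, zero_mul]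
  have e4 : A * q = 0 := by rw [hA, mul_assoc, q21, mul_zero]
  have f1 : q' * B = B := by rw [hB, ← mul_assoc, ← mul_assoc, q22]
  have f2 : B * q = B := by rw [hB, mul_assoc, q11]
  have f3 : q * B = 0 := by rw [hB, ← mul_assoc, ← mul_assoc, q12, zero_mul, zero_mul]
  have f4 : B * q' = 0 := by rw [hB, mul_assoc, q12, mul_zero]
  have AA : A * A = 0 := by
    have h : A * A = A * (q * A) := by rw [e1]
    rw [h, ← mul_assoc, e4, zero_mul]
  have BB : B * B = 0 := by
    have h : B * B = B * (q' * B) := by rw [f1]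
    rw [h, ← mul_assoc, f4, zero_mul]
  have hs1 : s = κ₁ • q + κ₂ • q' + (A + B) := by
    have h : s = (q + q') * s * (q + q') := by rw [hQ, hs.1, hs.2.1]
    rw [← h1, ← h2]
    conv_lhs => rw [h]
    rw [hA, hB]
    noncomm_ring
  have tA : LinearMap.trace K V A = 0 := by
    rw [← e1, LinearMap.trace_mul_comm, e4, map_zero]
  have tB : LinearMap.trace K V B = 0 := by
    rw [← f1, LinearMap.trace_mul_comm, f4, map_zero]
  have hκ : κ₂ = -κ₁ := by
    have h := ht
    rw [hs1, map_add, map_add, map_add, map_smul, map_smul, tA, tB, t1, t2, add_zero, add_zero,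
      smul_eq_mul, smul_eq_mul, ← add_mul] at h
    rcases mul_eq_zero.1 h with h | h
    · exact (neg_eq_of_add_eq_zero_right h).symm
    · exact absurd h hr1
  have hd : A + B ∈ J g e (c + x) := by
    have h : A + B = s - (κ₁ • q + κ₂ • q') := by rw [hs1]; abel
    rw [h]
    exact Submodule.sub_mem _ hs (Submodule.add_mem _ (Submodule.smul_mem _ _ m1)
      (Submodule.smul_mem _ _ m2))
  have hdd := T.sq_J hd
  have hdd1 : (A + B) * (A + B) = A * B + B * A := by
    have h : (A + B) * (A + B) = A * A + B * B + (A * B + B * A) := by noncomm_ring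
    rw [h, AA, BB, add_zero, zero_add]
  rw [hdd1] at hdd
  obtain ⟨l₁, g1⟩ := T.ext1_J hdd
  obtain ⟨l₂, g2⟩ := T.ext2_J hdd
  rw [← hq] at g1
  rw [← hq'] at g2
  have g3 : A * B = l₁ • q := by
    rw [← g1]
    have h : q * (A * B + B * A) * q = (q * A) * (B * q) + (q * B) * (A * q) := by noncomm_ring
    rw [h, e1, f2, f3, e4, mul_zero, add_zero]
  have g4 : B * A = l₂ • q' := by
    rw [← g2]
    have h : q' * (A * B + B * A) * q' = (q' * A) * (B * q') + (q' * B) * (A * q') := by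
      noncomm_ring
    rw [h, e3, f4, f1, e2, mul_zero, zero_add]
  have hl : l₁ = l₂ := by
    have h : LinearMap.trace K V (A * B) = LinearMap.trace K V (B * A) :=
      LinearMap.trace_mul_comm _ _ _
    rw [g3, g4, map_smul, map_smul, t1, t2, smul_eq_mul, smul_eq_mul] at h
    exact mul_right_cancel₀ hr1 h
  refine ⟨κ₁ * κ₁ + l₁, ?_⟩
  have h5 : s * s = (κ₁ * κ₁) • (q * q) + (κ₁ * κ₂) • (q * q' + q' * q) + (κ₂ * κ₂) • (q' * q') +
      κ₁ • (q * A + q * B + A * q + B * q) + κ₂ • (q' * A + q' * B + A * q' + B * q') +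
      (A + B) * (A + B) := by
    rw [hs1]
    simp only [mul_add, add_mul, smul_mul_assoc, mul_smul_comm, smul_add, smul_smul]
    rw [mul_comm κ₂ κ₁]
    abel
  rw [h5, hdd1, q11, q22, q12, q21, e1, e2, e3, e4, f1, f2, f3, f4, g3, g4, ← hl, hκ, ← hQ]
  simp only [add_zero, zero_add, smul_zero, smul_add, add_smul, neg_smul, neg_mul_neg]
  abel

end Two

theorem Two.pow_two {g : Submodule K (End K V)} {e c f x y : End K V} (T : Two g e c f x y) :
    ∃ m : ℕ, rk (1 - e) = 2 ^ m := by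
  have hp0 : (1 - e : End K V) ≠ 0 := fun h => T.G.ne1 (sub_eq_zero.1 h).symm
  have hr : (rk (1 - e) : K) ≠ 0 := by
    exact_mod_cast (rk_pos hp0).ne'
  have hpJ : (1 - e : End K V) ∈ Two.J g e (c + x) :=
    ⟨T.G.idem', T.G.idem', by rw [T.up_p T.hu]; exact T.hu.1⟩
  have hfix : ∀ w ∈ LinearMap.range (1 - e : End K V), (1 - e : End K V) w = w := by
    rintro w ⟨v, rfl⟩
    exact LinearMap.congr_fun T.G.idem' v
  have C : Tube.Cl (1 - e) (Two.J g e (c + x) ⊓ LinearMap.ker (LinearMap.trace K V)) :=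
    { pp := T.G.idem'
      p0 := hp0
      ps := fun s hs => hs.1.1
      sp := fun s hs => hs.1.2.1
      sq := fun s hs => T.sq_S hs.1 hs.2
      irr := by
        intro W hW hS
        have hJ : ∀ s ∈ Two.J g e (c + x), ∀ w ∈ W, s w ∈ W := by
          intro s hs w hw
          have h1 : s - (LinearMap.trace K V s / (rk (1 - e) : K)) • (1 - e : End K V) ∈
              Two.J g e (c + x) ⊓ LinearMap.ker (LinearMap.trace K V) := by
            refine ⟨Submodule.sub_mem _ hs (Submodule.smul_mem _ _ hpJ), ?_⟩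
            change LinearMap.trace K V _ = 0
            rw [map_sub, map_smul, trace_idem T.G.idem', smul_eq_mul,
              div_mul_cancel₀ _ hr, sub_self]
          have h2 := hS _ h1 w hw
          rw [LinearMap.sub_apply, LinearMap.smul_apply, hfix w (hW hw)] at h2
          have h3 := W.add_mem h2 (W.smul_mem (LinearMap.trace K V s / (rk (1 - e) : K)) hw)
          rwa [sub_add_cancel] at h3
        have hU := T.G.irr_ud (U := W ⊔ W.map (c + x)) (by
            intro a ha w hw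
            obtain ⟨w1, hw1, w2, hw2, rfl⟩ := Submodule.mem_sup.1 hw
            obtain ⟨w3, hw3, rfl⟩ := hw2
            have h1 : a ((c + x) w3) = 0 := by
              rw [← Module.End.mul_apply, Gr.up_mul_up ha T.hu, LinearMap.zero_apply]
            have h2 : a w1 = (c + x) (((f + y) * a) w1) := by
              rw [← Module.End.mul_apply, ← mul_assoc, T.uu, ha.2.1]
            rw [map_add, h1, add_zero, h2]
            exact Submodule.mem_sup_right ⟨_, hJ _ (T.up_J ha) w1 hw1, rfl⟩) (by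
            intro b hb w hw
            obtain ⟨w1, hw1, w2, hw2, rfl⟩ := Submodule.mem_sup.1 hw
            obtain ⟨w3, hw3, rfl⟩ := hw2
            have h1 : b w1 = 0 := by
              rw [← hfix w1 (hW hw1), ← Module.End.mul_apply, mul_sub, mul_one, hb.2.2,
                sub_self, LinearMap.zero_apply]
            have h2 : b * (c + x) ∈ Two.J g e (c + x) := by
              refine ⟨by rw [← mul_assoc, T.p_dn hb], by rw [mul_assoc, T.up_p T.hu], ?_⟩
              rw [← mul_assoc]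
              exact (T.G.quad_up T.hu hb.1).1
            rw [map_add, h1, zero_add]
            exact Submodule.mem_sup_left (hJ _ h2 w3 hw3))
        rcases hU with hU | hU
        · left
          rw [eq_bot_iff, ← hU]
          exact le_sup_left
        · right
          refine le_antisymm hW fun v hv => ?_
          have h1 : v ∈ W ⊔ W.map (c + x) := by rw [hU]; exact Submodule.mem_top
          obtain ⟨w1, hw1, w2, hw2, hv2⟩ := Submodule.mem_sup.1 h1
          obtain ⟨w3, hw3, rfl⟩ := hw2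
          have h2 : (1 - e : End K V) ((c + x) w3) = 0 := by
            rw [← Module.End.mul_apply, sub_mul, one_mul, T.hu.2.1, sub_self,
              LinearMap.zero_apply]
          have h3 : v = w1 := by
            rw [← hfix v hv, ← hv2, map_add, h2, add_zero, hfix w1 (hW hw1)]
          rw [h3]
          exact hw1 }
  obtain ⟨j, hj⟩ := Tube.Cl.pow_two _ _ _ C rfl
  exact ⟨j, hj⟩

end Pool.Agent.FQA
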