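import Pool.Agent.NumRank.Base

/-!
# Lattices of functions with many reflections: connected root systems and cubes

`L` is a lattice of integral functions on a finite set with a transitive group of reflections
(`PrimePow.CC.Lat`), `Rt L h` are its roots. The roots of `L` are connected if there is no proper
nonempty set of roots orthogonal to the others.
-/

set_option autoImplicit false
set_option linter.unusedSectionVars false

namespace Pool.Agent.FQA

open Pool.Agent.PrimePow.CC (Rf Rt Lat)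
open Pool.Agent.NumRank

variable {Ω : Type*} [Fintype Ω] {L : AddSubgroup (Ω → ℚ)} {f h k : Ω → ℚ}

/-- The roots of `L` are connected. -/
def Conn (L : AddSubgroup (Ω → ℚ)) : Prop :=
  ∀ P : (Ω → ℚ) → Prop, (∃ h, Rt L h ∧ P h) →
    (∀ h k, Rt L h → Rt L k → P h → h ⬝ᵥ k ≠ 0 → P k) → ∀ h, Rt L h → P h

/-- A root without zeros. -/
structure Fl (L : AddSubgroup (Ω → ℚ)) (k : Ω → ℚ) : Prop where
  rt : Rt L k
  val : ∀ ω, k ω = 1 ∨ k ω = -1

namespace Fl

variable (hL : Lat L) (K : Fl L k)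

theorem neg (K : Fl L k) : Fl L (-k) :=
  ⟨K.rt.neg, fun ω => by
    rw [Pi.neg_apply]
    rcases K.val ω with h1 | h1
    · exact Or.inr (by rw [h1])
    · exact Or.inl (by rw [h1, neg_neg])⟩

include hL K

/-- A root which pairs to one with a root without zeros is half the difference of two orthogonal
roots without zeros. -/
theorem half (H : Rt L h) (h1 : cf h k = 1) :
    ∃ k', Fl L k' ∧ k ⬝ᵥ k' = 0 ∧ h = (1 / 2 : ℚ) • (k - k') := by
  have R := Rt_refl K.rt H hL
  rw [h1, one_smul] at R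
  have hval : ∀ ω, h ω = 0 ∨ h ω = k ω := by
    intro ω
    have e1 := Rt_val R ω
    rw [Pi.sub_apply] at e1
    rcases K.val ω with h2 | h2 <;> rw [h2] at e1 ⊢ <;>
      rcases Rt_val H ω with h3 | h3 | h3 <;> rw [h3] at e1 ⊢ <;> revert e1 <;> norm_num
  have hkh : k ⬝ᵥ h = h ⬝ᵥ h := by
    refine Finset.sum_congr rfl fun ω _ => ?_
    rcases hval ω with h2 | h2
    · rw [h2, mul_zero, mul_zero]
    · rw [h2]
  have hkk : k ⬝ᵥ k = 2 * (k ⬝ᵥ h) := by
    have h2 := cf_mul (f := h) (Rt_sq_ne K.rt)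
    rwa [h1, one_mul] at h2
  have hcf : cf k h = 2 := by
    have h2 := cf_mul (f := k) (Rt_sq_ne H)
    rw [dotProduct_comm h k, hkh] at h2
    exact mul_right_cancel₀ (Rt_sq_ne H) h2
  have R' := Rt_refl H K.rt hL
  rw [hcf] at R'
  refine ⟨k - (2 : ℚ) • h, ⟨R', fun ω => ?_⟩, ?_, ?_⟩
  · rw [Pi.sub_apply, Pi.smul_apply, smul_eq_mul]
    rcases hval ω with h2 | h2
    · rw [h2, mul_zero, sub_zero]
      exact K.val ω
    · rw [h2]
      rcases K.val ω with h3 | h3
      · right
        rw [h3]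
        norm_num
      · left
        rw [h3]
        norm_num
  · rw [dotProduct_sub, dotProduct_smul, smul_eq_mul, hkk]
    ring
  · rw [sub_sub_cancel, smul_smul]
    norm_num

/-- The roots which are not orthogonal to a root without zeros. -/
theorem cases (H : Rt L h) (h0 : h ⬝ᵥ k ≠ 0) :
    h = k ∨ h = -k ∨ ∃ k', Fl L k' ∧ k ⬝ᵥ k' = 0 ∧
      (h = (1 / 2 : ℚ) • (k - k') ∨ h = -((1 / 2 : ℚ) • (k - k'))) := by
  have two : ∀ {h : Ω → ℚ}, Rt L h → cf h k = 2 → h = k := by
    intro h H h2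
    have R := Rt_refl K.rt H hL
    rw [h2] at R
    funext ω
    have e1 := Rt_val R ω
    rw [Pi.sub_apply, Pi.smul_apply, smul_eq_mul] at e1
    rcases K.val ω with h3 | h3 <;> rw [h3] at e1 ⊢ <;>
      rcases Rt_val H ω with h4 | h4 | h4 <;> rw [h4] at e1 ⊢ <;> revert e1 <;> norm_num
  rcases Rt_cf K.rt H with h1 | h1 | h1 | h1 | h1
  · right; left
    have h2 := two H.neg (by rw [cf_neg, h1, neg_neg])
    rw [← h2, neg_neg]
  · right; right
    obtain ⟨k', h2, h3, h4⟩ := K.half hL H.neg (by rw [cf_neg, h1, neg_neg])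
    exact ⟨k', h2, h3, Or.inr (by rw [← h4, neg_neg])⟩
  · exfalso
    rw [cf_eq_zero (Rt_sq_ne K.rt), dotProduct_comm] at h1
    exact h0 h1
  · right; right
    obtain ⟨k', h2, h3, h4⟩ := K.half hL H h1
    exact ⟨k', h2, h3, Or.inl h4⟩
  · exact Or.inl (two H h1)

/-- Roots without zeros are orthogonal or equal up to the sign. -/
theorem eq_or_orth {k' : Ω → ℚ} (K' : Fl L k') : k' = k ∨ k' = -k ∨ k' ⬝ᵥ k = 0 := by
  by_cases h0 : k' ⬝ᵥ k = 0
  · exact Or.inr (Or.inr h0)
  rcases K.cases hL K'.rt h0 with h1 | h1 | ⟨k'', h1, h2, h3⟩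
  · exact Or.inl h1
  · exact Or.inr (Or.inl h1)
  exfalso
  obtain ⟨ω, hω⟩ : ∃ ω, k ω = k'' ω := by
    by_contra hcon
    push Not at hcon
    have h4 : k'' = -k := by
      funext ω
      have h5 := hcon ω
      rw [Pi.neg_apply]
      rcases K.val ω with h6 | h6 <;> rcases h1.val ω with h7 | h7 <;> rw [h6, h7] at h5 ⊢
      · exact absurd rfl h5
      · rw [neg_neg]
      · exact absurd rfl h5
    rw [h4, dotProduct_neg, neg_eq_zero] at h2
    exact Rt_sq_ne K.rt h2
  have h4 : k' ω = 0 := by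
    rcases h3 with h3 | h3 <;> rw [h3] <;> simp [hω]
  rcases K'.val ω with h5 | h5 <;> rw [h4] at h5 <;> norm_num at h5

end Fl

/-- A connected system with a root without zeros: the number of points is a power of two. -/
theorem pow_two (hL : Lat L) (hc : Conn L) (hk : ∃ k, Fl L k) :
    ∃ m, Fintype.card Ω = 2 ^ m := by
  classical
  obtain ⟨k₀, K₀⟩ := hk
  obtain ⟨ω₀, -⟩ := Rt_one K₀.rt
  -- all roots are in the span of the roots without zeros
  have hspan : ∀ h, Rt L h → (∃ k, Fl L k ∧ h ⬝ᵥ k ≠ 0) ∧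
      h ∈ Submodule.span ℚ {k | Fl L k} := by
    refine hc _ ⟨k₀, K₀.rt, ⟨k₀, K₀, Rt_sq_ne K₀.rt⟩, Submodule.subset_span K₀⟩ ?_
    have step : ∀ {h k : Ω → ℚ}, Fl L k → Rt L h → h ⬝ᵥ k ≠ 0 →
        (∃ k, Fl L k ∧ h ⬝ᵥ k ≠ 0) ∧ h ∈ Submodule.span ℚ {k | Fl L k} := by
      intro h k K H h0
      refine ⟨⟨k, K, h0⟩, ?_⟩
      rcases K.cases hL H h0 with h1 | h1 | ⟨k', h1, h2, h3 | h3⟩
      · rw [h1]
        exact Submodule.subset_span K
      · rw [h1]
        exact Submodule.neg_mem _ (Submodule.subset_span K)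
      · rw [h3]
        exact Submodule.smul_mem _ _ (Submodule.sub_mem _ (Submodule.subset_span K)
          (Submodule.subset_span h1))
      · rw [h3]
        exact Submodule.neg_mem _ (Submodule.smul_mem _ _ (Submodule.sub_mem _
          (Submodule.subset_span K) (Submodule.subset_span h1)))
    rintro h h' H H' ⟨⟨k, K, h0⟩, -⟩ h1
    rcases K.cases hL H h0 with h2 | h2 | ⟨k', h2, h3, h4⟩
    · refine step K H' ?_
      rwa [dotProduct_comm, ← h2]
    · refine step K H' ?_
      rw [h2, neg_dotProduct, neg_ne_zero] at h1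
      rwa [dotProduct_comm]
    · by_cases h5 : h' ⬝ᵥ k = 0
      · refine step h2 H' fun h6 => h1 ?_
        rw [dotProduct_comm] at h5 h6
        rcases h4 with h4 | h4 <;> rw [h4]
        · rw [smul_dotProduct, sub_dotProduct, h5, h6, sub_zero, smul_zero]
        · rw [neg_dotProduct, smul_dotProduct, sub_dotProduct, h5, h6, sub_zero, smul_zero,
            neg_zero]
      · exact step K H' h5
  have hfin : {k | Fl L k ∧ k ω₀ = 1}.Finite := (Rt.fin L).subset fun k hk => hk.1.rt
  set T := hfin.toFinset with hT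
  have hTm : ∀ {k}, k ∈ T ↔ Fl L k ∧ k ω₀ = 1 := by
    intro k
    rw [hT, Set.Finite.mem_toFinset, Set.mem_ofPred_eq]
  have horth : ∀ k ∈ T, ∀ k' ∈ T, k' ≠ k → k' ⬝ᵥ k = 0 := by
    intro k hk k' hk' hne
    rcases (hTm.1 hk).1.eq_or_orth hL (hTm.1 hk').1 with h1 | h1 | h1
    · exact absurd h1 hne
    · exfalso
      have h2 := (hTm.1 hk').2
      rw [h1, Pi.neg_apply, (hTm.1 hk).2] at h2
      norm_num at h2
    · exact h1
  have hTpm : ∀ k, Fl L k → k ∈ T ∨ -k ∈ T := by
    intro k K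
    rcases K.val ω₀ with h1 | h1
    · exact Or.inl (hTm.2 ⟨K, h1⟩)
    · exact Or.inr (hTm.2 ⟨K.neg, by rw [Pi.neg_apply, h1, neg_neg]⟩)
  -- the elements of `T` separate the points
  have hinj : ∀ ω ω', (∀ k ∈ T, k ω = k ω') → ω = ω' := by
    intro ω ω' hω
    refine hL.sep ω ω' fun f hf => ?_
    have hg : (2 : ℚ) • f - ∑ k ∈ T, cf f k • k ∈ L := by
      refine L.sub_mem ?_ (L.sum_mem fun k hk => ?_)
      · have : (2 : ℚ) • f = (2 : ℤ) • f := by
          funext ω
          simp
        rw [this]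
        exact L.zsmul_mem hf 2
      · obtain ⟨z, hz⟩ := Rt_int (hTm.1 hk).1.rt hf
        have : cf f k • k = z • k := by
          rw [hz]
          funext ω
          simp
        rw [this]
        exact L.zsmul_mem (Rt_mem (hTm.1 hk).1.rt) z
    have hgT : ∀ k ∈ T, k ⬝ᵥ ((2 : ℚ) • f - ∑ k ∈ T, cf f k • k) = 0 := by
      intro k hk
      rw [dotProduct_sub, dotProduct_smul, dotProduct_sum, Finset.sum_eq_single k]
      · have h1 := cf_mul (f := f) (Rt_sq_ne (hTm.1 hk).1.rt)
        rw [dotProduct_smul, smul_eq_mul, smul_eq_mul, h1, sub_self]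
      · intro k' hk' hne
        rw [dotProduct_smul, horth k' hk' k hk (Ne.symm hne), smul_zero]
      · intro h1
        exact absurd hk h1
    have hgF : ∀ k, Fl L k → k ⬝ᵥ ((2 : ℚ) • f - ∑ k ∈ T, cf f k • k) = 0 := by
      intro k K
      rcases hTpm k K with h1 | h1
      · exact hgT k h1
      · have h2 := hgT _ h1
        rwa [neg_dotProduct, neg_eq_zero] at h2
    have hgR : ∀ h π, Rf L h π → h ⬝ᵥ ((2 : ℚ) • f - ∑ k ∈ T, cf f k • k) = 0 := by
      intro h π H
      have h1 := (hspan h ⟨π, H⟩).2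
      clear H
      induction h1 using Submodule.span_induction with
      | mem x hx => exact hgF x hx
      | zero => exact zero_dotProduct _
      | add x y _ _ hx hy => rw [add_dotProduct, hx, hy, add_zero]
      | smul c x _ hx => rw [smul_dotProduct, hx, smul_zero]
    have h1 := hL.const hg hgR ω ω'
    simp only [Pi.sub_apply, Pi.smul_apply, smul_eq_mul, Finset.sum_apply] at h1
    have h2 : ∑ k ∈ T, cf f k * k ω = ∑ k ∈ T, cf f k * k ω' :=
      Finset.sum_congr rfl fun k hk => by rw [hω k hk]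
    rw [h2] at h1
    linarith
  -- all patterns of signs occur
  have hsurj : ∀ T' : Finset (Ω → ℚ), T' ⊆ T → ∃ ω, ∀ k ∈ T, k ω = if k ∈ T' then -1 else 1 := by
    intro T'
    induction T' using Finset.induction_on with
    | empty =>
      intro _
      exact ⟨ω₀, fun k hk => by simp [(hTm.1 hk).2]⟩
    | insert k T' hkT' ih =>
      intro hsub
      obtain ⟨ω, hω⟩ := ih fun x hx => hsub (Finset.mem_insert_of_mem hx)
      have hkT : k ∈ T := hsub (Finset.mem_insert_self k T')
      obtain ⟨π, hπ, -⟩ := Rt_move (hTm.1 hkT).1.rt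
      refine ⟨π ω, fun k' hk' => ?_⟩
      rw [hπ k' (Rt_mem (hTm.1 hk').1.rt) ω]
      by_cases hkk : k' = k
      · subst hkk
        rw [if_pos (Finset.mem_insert_self _ _), Rt_self (hTm.1 hkT).1.rt, hω k' hkT, if_neg hkT']
        norm_num
      · have h1 : cf k' k = 0 := by
          rw [cf_eq_zero (Rt_sq_ne (hTm.1 hkT).1.rt)]
          exact horth k' hk' k hkT (Ne.symm hkk)
        rw [h1, zero_mul, sub_zero, hω k' hk']
        simp [Finset.mem_insert, hkk]
  refine ⟨T.card, ?_⟩
  rw [← Finset.card_powerset, ← Finset.card_univ]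
  refine Finset.card_bij (fun ω _ => T.filter fun k => k ω = -1) ?_ ?_ ?_
  · intro ω _
    exact Finset.mem_powerset.2 (Finset.filter_subset _ _)
  · intro ω _ ω' _ hωω
    refine hinj ω ω' fun k hk => ?_
    have h1 : k ω = -1 ↔ k ω' = -1 := by
      have h2 : k ∈ T.filter (fun k => k ω = -1) ↔ k ∈ T.filter (fun k => k ω' = -1) := by
        rw [hωω]
      simpa [hk] using h2
    rcases (hTm.1 hk).1.val ω with h2 | h2
    · rcases (hTm.1 hk).1.val ω' with h3 | h3
      · rw [h2, h3]
      · rw [h1.2 h3, h3]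
    · rw [h2, h1.1 h2]
  · intro T' hT'
    obtain ⟨ω, hω⟩ := hsurj T' (Finset.mem_powerset.1 hT')
    refine ⟨ω, Finset.mem_univ _, ?_⟩
    ext k
    rw [Finset.mem_filter]
    constructor
    · rintro ⟨h1, h2⟩
      rw [hω k h1] at h2
      by_contra h3
      rw [if_neg h3] at h2
      norm_num at h2
    · intro h1
      have h2 := Finset.mem_powerset.1 hT' h1
      exact ⟨h2, by rw [hω k h2, if_pos h1]⟩

end Pool.Agent.FQA
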