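import Pool.Agent.FQA.Mixed

/-!
# Connected lattices with a root without zeros are cubes
-/

set_option autoImplicit false
set_option linter.unusedSectionVars false

namespace Pool.Agent.FQA

open Pool.Agent.PrimePow.CC (Rf Rt Lat)
open Pool.Agent.NumRank

variable {Ω : Type*} [Fintype Ω] {L : AddSubgroup (Ω → ℚ)} {f h k : Ω → ℚ}

/-- The points are the vectors of signs of the functions in `T`. -/
structure Cube (L : AddSubgroup (Ω → ℚ)) (T : Finset (Ω → ℚ)) : Prop where
  fl : ∀ k ∈ T, Fl L k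
  orth : ∀ k ∈ T, ∀ k' ∈ T, k' ≠ k → k' ⬝ᵥ k = 0
  pm : ∀ k, Fl L k → k ∈ T ∨ -k ∈ T
  dec : ∀ f ∈ L, ∃ c : ℚ, ∀ ω, 2 * f ω = c + ∑ k ∈ T, cf f k * k ω
  inj : ∀ ω ω', (∀ k ∈ T, k ω = k ω') → ω = ω'
  surj : ∀ s : (Ω → ℚ) → ℚ, (∀ k ∈ T, s k = 1 ∨ s k = -1) → ∃ ω, ∀ k ∈ T, k ω = s k

theorem exists_cube (hL : Lat L) (hc : Conn L) (hk : ∃ k, Fl L k) : ∃ T, Cube L T := by
  classical
  obtain ⟨k₀, K₀⟩ := hk
  obtain ⟨ω₀, -⟩ := Rt_one K₀.rt
  -- all roots are in the span of the roots without zeros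
  have hspan : ∀ h, Rt L h → (∃ k, Fl L k ∧ h ⬝ᵥ k ≠ 0) ∧
      h ∈ Submodule.span ℚ {k | Fl L k} := by
    refine hc _ ⟨k₀, K₀.rt, ⟨k₀, K₀, Rt_sq_ne K₀.rt⟩, Submodule.subset_span K₀⟩ ?_
    have step : ∀ {h k : Ω → ℚ}, Fl L k → Rt L h → h ⬝ᵥ k ≠ 0 →
        (∃ k, Fl L k ∧ h ⬝ᵥ k ≠ 0) ∧ h ∈ Submodule.span ℚ {k | Fl L k} := by
      intro h k K H h0
      refine ⟨⟨k, K, h0⟩, ?_⟩
      rcases K.cases hL H h0 with h1 | h1 | ⟨k', h1, h2, h3 | h3⟩
      · rw [h1]
        exact Submodule.subset_span K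
      · rw [h1]
        exact Submodule.neg_mem _ (Submodule.subset_span K)
      · rw [h3]
        exact Submodule.smul_mem _ _ (Submodule.sub_mem _ (Submodule.subset_span K)
          (Submodule.subset_span h1))
      · rw [h3]
        exact Submodule.neg_mem _ (Submodule.smul_mem _ _ (Submodule.sub_mem _
          (Submodule.subset_span K) (Submodule.subset_span h1)))
    rintro h h' H H' ⟨⟨k, K, h0⟩, -⟩ h1
    rcases K.cases hL H h0 with h2 | h2 | ⟨k', h2, h3, h4⟩
    · refine step K H' ?_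
      rwa [dotProduct_comm, ← h2]
    · refine step K H' ?_
      rw [h2, neg_dotProduct, neg_ne_zero] at h1
      rwa [dotProduct_comm]
    · by_cases h5 : h' ⬝ᵥ k = 0
      · refine step h2 H' fun h6 => h1 ?_
        rw [dotProduct_comm] at h5 h6
        rcases h4 with h4 | h4 <;> rw [h4]
        · rw [smul_dotProduct, sub_dotProduct, h5, h6, sub_zero, smul_zero]
        · rw [neg_dotProduct, smul_dotProduct, sub_dotProduct, h5, h6, sub_zero, smul_zero,
            neg_zero]
      · exact step K H' h5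
  have hfin : {k | Fl L k ∧ k ω₀ = 1}.Finite := (Rt.fin L).subset fun k hk => hk.1.rt
  set T := hfin.toFinset with hT
  have hTm : ∀ {k}, k ∈ T ↔ Fl L k ∧ k ω₀ = 1 := by
    intro k
    rw [hT, Set.Finite.mem_toFinset, Set.mem_ofPred_eq]
  have horth : ∀ k ∈ T, ∀ k' ∈ T, k' ≠ k → k' ⬝ᵥ k = 0 := by
    intro k hk k' hk' hne
    rcases (hTm.1 hk).1.eq_or_orth hL (hTm.1 hk').1 with h1 | h1 | h1
    · exact absurd h1 hne
    · exfalso
      have h2 := (hTm.1 hk').2
      rw [h1, Pi.neg_apply, (hTm.1 hk).2] at h2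
      norm_num at h2
    · exact h1
  have hTpm : ∀ k, Fl L k → k ∈ T ∨ -k ∈ T := by
    intro k K
    rcases K.val ω₀ with h1 | h1
    · exact Or.inl (hTm.2 ⟨K, h1⟩)
    · exact Or.inr (hTm.2 ⟨K.neg, by rw [Pi.neg_apply, h1, neg_neg]⟩)
  have hdec : ∀ f ∈ L, ∃ c : ℚ, ∀ ω, 2 * f ω = c + ∑ k ∈ T, cf f k * k ω := by
    intro f hf
    have hg : (2 : ℚ) • f - ∑ k ∈ T, cf f k • k ∈ L := by
      refine L.sub_mem ?_ (L.sum_mem fun k hk => ?_)
      · have : (2 : ℚ) • f = (2 : ℤ) • f := by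
          funext ω
          simp
        rw [this]
        exact L.zsmul_mem hf 2
      · obtain ⟨z, hz⟩ := Rt_int (hTm.1 hk).1.rt hf
        have : cf f k • k = z • k := by
          rw [hz]
          funext ω
          simp
        rw [this]
        exact L.zsmul_mem (Rt_mem (hTm.1 hk).1.rt) z
    have hgT : ∀ k ∈ T, k ⬝ᵥ ((2 : ℚ) • f - ∑ k ∈ T, cf f k • k) = 0 := by
      intro k hk
      rw [dotProduct_sub, dotProduct_smul, dotProduct_sum, Finset.sum_eq_single k]
      · have h1 := cf_mul (f := f) (Rt_sq_ne (hTm.1 hk).1.rt)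
        rw [dotProduct_smul, smul_eq_mul, smul_eq_mul, h1, sub_self]
      · intro k' hk' hne
        rw [dotProduct_smul, horth k' hk' k hk (Ne.symm hne), smul_zero]
      · intro h1
        exact absurd hk h1
    have hgF : ∀ k, Fl L k → k ⬝ᵥ ((2 : ℚ) • f - ∑ k ∈ T, cf f k • k) = 0 := by
      intro k K
      rcases hTpm k K with h1 | h1
      · exact hgT k h1
      · have h2 := hgT _ h1
        rwa [neg_dotProduct, neg_eq_zero] at h2
    have hgR : ∀ h π, Rf L h π → h ⬝ᵥ ((2 : ℚ) • f - ∑ k ∈ T, cf f k • k) = 0 := by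
      intro h π H
      have h1 := (hspan h ⟨π, H⟩).2
      clear H
      induction h1 using Submodule.span_induction with
      | mem x hx => exact hgF x hx
      | zero => exact zero_dotProduct _
      | add x y _ _ hx hy => rw [add_dotProduct, hx, hy, add_zero]
      | smul c x _ hx => rw [smul_dotProduct, hx, smul_zero]
    refine ⟨2 * f ω₀ - ∑ k ∈ T, cf f k * k ω₀, fun ω => ?_⟩
    have h1 := hL.const hg hgR ω ω₀
    simp only [Pi.sub_apply, Pi.smul_apply, smul_eq_mul, Finset.sum_apply] at h1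
    linarith
  have hinj : ∀ ω ω', (∀ k ∈ T, k ω = k ω') → ω = ω' := by
    intro ω ω' hω
    refine hL.sep ω ω' fun f hf => ?_
    obtain ⟨c, hc⟩ := hdec f hf
    have h1 := hc ω
    have h2 := hc ω'
    have h3 : ∑ k ∈ T, cf f k * k ω = ∑ k ∈ T, cf f k * k ω' :=
      Finset.sum_congr rfl fun k hk => by rw [hω k hk]
    rw [h3] at h1
    linarith
  -- all patterns of signs occur
  have hsurj : ∀ T' : Finset (Ω → ℚ), T' ⊆ T → ∃ ω, ∀ k ∈ T, k ω = if k ∈ T' then -1 else 1 := by
    intro T'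
    induction T' using Finset.induction_on with
    | empty =>
      intro _
      exact ⟨ω₀, fun k hk => by simp [(hTm.1 hk).2]⟩
    | insert k T' hkT' ih =>
      intro hsub
      obtain ⟨ω, hω⟩ := ih fun x hx => hsub (Finset.mem_insert_of_mem hx)
      have hkT : k ∈ T := hsub (Finset.mem_insert_self k T')
      obtain ⟨π, hπ, -⟩ := Rt_move (hTm.1 hkT).1.rt
      refine ⟨π ω, fun k' hk' => ?_⟩
      rw [hπ k' (Rt_mem (hTm.1 hk').1.rt) ω]
      by_cases hkk : k' = k
      · subst hkk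
        rw [if_pos (Finset.mem_insert_self _ _), Rt_self (hTm.1 hkT).1.rt, hω k' hkT, if_neg hkT']
        norm_num
      · have h1 : cf k' k = 0 := by
          rw [cf_eq_zero (Rt_sq_ne (hTm.1 hkT).1.rt)]
          exact horth k' hk' k hkT (Ne.symm hkk)
        rw [h1, zero_mul, sub_zero, hω k' hk']
        simp [Finset.mem_insert, hkk]
  refine ⟨T, fun k hk => (hTm.1 hk).1, horth, hTpm, hdec, hinj, fun s hs => ?_⟩
  obtain ⟨ω, hω⟩ := hsurj (T.filter fun k => s k = -1) (Finset.filter_subset _ _)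
  refine ⟨ω, fun k hk => ?_⟩
  rw [hω k hk]
  by_cases h1 : s k = -1
  · rw [if_pos (Finset.mem_filter.2 ⟨hk, h1⟩), h1]
  · have h2 : k ∉ T.filter fun k => s k = -1 := fun h2 => h1 (Finset.mem_filter.1 h2).2
    rw [if_neg h2, (hs k hk).resolve_right h1]

namespace Cube

variable {T : Finset (Ω → ℚ)} (C : Cube L T)
include C

theorem card : Fintype.card Ω = 2 ^ T.card := by
  classical
  rw [← Finset.card_powerset, ← Finset.card_univ]
  refine Finset.card_bij (fun ω _ => T.filter fun k => k ω = -1) ?_ ?_ ?_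
  · intro ω _
    exact Finset.mem_powerset.2 (Finset.filter_subset _ _)
  · intro ω _ ω' _ hωω
    refine C.inj ω ω' fun k hk => ?_
    have h1 : k ω = -1 ↔ k ω' = -1 := by
      have h2 : k ∈ T.filter (fun k => k ω = -1) ↔ k ∈ T.filter (fun k => k ω' = -1) := by
        rw [hωω]
      simpa [hk] using h2
    rcases (C.fl k hk).val ω with h2 | h2
    · rcases (C.fl k hk).val ω' with h3 | h3
      · rw [h2, h3]
      · rw [h1.2 h3, h3]
    · rw [h2, h1.1 h2]
  · intro T' hT'
    obtain ⟨ω, hω⟩ := C.surj (fun k => if k ∈ T' then -1 else 1) fun k _ => by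
      by_cases h : k ∈ T'
      · exact Or.inr (if_pos h)
      · exact Or.inl (if_neg h)
    refine ⟨ω, Finset.mem_univ _, ?_⟩
    ext k
    rw [Finset.mem_filter]
    constructor
    · rintro ⟨h1, h2⟩
      rw [hω k h1] at h2
      by_contra h3
      rw [if_neg h3] at h2
      norm_num at h2
    · intro h1
      have h2 := Finset.mem_powerset.1 hT' h1
      exact ⟨h2, by rw [hω k h2, if_pos h1]⟩

/-- The antipodal map. -/
theorem exists_inv : ∃ ν : Ω → Ω, (∀ ω, ν (ν ω) = ω) ∧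
    (∀ k ∈ T, ∀ ω, k (ν ω) = -k ω) ∧ ∀ f ∈ L, ∃ c : ℚ, ∀ ω, f (ν ω) = c - f ω := by
  have h1 : ∀ ω, ∃ ω', ∀ k ∈ T, k ω' = -k ω := fun ω => C.surj (fun k => -k ω) fun k hk => by
    rcases (C.fl k hk).val ω with h2 | h2
    · exact Or.inr (by rw [h2])
    · exact Or.inl (by rw [h2, neg_neg])
  choose ν hν using h1
  refine ⟨ν, fun ω => C.inj _ _ fun k hk => by rw [hν _ k hk, hν _ k hk, neg_neg],
    fun k hk ω => hν ω k hk, fun f hf => ?_⟩
  obtain ⟨c, hc⟩ := C.dec f hf
  refine ⟨c, fun ω => ?_⟩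
  have h2 := hc ω
  have h3 := hc (ν ω)
  have h4 : ∑ k ∈ T, cf f k * k (ν ω) = -∑ k ∈ T, cf f k * k ω := by
    rw [← Finset.sum_neg_distrib]
    exact Finset.sum_congr rfl fun k hk => by rw [hν ω k hk, mul_neg]
  rw [h4] at h3
  linarith

/-- A function of `L` with the values zero and one is constant or `(1 ± k) / 2`. -/
theorem idem (hf : f ∈ L) (hval : ∀ ω, f ω = 0 ∨ f ω = 1) : (∀ ω ω', f ω = f ω') ∨
    ∃ k, Fl L k ∧ ∀ ω, f ω = (1 + k ω) / 2 := by
  classical
  by_cases hconst : ∀ k ∈ T, cf f k = 0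
  · left
    intro ω ω'
    obtain ⟨c, hc⟩ := C.dec f hf
    have h1 := hc ω
    have h2 := hc ω'
    rw [Finset.sum_eq_zero fun k hk => by rw [hconst k hk, zero_mul]] at h1 h2
    linarith
  right
  push Not at hconst
  obtain ⟨k, hk, hk0⟩ := hconst
  obtain ⟨c, hc⟩ := C.dec f hf
  -- the other coefficients vanish
  obtain ⟨z, hz⟩ := Rt_int (C.fl k hk).rt hf
  have habs : ∀ x y : Ω, f x - f y ≤ 1 := by
    intro x y
    rcases hval x with h1 | h1 <;> rcases hval y with h2 | h2 <;> rw [h1, h2] <;> norm_num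
  have hother : ∀ k' ∈ T, k' ≠ k → cf f k' = 0 := by
    intro k' hk' hne
    by_contra hk0'
    obtain ⟨z', hz'⟩ := Rt_int (C.fl k' hk').rt hf
    -- signs of the coefficients
    obtain ⟨x, hx⟩ := C.surj (fun j => if 0 < cf f j then 1 else -1) fun j _ => by
      by_cases h : 0 < cf f j
      · exact Or.inl (if_pos h)
      · exact Or.inr (if_neg h)
    obtain ⟨y, hy⟩ := C.surj (fun j => if 0 < cf f j then -1 else 1) fun j _ => by
      by_cases h : 0 < cf f j
      · exact Or.inr (if_pos h)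
      · exact Or.inl (if_neg h)
    have h1 := hc x
    have h2 := hc y
    have h3 := habs x y
    have h4 : ∑ j ∈ T, cf f j * j x - ∑ j ∈ T, cf f j * j y = ∑ j ∈ T, 2 * |cf f j| := by
      rw [← Finset.sum_sub_distrib]
      refine Finset.sum_congr rfl fun j hj => ?_
      rw [hx j hj, hy j hj]
      by_cases h : 0 < cf f j
      · rw [if_pos h, if_pos h, abs_of_pos h]
        ring
      · rw [if_neg h, if_neg h, abs_of_nonpos (not_lt.1 h)]
        ring
    have h5 : 2 * |cf f k| + 2 * |cf f k'| ≤ ∑ j ∈ T, 2 * |cf f j| := by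
      have h6 : ∑ j ∈ ({k, k'} : Finset (Ω → ℚ)), 2 * |cf f j| ≤ ∑ j ∈ T, 2 * |cf f j| := by
        refine Finset.sum_le_sum_of_subset_of_nonneg ?_ fun j _ _ => by positivity
        intro j hj
        rcases Finset.mem_insert.1 hj with rfl | hj
        · exact hk
        · rw [Finset.mem_singleton.1 hj]
          exact hk'
      rwa [Finset.sum_pair (Ne.symm hne)] at h6
    have h6 : 1 ≤ |cf f k| := by
      rw [hz] at hk0 ⊢
      rw [← Int.cast_abs]
      exact_mod_cast Int.one_le_abs (by exact_mod_cast hk0)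
    have h7 : 1 ≤ |cf f k'| := by
      rw [hz'] at hk0' ⊢
      rw [← Int.cast_abs]
      exact_mod_cast Int.one_le_abs (by exact_mod_cast hk0')
    linarith
  have hc' : ∀ ω, 2 * f ω = c + cf f k * k ω := by
    intro ω
    rw [hc ω, Finset.sum_eq_single k (fun j hj hjk => by rw [hother j hj hjk, zero_mul])
      fun h => absurd hk h]
  -- two points with opposite values of `k`
  obtain ⟨x, hx⟩ := Rt_one (C.fl k hk).rt
  obtain ⟨y, hy⟩ := Rt_one (C.fl k hk).rt.neg
  have hy' : k y = -1 := by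
    rw [Pi.neg_apply] at hy
    linarith
  have h1 := hc' x
  have h2 := hc' y
  rw [hx] at h1
  rw [hy'] at h2
  have h3 : cf f k = f x - f y := by linarith
  have h4 : c = f x + f y := by linarith
  rcases hval x with hfx | hfx <;> rcases hval y with hfy | hfy
  · exact absurd (by rw [h3, hfx, hfy, sub_zero]) hk0
  · refine ⟨-k, (C.fl k hk).neg, fun ω => ?_⟩
    have h5 := hc' ω
    rw [h3, h4, hfx, hfy] at h5
    rw [Pi.neg_apply]
    linarith
  · refine ⟨k, C.fl k hk, fun ω => ?_⟩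
    have h5 := hc' ω
    rw [h3, h4, hfx, hfy] at h5
    linarith
  · exact absurd (by rw [h3, hfx, hfy, sub_self]) hk0

/-- A function of `L` with the values zero and one which is not constant is balanced. -/
theorem balanced (hf : f ∈ L) (hval : ∀ ω, f ω = 0 ∨ f ω = 1) (h1 : ∃ ω, f ω = 1)
    (h0 : ∃ ω, f ω = 0) : 2 * ∑ ω, f ω = Fintype.card Ω := by
  rcases C.idem hf hval with h | ⟨k, K, hk⟩
  · exfalso
    obtain ⟨x, hx⟩ := h1
    obtain ⟨y, hy⟩ := h0
    rw [h x y, hy] at hx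
    norm_num at hx
  · have h2 : ∑ ω, f ω = (Fintype.card Ω : ℚ) / 2 := by
      rw [Finset.sum_congr rfl fun ω _ => hk ω, ← Finset.sum_div, Finset.sum_add_distrib,
        Rt_sum K.rt, add_zero]
      simp
    rw [h2]
    ring

end Cube

namespace Dec

variable {A B : (Ω → ℚ) → Prop} (D : Dec L A B)
include D

/-- If the roots are connected there is a root without zeros. -/
theorem exists_fl (hL : Lat L) (hsat : Sat L) (hc : Conn L) (hA : ∃ h, A h) (hB : ∃ h, B h) :
    ∃ k, Fl L k := by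
  by_contra hcon
  have hno : ∀ h, Rt L h → (∀ a, A a → a ⬝ᵥ h = 0) ∨ ∀ b, B b → b ⬝ᵥ h = 0 := by
    intro h H
    by_contra hcon'
    push Not at hcon'
    exact hcon (D.full hL hsat H hcon'.1 hcon'.2)
  obtain ⟨a, ha⟩ := hA
  obtain ⟨b, hb⟩ := hB
  have h1 := hc (fun h => ∀ b, B b → b ⬝ᵥ h = 0)
    ⟨a, D.ra a ha, fun b hb => by rw [dotProduct_comm]; exact D.orth a b ha hb⟩ ?_ b (D.rb b hb)
    b hb
  · exact Rt_sq_ne (D.rb b hb) h1
  · intro h h' H H' hP h0
    rcases hno h' H' with h2 | h2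
    · exfalso
      apply h0
      obtain ⟨g, gS, gp⟩ := exists_proj (Submodule.span ℚ {h | A h}) h
      have hconst := D.const (f := h - g) ((LQ L).sub_mem (mem_LQ (Rt_mem H)) (D.span_le gS))
        (fun x hx => gp x (Submodule.subset_span hx))
        (fun x hx => by rw [dotProduct_sub, hP x hx, D.orth_span gS hx, sub_zero])
      have hg2 : g ⬝ᵥ h' = 0 := D.span_perp gS h2
      obtain ⟨ω, -⟩ := Rt_one H
      have h3 : (h - g) ⬝ᵥ h' = 0 := by
        have h4 : h - g = fun _ => (h - g) ω := funext fun ω' => hconst ω' ω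
        rw [h4]
        simp only [dotProduct]
        rw [← Finset.mul_sum, Rt_sum H', mul_zero]
      rw [sub_dotProduct, hg2, sub_zero] at h3
      exact h3
    · exact h2

end Dec

end Pool.Agent.FQA
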