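import Pool.Agent.SmallRank.Full

/-!
# The projective case with an invertible element (PACKAGE FX3)

Notation: `P = c * f`, `Q = f * c`. The hypothesis `h0` says that there is no element of weight
zero
in `up g e`.

Step 1. Every `x ∈ up g e` satisfies `(1 - P) * x * (1 - Q) = 0`. Proof: `(1 - P - Q) * x * (1 - P -
Q) ∈ up g e`
by `Pr.zero_up` (`Pool/Agent/SmallRank/PrWts.lean`), and it is `(1 - P) * x * (1 - Q)` (`Q * x =
f * (c * x) = 0`,
`x * P = (x * c) * f = 0`: `Gr.up_mul_up`); `f * (1 - P) = 0`, `(1 - Q) * f = 0`, so it is zero by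
`h0`.

Step 2. For `x ∈ up g e` there is `κ` with `P * x * Q = κ • c` (`Pr.two`). Put
`x12 = P * x * (1 - Q)`,
`x21 = (1 - P) * x * Q`. Then `x = κ • c + x12 + x21` (Step 1). `x * f * x ∈ up g e`
(`Gr.quad_up`) and by Step 1
`0 = (1 - P) * (x * f * x) * (1 - Q) = x21 * f * x12` (`f = Q * f * P`).

Step 3. If `κ ≠ 0` then `x = (1 + κ⁻¹ • (x21 * f)) * (κ • c) * (1 + κ⁻¹ • (f * x12))`: the right side
is
`κ c + x21 f c + c f x12 + κ⁻¹ x21 f c f x12 = κ c + x21 + x12 + κ⁻¹ x21 f x12`. So `rk x ≤ rk c =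
ρ`.

Step 4. For `x ∈ up g e` injective on the kernel of `e`: `rk x = rk (1 - e) = n - rk e = rk e`
(`rk_compl`; `n = finrank K V`).
If `κ(u) ≠ 0` take `u1 = u`. If `κ(u) = 0`, there is `l ≠ 0` such that `u + l • c` is injective on
`ker e`: one
can argue with `f`-free pencils: for example the operators `u * w + l • (c * w)` with a fixed
isomorphism `w` from `range e` to `ker e`, or
simply: the set of the `l` such that `u + l • c` is not injective on `ker e` is finite, because
`det (u w + l c w + (1 - e)) ` is a polynomial in `l` which is not zero at `l = 0`. (There is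
`w : End K V` with
`w * u = 1 - e`: `u` restricted to `ker e` is injective; `w := ` a left inverse. Then for every `l`:
`w * (u + l • c) = (1 - e) + l • (w * c)`; if `l⁻¹` is not an eigenvalue of `- (w * c)` then
`u + l • c` is injective on `ker e`: `e v = 0`, `(u + l c) v = 0` gives `v + l w c v = 0`. There are
finitely many eigenvalues
and `K` is infinite.) In all cases there is `u1 ∈ up g e`, injective on `ker e`, with `κ(u1) ≠ 0`
(`P * (u + l • c) * Q = (κ + l) • c`).
By Step 3 `rk e = rk u1 ≤ ρ`, and `ρ = rk c ≤ rk e`. So `ρ = rk e = rk (1 - e)`.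

Step 5. `P = e`: idempotents (`B.idemP`), `e * P = P`, `P * e = P`, `rk P = ρ = rk e` (`Pr.rkP`),
`idem_eq` (`Pool/Agent/SmallRank/Frame.lean`). `Q = 1 - e` in the same way (`Pr.rkQ`). So for `a ∈
up g e`: `a = P * a * Q = κ • c` (`Pr.two`), and for
`b ∈ dn g e`: `b = Q * b * P = κ • f` (`Pr.mtwo`).

Step 6. `e ≠ 1`, so there is `v0 ≠ 0` with `e v0 = 0` (for `v0 = (1 - e) v ≠ 0`). `U = span {v0, c
v0}` is stable under `up g e` (`c (c v0) = 0`)
and `dn g e` (`f v0 = f (e v0) = 0`, `f (c v0) = (1 - e) v0 = v0`), so `U = ⊤` by `Gr.irr_ud`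
(`Pool/Agent/SmallRank/Symp.lean`), `n ≤ 2`. As `2 * rk e = n` and `rk e > 0`
(`Gr.rk_e_pos`), `n = 2`. -/

set_option autoImplicit false
set_option linter.unusedSectionVars false

namespace Pool.Agent.FQA

open Module Pool.Agent.SmallRank

variable {K V : Type*} [Field K] [CharZero K] [IsAlgClosed K] [AddCommGroup V] [Module K V]
  [FiniteDimensional K V]

section

variable {g : Submodule K (End K V)} {e c f : End K V} {ρ : ℕ}

private theorem pinv_step1 (B : Pr g e c f ρ)
    (h0 : ∀ x ∈ up g e, f * x = 0 → x * f = 0 → x = 0) {x : End K V} (hx : x ∈ up g e) :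
    (1 - c * f) * x * (1 - f * c) = 0 := by
  have hcx : c * x = 0 := by rw [← hx.2.1, ← mul_assoc, B.ce, zero_mul]
  have hxc : x * c = 0 := by rw [← B.ec, ← mul_assoc, hx.2.2, zero_mul]
  have h1 : (1 - c * f - f * c) * x * (1 - c * f - f * c) = (1 - c * f) * x * (1 - f * c) := by
    have h2 : (1 - c * f - f * c) * x = (1 - c * f) * x := by
      rw [sub_mul (1 - c * f), mul_assoc f c x, hcx, mul_zero, sub_zero]
    have h3 : x * (1 - c * f - f * c) = x * (1 - f * c) := by
      rw [mul_sub, mul_sub, mul_sub, mul_one, ← mul_assoc x c f, hxc, zero_mul, sub_zero]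
    rw [h2, mul_assoc, h3, ← mul_assoc]
  have h4 := B.zero_up hx
  rw [h1] at h4
  refine h0 _ h4 ?_ ?_
  · have h5 : f * (1 - c * f) = 0 := by rw [mul_sub, mul_one, ← mul_assoc, B.fcf, sub_self]
    rw [← mul_assoc, ← mul_assoc, h5, zero_mul, zero_mul]
  · have h5 : (1 - f * c) * f = 0 := by rw [sub_mul, one_mul, B.fcf, sub_self]
    rw [mul_assoc, h5, mul_zero]

private theorem pinv_step3 (B : Pr g e c f ρ)
    (h0 : ∀ x ∈ up g e, f * x = 0 → x * f = 0 → x = 0) {x : End K V} (hx : x ∈ up g e)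
    {κ : K} (hκ : κ ≠ 0) (hxκ : c * f * x * (f * c) = κ • c) : rk x ≤ ρ := by
  have h1 := pinv_step1 B h0 hx
  have h2 := pinv_step1 B h0 (B.G.quad_up hx B.fd.1)
  set x12 : End K V := c * f * x * (1 - f * c) with hx12
  set x21 : End K V := (1 - c * f) * x * (f * c) with hx21
  have hdec : x = κ • c + x21 + x12 := by
    have h3 : x = c * f * x * (f * c) + x21 + x12 + (1 - c * f) * x * (1 - f * c) := by
      rw [hx12, hx21]
      noncomm_ring
    rw [h1, add_zero, hxκ] at h3
    exact h3
  have hf : f * c * f * (c * f) = f := by rw [B.fcf, ← mul_assoc, B.fcf]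
  have h4 : x21 * f * x12 = 0 := by
    have h5 : x21 * f * x12 = (1 - c * f) * (x * f * x) * (1 - f * c) := by
      rw [hx12, hx21]
      calc (1 - c * f) * x * (f * c) * f * (c * f * x * (1 - f * c))
          = (1 - c * f) * x * (f * c * f * (c * f)) * x * (1 - f * c) := by
            simp only [mul_assoc]
        _ = (1 - c * f) * (x * f * x) * (1 - f * c) := by
            rw [hf]
            simp only [mul_assoc]
    rw [h5, h2]
  have h6 : x21 * (f * c) = x21 := by
    rw [hx21, mul_assoc, B.idemQ]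
  have h7 : c * f * x12 = x12 := by
    rw [hx12, ← mul_assoc, ← mul_assoc, B.idemP]
  have h8 : x = (1 + κ⁻¹ • (x21 * f)) * (κ • c) * (1 + κ⁻¹ • (f * x12)) := by
    have h9 : (1 + κ⁻¹ • (x21 * f)) * (κ • c) = κ • c + x21 := by
      rw [add_mul, one_mul, smul_mul_smul_comm, inv_mul_cancel₀ hκ, one_smul, mul_assoc, h6]
    rw [h9, mul_add, mul_one, mul_smul_comm, add_mul, smul_mul_assoc, ← mul_assoc c f x12, h7,
      ← mul_assoc x21 f x12, h4, add_zero, smul_smul, inv_mul_cancel₀ hκ, one_smul]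
    exact hdec
  rw [h8]
  refine (rk_mul_left _ _).trans ((rk_mul_right _ _).trans ?_)
  rw [← B.rkc]
  have h10 : κ • c = (κ • 1) * c := by rw [smul_mul_assoc, one_mul]
  rw [h10]
  exact rk_mul_right _ _

private theorem pinv_rk (B : Pr g e c f ρ) {x : End K V} (hx : x ∈ up g e)
    (hinj : ∀ v, e v = 0 → x v = 0 → v = 0) : rk x = rk (1 - e) := by
  have h1 : LinearMap.ker x = LinearMap.ker (1 - e) := by
    ext v
    rw [LinearMap.mem_ker, LinearMap.mem_ker]
    have h2 : x (e v) = 0 := by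
      have := congrArg (fun a : End K V => a v) hx.2.2
      simpa using this
    constructor
    · intro hv
      apply hinj
      · have := congrArg (fun a : End K V => a v) B.G.e1
        simpa using this
      · rw [LinearMap.sub_apply, map_sub, h2, sub_zero]
        simpa using hv
    · intro hv
      have h3 : v = e v := by
        rw [LinearMap.sub_apply, sub_eq_zero] at hv
        simpa using hv
      rw [h3, h2]
  have h2 := LinearMap.finrank_range_add_finrank_ker x
  have h3 := LinearMap.finrank_range_add_finrank_ker (1 - e)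
  rw [h1] at h2
  unfold rk
  omega

private theorem pinv_shift (B : Pr g e c f ρ) {u : End K V} (hu : u ∈ up g e)
    (hinj : ∀ v, e v = 0 → u v = 0 → v = 0) :
    ∃ l : K, l ≠ 0 ∧ ∀ v, e v = 0 → (u + l • c) v = 0 → v = 0 := by
  have h1 : LinearMap.ker (u ∘ₗ (LinearMap.ker e).subtype) = ⊥ := by
    rw [LinearMap.ker_eq_bot']
    intro v hv
    exact Subtype.ext (hinj v v.2 hv)
  obtain ⟨r, hr⟩ := LinearMap.exists_leftInverse_of_injective _ h1
  set w : End K V := (LinearMap.ker e).subtype ∘ₗ r with hw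
  have hwu : ∀ v, e v = 0 → w (u v) = v := by
    intro v hv
    have h2 := congrArg (fun a : LinearMap.ker e →ₗ[K] LinearMap.ker e => a ⟨v, hv⟩) hr
    exact congrArg Subtype.val h2
  have hfin : Set.Finite {μ : K | (w * c).HasEigenvalue μ} :=
    Module.End.finite_hasEigenvalue (w * c)
  obtain ⟨μ, hμ⟩ := (hfin.union (Set.finite_singleton (0 : K))).infinite_compl.nonempty
  have hμ0 : μ ≠ 0 := fun h => hμ (Or.inr h)
  have hμ1 : ¬ (w * c).HasEigenvalue μ := fun h => hμ (Or.inl h)
  refine ⟨-μ⁻¹, neg_ne_zero.2 (inv_ne_zero hμ0), fun v hv h2 => ?_⟩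
  by_contra hv0
  apply hμ1
  refine Module.End.hasEigenvalue_of_hasEigenvector (x := v) ⟨?_, hv0⟩
  rw [Module.End.mem_eigenspace_iff]
  have h3 : w ((u + (-μ⁻¹) • c) v) = v - μ⁻¹ • (w * c) v := by
    rw [LinearMap.add_apply, map_add, hwu v hv]
    simp [sub_eq_add_neg]
  rw [h2, map_zero] at h3
  have h4 : v = μ⁻¹ • (w * c) v := (sub_eq_zero.1 h3.symm)
  conv_rhs => rw [h4]
  rw [smul_smul, mul_inv_cancel₀ hμ0, one_smul]

end

theorem proj_inv {g : Submodule K (End K V)} {e c f : End K V} {ρ : ℕ} (B : Pr g e c f ρ)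
    (hbal : 2 * rk e = finrank K V) (h0 : ∀ x ∈ up g e, f * x = 0 → x * f = 0 → x = 0)
    {u : End K V} (hu : u ∈ up g e) (hinj : ∀ v, e v = 0 → u v = 0 → v = 0) :
    finrank K V = 2 := by
  have hce : rk c ≤ rk e := by
    have h := rk_mul_left e c
    rwa [B.ec] at h
  have hadd := B.G.rk_add
  have hρ : rk e ≤ ρ := by
    obtain ⟨κ, hκ⟩ := B.two hu.1
    by_cases hκ0 : κ = 0
    · obtain ⟨l, hl, hl2⟩ := pinv_shift B hu hinj
      have hu1 : u + l • c ∈ up g e := (up g e).add_mem hu ((up g e).smul_mem l B.cu)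
      have h1 : c * f * (u + l • c) * (f * c) = l • c := by
        rw [mul_add, add_mul, hκ, hκ0, zero_smul, zero_add, mul_smul_comm, smul_mul_assoc,
          B.cfc, ← mul_assoc, B.cfc]
      have h2 := pinv_step3 B h0 hu1 hl h1
      rw [pinv_rk B hu1 hl2] at h2
      omega
    · have h2 := pinv_step3 B h0 hu hκ0 hκ
      rw [pinv_rk B hu hinj] at h2
      omega
  rw [B.rkc] at hce
  have hP : c * f = e := by
    refine idem_eq B.G.idem B.idemP ?_ ?_ ?_
    · rw [← mul_assoc, B.ec]
    · rw [mul_assoc, B.fe]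
    · rw [B.rkP]
      exact hρ
  have hQ : f * c = 1 - e := by
    refine idem_eq B.G.idem' B.idemQ ?_ ?_ ?_
    · rw [sub_mul, one_mul, ← mul_assoc, B.ef, zero_mul, sub_zero]
    · rw [mul_sub, mul_one, mul_assoc, B.ce, mul_zero, sub_zero]
    · rw [B.rkQ]
      omega
  have hup : ∀ a ∈ up g e, ∃ κ : K, a = κ • c := by
    intro a ha
    obtain ⟨κ, hκ⟩ := B.two ha.1
    refine ⟨κ, ?_⟩
    rw [hP, hQ, ha.2.1, mul_sub, mul_one, ha.2.2, sub_zero] at hκ
    exact hκ
  have hdn : ∀ b ∈ dn g e, ∃ κ : K, b = κ • f := by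
    intro b hb
    obtain ⟨κ, hκ⟩ := B.mtwo hb.1
    refine ⟨κ, ?_⟩
    rw [hP, hQ, sub_mul, one_mul, hb.2.1, sub_zero, hb.2.2] at hκ
    exact hκ
  obtain ⟨v0, hv0, hev0⟩ : ∃ v0 : V, v0 ≠ 0 ∧ e v0 = 0 := by
    by_contra hcon
    push Not at hcon
    apply B.G.ne1
    ext v
    by_contra hne
    refine hcon (v - e v) (sub_ne_zero.2 (fun h => hne (by simpa using h.symm))) ?_
    have := congrArg (fun a : End K V => a v) B.G.e1
    simpa using this
  have hcc : c (c v0) = 0 := by
    have := congrArg (fun a : End K V => a v0) B.cc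
    simpa using this
  have hfv : f v0 = 0 := by
    have := congrArg (fun a : End K V => a v0) B.fe
    rw [Module.End.mul_apply, hev0, map_zero] at this
    exact this.symm
  have hfc : f (c v0) = v0 := by
    have := congrArg (fun a : End K V => a v0) hQ
    simpa [hev0] using this
  have hv0U : v0 ∈ Submodule.span K {v0, c v0} := Submodule.subset_span (Set.mem_insert _ _)
  have hcU : c v0 ∈ Submodule.span K {v0, c v0} :=
    Submodule.subset_span (Set.mem_insert_of_mem _ rfl)
  have hU := B.G.irr_ud (U := Submodule.span K {v0, c v0}) (by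
    intro x hx w hw
    obtain ⟨κ, rfl⟩ := hup x hx
    obtain ⟨a, b, rfl⟩ := Submodule.mem_span_pair.1 hw
    rw [LinearMap.smul_apply, map_add, map_smul, map_smul, hcc, smul_zero, add_zero]
    exact Submodule.smul_mem _ _ (Submodule.smul_mem _ _ hcU)) (by
    intro x hx w hw
    obtain ⟨κ, rfl⟩ := hdn x hx
    obtain ⟨a, b, rfl⟩ := Submodule.mem_span_pair.1 hw
    rw [LinearMap.smul_apply, map_add, map_smul, map_smul, hfv, hfc, smul_zero, zero_add]
    exact Submodule.smul_mem _ _ (Submodule.smul_mem _ _ hv0U))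
  have hpos := B.G.rk_e_pos
  rcases hU with hU | hU
  · rw [hU, Submodule.mem_bot] at hv0U
    exact absurd hv0U hv0
  · have h1 : finrank K (Submodule.span K ({v0, c v0} : Set V)) ≤ 2 := by
      classical
      have h2 := finrank_span_finset_le_card (R := K) ({v0, c v0} : Finset V)
      rw [Finset.coe_insert, Finset.coe_singleton] at h2
      exact h2.trans Finset.card_le_two
    rw [hU, finrank_top] at h1
    omega

end Pool.Agent.FQA
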