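import Pool.Agent.FQA.CapB
import Pool.Agent.FQA.PInv
import Pool.Agent.SmallRank.Core

/-!
# The minimal rank is one or two (PACKAGE FX4, assembly)

Proof. As in the proof of `SmallRank.small` (`Pool/Agent/SmallRank/Core.lean`): let `ρ` be the
minimal rank of
the nonzero elements of `up g e` (`exists_up`, `Nat.find`), attained at `c`, with a partner `f`
(`exists_pair`): `B : Pr g e c f ρ`. Let `n = finrank K V`.

If `∀ x ∈ up g e, f * x = 0 → x * f = 0 → x = 0` then `n = 2 = 2 ^ 1` by `proj_inv`, against `hn`.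
So there
is `x ∈ up g e`, `x ≠ 0`, `f * x = 0`, `x * f = 0`. If `n ≤ 4 * ρ` then `exists_two` and
`Two.pow_two` give `rk (1 - e) = 2 ^ m`, and `rk (1 - e) = rk e` (`rk_compl`, `hbal`),
`n = 2 ^ (m + 1)`, against `hn`. So
`4 * ρ < n`. `rk e = rk (1 - e)`, `2 * rk e = n`, `rk e > 0`, so
`ρ * n < rk e * rk (1 - e)`, and `c ≠ κ • 1` as `c * c = 0`, `c ≠ 0` (see the end of the proof of
`skew_of_simple` in
`Pool/Agent/SmallRank/Full.lean` for both). `SmallRank.small B.G (N := c)` gives `c' ∈ g` with `c' *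
c' = 0`
and `rk c' = 1 ∨ rk c' = 2`. `c' ≠ κ • 1` for all `κ` (`c' * c' = 0`, `c' ≠ 0`). By `exists_small`
(`Pool/Agent/SmallRank/Small.lean`) there is a nonzero element of `up g e` or `dn g e` of rank
at most `rk c'`, so `ρ ≤ rk c' ≤ 2` by `B.min`, `min_dn`. `ρ ≥ 1` by `Pr.rho_pos`. -/

set_option autoImplicit false
set_option linter.unusedSectionVars false

namespace Pool.Agent.FQA

open Module Pool.Agent.SmallRank

variable {K V : Type*} [Field K] [CharZero K] [IsAlgClosed K] [AddCommGroup V] [Module K V]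
  [FiniteDimensional K V]

/-- A square zero operator which is not zero is not scalar. -/
private theorem rho_ns {c : End K V} (hc0 : c ≠ 0) (h1 : c * c = 0) : ∀ κ : K, c ≠ κ • 1 := by
  intro κ hκ
  rw [hκ, smul_mul_smul_comm, one_mul] at h1
  rcases smul_eq_zero.1 h1 with h2 | h2
  · rcases mul_self_eq_zero.1 h2 with rfl
    exact hc0 (by rw [hκ, zero_smul])
  · exact hc0 (by rw [hκ, h2, smul_zero])

theorem exists_rho {g : Submodule K (End K V)} {e : End K V} (G : Gr g e)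
    (hbal : 2 * rk e = finrank K V) {u : End K V} (hu : u ∈ up g e)
    (hinj : ∀ v, e v = 0 → u v = 0 → v = 0) (hn : ∀ m : ℕ, finrank K V ≠ 2 ^ m) :
    ∃ c f ρ, Pr g e c f ρ ∧ (ρ = 1 ∨ ρ = 2) ∧ 4 * ρ < finrank K V := by
  classical
  -- an element of minimal rank
  obtain ⟨z, hz, hz0⟩ := exists_up G
  have hex : ∃ n, ∃ y ∈ up g e, y ≠ 0 ∧ rk y = n := ⟨_, z, hz, hz0, rfl⟩
  obtain ⟨c, hc, hc0, hcr⟩ := Nat.find_spec hex
  set ρ := Nat.find hex with hρ
  have hmin : ∀ x ∈ up g e, x ≠ 0 → ρ ≤ rk x := fun x hx hx0 =>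
    Nat.find_min' hex ⟨x, hx, hx0, rfl⟩
  obtain ⟨f, B⟩ := exists_pair G hmin hc hc0 hcr
  have r1 := G.rk_add
  have r2 : rk (1 - e) = rk e := by omega
  have r3 : 0 < rk e := G.rk_e_pos
  by_cases h0 : ∀ x ∈ up g e, f * x = 0 → x * f = 0 → x = 0
  · exact absurd (proj_inv B hbal h0 hu hinj) (by rw [← pow_one 2]; exact hn 1)
  push Not at h0
  obtain ⟨x, hx, hfx, hxf, hx0⟩ := h0
  have hlt : 4 * ρ < finrank K V := by
    by_contra hcon
    push Not at hcon
    obtain ⟨y, T⟩ := exists_two B hbal hcon hx hx0 hfx hxf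
    obtain ⟨m, hm⟩ := T.pow_two
    apply hn (m + 1)
    rw [← hbal, ← r2, hm, pow_succ]
    ring
  have hlt' : rk c * finrank K V < rk e * rk (1 - e) := by
    rw [r2, hcr, ← hbal]
    have h4 : 4 * ρ < 2 * rk e := by rw [hbal]; exact hlt
    nlinarith
  obtain ⟨c', hc', hcc', hrk'⟩ := small G hc.1 (rho_ns hc0 (Gr.up_mul_up hc hc)) hlt'
  have hc'0 : c' ≠ 0 := by
    rintro rfl
    have : rk (0 : End K V) = 0 := rk_eq_zero.2 rfl
    rcases hrk' with h | ⟨h, -⟩ <;> omega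
  have hρle : ρ ≤ rk c' := by
    obtain ⟨w, hw0, hwr, hw | hw⟩ := exists_small G hc' (rho_ns hc'0 hcc')
    · exact (hmin w hw hw0).trans hwr
    · exact (min_dn G hmin w hw hw0).trans hwr
  have hpos := B.rho_pos
  refine ⟨c, f, ρ, B, ?_, hlt⟩
  rcases hrk' with h | ⟨h, -⟩ <;> omega

end Pool.Agent.FQA
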