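import Pool.Agent.FQA.NfA
import Pool.Agent.FQA.Rho
import Pool.Agent.SmallRank.ProjL
import Pool.Agent.SmallRank.ProjB

/-!
# A balanced idempotent in a simple algebra: the three cases
-/

set_option autoImplicit false
set_option linter.unusedSectionVars false

namespace Pool.Agent.FQA

open Module Pool.Agent.SmallRank

variable {K V : Type*} [Field K] [CharZero K] [IsAlgClosed K] [AddCommGroup V] [Module K V]
  [FiniteDimensional K V]

private theorem dich_ns {c : End K V} (hc0 : c ≠ 0) (h1 : c * c = 0) : ∀ κ : K, c ≠ κ • 1 := by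
  intro κ hκ
  rw [hκ, smul_mul_smul_comm, one_mul] at h1
  rcases smul_eq_zero.1 h1 with h2 | h2
  · rcases mul_self_eq_zero.1 h2 with rfl
    exact hc0 (by rw [hκ, zero_smul])
  · exact hc0 (by rw [hκ, h2, smul_zero])

/-- The three cases: no element of degree one is orthogonal to an extremal pair (the projective
case), the minimal rank is one or two, or there are two orthogonal extremal pairs which fill the
space. -/
theorem dich3 {g : Submodule K (End K V)} {e : End K V} (G : Gr g e)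
    (hbal : 2 * rk e = finrank K V) :
    (∃ c f ρ, Pr g e c f ρ ∧ ∀ x ∈ up g e, f * x = 0 → x * f = 0 → x = 0) ∨
    (∃ c f ρ, Pr g e c f ρ ∧ (ρ = 1 ∨ ρ = 2) ∧ 4 * ρ < finrank K V) ∨
    ∃ c f x y, Two g e c f x y := by
  classical
  have := G.nontrivial
  obtain ⟨z, hz, hz0⟩ := exists_up G
  have hex : ∃ n, ∃ y ∈ up g e, y ≠ 0 ∧ rk y = n := ⟨_, z, hz, hz0, rfl⟩
  obtain ⟨c, hc, hc0, hcr⟩ := Nat.find_spec hex
  obtain ⟨ρ, hρ⟩ : ∃ ρ, ρ = Nat.find hex := ⟨_, rfl⟩
  rw [← hρ] at hcr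
  have hmin : ∀ x ∈ up g e, x ≠ 0 → ρ ≤ rk x := fun x hx hx0 => by
    rw [hρ]
    exact Nat.find_min' hex ⟨x, hx, hx0, rfl⟩
  obtain ⟨f, B⟩ := exists_pair G hmin hc hc0 hcr
  have r1 := G.rk_add
  have r2 : rk (1 - e) = rk e := by omega
  have r3 : 0 < rk e := G.rk_e_pos
  by_cases h0 : ∀ x ∈ up g e, f * x = 0 → x * f = 0 → x = 0
  · exact Or.inl ⟨c, f, ρ, B, h0⟩
  right
  push Not at h0
  obtain ⟨x, hx, hfx, hxf, hx0⟩ := h0
  by_cases hlt : 4 * ρ < finrank K V
  swap
  · right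
    obtain ⟨y, T⟩ := exists_two B hbal (not_lt.1 hlt) hx hx0 hfx hxf
    exact ⟨c, f, x, y, T⟩
  left
  have hlt' : rk c * finrank K V < rk e * rk (1 - e) := by
    rw [r2, hcr, ← hbal]
    have h4 : 4 * ρ < 2 * rk e := by rw [hbal]; exact hlt
    nlinarith
  obtain ⟨c', hc', hcc', hrk'⟩ := small G hc.1 (dich_ns hc0 (Gr.up_mul_up hc hc)) hlt'
  have hc'0 : c' ≠ 0 := by
    rintro rfl
    have : rk (0 : End K V) = 0 := rk_eq_zero.2 rfl
    rcases hrk' with h | ⟨h, -⟩ <;> omega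
  have hρle : ρ ≤ rk c' := by
    obtain ⟨w, hw0, hwr, hw | hw⟩ := exists_small G hc' (dich_ns hc'0 hcc')
    · exact (hmin w hw hw0).trans hwr
    · exact (min_dn G hmin w hw hw0).trans hwr
  have hpos := B.rho_pos
  refine ⟨c, f, ρ, B, ?_, hlt⟩
  rcases hrk' with h | ⟨h, -⟩ <;> omega

/-- The three cases: the dimension is a middle binomial coefficient (if there is an invertible
element of degree one it is two), the minimal rank is one or two, or there are two orthogonal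
extremal pairs which fill the space. -/
theorem dich {g : Submodule K (End K V)} {e : End K V} (G : Gr g e)
    (hbal : 2 * rk e = finrank K V) :
    ((∃ k : ℕ, finrank K V = (2 * k).choose k) ∧
      ((∃ u ∈ up g e, ∀ v, e v = 0 → u v = 0 → v = 0) → finrank K V = 2)) ∨
    (∃ c f ρ, Pr g e c f ρ ∧ (ρ = 1 ∨ ρ = 2) ∧ 4 * ρ < finrank K V) ∨
    ∃ c f x y, Two g e c f x y := by
  rcases dich3 G hbal with ⟨c, f, ρ, B, h0⟩ | h | h
  · left
    obtain ⟨M, x, y, P⟩ := B.exists_pb h0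
    obtain ⟨k, -, hn, -⟩ := P.finrank_eq hbal
    exact ⟨⟨k, hn⟩, fun ⟨u, hu, hinj⟩ => proj_inv B hbal h0 hu hinj⟩
  · exact Or.inr (Or.inl h)
  · exact Or.inr (Or.inr h)

end Pool.Agent.FQA
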