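import Mathlib

/-!
# Generalised eigenspaces of a commutator
-/

set_option autoImplicit false
set_option linter.unusedSectionVars false

namespace Pool.Agent.FQA

open Module

variable {K V : Type*} [Field K] [AddCommGroup V] [Module K V]

/-- the commutator with `θ` -/
def cm (θ : End K V) : End K (End K V) := LinearMap.mulLeft K θ - LinearMap.mulRight K θ

theorem cm_apply (θ x : End K V) : cm θ x = θ * x - x * θ := rfl

/-- the generalised eigenspace of the commutator with `θ` -/
def gE (θ : End K V) (s : K) : Submodule K (End K V) := (cm θ).maxGenEigenspace s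

theorem mem_gE {θ : End K V} {s : K} {x : End K V} :
    x ∈ gE θ s ↔ ∃ k : ℕ, ((cm θ - s • (1 : End K (End K V))) ^ k) x = 0 :=
  Module.End.mem_maxGenEigenspace _ _ _

theorem cm_mul (θ x y : End K V) : cm θ (x * y) = cm θ x * y + x * cm θ y := by
  rw [cm_apply, cm_apply, cm_apply]
  noncomm_ring

theorem shift_mul (θ x y : End K V) (a b : K) :
    (cm θ - (a + b) • (1 : End K (End K V))) (x * y) =
      (cm θ - a • (1 : End K (End K V))) x * y + x * (cm θ - b • (1 : End K (End K V))) y := by
  simp only [LinearMap.sub_apply, LinearMap.add_apply, LinearMap.smul_apply,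
    Module.End.one_apply, cm_mul, sub_mul, mul_sub, add_smul, smul_mul_assoc, mul_smul_comm]
  abel

theorem pow_mul_zero (θ : End K V) (a b : K) (n : ℕ) : ∀ (k l : ℕ) (x y : End K V), k + l = n →
    ((cm θ - a • (1 : End K (End K V))) ^ k) x = 0 →
    ((cm θ - b • (1 : End K (End K V))) ^ l) y = 0 →
    ((cm θ - (a + b) • (1 : End K (End K V))) ^ n) (x * y) = 0 := by
  induction n with
  | zero =>
    intro k l x y hkl hx hy
    have hk : k = 0 := by omega
    rw [hk, pow_zero, Module.End.one_apply] at hx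
    rw [hx, zero_mul, map_zero]
  | succ n ih =>
    intro k l x y hkl hx hy
    rcases Nat.eq_zero_or_pos k with hk | hk
    · rw [hk, pow_zero, Module.End.one_apply] at hx
      rw [hx, zero_mul, map_zero]
    rcases Nat.eq_zero_or_pos l with hl | hl
    · rw [hl, pow_zero, Module.End.one_apply] at hy
      rw [hy, mul_zero, map_zero]
    obtain ⟨k, rfl⟩ : ∃ k', k = k' + 1 := ⟨k - 1, by omega⟩
    obtain ⟨l, rfl⟩ : ∃ l', l = l' + 1 := ⟨l - 1, by omega⟩
    rw [pow_succ, Module.End.mul_apply, shift_mul, map_add]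
    rw [pow_succ, Module.End.mul_apply] at hx hy
    have h1 := ih k (l + 1) _ y (by omega) hx (by rw [pow_succ, Module.End.mul_apply]; exact hy)
    have h2 := ih (k + 1) l x _ (by omega) (by rw [pow_succ, Module.End.mul_apply]; exact hx) hy
    rw [h1, h2, add_zero]

theorem gE_mul {θ : End K V} {a b : K} {x y : End K V} (hx : x ∈ gE θ a) (hy : y ∈ gE θ b) :
    x * y ∈ gE θ (a + b) := by
  rw [mem_gE] at hx hy ⊢
  obtain ⟨k, hx⟩ := hx
  obtain ⟨l, hy⟩ := hy
  exact ⟨k + l, pow_mul_zero θ a b (k + l) k l x y rfl hx hy⟩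

theorem gE_zero {θ x : End K V} (h : θ * x = x * θ) : x ∈ gE θ 0 := by
  rw [mem_gE]
  refine ⟨1, ?_⟩
  rw [pow_one, zero_smul, sub_zero, cm_apply, h, sub_self]

theorem gE_disj {θ x : End K V} {a b : K} (ha : x ∈ gE θ a) (hb : x ∈ gE θ b) (hab : a ≠ b) :
    x = 0 := by
  have h1 := (Module.End.independent_maxGenEigenspace (cm θ)).pairwiseDisjoint hab
  exact Submodule.disjoint_def.1 h1 x ha hb

theorem gE_comm {θ x : End K V} {a : K} (ha : x ∈ gE θ a) (h : θ * x = x * θ) (h0 : a ≠ 0) :
    x = 0 := gE_disj ha (gE_zero h) h0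

theorem shift_apply (θ x : End K V) (w : V) (a b : K) :
    (θ - (a + b) • (1 : End K V)) (x w) =
      ((cm θ - a • (1 : End K (End K V))) x) w + x ((θ - b • (1 : End K V)) w) := by
  simp only [LinearMap.sub_apply, LinearMap.add_apply, LinearMap.smul_apply,
    Module.End.one_apply, cm_apply, Module.End.mul_apply, map_sub, map_smul, add_smul]
  abel

theorem pow_apply_zero (θ : End K V) (a b : K) (n : ℕ) : ∀ (k l : ℕ) (x : End K V) (w : V),
    k + l = n → ((cm θ - a • (1 : End K (End K V))) ^ k) x = 0 →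
    ((θ - b • (1 : End K V)) ^ l) w = 0 → ((θ - (a + b) • (1 : End K V)) ^ n) (x w) = 0 := by
  induction n with
  | zero =>
    intro k l x w hkl hx _
    have hk : k = 0 := by omega
    rw [hk, pow_zero, Module.End.one_apply] at hx
    rw [hx, LinearMap.zero_apply, map_zero]
  | succ n ih =>
    intro k l x w hkl hx hw
    rcases Nat.eq_zero_or_pos k with hk | hk
    · rw [hk, pow_zero, Module.End.one_apply] at hx
      rw [hx, LinearMap.zero_apply, map_zero]
    rcases Nat.eq_zero_or_pos l with hl | hl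
    · rw [hl, pow_zero, Module.End.one_apply] at hw
      rw [hw, map_zero, map_zero]
    obtain ⟨k, rfl⟩ : ∃ k', k = k' + 1 := ⟨k - 1, by omega⟩
    obtain ⟨l, rfl⟩ : ∃ l', l = l' + 1 := ⟨l - 1, by omega⟩
    rw [pow_succ, Module.End.mul_apply, shift_apply, map_add]
    rw [pow_succ, Module.End.mul_apply] at hx hw
    have h1 := ih k (l + 1) _ w (by omega) hx (by rw [pow_succ, Module.End.mul_apply]; exact hw)
    have h2 := ih (k + 1) l x _ (by omega) (by rw [pow_succ, Module.End.mul_apply]; exact hx) hw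
    rw [h1, h2, add_zero]

theorem gE_apply {θ : End K V} {a b : K} {x : End K V} {w : V} (hx : x ∈ gE θ a)
    (hw : w ∈ θ.maxGenEigenspace b) : x w ∈ θ.maxGenEigenspace (a + b) := by
  rw [mem_gE] at hx
  rw [Module.End.mem_maxGenEigenspace] at hw ⊢
  obtain ⟨k, hx⟩ := hx
  obtain ⟨l, hw⟩ := hw
  exact ⟨k + l, pow_apply_zero θ a b (k + l) k l x w rfl hx hw⟩

/-- A subspace which is stable under the commutator is the sum of its generalised eigenspaces. -/
theorem gE_induction [IsAlgClosed K] [FiniteDimensional K V] {θ : End K V}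
    {M : Submodule K (End K V)} (hM : ∀ x ∈ M, θ * x - x * θ ∈ M) {p : End K V → Prop}
    (h0 : p 0) (hadd : ∀ x y, p x → p y → p (x + y)) (hp : ∀ s, ∀ x ∈ M, x ∈ gE θ s → p x)
    {x : End K V} (hx : x ∈ M) : p x := by
  have h1 := Submodule.inf_iSup_genEigenspace (p := M) (f := cm θ) hM ⊤
  have h2 : ⨆ s, (cm θ).genEigenspace s ⊤ = ⊤ :=
    Module.End.iSup_maxGenEigenspace_eq_top (cm θ)
  rw [h2, inf_top_eq] at h1
  rw [h1] at hx
  induction hx using Submodule.iSup_induction' with
  | mem s x hx => exact hp s x hx.1 hx.2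
  | zero => exact h0
  | add x y _ _ hx hy => exact hadd x y hx hy

end Pool.Agent.FQA
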