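import Pool.Agent.FQA.Nf

/-!
# The invariant form of an algebra with elements of rank two
-/

set_option autoImplicit false
set_option linter.unusedSectionVars false

namespace Pool.Agent.FQA

open Module Pool.Agent.SmallRank

variable {K V : Type*} [Field K] [CharZero K] [IsAlgClosed K] [AddCommGroup V] [Module K V]
  [FiniteDimensional K V]

/-- the action on `V × V*` with the multiplier `r * trace` -/
noncomputable def act (r : K) : End K V →ₗ[K] End K (V × Dual K V) where
  toFun x :=
    { toFun := fun p => (x p.1, (r * LinearMap.trace K V x) • p.2 - p.2 ∘ₗ x)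
      map_add' := fun p q => by
        refine Prod.ext (by simp) ?_
        ext w
        simp
        ring
      map_smul' := fun s p => by
        refine Prod.ext (by simp) ?_
        ext w
        simp
        ring }
  map_add' x y := by
    refine LinearMap.ext fun p => Prod.ext (by simp) ?_
    ext w
    simp
    ring
  map_smul' s x := by
    refine LinearMap.ext fun p => Prod.ext (by simp) ?_
    ext w
    simp
    ring

theorem act_apply (r : K) (x : End K V) (p : V × Dual K V) :
    act r x p = (x p.1, (r * LinearMap.trace K V x) • p.2 - p.2 ∘ₗ x) := rfl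

theorem act_comm (r : K) (x y : End K V) :
    act r (x * y - y * x) = act r x * act r y - act r y * act r x := by
  refine LinearMap.ext fun p => ?_
  rw [LinearMap.sub_apply, Module.End.mul_apply, Module.End.mul_apply]
  simp only [act_apply]
  refine Prod.ext (by simp) ?_
  have h0 : LinearMap.trace K V (x * y - y * x) = 0 := by
    rw [map_sub, LinearMap.trace_mul_comm, sub_self]
  rw [h0, mul_zero, zero_smul, zero_sub]
  ext w
  simp
  ring

/-- An irreducible space of operators on a plane: coordinates. -/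
theorem exists_coord {P : End K V} (hPP : P * P = P) (hr : rk P = 2) :
    ∃ (e0 e1 : V) (u0 u1 : Dual K V), P e0 = e0 ∧ P e1 = e1 ∧ u0 e0 = 1 ∧ u0 e1 = 0 ∧ u1 e0 = 0 ∧
      u1 e1 = 1 ∧ (∀ v, P v = u0 v • e0 + u1 v • e1) ∧ (∀ v, u0 (P v) = u0 v) ∧
      ∀ v, u1 (P v) = u1 v := by
  have hfix : ∀ a ∈ LinearMap.range P, P a = a := by
    rintro _ ⟨w, rfl⟩
    exact LinearMap.congr_fun hPP w
  let b : Basis (Fin 2) K (LinearMap.range P) := finBasisOfFinrankEq K _ hr
  let R : V →ₗ[K] LinearMap.range P := P.rangeRestrict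
  have hR : ∀ v, (R v : V) = P v := fun v => rfl
  have hRb : ∀ i, R (b i : V) = b i := fun i => Subtype.ext (by
    rw [hR, hfix _ (b i).2])
  have hRP : ∀ v, R (P v) = R v := fun v => Subtype.ext (by
    rw [hR, hR]
    exact LinearMap.congr_fun hPP v)
  refine ⟨b 0, b 1, b.coord 0 ∘ₗ R, b.coord 1 ∘ₗ R, hfix _ (b 0).2, hfix _ (b 1).2, ?_, ?_, ?_,
    ?_, ?_, ?_, ?_⟩
  · rw [LinearMap.comp_apply, hRb, Basis.coord_apply, Basis.repr_self, Finsupp.single_eq_same]
  · rw [LinearMap.comp_apply, hRb, Basis.coord_apply, Basis.repr_self,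
      Finsupp.single_eq_of_ne (by decide)]
  · rw [LinearMap.comp_apply, hRb, Basis.coord_apply, Basis.repr_self,
      Finsupp.single_eq_of_ne (by decide)]
  · rw [LinearMap.comp_apply, hRb, Basis.coord_apply, Basis.repr_self, Finsupp.single_eq_same]
  · intro v
    have h1 := b.sum_repr (R v)
    rw [Fin.sum_univ_two] at h1
    have h2 := congrArg Subtype.val h1
    rw [hR] at h2
    rw [← h2]
    rfl
  · intro v
    rw [LinearMap.comp_apply, LinearMap.comp_apply, hRP]
  · intro v
    rw [LinearMap.comp_apply, LinearMap.comp_apply, hRP]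

namespace Ex

variable {g : Submodule K (End K V)} {c f : End K V} (E : Ex g c f)
include E

theorem tr_one {x : End K V} (hx : x ∈ g1 g c f) : LinearMap.trace K V x = 0 := by
  have h1 := E.tr01 E.one0 hx
  rwa [one_mul] at h1

theorem tr_m {x : End K V} (hx : x ∈ g1 g f c) : LinearMap.trace K V x = 0 := E.symm.tr_one hx

theorem tr_c : LinearMap.trace K V c = 0 := by
  have h1 := E.tr0c E.one0
  rwa [one_mul] at h1

theorem tr_f : LinearMap.trace K V f = 0 := E.symm.tr_c

/-- **The invariant form.** -/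
theorem exists_form (hsimple : ∀ s : Submodule K (End K V), s ≤ g →
      (∀ x ∈ g, ∀ z ∈ s, x * z - z * x ∈ s) → (∀ z ∈ s, LinearMap.trace K V z = 0) → s ≠ ⊥ →
      ∀ x ∈ g, ∃ a ∈ s, ∃ k : K, x = a + k • 1) :
    ∃ B : V →ₗ[K] V →ₗ[K] K, (∀ x ∈ g, ∃ κ : K, ∀ a b, B (x a) b + B a (x b) = κ * B a b) ∧
      ∀ a, (∀ b, B a b = 0) → a = 0 := by
  obtain ⟨θ, t, H⟩ := E.exists_th
  have hPQ := E.tr_PQ H hsimple
  obtain ⟨e0, e1, u0, u1, hP0, hP1, h00, h01, h10, h11, hPv, hu0, hu1⟩ :=
    exists_coord E.PP E.rkP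
  -- the functional of a vector
  let ε : V → V → K := fun v w => u0 v * u1 w - u1 v * u0 w
  let φ : V →ₗ[K] Dual K V :=
    { toFun := fun v => u0 v • (u1 ∘ₗ c) - u1 v • (u0 ∘ₗ c)
      map_add' := fun v w => by
        ext z
        simp
        ring
      map_smul' := fun s v => by
        ext z
        simp
        ring }
  have hφ : ∀ v w, φ v w = u0 v * u1 (c w) - u1 v * u0 (c w) := fun v w => by
    simp [φ]
  let j : V →ₗ[K] V × Dual K V := (c * f : End K V).prod φ
  have hj : ∀ v, j v = ((c * f) v, φ v) := fun v => rfl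
  let ρ := act (V := V) (t / 2)
  have hρ : ∀ x p, ρ x p = (x p.1, (t / 2 * LinearMap.trace K V x) • p.2 - p.2 ∘ₗ x) :=
    fun x p => rfl
  have hρ0 : ∀ x p, LinearMap.trace K V x = 0 → ρ x p = (x p.1, -(p.2 ∘ₗ x)) := fun x p h => by
    rw [hρ, h, mul_zero, zero_smul, zero_sub]
  have hφc : ∀ v, φ v ∘ₗ (f * c : End K V) = φ v := by
    intro v
    ext w
    have h1 : c ((f * c) w) = c w := LinearMap.congr_fun E.cQ w
    rw [LinearMap.comp_apply, hφ, hφ, h1]
  have hφ0 : ∀ (x : End K V) v, c * x = 0 → φ v ∘ₗ x = 0 := by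
    intro x v hx
    ext w
    have h1 : c (x w) = 0 := LinearMap.congr_fun hx w
    rw [LinearMap.comp_apply, hφ, h1]
    simp
  -- elements of degree zero
  have hz : ∀ z ∈ g0 g c f, ∀ v, ρ z (j v) = j (z v) := by
    intro z hz v
    obtain ⟨γ, hγ⟩ := E.com0c hz
    have h2γ : LinearMap.trace K V (z * (c * f)) - LinearMap.trace K V (z * (f * c)) = γ * 2 := by
      have h1 : LinearMap.trace K V ((z * c - c * z) * f) = γ * 2 := by
        rw [hγ, smul_mul_assoc, map_smul, E.trc, smul_eq_mul]
      rw [← h1, sub_mul, map_sub, mul_assoc z c f, mul_assoc c z f,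
        LinearMap.trace_mul_comm K c (z * f), mul_assoc z f c]
    have h3 := hPQ z hz.1
    have hκ : t / 2 * LinearMap.trace K V z = LinearMap.trace K V (z * (c * f)) - γ := by
      linear_combination (-1 / 2 : K) * h3 + (-1 / 2 : K) * h2γ
    have htr : LinearMap.trace K V (z * (c * f)) = u0 (z e0) + u1 (z e1) := by
      have h4 : z * (c * f) = u0.smulRight (z e0) + u1.smulRight (z e1) := by
        ext w
        rw [Module.End.mul_apply, hPv, map_add, map_smul, map_smul]
        rfl
      rw [h4, map_add, LinearMap.trace_smulRight, LinearMap.trace_smulRight]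
    have hzv : ∀ (u : Dual K V), (∀ v, u ((c * f) v) = u v) → ∀ v,
        u (z v) = u0 v * u (z e0) + u1 v * u (z e1) := by
      intro u hu v
      have h5 : (c * f) (z v) = z ((c * f) v) := LinearMap.congr_fun hz.2.1 v
      rw [← hu (z v), h5, hPv, map_add, map_add, map_smul, map_smul, map_smul, map_smul,
        smul_eq_mul, smul_eq_mul]
    rw [hρ, hj, hj]
    refine Prod.ext (LinearMap.congr_fun hz.2.1 v).symm ?_
    change (t / 2 * LinearMap.trace K V z) • φ v - φ v ∘ₗ z = φ (z v)
    ext w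
    have h6 : z (c w) - c (z w) = γ • c w := by
      have := LinearMap.congr_fun hγ w
      exact this
    have h7 : c (z w) = z (c w) - γ • c w := by rw [← h6, sub_sub_cancel]
    rw [LinearMap.sub_apply, LinearMap.smul_apply, LinearMap.comp_apply, hφ, hφ, hφ, h7, map_sub,
      map_sub, map_smul, map_smul, smul_eq_mul, smul_eq_mul, smul_eq_mul, hκ, htr,
      hzv u0 hu0 (c w), hzv u1 hu1 (c w), hzv u0 hu0 v, hzv u1 hu1 v]
    ring
  let A : Submodule K (V × Dual K V) := LinearMap.range j
  have hst := E.gen ρ (fun x _ y _ => act_comm (t / 2) x y) (A := A)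
    (by
      rintro z hz' _ ⟨v, rfl⟩
      exact ⟨z v, (hz z hz' v).symm⟩)
    (by
      rintro z hz' _ ⟨v, rfl⟩
      rw [hρ0 z _ (E.tr_one hz'), hj]
      refine Prod.ext ?_ ?_
      · exact LinearMap.congr_fun hz'.2.1 v
      · change -(φ v ∘ₗ z) = 0
        rw [hφ0 z v (E.c_mul hz'), neg_zero])
    (by
      rintro _ ⟨v, rfl⟩
      rw [hρ0 c _ E.tr_c, hj]
      refine Prod.ext ?_ ?_
      · exact LinearMap.congr_fun E.cP v
      · change -(φ v ∘ₗ c) = 0
        rw [hφ0 c v E.cc, neg_zero])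
    (by
      rintro x hx y hy z hz' _ ⟨v, rfl⟩
      rw [hρ0 z _ (E.tr_m hz'), hρ0 y _ (E.tr_m hy), hρ0 x _ (E.tr_m hx), hj]
      refine Prod.ext ?_ ?_
      · exact LinearMap.congr_fun (E.mmm hx hy hz') _
      · ext w
        have h1 : z (y (x w)) = 0 := LinearMap.congr_fun (E.mmm hz' hy hx) w
        simp [h1])
    (by
      rintro x hx _ ⟨v, rfl⟩
      rw [hρ0 f _ E.tr_f, hρ0 x _ (E.tr_m hx), hj]
      refine Prod.ext ?_ ?_
      · exact LinearMap.congr_fun (E.symm.mul_c hx) _
      · ext w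
        have h1 : f (x w) = 0 := LinearMap.congr_fun (E.symm.c_mul hx) w
        simp [h1])
    (by
      rintro _ ⟨v, rfl⟩
      rw [hρ0 f _ E.tr_f, hρ0 f _ E.tr_f, hj]
      refine Prod.ext ?_ ?_
      · exact LinearMap.congr_fun E.ff _
      · ext w
        have h1 : f (f w) = 0 := LinearMap.congr_fun E.ff w
        simp [h1])
  set Z := Submodule.span K (GS g c f ρ A) with hZ
  -- the component of degree one
  have hpr : ∀ w ∈ Z, ∃ v, (c * f) w.1 = (c * f) v ∧ w.2 ∘ₗ (f * c : End K V) = φ v := by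
    intro w hw
    induction hw using Submodule.span_induction with
    | mem w hw =>
      rcases hw with ⟨v, rfl⟩ | ⟨x, hx, _, ⟨v, rfl⟩, rfl⟩ |
        ⟨x, hx, y, hy, _, ⟨v, rfl⟩, rfl⟩ | ⟨_, ⟨v, rfl⟩, rfl⟩
      · exact ⟨v, LinearMap.congr_fun E.PP v, hφc v⟩
      · refine ⟨0, ?_, ?_⟩
        · rw [map_zero, hρ0 x _ (E.tr_m hx)]
          exact LinearMap.congr_fun hx.2.2.1 _
        · rw [map_zero, hρ0 x _ (E.tr_m hx)]
          ext w
          have h1 : x ((f * c) w) = 0 := LinearMap.congr_fun hx.2.1 w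
          change -(φ v (x ((f * c) w))) = 0
          rw [h1, map_zero, neg_zero]
      · refine ⟨0, ?_, ?_⟩
        · rw [map_zero, hρ0 y _ (E.tr_m hy), hρ0 x _ (E.tr_m hx)]
          exact LinearMap.congr_fun hx.2.2.1 _
        · rw [map_zero, hρ0 y _ (E.tr_m hy), hρ0 x _ (E.tr_m hx)]
          ext w
          have h1 : x ((f * c) w) = 0 := LinearMap.congr_fun hx.2.1 w
          change -(-(φ v (y (x ((f * c) w))))) = 0
          rw [h1, map_zero, map_zero, neg_zero, neg_zero]
      · refine ⟨0, ?_, ?_⟩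
        · rw [map_zero, hρ0 f _ E.tr_f]
          exact LinearMap.congr_fun E.Pf _
        · rw [map_zero, hρ0 f _ E.tr_f]
          ext w
          have h1 : f ((f * c) w) = 0 := LinearMap.congr_fun E.fQ w
          change -(φ v (f ((f * c) w))) = 0
          rw [h1, map_zero, neg_zero]
    | zero => exact ⟨0, by simp, by rw [map_zero]; exact LinearMap.zero_comp _⟩
    | add p q _ _ hp hq =>
      obtain ⟨v, h1, h2⟩ := hp
      obtain ⟨v', h3, h4⟩ := hq
      refine ⟨v + v', ?_, ?_⟩
      · rw [Prod.fst_add, map_add, map_add, h1, h3]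
      · rw [Prod.snd_add, LinearMap.add_comp, h2, h4, map_add]
    | smul s p _ hp =>
      obtain ⟨v, h1, h2⟩ := hp
      refine ⟨s • v, ?_, ?_⟩
      · rw [Prod.smul_fst, map_smul, map_smul, h1]
      · rw [Prod.smul_snd, LinearMap.smul_comp, h2, map_smul]
  have hu : ∀ v v', (c * f) v = (c * f) v' → φ v = φ v' := by
    intro v v' h
    ext w
    rw [hφ, hφ, ← hu0 v, ← hu1 v, h, hu0, hu1]
  have hce : c (f e1) = e1 := by
    have h1 : (c * f) e1 = e1 := hP1
    exact h1
  have hφe : φ e0 (f e1) = 1 := by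
    rw [hφ, hce, h00, h11, h10]
    ring
  -- uniqueness of the second component
  have hN1 : ∀ ξ : Dual K V, ((0 : V), ξ) ∈ Z → ξ = 0 := by
    let N : Submodule K (Dual K V) := Z.comap (LinearMap.inr K V (Dual K V))
    have hN : ∀ ξ, ξ ∈ N ↔ ((0 : V), ξ) ∈ Z := fun ξ => Iff.rfl
    have hNst : ∀ x ∈ g, ∀ ξ ∈ N, (t / 2 * LinearMap.trace K V x) • ξ - ξ ∘ₗ x ∈ N := by
      intro x hx ξ hξ
      have h1 := hst x hx _ ((hN ξ).1 hξ)
      rw [hρ, map_zero] at h1
      exact h1
    rcases E.irr N.dualCoannihilator (fun x hx v hv => by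
        rw [Submodule.mem_dualCoannihilator] at hv ⊢
        intro ξ hξ
        have h1 := hv _ (hNst x hx ξ hξ)
        rw [LinearMap.sub_apply, LinearMap.smul_apply, hv ξ hξ, smul_zero, zero_sub,
          neg_eq_zero] at h1
        exact h1) with h | h
    · exfalso
      have h1 : N = ⊤ := by
        have h2 := Subspace.dualCoannihilator_dualAnnihilator_eq (W := N)
        rw [h, Submodule.dualAnnihilator_bot] at h2
        exact h2.symm
      have h2 : φ e0 ∈ N := by
        rw [h1]
        exact Submodule.mem_top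
      obtain ⟨v, h3, h4⟩ := hpr _ ((hN _).1 h2)
      have h5 : φ v = 0 := by
        rw [hu v 0 (by rw [← h3, map_zero]), map_zero]
      have h6 : φ e0 = 0 := by
        rw [← hφc e0]
        exact h4.trans h5
      rw [h6, LinearMap.zero_apply] at hφe
      exact zero_ne_one hφe
    · intro ξ hξ
      ext v
      have h1 : v ∈ N.dualCoannihilator := by
        rw [h]
        exact Submodule.mem_top
      exact (Submodule.mem_dualCoannihilator _).1 h1 ξ hξ
  have hN2 : ∀ v : V, (v, (0 : Dual K V)) ∈ Z → v = 0 := by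
    let N : Submodule K V := Z.comap (LinearMap.inl K V (Dual K V))
    have hN : ∀ v, v ∈ N ↔ (v, (0 : Dual K V)) ∈ Z := fun v => Iff.rfl
    rcases E.irr N (fun x hx v hv => by
        have h1 := hst x hx _ ((hN v).1 hv)
        rw [hρ, smul_zero, LinearMap.zero_comp, sub_zero] at h1
        exact h1) with h | h
    · intro v hv
      have h1 : v ∈ N := hv
      rwa [h, Submodule.mem_bot] at h1
    · exfalso
      have h2 : e0 ∈ N := by
        rw [h]
        exact Submodule.mem_top
      obtain ⟨v, h3, h4⟩ := hpr _ ((hN _).1 h2)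
      have h5 : φ e0 = φ v := hu e0 v h3
      rw [LinearMap.zero_comp] at h4
      rw [h5, ← h4, LinearMap.zero_apply] at hφe
      exact zero_ne_one hφe
  -- the projection to `V` is bijective
  have htop : Z.map (LinearMap.fst K V (Dual K V)) = ⊤ := by
    rcases E.irr (Z.map (LinearMap.fst K V (Dual K V))) (by
        rintro x hx _ ⟨p, hp, rfl⟩
        exact ⟨ρ x p, hst x hx p hp, rfl⟩) with h | h
    · exfalso
      have h1 : e0 ∈ Z.map (LinearMap.fst K V (Dual K V)) :=
        ⟨j e0, Submodule.subset_span (Or.inl ⟨e0, rfl⟩), hP0⟩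
      rw [h, Submodule.mem_bot] at h1
      rw [h1, map_zero] at h00
      exact zero_ne_one h00
    · exact h
  have hex : ∀ v, ∃ ξ : Dual K V, (v, ξ) ∈ Z := by
    intro v
    have h1 : v ∈ Z.map (LinearMap.fst K V (Dual K V)) := by
      rw [htop]
      exact Submodule.mem_top
    obtain ⟨⟨v', ξ⟩, h2, rfl⟩ := h1
    exact ⟨ξ, h2⟩
  have huq : ∀ v ξ ξ', (v, ξ) ∈ Z → (v, ξ') ∈ Z → ξ = ξ' := by
    intro v ξ ξ' h1 h2
    have h3 := Z.sub_mem h1 h2
    rw [Prod.mk_sub_mk, sub_self] at h3
    exact sub_eq_zero.1 (hN1 _ h3)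
  choose B hB using hex
  let BB : V →ₗ[K] Dual K V :=
    { toFun := B
      map_add' := fun v w => huq _ _ _ (hB _) (by
        have h1 := Z.add_mem (hB v) (hB w)
        rwa [Prod.mk_add_mk] at h1)
      map_smul' := fun s v => huq _ _ _ (hB _) (by
        have h1 := Z.smul_mem s (hB v)
        rwa [Prod.smul_mk] at h1) }
  refine ⟨BB, fun x hx => ⟨t / 2 * LinearMap.trace K V x, fun a b => ?_⟩, fun a ha => ?_⟩
  · have h1 := hst x hx _ (hB a)
    rw [hρ] at h1
    have h2 := huq _ _ _ (hB (x a)) h1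
    have h3 := LinearMap.congr_fun h2 b
    rw [LinearMap.sub_apply, LinearMap.smul_apply, LinearMap.comp_apply, smul_eq_mul] at h3
    change B (x a) b + B a (x b) = _ * B a b
    rw [h3]
    ring
  · have h1 : B a = 0 := LinearMap.ext ha
    refine hN2 a ?_
    rw [← h1]
    exact hB a

end Ex

end Pool.Agent.FQA
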