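import Pool.Agent.FQA.Spread
import Pool.Agent.FQ.TubeI
import Pool.Agent.Mod4.Final

/-!
# The symplectic kind

`T : TD g t` is a Lie algebra of similitudes of a symplectic form with a torus spanned by
idempotents, the roots of its lattice are connected, and the dimension is not a power of two
(except two and four). If an idempotent `e` is conjugate to `1 - e` then the algebra is full; it is
also full if its lattice is the lattice of a full algebra.
-/

set_option autoImplicit false
set_option linter.unusedSectionVars false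

namespace Pool.Agent.FQA

open Module Pool.Agent.CoprimeSig Pool.Agent.Mod4 Pool.Agent.NumRank
open Pool.Agent.PrimePow.CC (Rf Rt Lat)
open Pool.Agent.SmallRank (rk)
open Pool.Agent.OddRank (lieSpan subset_lieSpan lieSpan_lie lieSpan_le mm)

variable {K V : Type*} [Field K] [CharZero K] [IsAlgClosed K] [AddCommGroup V] [Module K V]
  [FiniteDimensional K V]

/-- An idempotent similitude, not zero or one, has multiplier one. -/
theorem mult_idem {ψ : V →ₗ[K] V →ₗ[K] K} (hnd : ∀ x, (∀ y, ψ x y = 0) → x = 0)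
    (halt : ∀ x, ψ x x = 0) {e : End K V} (hee : e * e = e) (h0 : e ≠ 0) (h1 : e ≠ 1) {κ : K}
    (h : ∀ a b, ψ (e a) b + ψ a (e b) = κ * ψ a b) (a b : V) :
    ψ (e a) b + ψ a (e b) = ψ a b := by
  have hee' : ∀ w, e (e w) = e w := fun w => LinearMap.congr_fun hee w
  have hskew : ∀ u w, ψ u w = -ψ w u := by
    intro u w
    have h1 := halt (u + w)
    simp only [map_add, LinearMap.add_apply, halt, zero_add, add_zero] at h1
    exact eq_neg_of_add_eq_zero_right h1
  have hnd' : ∀ y, (∀ x, ψ x y = 0) → y = 0 := fun y hy => hnd y fun x => by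
    rw [hskew, hy, neg_zero]
  -- `(2 - κ) ψ (e a) (e b) = 0` and `κ ψ ((1 - e) a) ((1 - e) b) = 0`
  have e1 : ∀ a b, (2 - κ) * ψ (e a) (e b) = 0 := by
    intro a b
    have h2 := h (e a) (e b)
    rw [hee', hee'] at h2
    linear_combination h2
  have e2 : ∀ a b, κ * ψ (a - e a) (b - e b) = 0 := by
    intro a b
    have hz : ∀ a, e (a - e a) = 0 := fun a => by rw [map_sub, hee', sub_self]
    have h2 := h (a - e a) (b - e b)
    rw [hz, hz, map_zero, map_zero, LinearMap.zero_apply, zero_add] at h2
    exact h2.symm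
  have e3 : ∀ a b, (1 - κ) * ψ (e a) (b - e b) = 0 := by
    intro a b
    have h2 := h (e a) (b - e b)
    rw [hee', map_sub e b, hee', sub_self, map_zero, add_zero] at h2
    linear_combination h2
  by_cases hκ : κ = 1
  · rw [h a b, hκ, one_mul]
  exfalso
  have h3 : ∀ a b, ψ (e a) (b - e b) = 0 := fun a b =>
    (mul_eq_zero.1 (e3 a b)).resolve_left (sub_ne_zero.2 (Ne.symm hκ))
  have h3' : ∀ a b, ψ (b - e b) (e a) = 0 := fun a b => by rw [hskew, h3, neg_zero]
  by_cases hκ0 : κ = 0
  · -- then `ψ (e a) (e b) = 0`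
    have h4 : ∀ a b, ψ (e a) (e b) = 0 := fun a b =>
      (mul_eq_zero.1 (e1 a b)).resolve_left (by rw [hκ0, sub_zero]; exact two_ne_zero)
    apply h0
    ext a
    refine hnd _ fun b => ?_
    have h5 := h3 a b
    rwa [map_sub, h4, sub_zero] at h5
  · have h4 : ∀ a b, ψ (a - e a) (b - e b) = 0 := fun a b =>
      (mul_eq_zero.1 (e2 a b)).resolve_left hκ0
    apply h1
    ext a
    rw [Module.End.one_apply, eq_comm, ← sub_eq_zero]
    refine hnd _ fun b => ?_
    have h5 := h4 a b
    rw [map_sub (ψ (a - e a)) b, h3', sub_zero] at h5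
    exact h5

/-- The idempotents of `g` which are not zero or one. -/
def NI (g : Submodule K (End K V)) : Set (End K V) := {e | e ∈ g ∧ e * e = e ∧ e ≠ 0 ∧ e ≠ 1}

/-- the conjugates of an idempotent are idempotents -/
theorem ni_add {g : Submodule K (End K V)} {e x : End K V} (he : e ∈ NI g) (hx : x ∈ g)
    (h : (e * x = x ∧ x * e = 0) ∨ (e * x = 0 ∧ x * e = x)) (hxx : x * x = 0) : e + x ∈ NI g := by
  obtain ⟨h1, h2, h3, h4⟩ := he
  refine ⟨g.add_mem h1 hx, ?_, ?_, ?_⟩
  · rw [mul_add, add_mul, add_mul, h2, hxx, add_zero]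
    rcases h with ⟨a, b⟩ | ⟨a, b⟩
    · rw [a, b, add_zero]
    · rw [a, b, add_zero]
  · intro h5
    have h6 : e = -x := eq_neg_of_add_eq_zero_left h5
    rw [h6, neg_mul_neg, hxx] at h2
    apply h3
    rw [h6, ← h2]
  · intro h5
    have h6 : e = 1 - x := eq_sub_of_add_eq h5
    have h7 : x = 0 := by
      rw [h6, mul_sub, mul_one, sub_mul, one_mul, hxx, sub_zero] at h2
      exact sub_eq_self.1 h2
    rw [h7, add_zero] at h5
    exact h4 h5

namespace TD

variable {g t : Submodule K (End K V)} (T : TD g t)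
include T

/-- The nontrivial idempotents act irreducibly. -/
theorem irr_ni [Nontrivial V] (W : Submodule K V) (hW : ∀ e ∈ NI g, ∀ w ∈ W, e w ∈ W) :
    W = ⊥ ∨ W = ⊤ := by
  -- the torus
  have ht : ∀ τ ∈ t, ∀ w ∈ W, τ w ∈ W := by
    intro τ hτ w hw
    have h1 := T.idem τ hτ
    clear hτ
    induction h1 using Submodule.span_induction with
    | mem z hz =>
      rcases hz with hz | hz
      · rw [Set.mem_singleton_iff.1 hz]
        exact hw
      · by_cases h0 : z = 0
        · rw [h0]
          exact W.zero_mem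
        by_cases h1 : z = 1
        · rw [h1]
          exact hw
        exact hW z ⟨T.le hz.1, hz.2, h0, h1⟩ w hw
    | zero => exact W.zero_mem
    | add a b _ _ ha hb => exact W.add_mem ha hb
    | smul c a _ ha => exact W.smul_mem c ha
  refine T.irr W fun x hx w hw => ?_
  have h1 := mem_span_roots T.toCartan hx
  clear hx
  induction h1 using Submodule.span_induction with
  | mem z hz =>
    obtain ⟨α, hz⟩ := hz
    by_cases hz0 : z = 0
    · rw [hz0]
      exact W.zero_mem
    by_cases hα : ∃ τ ∈ t, α τ ≠ 0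
    · obtain ⟨e, he, hee, hαe⟩ := T.exists_idem hz hz0 hα
      have hne0 : e ≠ 0 := by
        rintro rfl
        have h1 := hz.root 0 he
        rw [zero_mul, mul_zero, sub_zero] at h1
        exact (smul_ne_zero hαe hz0) h1.symm
      have hne1 : e ≠ 1 := by
        rintro rfl
        have h1 := hz.root 1 he
        rw [one_mul, mul_one, sub_self] at h1
        exact (smul_ne_zero hαe hz0) h1.symm
      have heN : e ∈ NI g := ⟨T.le he, hee, hne0, hne1⟩
      have hr := hz.root e he
      -- `z` has degree one or minus one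
      have hcase : (e * z = z ∧ z * e = 0) ∨ (e * z = 0 ∧ z * e = z) := by
        have h2 : e * z * e = 0 := by
          have h3 := congrArg (fun y => e * y * e) hr
          simp only [mul_sub, sub_mul, mul_smul_comm, smul_mul_assoc] at h3
          have h4 : e * (e * z) * e = e * z * e := by rw [← mul_assoc, hee]
          have h5 : e * (z * e) * e = e * z * e := by
            rw [← mul_assoc, mul_assoc (e * z) e e, hee]
          rw [h4, h5, sub_self] at h3
          exact (smul_eq_zero.1 h3.symm).resolve_left hαe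
        have h4 : e * z = α e • (e * z) := by
          have h3 := congrArg (fun y => e * y) hr
          simp only [mul_sub, mul_smul_comm] at h3
          rwa [← mul_assoc, hee, ← mul_assoc, h2, sub_zero] at h3
        have h5 : -(z * e) = α e • (z * e) := by
          have h3 := congrArg (fun y => y * e) hr
          simp only [sub_mul, smul_mul_assoc] at h3
          rwa [h2, mul_assoc, hee, zero_sub] at h3
        by_cases h6 : e * z = 0
        · right
          refine ⟨h6, ?_⟩
          have h7 : z * e ≠ 0 := by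
            intro h8
            rw [h6, h8, sub_zero] at hr
            exact (smul_ne_zero hαe hz0) hr.symm
          have h8 : α e = -1 := by
            have h9 : (α e + 1) • (z * e) = 0 := by rw [add_smul, one_smul, ← h5, neg_add_cancel]
            exact eq_neg_of_add_eq_zero_left ((smul_eq_zero.1 h9).resolve_right h7)
          rw [h6, zero_sub, h8, neg_smul, one_smul, neg_inj] at hr
          exact hr
        · left
          have h8 : α e = 1 := by
            have h9 : (α e - 1) • (e * z) = 0 := by rw [sub_smul, one_smul, ← h4, sub_self]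
            exact sub_eq_zero.1 ((smul_eq_zero.1 h9).resolve_right h6)
          have h10 : z * e = 0 := by
            rw [h8, one_smul] at h5
            have h11 : (2 : K) • (z * e) = 0 := by
              rw [two_smul]
              nth_rewrite 1 [← h5]
              exact neg_add_cancel _
            exact (smul_eq_zero.1 h11).resolve_left two_ne_zero
          rw [h10, sub_zero, h8, one_smul] at hr
          exact ⟨hr, h10⟩
      have hzz : z * z = 0 := by
        rcases hcase with ⟨a, b⟩ | ⟨a, b⟩
        · nth_rewrite 2 [← a]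
          rw [← mul_assoc, b, zero_mul]
        · nth_rewrite 1 [← b]
          rw [mul_assoc, a, mul_zero]
      have h2 := hW _ (ni_add heN hz.mem hcase hzz) w hw
      have h3 := W.sub_mem h2 (hW e heN w hw)
      rwa [LinearMap.add_apply, add_sub_cancel_left] at h3
    · push Not at hα
      refine ht z (T.cent z hz.mem fun τ hτ => ?_) w hw
      have h4 := hz.root τ hτ
      rw [hα τ hτ, zero_smul, sub_eq_zero] at h4
      exact h4.symm
  | zero => exact W.zero_mem
  | add a b _ _ ha hb => exact W.add_mem ha hb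
  | smul c a _ ha => exact W.smul_mem c ha

variable {ψ : V →ₗ[K] V →ₗ[K] K} (halt : ∀ x, ψ x x = 0) (hnd : ∀ x, (∀ y, ψ x y = 0) → x = 0)
  (hsim : ∀ x ∈ g, ∃ κ : K, ∀ a b, ψ (x a) b + ψ a (x b) = κ * ψ a b)
include halt hnd hsim

/-- The case of dimension four or two modulo four. -/
theorem skew_of_mod4 (hdim : finrank K V % 4 = 2 ∨ finrank K V = 4) {D : End K V}
    (hD : ∀ a b, ψ (D a) b + ψ a (D b) = 0) : D ∈ g := by
  have hnt : Nontrivial V := by
    rw [← finrank_pos_iff (R := K)]
    omega
  have hle : lieSpan (NI g) ≤ g := lieSpan_le (fun e he => he.1) T.lie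
  have hψ : ∀ e ∈ NI g, ∀ u v, ψ (e u) v + ψ u (e v) = ψ u v := fun e he => by
    obtain ⟨κ, h⟩ := hsim e he.1
    exact mult_idem hnd halt he.2.1 he.2.2.1 he.2.2.2 h
  obtain ⟨N, hN, hNN, hr⟩ := exists_nilp (G := NI g) (fun e he => he.2.1) T.irr_ni halt hnd hψ
    (fun D hD => hsim D (hle hD)) hdim
  refine OddRank.skew_mem halt hnd (fun u v => ?_) hD
  rcases hr with hr | hr
  · exact OddRank.irred halt hnd T.lie hsim (fun e he => he.1) (fun e he => he.2.1) hψ T.irr_ni
      (hle hN) hNN hr u v
  · exact OddRank.irred_two halt hnd T.lie hsim (fun e he => he.1) (fun e he => he.2.1) hψ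
      T.irr_ni (hle hN) hNN hr u v

omit halt hnd hsim in
/-- From skew operators to similitudes. -/
theorem sim_of_skew (h : ∀ D : End K V, (∀ a b, ψ (D a) b + ψ a (D b) = 0) → D ∈ g) {D : End K V}
    (hD : ∃ κ : K, ∀ a b, ψ (D a) b + ψ a (D b) = κ * ψ a b) : D ∈ g := by
  obtain ⟨κ, hκ⟩ := hD
  have h1 : D - (κ / 2) • 1 ∈ g := h _ fun a b => by
    simp only [LinearMap.sub_apply, LinearMap.smul_apply, Module.End.one_apply, map_sub, map_smul,
      smul_eq_mul]
    have h2 := hκ a b
    linear_combination h2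
  have h2 := g.add_mem h1 (g.smul_mem (κ / 2) T.hone)
  rwa [sub_add_cancel] at h2

variable {I : Type} [Fintype I] (v : Basis I K V)
  (hv : ∀ x ∈ t, ∀ i, ∃ c : K, x (v i) = c • v i)
  (hcn : ∀ h h', Rt (Lv t v) h → Rt (Lv t v) h' → Cn (Lv t v) h h')
  (hn : ∀ m, 3 ≤ m → finrank K V ≠ 2 ^ m) {e : End K V} (he : e ∈ t) (hee : e * e = e)
  (hmul : ∀ a b, ψ (e a) b + ψ a (e b) = ψ a b)
include v hv hcn hn he hee hmul

omit T hv hcn hn he v hsim in
theorem ne_idem [Nontrivial V] : e ≠ 0 ∧ e ≠ 1 := by
  obtain ⟨a, ha⟩ := exists_ne (0 : V)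
  constructor
  · rintro rfl
    refine ha (hnd a fun b => ?_)
    have h1 := hmul a b
    simpa using h1.symm
  · rintro rfl
    refine ha (hnd a fun b => ?_)
    have h1 := hmul a b
    rw [Module.End.one_apply, Module.End.one_apply] at h1
    linear_combination h1

/-- Either the dimension is four or two modulo four or `g` is simple. -/
theorem gr_or [Nontrivial V] : (finrank K V % 4 = 2 ∨ finrank K V = 4) ∨ SmallRank.Gr g e := by
  obtain ⟨h0, h1⟩ := ne_idem halt hnd hee hmul
  by_cases h4 : finrank K V % 4 = 2 ∨ finrank K V = 4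
  · exact Or.inl h4
  · right
    push Not at h4
    have hbal := SmallRank.two_rk hnd hee hmul
    have hpos : 0 < finrank K V := finrank_pos
    refine T.gr v hv hcn (fun m h => ?_) (T.le he) hee h0 h1
    rcases m with _ | _ | _ | m
    · rw [pow_zero] at h
      omega
    · rw [zero_add, pow_one] at h
      exact h4.1 (by rw [h])
    · exact h4.2 (by rw [h]; rfl)
    · exact hn (m + 3) (by omega) h

/-- (S6) -/
theorem full_of_conj {u : (End K V)ˣ} (hu : u ∈ FQ.expG K g)
    (hue : (u : End K V) * e * ((u⁻¹ : (End K V)ˣ) : End K V) = 1 - e) {D : End K V}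
    (hD : ∃ κ : K, ∀ a b, ψ (D a) b + ψ a (D b) = κ * ψ a b) : D ∈ g := by
  rcases subsingleton_or_nontrivial V with hV | hV
  · have : D = 0 := LinearMap.ext fun w => Subsingleton.elim _ _
    rw [this]
    exact g.zero_mem
  refine T.sim_of_skew (fun D hD => ?_) hD
  rcases T.gr_or halt hnd hsim v hv hcn hn he hee hmul with h4 | G
  · exact T.skew_of_mod4 halt hnd hsim h4 hD
  · have h2e : (2 : K) • e - 1 ∈ g := g.sub_mem (g.smul_mem _ G.mem) G.one
    obtain ⟨x, hx, hex, hxe, hinj⟩ := FQ.exists_tube G.lie hee h2e hu hue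
    have H : Tube.GD ψ g e := ⟨halt, hnd, G.lie, hsim, G.idem, hmul,
      fun a ha => G.lie e G.mem a ha⟩
    refine H.skew_mem_of_tube (x := x) ⟨hx, hex, hxe⟩ hinj (fun W h1 h2 => ?_)
      (fun m hm => hn m (by omega)) hD
    exact G.irr_ud (fun a ha w hw => h1 a ⟨ha.1, ha.2.1, ha.2.2⟩ w hw)
      (fun a ha w hw => h2 a ⟨ha.1, ha.2.1, ha.2.2⟩ w hw)

/-- (S4) -/
theorem spread {V' : Type*} [AddCommGroup V'] [Module K V'] [FiniteDimensional K V']
    {g' t' : Submodule K (End K V')} (T' : TD g' t') (v' : Basis I K V')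
    (hv' : ∀ x ∈ t', ∀ i, ∃ c : K, x (v' i) = c • v' i) (hL : Lv t v = Lv t' v')
    {ψ' : V' →ₗ[K] V' →ₗ[K] K} (halt' : ∀ x, ψ' x x = 0) (hnd' : ∀ x, (∀ y, ψ' x y = 0) → x = 0)
    (hsim' : ∀ x ∈ g', ∃ κ : K, ∀ a b, ψ' (x a) b + ψ' a (x b) = κ * ψ' a b)
    (hfull' : ∀ D : End K V', (∃ κ : K, ∀ a b, ψ' (D a) b + ψ' a (D b) = κ * ψ' a b) → D ∈ g')
    {D : End K V} (hD : ∃ κ : K, ∀ a b, ψ (D a) b + ψ a (D b) = κ * ψ a b) : D ∈ g := by
  rcases subsingleton_or_nontrivial V with hV | hV
  · have : D = 0 := LinearMap.ext fun w => Subsingleton.elim _ _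
    rw [this]
    exact g.zero_mem
  have hV' : Nontrivial V' := by
    have h1 : Nonempty I := v.index_nonempty
    obtain ⟨i⟩ := h1
    exact ⟨⟨v' i, 0, v'.ne_zero i⟩⟩
  refine T.sim_of_skew (fun D hD => ?_) hD
  rcases T.gr_or halt hnd hsim v hv hcn hn he hee hmul with h4 | G
  · exact T.skew_of_mod4 halt hnd hsim h4 hD
  · exact FQA.spread G T.le v halt hnd hsim hmul T'.toCartan v' hv' (T'.hmult v' hv') halt' hnd'
      hsim' (fun D hD => hfull' D ⟨0, fun a b => by rw [hD a b, zero_mul]⟩) (Equiv.refl I)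
      (fun f hf => by rw [hL]; exact hf) hD

end TD

end Pool.Agent.FQA
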