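import Pool.Agent.SmallRank.Symp
import Pool.Agent.TypeIV.Single

/-!
# An element of square zero and rank one, and no invariant form (PACKAGE FX5)

Proof. Apply `TypeIV.sl_mem` (`Pool/Agent/TypeIV/Single.lean`, check its namespace) with the set
`S` of
the idempotents `E ∈ g` with `E ≠ 0`, `E ≠ 1`.

`e ∈ S`, and `e + x ∈ S` for `x ∈ up g e`: `(e + x) * (e + x) = e + e * x + x * e + x * x = e + x`
(`Gr.up_mul_up`);
`(e + x) * e = e ≠ 0`, and if `e + x = 1` then `e = (e + x) * e = e`, so multiply by `e` from the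
left:
`e + x = e * 1 = e`, `x = 0`, `e = 1`, a contradiction. `e + y ∈ S` for `y ∈ dn g e` in the same
way.

`hirr`: a subspace stable under `S` is stable under `e`, `e + x`, `e + y`, so under `up g e`,
`dn g e`;
`Gr.irr_ud` (`Pool/Agent/SmallRank/Symp.lean`).

`hnsd`: let `φ` be a form with `(∀ x, (∀ y, φ x y = 0) → x = 0)` and suppose
`φ (E u) v + φ u (E v) = φ u v` for all
`E ∈ S`. By differences `φ (x u) v + φ u (x v) = 0` for `x ∈ up g e` and for `x ∈ dn g e`. Then
every `z ∈ g` has a
multiplier `κ`: `Gr.decomp`, `Gr.up_mem`, `Gr.dn_mem`, and for the degree zero part `z0`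
(`Gr.zero_mem`, `Gr.zero_comm`) `zero_span` (`Pool/Agent/SmallRank/ZeroPart.lean`) gives
`z0 = κ • 1 + s`, `s` in the span of the
commutators `x * y - y * x`, and these commutators satisfy `φ (d u) v + φ u (d v) = 0` (compare
`skew_comm` in
`Pool/Agent/SmallRank/Symp.lean`); the multiplier of `κ • 1` is `2 * κ`. By `hnf`: `φ = 0`, against
nondegeneracy
(`G.nontrivial`).

So every `Z` with trace zero is in `g`. A general `D` is `(D - (trace D / n) • 1) + (trace D / n) •
1` with `G.one`. -/

set_option autoImplicit false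
set_option linter.unusedSectionVars false

namespace Pool.Agent.FQA

open Module Pool.Agent.SmallRank

variable {K V : Type*} [Field K] [CharZero K] [IsAlgClosed K] [AddCommGroup V] [Module K V]
  [FiniteDimensional K V]

theorem full_of_rank_one {g : Submodule K (End K V)} {e : End K V} (G : Gr g e)
    (hnf : ∀ B : V →ₗ[K] V →ₗ[K] K,
      (∀ x ∈ g, ∃ κ : K, ∀ a b, B (x a) b + B a (x b) = κ * B a b) → B = 0)
    {N : End K V} (hN : N ∈ g) (hNN : N * N = 0) (h1 : rk N = 1) (D : End K V) : D ∈ g := by
  obtain ⟨S, hS⟩ : ∃ S : Set (End K V), S = {a | a ∈ g ∧ a * a = a ∧ a ≠ 0 ∧ a ≠ 1} := ⟨_, rfl⟩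
  have he : e ∈ S := by
    rw [hS]
    exact ⟨G.mem, G.idem, G.ne0, G.ne1⟩
  have hxm : ∀ x ∈ up g e, e + x ∈ S := by
    intro x hx
    rw [hS]
    refine ⟨g.add_mem G.mem hx.1, ?_, ?_, ?_⟩
    · rw [mul_add, add_mul, add_mul, G.idem, hx.2.1, hx.2.2, Gr.up_mul_up hx hx, add_zero,
        add_zero]
    · intro h
      apply G.ne0
      have h2 : (e + x) * e = e := by rw [add_mul, G.idem, hx.2.2, add_zero]
      rw [← h2, h, zero_mul]
    · intro h
      apply G.ne1
      have h2 : e * (e + x) = e + x := by rw [mul_add, G.idem, hx.2.1]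
      rw [h, mul_one] at h2
      exact h2
  have hym : ∀ y ∈ dn g e, e + y ∈ S := by
    intro y hy
    rw [hS]
    refine ⟨g.add_mem G.mem hy.1, ?_, ?_, ?_⟩
    · rw [mul_add, add_mul, add_mul, G.idem, hy.2.1, hy.2.2, Gr.dn_mul_dn hy hy, add_zero,
        add_zero]
    · intro h
      apply G.ne0
      have h2 : e * (e + y) = e := by rw [mul_add, G.idem, hy.2.1, add_zero]
      rw [← h2, h, mul_zero]
    · intro h
      apply G.ne1
      have h2 : (e + y) * e = e + y := by rw [add_mul, G.idem, hy.2.2]
      rw [h, one_mul] at h2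
      exact h2
  have hirr : ∀ W : Submodule K V, (∀ a ∈ S, ∀ w ∈ W, a w ∈ W) → W = ⊥ ∨ W = ⊤ := by
    intro W hW
    refine G.irr_ud (fun x hx w hw => ?_) fun y hy w hw => ?_
    · have h2 : x w = (e + x) w - e w := by simp
      rw [h2]
      exact W.sub_mem (hW _ (hxm x hx) w hw) (hW _ he w hw)
    · have h2 : y w = (e + y) w - e w := by simp
      rw [h2]
      exact W.sub_mem (hW _ (hym y hy) w hw) (hW _ he w hw)
  have hnt : ¬ ∀ x : V, x = 0 := by
    intro h
    apply G.ne0
    ext x
    rw [h x, map_zero, map_zero]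
  have hnsd : ∀ φ : V →ₗ[K] V →ₗ[K] K, (∀ x, (∀ y, φ x y = 0) → x = 0) →
      ∃ a ∈ S, ∃ u v, φ (a u) v + φ u (a v) ≠ φ u v := by
    intro φ hφ
    by_contra hcon
    push Not at hcon
    have hx0 : ∀ x ∈ up g e, ∀ u v, φ (x u) v + φ u (x v) = (0 : K) * φ u v := by
      intro x hx u v
      have h2 := hcon e he u v
      have h3 := hcon _ (hxm x hx) u v
      simp only [LinearMap.add_apply, map_add] at h3
      linear_combination h3 - h2
    have hy0 : ∀ y ∈ dn g e, ∀ u v, φ (y u) v + φ u (y v) = (0 : K) * φ u v := by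
      intro y hy u v
      have h2 := hcon e he u v
      have h3 := hcon _ (hym y hy) u v
      simp only [LinearMap.add_apply, map_add] at h3
      linear_combination h3 - h2
    have hzero : φ = 0 := by
      apply hnf
      intro z hz
      obtain ⟨u0, d0, z0, hdec, hu0, hd0, hz0, hz0e⟩ : ∃ u0 d0 z0 : End K V,
          z = u0 + d0 + z0 ∧ u0 ∈ up g e ∧ d0 ∈ dn g e ∧ z0 ∈ g ∧ e * z0 = z0 * e :=
        ⟨_, _, _, G.decomp z, G.up_mem hz, G.dn_mem hz, G.zero_mem hz, G.zero_comm z⟩
      obtain ⟨κ, hκ⟩ := zero_span G hz0 hz0e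
      have h2 : ∀ s ∈ Submodule.span K {d | ∃ x ∈ up g e, ∃ y ∈ dn g e, d = x * y - y * x},
          ∀ a b, φ (s a) b + φ a (s b) = 0 := by
        intro s hs
        induction hs using Submodule.span_induction with
        | mem d hd' =>
          obtain ⟨x, hx, y, hy, rfl⟩ := hd'
          exact skew_comm (hx0 x hx) (hy0 y hy)
        | zero =>
          intro a b
          simp
        | add s t _ _ hs ht =>
          intro a b
          have h3 := hs a b
          have h4 := ht a b
          simp only [LinearMap.add_apply, map_add]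
          linear_combination h3 + h4
        | smul c s _ hs =>
          intro a b
          have h3 := hs a b
          simp only [LinearMap.smul_apply, map_smul, smul_eq_mul]
          linear_combination c * h3
      refine ⟨2 * κ, fun a b => ?_⟩
      have h3 := h2 _ hκ a b
      have h4 := hx0 _ hu0 a b
      have h5 := hy0 _ hd0 a b
      rw [hdec]
      simp only [LinearMap.add_apply, LinearMap.sub_apply, LinearMap.smul_apply, map_add, map_sub,
        map_smul, smul_eq_mul, Module.End.one_apply] at h3 ⊢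
      linear_combination h3 + h4 + h5
    apply hnt
    intro x
    apply hφ
    intro y
    rw [hzero]
    rfl
  have hsl : ∀ Z : End K V, LinearMap.trace K V Z = 0 → Z ∈ g := by
    intro Z hZ
    refine TypeIV.sl_mem (G := S) G.lie ?_ ?_ ?_ hirr hnsd hN hNN h1 hZ
    · intro a ha
      rw [hS] at ha
      exact ha.1
    · intro a ha
      rw [hS] at ha
      exact ha.2.1
    · intro a ha
      rw [hS] at ha
      exact ha.2.2
  have hV : Nontrivial V := by
    by_contra h
    rw [not_nontrivial_iff_subsingleton] at h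
    exact hnt fun x => Subsingleton.elim _ _
  have hn : (finrank K V : K) ≠ 0 := by
    have : finrank K V ≠ 0 := (finrank_pos (R := K) (M := V)).ne'
    exact_mod_cast this
  have h2 : D = (D - (LinearMap.trace K V D / (finrank K V : K)) • (1 : End K V)) +
      (LinearMap.trace K V D / (finrank K V : K)) • (1 : End K V) := by
    abel
  rw [h2]
  refine g.add_mem (hsl _ ?_) (g.smul_mem _ G.one)
  rw [map_sub, map_smul, LinearMap.trace_one, smul_eq_mul, div_mul_cancel₀ _ hn, sub_self]

end Pool.Agent.FQA
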