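import Pool.Agent.FQA.Rho
import Pool.Agent.FQA.SlOne
import Pool.Agent.FQA.Form
import Pool.Agent.FQA.Full

/-!
# The type without invariant forms (PACKAGE FX6, assembly)

`sl_of_inv`: `exists_rho` gives `c f ρ`, `B : Pr g e c f ρ`, `ρ = 1 ∨ ρ = 2`. If `ρ = 1` then
`full_of_rank_one` with `N = c` (`B.cc`, `B.rkc`, `B.cu.1`). If `ρ = 2`: if there is `d ∈ g` with
`d * d = 0`, `rk d = 1` then
`full_of_rank_one`. Otherwise `Ex g c f` (`Pool/Agent/FQA/Ex.lean`; `B.G.lie`, `B.G.irr`,
`B.G.one`, `B.cc`, `B.ff`, `B.cfc`, `B.fcf`, `B.rkc`),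
and `Ex.exists_form` (`Pool/Agent/FQA/Form.lean`, `hsimple` is `B.G.simple`) gives an invariant form
`B0`, which is zero by `hnf`;
this contradicts the nondegeneracy (`G.nontrivial`).

`TD.sl_of_conj`: by `T.gr` (`Pool/Agent/FQA/Iface.lean`) `SmallRank.Gr g e` (see the proof of
`TD.gr_or` in `Pool/Agent/FQA/Full.lean` for the use of `T.gr` and of `T.one`; here `e ≠ 0` and
`e ≠ 1` because
`u * e * u⁻¹ = 1 - e` and `V` is nontrivial: `e = 0` would give `1 - e = 0`). `trace e = trace (1 -
e)`
(`LinearMap.trace_mul_comm` or `trace_mul_cycle`), so `2 * rk e = finrank K V`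
(`trace_idem`). `FQ.exists_tube` (`Pool/Agent/FQ/TubeI.lean`; `2 • e - 1 ∈ g`) gives `x ∈ g`,
`e * x = x`, `x * e = 0`, injective on the kernel of `e`. Then `sl_of_inv`.

`TD.sl_spread`: Let `n = card I`. First `T'.toCartan.cent` (or the like: `CoprimeSig.Cartan`) shows
that
every operator which is diagonal in the basis `v'` is in `t'` (it commutes with every element of
`t'` by `hv'`, and
it is in `g'` by `hfull`). So for every `i` the function `Pi.single i 1` is in `Lv t' v' = Lv t v`
(`NumRank.Lv`, see the proof of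
`exists_tw` in `Pool/Agent/FQA/Spread.lean`), i.e. there is `τ ∈ t` with `τ (v i) = v i`,
`τ (v j) = 0` for `j ≠ i`. Fix `i` (`I` is not empty
as `V` is nontrivial). `τ * τ = τ`, `τ ≠ 0`, `τ ≠ 1` (`1 < finrank K V`: there is `j ≠ i`), `rk τ =
1` (the range is the line of `v i`).
`T.gr` gives `G : Gr g τ`. `exists_up G` gives `0 ≠ x ∈ up g τ`; `rk x ≤ rk τ = 1`
(`τ * x = x`, `rk_mul_left`), so `rk x = 1` (`rk_pos`), `x * x = 0` (`Gr.up_mul_up`). Conclude by
`full_of_rank_one`. -/

set_option autoImplicit false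
set_option linter.unusedSectionVars false

namespace Pool.Agent.FQA

open Module Pool.Agent.SmallRank
open Pool.Agent.NumRank (Lv)
open Pool.Agent.PrimePow.CC (Rt)

variable {K V : Type*} [Field K] [CharZero K] [IsAlgClosed K] [AddCommGroup V] [Module K V]
  [FiniteDimensional K V]

/-- An irreducible Lie algebra which contains the diagonal operators of a basis is full. -/
private theorem sl_direct {g : Submodule K (End K V)} {I : Type} [Fintype I] [DecidableEq I]
    (hlie : ∀ x ∈ g, ∀ y ∈ g, x * y - y * x ∈ g)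
    (hirr : ∀ U : Submodule K V, (∀ a ∈ g, ∀ w ∈ U, a w ∈ U) → U = ⊥ ∨ U = ⊤)
    (v : Basis I K V)
    (hτ : ∀ i, ∃ τ ∈ g, ∀ k, τ (v k) = if k = i then v i else 0) (D : End K V) : D ∈ g := by
  choose τ hτg hτv using hτ
  let E : I → I → End K V := fun i j => v.constr K fun k => if k = j then v i else 0
  have hE : ∀ i j k, E i j (v k) = if k = j then v i else 0 := fun i j k =>
    v.constr_basis K _ k
  have hEE : ∀ i, E i i = τ i := fun i => v.ext fun k => by rw [hE, hτv]
  have hid : ∀ i, τ i * τ i = τ i := by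
    intro i
    refine v.ext fun k => ?_
    rw [Module.End.mul_apply, hτv]
    split_ifs
    · rw [hτv, if_pos rfl]
    · rw [map_zero]
  have hort : ∀ i j, i ≠ j → τ i * τ j = 0 := by
    intro i j hij
    refine v.ext fun k => ?_
    rw [Module.End.mul_apply, hτv, LinearMap.zero_apply]
    split_ifs
    · rw [hτv, if_neg hij.symm]
    · rw [map_zero]
  have hτw : ∀ i w, τ i w = v.repr w i • v i := by
    intro i w
    conv_lhs => rw [← v.sum_repr w, map_sum]
    rw [Finset.sum_eq_single i]
    · rw [map_smul, hτv, if_pos rfl]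
    · intro k _ hk
      rw [map_smul, hτv, if_neg hk, smul_zero]
    · intro h
      exact absurd (Finset.mem_univ i) h
  have h2 : (2 : K) ≠ 0 := two_ne_zero
  -- the components
  have hup : ∀ e ∈ g, e * e = e → ∀ x ∈ g, e * x * (1 - e) ∈ g := by
    intro e he hee x hx
    have h3 := hlie _ he _ hx
    have h4 := hlie _ he _ h3
    have h5 := g.smul_mem (2⁻¹ : K) (g.add_mem h3 h4)
    have h6 : (2⁻¹ : K) • (e * x - x * e + (e * (e * x - x * e) - (e * x - x * e) * e)) =
        e * x * (1 - e) := by
      rw [inv_smul_eq_iff₀ h2, two_smul, mul_sub, sub_mul, ← mul_assoc, hee, mul_assoc x e e, hee,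
        ← mul_assoc, mul_sub, mul_one]
      abel
    rwa [h6] at h5
  have hdn : ∀ e ∈ g, e * e = e → ∀ x ∈ g, (1 - e) * x * e ∈ g := by
    intro e he hee x hx
    have h3 := hlie _ he _ hx
    have h4 := hlie _ he _ h3
    have h5 := g.smul_mem (2⁻¹ : K) (g.sub_mem h4 h3)
    have h6 : (2⁻¹ : K) • (e * (e * x - x * e) - (e * x - x * e) * e - (e * x - x * e)) =
        (1 - e) * x * e := by
      rw [inv_smul_eq_iff₀ h2, two_smul, mul_sub, sub_mul, ← mul_assoc, hee, mul_assoc x e e, hee,
        ← mul_assoc, sub_mul, sub_mul, one_mul]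
      abel
    rwa [h6] at h5
  have hcomp : ∀ x ∈ g, ∀ i j, i ≠ j → τ i * x * τ j ∈ g := by
    intro x hx i j hij
    have h3 := hdn _ (hτg j) (hid j) _ (hup _ (hτg i) (hid i) x hx)
    have h4 : (1 - τ j) * (τ i * x * (1 - τ i)) * τ j = τ i * x * τ j := by
      have h5 : (1 - τ j) * (τ i * x * (1 - τ i)) = τ i * x * (1 - τ i) := by
        rw [sub_mul, one_mul, ← mul_assoc, ← mul_assoc, hort j i hij.symm, zero_mul, zero_mul,
          sub_zero]
      rw [h5, mul_assoc, sub_mul, one_mul, hort i j hij, sub_zero]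
    rwa [h4] at h3
  have hunit : ∀ x ∈ g, ∀ i j, i ≠ j → v.repr (x (v j)) i ≠ 0 → E i j ∈ g := by
    intro x hx i j hij h0
    have h3 : τ i * x * τ j = v.repr (x (v j)) i • E i j := by
      refine v.ext fun k => ?_
      rw [LinearMap.smul_apply, hE, Module.End.mul_apply, Module.End.mul_apply, hτv]
      split_ifs
      · rw [hτw]
      · rw [map_zero, map_zero, smul_zero]
    have h4 := g.smul_mem (v.repr (x (v j)) i)⁻¹ (hcomp x hx i j hij)
    rwa [h3, smul_smul, inv_mul_cancel₀ h0, one_smul] at h4
  -- all matrix units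
  have hall : ∀ i j, E i j ∈ g := by
    intro i j
    by_cases hij : i = j
    · rw [hij, hEE]
      exact hτg j
    let S : Set I := {i | i = j ∨ E i j ∈ g}
    have hst : ∀ a ∈ g, ∀ w ∈ Submodule.span K (v '' S), a w ∈ Submodule.span K (v '' S) := by
      intro a ha w hw
      induction hw using Submodule.span_induction with
      | mem w hw =>
        obtain ⟨i, hi, rfl⟩ := hw
        rw [← v.sum_repr (a (v i))]
        refine Submodule.sum_mem _ fun k _ => ?_
        by_cases h0 : v.repr (a (v i)) k = 0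
        · rw [h0, zero_smul]
          exact Submodule.zero_mem _
        refine Submodule.smul_mem _ _ (Submodule.subset_span ⟨k, ?_, rfl⟩)
        by_cases hki : k = i
        · rw [hki]
          exact hi
        have h3 := hunit a ha k i hki h0
        rcases hi with hi | hi
        · right
          rw [← hi]
          exact h3
        · by_cases hkj : k = j
          · exact Or.inl hkj
          · right
            have h4 := hlie _ h3 _ hi
            have h5 : E k i * E i j - E i j * E k i = E k j := by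
              refine v.ext fun l => ?_
              rw [LinearMap.sub_apply, Module.End.mul_apply, Module.End.mul_apply, hE, hE, hE]
              have h6 : (E i j) (if l = i then v k else 0) = 0 := by
                split_ifs
                · rw [hE, if_neg hkj]
                · rw [map_zero]
              rw [h6, sub_zero]
              split_ifs
              · rw [hE, if_pos rfl]
              · rw [map_zero]
            rwa [h5] at h4
      | zero =>
        rw [map_zero]
        exact Submodule.zero_mem _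
      | add p q _ _ hp hq =>
        rw [map_add]
        exact Submodule.add_mem _ hp hq
      | smul s p _ hp =>
        rw [map_smul]
        exact Submodule.smul_mem _ _ hp
    have hmem : ∀ i, v i ∈ Submodule.span K (v '' S) → i ∈ S := by
      intro i hi
      rw [v.mem_span_image, v.repr_self] at hi
      refine hi ?_
      rw [Finset.mem_coe, Finsupp.mem_support_iff, Finsupp.single_eq_same]
      exact one_ne_zero
    rcases hirr _ hst with h | h
    · exfalso
      have h3 : v j ∈ Submodule.span K (v '' S) := Submodule.subset_span ⟨j, Or.inl rfl, rfl⟩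
      rw [h, Submodule.mem_bot] at h3
      exact v.ne_zero j h3
    · exact (hmem i (by rw [h]; exact Submodule.mem_top)).resolve_left hij
  have hD : D = ∑ j, ∑ i, v.repr (D (v j)) i • E i j := by
    refine v.ext fun k => ?_
    rw [LinearMap.sum_apply, Finset.sum_eq_single k]
    · rw [LinearMap.sum_apply]
      conv_lhs => rw [← v.sum_repr (D (v k))]
      refine Finset.sum_congr rfl fun i _ => ?_
      rw [LinearMap.smul_apply, hE, if_pos rfl]
    · intro j _ hj
      rw [LinearMap.sum_apply]
      refine Finset.sum_eq_zero fun i _ => ?_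
      rw [LinearMap.smul_apply, hE, if_neg hj.symm, smul_zero]
    · intro h
      exact absurd (Finset.mem_univ k) h
  rw [hD]
  exact Submodule.sum_mem _ fun j _ => Submodule.sum_mem _ fun i _ =>
    g.smul_mem _ (hall i j)

theorem sl_of_inv {g : Submodule K (End K V)} {e : End K V} (G : Gr g e)
    (hnf : ∀ B : V →ₗ[K] V →ₗ[K] K,
      (∀ x ∈ g, ∃ κ : K, ∀ a b, B (x a) b + B a (x b) = κ * B a b) → B = 0)
    (hbal : 2 * rk e = finrank K V) {u : End K V} (hu : u ∈ up g e)
    (hinj : ∀ v, e v = 0 → u v = 0 → v = 0) (hn : ∀ m : ℕ, finrank K V ≠ 2 ^ m)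
    (D : End K V) : D ∈ g := by
  obtain ⟨c, f, ρ, B, hρ, -⟩ := exists_rho G hbal hu hinj hn
  rcases hρ with h1 | h2
  · exact full_of_rank_one G hnf B.cu.1 B.cc (B.rkc.trans h1) D
  · by_cases hd : ∃ d ∈ g, d * d = 0 ∧ rk d = 1
    · obtain ⟨d, hd, hdd, h3⟩ := hd
      exact full_of_rank_one G hnf hd hdd h3 D
    · exfalso
      have E : Ex g c f :=
        { lie := G.lie
          irr := G.irr
          one := G.one
          cg := B.cu.1
          fg := B.fd.1
          cc := B.cc
          ff := B.ff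
          cfc := B.cfc
          fcf := B.fcf
          rkc := B.rkc.trans h2
          nolow := fun d hdg hdd h3 => hd ⟨d, hdg, hdd, h3⟩ }
      obtain ⟨B0, hB, hnd⟩ := E.exists_form G.simple
      have h0 := hnf B0 hB
      have := G.nontrivial
      obtain ⟨w, hw⟩ := exists_ne (0 : V)
      refine hw (hnd w fun b => ?_)
      rw [h0]
      rfl

variable {g t : Submodule K (End K V)} (T : TD g t) [Nontrivial V] {I : Type} [Fintype I]
  [DecidableEq I] (v : Basis I K V) (hv : ∀ x ∈ t, ∀ i, ∃ c : K, x (v i) = c • v i)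
include T hv

theorem TD.sl_of_conj (hcn : ∀ h h', Rt (Lv t v) h → Rt (Lv t v) h' → Cn (Lv t v) h h')
    (hnf : ∀ B : V →ₗ[K] V →ₗ[K] K,
      (∀ x ∈ g, ∃ κ : K, ∀ a b, B (x a) b + B a (x b) = κ * B a b) → B = 0)
    (hn : ∀ m : ℕ, finrank K V ≠ 2 ^ m) {e : End K V} (he : e ∈ t) (hee : e * e = e)
    {u : (End K V)ˣ} (hu : u ∈ FQ.expG K g)
    (hue : (u : End K V) * e * ((u⁻¹ : (End K V)ˣ) : End K V) = 1 - e) (D : End K V) : D ∈ g := by
  have h0 : e ≠ 0 := by
    rintro rfl
    rw [mul_zero, zero_mul, sub_zero] at hue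
    exact zero_ne_one hue
  have h1 : e ≠ 1 := by
    rintro rfl
    rw [mul_one, Units.mul_inv, sub_self] at hue
    exact one_ne_zero hue
  have G : Gr g e := T.gr v hv hcn hn (T.le he) hee h0 h1
  have htr : LinearMap.trace K V e = LinearMap.trace K V (1 - e) := by
    rw [← hue, LinearMap.trace_mul_comm, ← mul_assoc, Units.inv_mul, one_mul]
  rw [trace_idem hee, trace_idem G.idem'] at htr
  have hrk : rk e = rk (1 - e) := by exact_mod_cast htr
  have hadd := rk_compl hee
  have h2e : (2 : K) • e - 1 ∈ g := g.sub_mem (g.smul_mem _ G.mem) G.one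
  obtain ⟨x, hx, hex, hxe, hinj⟩ := FQ.exists_tube G.lie hee h2e hu hue
  exact sl_of_inv G hnf (by omega) (u := x) ⟨hx, hex, hxe⟩ hinj hn D

theorem TD.sl_spread (hcn : ∀ h h', Rt (Lv t v) h → Rt (Lv t v) h' → Cn (Lv t v) h h')
    (hnf : ∀ B : V →ₗ[K] V →ₗ[K] K,
      (∀ x ∈ g, ∃ κ : K, ∀ a b, B (x a) b + B a (x b) = κ * B a b) → B = 0)
    (hn : 1 < finrank K V) {V' : Type*} [AddCommGroup V'] [Module K V'] [FiniteDimensional K V']
    {g' t' : Submodule K (End K V')} (T' : TD g' t') (v' : Basis I K V')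
    (hv' : ∀ x ∈ t', ∀ i, ∃ c : K, x (v' i) = c • v' i) (hL : Lv t v = Lv t' v')
    (hfull : ∀ D : End K V', D ∈ g') (D : End K V) : D ∈ g := by
  refine sl_direct T.lie T.irr v (fun i => ?_) D
  let D' : End K V' := v'.constr K fun k => if k = i then v' i else 0
  have hD' : ∀ k, D' (v' k) = if k = i then v' i else 0 := fun k => v'.constr_basis K _ k
  have h1 : D' ∈ t' := by
    refine T'.cent D' (hfull D') fun y hy => v'.ext fun k => ?_
    obtain ⟨c, hc⟩ := hv' y hy k
    rw [Module.End.mul_apply, Module.End.mul_apply, hc, map_smul, hD']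
    split_ifs with h
    · rw [← h, hc]
    · rw [smul_zero, map_zero]
  have h2 : (fun k => if k = i then (1 : ℚ) else 0) ∈ Lv t' v' := by
    refine ⟨fun k => ?_, D', h1, fun k => ?_⟩
    · dsimp only
      split_ifs
      · exact ⟨1, by norm_num⟩
      · exact ⟨0, by norm_num⟩
    · rw [hD']
      by_cases h : k = i
      · simp [h]
      · simp [h]
  rw [← hL] at h2
  obtain ⟨-, τ, hτ, h3⟩ := h2
  refine ⟨τ, T.le hτ, fun k => ?_⟩
  rw [h3]
  by_cases h : k = i
  · simp [h]
  · simp [h]

end Pool.Agent.FQA
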