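import Pool.Agent.FQA.Full
import Pool.Agent.TypeIV.Single

/-!
# The type without invariant forms: no condition on the dimension (PACKAGE FX14)

`TD.sim_of_ni`. Proof. By `mem_span_roots T.toCartan` (see the proof of `TD.irr_ni` in
`Pool/Agent/FQA/Full.lean`; copy it) `g` is spanned by root vectors `z`. If the root is zero then
`z ∈ t`, and `t` is spanned by `1` (multiplier `2`) and
idempotents (`T.idem`), which are `0`, `1` or in `NI g` (multiplier one). If the root is not zero
then there is `e ∈ NI g` with `e + z ∈ NI g` (same proof),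
so `z = (e + z) - e` has multiplier zero. Multipliers add up.

`form_zero`. Proof. Let `B` be such a form, and `U` its left kernel `{a | B a = 0}`. `U` is stable
under `g`: `B (x a) b = κ * B a b - B a (x b) = 0`.
So `U = ⊤` and `B = 0`, or `U = ⊥`, and `B` contradicts `h`.

`TD.full_of_one`. Proof. `TypeIV.sl_mem` (`Pool/Agent/TypeIV/Single.lean`, check its namespace) with
`G = NI g`: `hirr` is `T.irr_ni`. `hnsd`: if a nondegenerate `φ` satisfies
`φ (e u) v + φ u (e v) = φ u v` for all `e ∈ NI g` then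
`TD.sim_of_ni` contradicts `hnf`. So all `Z` of trace zero are in `g`; the general case with
`1 ∈ g` (`T.hone`; `D = (D - (trace D / n) • 1) + (trace D / n) • 1`).

`exists_up_irr`. Proof. Otherwise for all `a ∈ g`: `e * a * (1 - e) ∈ up g e` is zero
(membership: `OddRank.deg_one_mem`, as in `Gr.up_mem` in
`Pool/Agent/SmallRank/Defs.lean`), so the range of `1 - e` is stable under `g`
(`a (1 - e) = (1 - e) a (1 - e)`), it is `⊥` (then `e = 1`) or `⊤` (then `e = e * (1 - e) + ... `:
for all `w`, `w = (1 - e) w'`, `e w = 0`, `e = 0`).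

`TD.full_of_proj`. Proof. `exists_up_irr` gives `0 ≠ x ∈ up g e`, `rk x ≤ rk e = 1` (`e * x = x`,
`rk_mul_left`), so `rk x = 1`, `x * x = 0`
(`Gr.up_mul_up`). `TD.full_of_one`.

`TD.spread_nf`. Proof. Every operator which is diagonal in the basis `v'` commutes with `t'`
(`hv'`) and is in `g'` (`hfull`), so it is in `t'`
(`T'.cent`). Fix `i : I` (`v.index_nonempty`). So `Pi.single i 1 ∈ Lv t' v' = Lv t v` (`NumRank.Lv`:
integral values and an
element of `t'`; see the end of the proof of `exists_tw` in `Pool/Agent/FQA/Spread.lean`), and there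
is `τ ∈ t` with `τ (v i) = v i`, `τ (v j) = 0` for
`j ≠ i`. `τ * τ = τ`, `τ ≠ 0`, `rk τ = 1`, and `τ ≠ 1` because `1 < finrank K V`. `TD.full_of_proj`.
-/

set_option autoImplicit false
set_option linter.unusedSectionVars false

namespace Pool.Agent.FQA

open Module Pool.Agent.SmallRank
open Pool.Agent.NumRank (Lv)
open Pool.Agent.CoprimeSig (IsRoot mem_span_roots)

variable {K V : Type*} [Field K] [CharZero K] [IsAlgClosed K] [AddCommGroup V] [Module K V]
  [FiniteDimensional K V]

theorem form_zero {g : Submodule K (End K V)}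
    (hirr : ∀ U : Submodule K V, (∀ a ∈ g, ∀ w ∈ U, a w ∈ U) → U = ⊥ ∨ U = ⊤)
    (h : ∀ φ : V →ₗ[K] V →ₗ[K] K, (∀ x, (∀ y, φ x y = 0) → x = 0) →
      ¬ ∀ x ∈ g, ∃ κ : K, ∀ a b, φ (x a) b + φ a (x b) = κ * φ a b)
    (B : V →ₗ[K] V →ₗ[K] K) (hB : ∀ x ∈ g, ∃ κ : K, ∀ a b, B (x a) b + B a (x b) = κ * B a b) :
    B = 0 := by
  have hst : ∀ x ∈ g, ∀ w ∈ LinearMap.ker B, x w ∈ LinearMap.ker B := by
    intro x hx w hw
    rw [LinearMap.mem_ker] at hw ⊢
    obtain ⟨κ, hκ⟩ := hB x hx
    refine LinearMap.ext fun b => ?_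
    have h2 := hκ w b
    rw [hw, LinearMap.zero_apply, LinearMap.zero_apply, add_zero, mul_zero] at h2
    rw [h2, LinearMap.zero_apply]
  rcases hirr (LinearMap.ker B) hst with h1 | h1
  · refine absurd hB (h B fun x hx => ?_)
    have h2 : x ∈ LinearMap.ker B := by
      rw [LinearMap.mem_ker]
      exact LinearMap.ext hx
    rw [h1] at h2
    exact (Submodule.mem_bot K).1 h2
  · exact LinearMap.ker_eq_top.1 h1

theorem exists_up_irr {g : Submodule K (End K V)} (hlie : ∀ a ∈ g, ∀ b ∈ g, a * b - b * a ∈ g)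
    (hirr : ∀ U : Submodule K V, (∀ a ∈ g, ∀ w ∈ U, a w ∈ U) → U = ⊥ ∨ U = ⊤)
    {e : End K V} (he : e ∈ g) (hee : e * e = e) (h0 : e ≠ 0) (h1 : e ≠ 1) :
    ∃ x ∈ up g e, x ≠ 0 := by
  by_contra hcon
  push Not at hcon
  have he1 : e * (1 - e) = 0 := by rw [mul_sub, mul_one, hee, sub_self]
  have hz : ∀ a ∈ g, e * a * (1 - e) = 0 := by
    intro a ha
    refine hcon _ ⟨OddRank.deg_one_mem hee (fun y hy => hlie _ he _ hy) ha, ?_, ?_⟩
    · rw [← mul_assoc, ← mul_assoc, hee]
    · rw [mul_assoc, sub_mul, one_mul, hee, sub_self, mul_zero]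
  have hst : ∀ a ∈ g, ∀ w ∈ LinearMap.range (1 - e), a w ∈ LinearMap.range (1 - e) := by
    intro a ha w hw
    obtain ⟨w', rfl⟩ := hw
    refine ⟨a ((1 - e) w'), ?_⟩
    have h4 := LinearMap.congr_fun (hz a ha) w'
    rw [Module.End.mul_apply, Module.End.mul_apply, LinearMap.zero_apply] at h4
    rw [LinearMap.sub_apply 1 e, Module.End.one_apply, h4, sub_zero]
  rcases hirr (LinearMap.range (1 - e)) hst with h2 | h2
  · rw [LinearMap.range_eq_bot] at h2
    exact h1 (sub_eq_zero.1 h2).symm
  · apply h0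
    refine LinearMap.ext fun w => ?_
    have h3 : w ∈ LinearMap.range (1 - e) := by
      rw [h2]
      exact Submodule.mem_top
    obtain ⟨w', rfl⟩ := h3
    have h4 := LinearMap.congr_fun he1 w'
    rwa [Module.End.mul_apply] at h4

variable {g t : Submodule K (End K V)} (T : TD g t) [Nontrivial V]
include T

/-- The similitudes of a form. -/
private def simS (φ : V →ₗ[K] V →ₗ[K] K) : Submodule K (End K V) where
  carrier := {x | ∃ κ : K, ∀ a b, φ (x a) b + φ a (x b) = κ * φ a b}
  add_mem' := by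
    rintro x y ⟨κ, h⟩ ⟨κ', h'⟩
    refine ⟨κ + κ', fun a b => ?_⟩
    rw [LinearMap.add_apply, LinearMap.add_apply, map_add, map_add, LinearMap.add_apply]
    linear_combination h a b + h' a b
  zero_mem' := ⟨0, fun a b => by simp⟩
  smul_mem' := by
    rintro c x ⟨κ, h⟩
    refine ⟨c * κ, fun a b => ?_⟩
    rw [LinearMap.smul_apply, LinearMap.smul_apply, map_smul, map_smul, LinearMap.smul_apply,
      smul_eq_mul, smul_eq_mul]
    linear_combination c * h a b

omit [Nontrivial V] in
private theorem TD.root_ni {α : End K V → K} {z : End K V} (hz : IsRoot g t α z) (hz0 : z ≠ 0)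
    (hα : ∃ τ ∈ t, α τ ≠ 0) : ∃ e ∈ NI g, e + z ∈ NI g := by
  obtain ⟨e, he, hee, hαe⟩ := T.exists_idem hz hz0 hα
  have hne0 : e ≠ 0 := by
    rintro rfl
    have h1 := hz.root 0 he
    rw [zero_mul, mul_zero, sub_zero] at h1
    exact (smul_ne_zero hαe hz0) h1.symm
  have hne1 : e ≠ 1 := by
    rintro rfl
    have h1 := hz.root 1 he
    rw [one_mul, mul_one, sub_self] at h1
    exact (smul_ne_zero hαe hz0) h1.symm
  have heN : e ∈ NI g := ⟨T.le he, hee, hne0, hne1⟩
  have hr := hz.root e he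
  -- `z` has degree one or minus one
  have hcase : (e * z = z ∧ z * e = 0) ∨ (e * z = 0 ∧ z * e = z) := by
    have h2 : e * z * e = 0 := by
      have h3 := congrArg (fun y => e * y * e) hr
      simp only [mul_sub, sub_mul, mul_smul_comm, smul_mul_assoc] at h3
      have h4 : e * (e * z) * e = e * z * e := by rw [← mul_assoc, hee]
      have h5 : e * (z * e) * e = e * z * e := by
        rw [← mul_assoc, mul_assoc (e * z) e e, hee]
      rw [h4, h5, sub_self] at h3
      exact (smul_eq_zero.1 h3.symm).resolve_left hαe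
    have h4 : e * z = α e • (e * z) := by
      have h3 := congrArg (fun y => e * y) hr
      simp only [mul_sub, mul_smul_comm] at h3
      rwa [← mul_assoc, hee, ← mul_assoc, h2, sub_zero] at h3
    have h5 : -(z * e) = α e • (z * e) := by
      have h3 := congrArg (fun y => y * e) hr
      simp only [sub_mul, smul_mul_assoc] at h3
      rwa [h2, mul_assoc, hee, zero_sub] at h3
    by_cases h6 : e * z = 0
    · right
      refine ⟨h6, ?_⟩
      have h7 : z * e ≠ 0 := by
        intro h8
        rw [h6, h8, sub_zero] at hr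
        exact (smul_ne_zero hαe hz0) hr.symm
      have h8 : α e = -1 := by
        have h9 : (α e + 1) • (z * e) = 0 := by rw [add_smul, one_smul, ← h5, neg_add_cancel]
        exact eq_neg_of_add_eq_zero_left ((smul_eq_zero.1 h9).resolve_right h7)
      rw [h6, zero_sub, h8, neg_smul, one_smul, neg_inj] at hr
      exact hr
    · left
      have h8 : α e = 1 := by
        have h9 : (α e - 1) • (e * z) = 0 := by rw [sub_smul, one_smul, ← h4, sub_self]
        exact sub_eq_zero.1 ((smul_eq_zero.1 h9).resolve_right h6)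
      have h10 : z * e = 0 := by
        rw [h8, one_smul] at h5
        have h11 : (2 : K) • (z * e) = 0 := by
          rw [two_smul]
          nth_rewrite 1 [← h5]
          exact neg_add_cancel _
        exact (smul_eq_zero.1 h11).resolve_left two_ne_zero
      rw [h10, sub_zero, h8, one_smul] at hr
      exact ⟨hr, h10⟩
  have hzz : z * z = 0 := by
    rcases hcase with ⟨a, b⟩ | ⟨a, b⟩
    · nth_rewrite 2 [← a]
      rw [← mul_assoc, b, zero_mul]
    · nth_rewrite 1 [← b]
      rw [mul_assoc, a, mul_zero]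
  exact ⟨e, heN, ni_add heN hz.mem hcase hzz⟩

theorem TD.sim_of_ni {φ : V →ₗ[K] V →ₗ[K] K}
    (h : ∀ e ∈ NI g, ∀ a b, φ (e a) b + φ a (e b) = φ a b) {x : End K V} (hx : x ∈ g) :
    ∃ κ : K, ∀ a b, φ (x a) b + φ a (x b) = κ * φ a b := by
  have key : g ≤ simS φ := by
    intro x hx
    have h1 := mem_span_roots T.toCartan hx
    refine (Submodule.span_le.2 ?_) h1
    rintro z ⟨α, hz⟩
    by_cases hz0 : z = 0
    · rw [hz0]
      exact (simS φ).zero_mem
    by_cases hα : ∃ τ ∈ t, α τ ≠ 0
    · obtain ⟨e, he, hez⟩ := T.root_ni hz hz0 hα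
      refine ⟨0, fun a b => ?_⟩
      have h2 := h e he a b
      have h3 := h (e + z) hez a b
      rw [LinearMap.add_apply, LinearMap.add_apply, map_add, map_add, LinearMap.add_apply] at h3
      linear_combination h3 - h2
    · push Not at hα
      have hzt : z ∈ t := T.cent z hz.mem fun τ hτ => by
        have h4 := hz.root τ hτ
        rw [hα τ hτ, zero_smul, sub_eq_zero] at h4
        exact h4.symm
      refine (Submodule.span_le.2 ?_) (T.idem z hzt)
      have hone : (1 : End K V) ∈ simS φ := ⟨2, fun a b => by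
        rw [Module.End.one_apply, Module.End.one_apply]
        ring⟩
      rintro y (hy | hy)
      · rw [Set.mem_singleton_iff.1 hy]
        exact hone
      · by_cases h0 : y = 0
        · rw [h0]
          exact (simS φ).zero_mem
        by_cases h1 : y = 1
        · rw [h1]
          exact hone
        exact ⟨1, fun a b => by rw [h y ⟨T.le hy.1, hy.2, h0, h1⟩, one_mul]⟩
  exact key hx

theorem TD.full_of_one
    (hnf : ∀ φ : V →ₗ[K] V →ₗ[K] K, (∀ x, (∀ y, φ x y = 0) → x = 0) →
      ¬ ∀ x ∈ g, ∃ κ : K, ∀ a b, φ (x a) b + φ a (x b) = κ * φ a b)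
    {N : End K V} (hN : N ∈ g) (hNN : N * N = 0) (h1 : rk N = 1) (D : End K V) : D ∈ g := by
  have h2 : ∀ Z : End K V, LinearMap.trace K V Z = 0 → Z ∈ g := by
    intro Z hZ
    refine TypeIV.sl_mem T.lie (G := NI g) (fun e he => he.1) (fun e he => he.2.1)
      (fun e he => he.2.2) T.irr_ni (fun φ hφ => ?_) hN hNN h1 hZ
    by_contra hcon
    push Not at hcon
    exact hnf φ hφ fun x hx => T.sim_of_ni hcon hx
  have hn : (finrank K V : K) ≠ 0 := Nat.cast_ne_zero.2 finrank_pos.ne'
  have h3 : D - (LinearMap.trace K V D / finrank K V) • (1 : End K V) ∈ g := by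
    apply h2
    rw [map_sub, map_smul, LinearMap.trace_one, smul_eq_mul, div_mul_cancel₀ _ hn, sub_self]
  have h4 := g.add_mem h3 (g.smul_mem (LinearMap.trace K V D / finrank K V) T.hone)
  rwa [sub_add_cancel] at h4

theorem TD.full_of_proj
    (hnf : ∀ φ : V →ₗ[K] V →ₗ[K] K, (∀ x, (∀ y, φ x y = 0) → x = 0) →
      ¬ ∀ x ∈ g, ∃ κ : K, ∀ a b, φ (x a) b + φ a (x b) = κ * φ a b)
    {e : End K V} (he : e ∈ g) (hee : e * e = e) (h1 : e ≠ 1) (hr : rk e = 1) (D : End K V) :
    D ∈ g := by
  have h0 : e ≠ 0 := fun h => by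
    rw [rk_eq_zero.2 h] at hr
    exact zero_ne_one hr
  obtain ⟨x, hx, hx0⟩ := exists_up_irr T.lie T.irr he hee h0 h1
  have h2 : rk x ≤ 1 := by
    have h3 := rk_mul_left e x
    rwa [hx.2.1, hr] at h3
  have h3 := rk_pos hx0
  exact T.full_of_one hnf hx.1 (Gr.up_mul_up hx hx) (by omega) D

theorem TD.spread_nf {I : Type} [Fintype I] [DecidableEq I] (v : Basis I K V)
    (hv : ∀ x ∈ t, ∀ i, ∃ c : K, x (v i) = c • v i)
    (hnf : ∀ φ : V →ₗ[K] V →ₗ[K] K, (∀ x, (∀ y, φ x y = 0) → x = 0) →
      ¬ ∀ x ∈ g, ∃ κ : K, ∀ a b, φ (x a) b + φ a (x b) = κ * φ a b)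
    (hn : 1 < finrank K V) {V' : Type*} [AddCommGroup V'] [Module K V'] [FiniteDimensional K V']
    {g' t' : Submodule K (End K V')} (T' : TD g' t') (v' : Basis I K V')
    (hv' : ∀ x ∈ t', ∀ i, ∃ c : K, x (v' i) = c • v' i) (hL : Lv t v = Lv t' v')
    (hfull : ∀ D : End K V', D ∈ g') (D : End K V) : D ∈ g := by
  classical
  obtain ⟨i⟩ : Nonempty I := v.index_nonempty
  have hmem : (Pi.single i 1 : I → ℚ) ∈ Lv t' v' := by
    let D' : End K V' := v'.constr K fun k => (((Pi.single i 1 : I → ℚ) k : ℚ) : K) • v' k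
    have hDv : ∀ k, D' (v' k) = (((Pi.single i 1 : I → ℚ) k : ℚ) : K) • v' k := fun k =>
      v'.constr_basis K _ k
    have hDt : D' ∈ t' := by
      refine T'.cent D' (hfull D') fun τ hτ => v'.ext fun k => ?_
      obtain ⟨c, hc⟩ := hv' τ hτ k
      rw [Module.End.mul_apply, Module.End.mul_apply, hc, map_smul, hDv, map_smul, hc, smul_smul,
        smul_smul, mul_comm]
    refine ⟨fun k => ?_, D', hDt, hDv⟩
    by_cases hk : k = i
    · exact ⟨1, by rw [hk, Pi.single_eq_same, Int.cast_one]⟩
    · exact ⟨0, by rw [Pi.single_eq_of_ne hk, Int.cast_zero]⟩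
  rw [← hL] at hmem
  obtain ⟨-, τ, hτ, hf⟩ := hmem
  have hi : τ (v i) = v i := by
    rw [hf i, Pi.single_eq_same, Rat.cast_one, one_smul]
  have hj : ∀ j, j ≠ i → τ (v j) = 0 := by
    intro j hj
    rw [hf j, Pi.single_eq_of_ne hj, Rat.cast_zero, zero_smul]
  have hττ : τ * τ = τ := by
    refine v.ext fun k => ?_
    rw [Module.End.mul_apply]
    by_cases hk : k = i
    · rw [hk, hi, hi]
    · rw [hj k hk, map_zero]
  have hrk : rk τ = 1 := by
    have h1 : LinearMap.range τ = Submodule.span K {v i} := by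
      apply le_antisymm
      · rintro _ ⟨w, rfl⟩
        rw [← v.sum_repr w, map_sum]
        refine Submodule.sum_mem _ fun k _ => ?_
        rw [map_smul]
        refine Submodule.smul_mem _ _ ?_
        by_cases hk : k = i
        · rw [hk, hi]
          exact Submodule.mem_span_singleton_self _
        · rw [hj k hk]
          exact Submodule.zero_mem _
      · rw [Submodule.span_singleton_le_iff_mem]
        exact ⟨v i, hi⟩
    change finrank K (LinearMap.range τ) = 1
    rw [h1, finrank_span_singleton (v.ne_zero i)]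
  refine T.full_of_proj hnf (T.le hτ) hττ (fun h => ?_) hrk D
  rw [h, rk_one] at hrk
  omega

end Pool.Agent.FQA
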