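import Pool.Agent.FQA.GrN
import Pool.Agent.FQA.Ni
import Pool.Agent.FQA.SlOne

/-!
# An idempotent which is not balanced
-/

set_option autoImplicit false
set_option linter.unusedSectionVars false

namespace Pool.Agent.FQA

open Module Pool.Agent.CoprimeSig Pool.Agent.Mod4 Pool.Agent.NumRank
open Pool.Agent.PrimePow.CC (Rf Rt Lat)
open Pool.Agent.SmallRank (rk up Gr exists_up rk_compl two_rk)

variable {K V : Type*} [Field K] [CharZero K] [IsAlgClosed K] [AddCommGroup V] [Module K V]
  [FiniteDimensional K V]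

/-- A nontrivial idempotent similitude is balanced. -/
theorem bal_of_form {φ : V →ₗ[K] V →ₗ[K] K} (hnd : ∀ x, (∀ y, φ x y = 0) → x = 0)
    {e : End K V} (hee : e * e = e) (h0 : e ≠ 0) (h1 : e ≠ 1) {κ : K}
    (h : ∀ a b, φ (e a) b + φ a (e b) = κ * φ a b) :
    (∀ a b, φ (e a) b + φ a (e b) = φ a b) ∧ 2 * rk e = finrank K V := by
  have hee' : ∀ w, e (e w) = e w := fun w => LinearMap.congr_fun hee w
  have hz : ∀ a, e (a - e a) = 0 := fun a => by rw [map_sub, hee', sub_self]
  -- the components of the form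
  have e1 : ∀ a b, (2 - κ) * φ (e a) (e b) = 0 := by
    intro a b
    have h2 := h (e a) (e b)
    rw [hee', hee'] at h2
    linear_combination h2
  have e2 : ∀ a b, κ * φ (a - e a) (b - e b) = 0 := by
    intro a b
    have h2 := h (a - e a) (b - e b)
    rw [hz, hz, map_zero, map_zero, LinearMap.zero_apply, zero_add] at h2
    exact h2.symm
  have e3 : ∀ a b, (1 - κ) * φ (e a) (b - e b) = 0 := by
    intro a b
    have h2 := h (e a) (b - e b)
    rw [hee', map_sub e b, hee', sub_self, map_zero, add_zero] at h2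
    linear_combination h2
  have e4 : ∀ a b, (1 - κ) * φ (a - e a) (e b) = 0 := by
    intro a b
    have h2 := h (a - e a) (e b)
    rw [hz, hee', map_zero, LinearMap.zero_apply, zero_add] at h2
    linear_combination h2
  have hsp : ∀ a b, φ a b = φ (e a) (e b) + φ (e a) (b - e b) + φ (a - e a) (e b) +
      φ (a - e a) (b - e b) := by
    intro a b
    simp only [map_sub, LinearMap.sub_apply]
    ring
  have hκ : κ = 1 := by
    by_contra hκ
    have h3 : ∀ a b, φ (e a) (b - e b) = 0 := fun a b =>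
      (mul_eq_zero.1 (e3 a b)).resolve_left (sub_ne_zero.2 (Ne.symm hκ))
    have h4 : ∀ a b, φ (a - e a) (e b) = 0 := fun a b =>
      (mul_eq_zero.1 (e4 a b)).resolve_left (sub_ne_zero.2 (Ne.symm hκ))
    by_cases hκ2 : κ = 2
    · have h5 : ∀ a b, φ (a - e a) (b - e b) = 0 := fun a b =>
        (mul_eq_zero.1 (e2 a b)).resolve_left (by rw [hκ2]; exact two_ne_zero)
      apply h1
      ext a
      rw [Module.End.one_apply, eq_comm, ← sub_eq_zero]
      refine hnd _ fun b => ?_
      have h6 : a - e a - e (a - e a) = a - e a := by rw [hz, sub_zero]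
      rw [hsp, hz, map_zero, LinearMap.zero_apply, LinearMap.zero_apply, sub_zero, h4, h5]
      ring
    · have h5 : ∀ a b, φ (e a) (e b) = 0 := fun a b =>
        (mul_eq_zero.1 (e1 a b)).resolve_left (sub_ne_zero.2 (Ne.symm hκ2))
      apply h0
      ext a
      rw [LinearMap.zero_apply]
      refine hnd _ fun b => ?_
      have h6 := h3 a b
      rwa [map_sub, h5, sub_zero] at h6
  have hm : ∀ a b, φ (e a) b + φ a (e b) = φ a b := fun a b => by rw [h a b, hκ, one_mul]
  exact ⟨hm, two_rk hnd hee hm⟩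

/-- In the simple case every element is in the ideal generated by `2 e - 1`, up to scalars. -/
theorem hall_of_gr {g : Submodule K (End K V)} {e : End K V} (G : Gr g e) :
    ∀ x ∈ g, ∃ a ∈ idl g {e}, ∃ c : K, x = a + c • 1 := by
  have h2e : (2 : K) • e - 1 ∈ g := g.sub_mem (g.smul_mem _ G.mem) G.one
  have hmem : (2 : K) • e - 1 ∈ idl g {e} := by
    unfold idl
    rw [Submodule.mem_sInf]
    exact fun I hI => hI.1 e rfl
  have hid : ∀ x ∈ g, ∀ z ∈ idl g {e}, x * z - z * x ∈ idl g {e} := by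
    intro x hx z hz
    unfold idl at hz ⊢
    rw [Submodule.mem_sInf] at hz ⊢
    exact fun I hI => hI.2 x hx z (hz I hI)
  obtain ⟨x, hx, hx0⟩ := exists_up G
  have hxi : x ∈ idl g {e} := by
    have h1 := (idl g {e}).neg_mem (hid x hx.1 _ hmem)
    have h2 : -(x * ((2 : K) • e - 1) - ((2 : K) • e - 1) * x) = (2 : K) • x := by
      rw [mul_sub, sub_mul, mul_smul_comm, smul_mul_assoc, hx.2.1, hx.2.2, smul_zero, mul_one,
        one_mul]
      abel
    rw [h2] at h1
    have h3 := (idl g {e}).smul_mem (2 : K)⁻¹ h1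
    rwa [smul_smul, inv_mul_cancel₀ two_ne_zero, one_smul] at h3
  intro y hy
  obtain ⟨a, ha, c, hc⟩ := G.simple (idl g {e} ⊓ g ⊓ LinearMap.ker (LinearMap.trace K V))
    (fun z hz => hz.1.2) (fun w hw z hz => ⟨⟨hid w hw z hz.1.1, G.lie w hw z hz.1.2⟩, by
      rw [SetLike.mem_coe, LinearMap.mem_ker, map_sub, LinearMap.trace_mul_comm, sub_self]⟩)
    (fun z hz => hz.2) (by
      intro hbot
      have h1 : x ∈ idl g {e} ⊓ g ⊓ LinearMap.ker (LinearMap.trace K V) := by
        refine ⟨⟨hxi, hx.1⟩, ?_⟩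
        have h2 : x = e * x := hx.2.1.symm
        rw [SetLike.mem_coe, LinearMap.mem_ker, h2, LinearMap.trace_mul_comm, hx.2.2, map_zero]
      rw [hbot, Submodule.mem_bot] at h1
      exact hx0 h1) y hy
  exact ⟨a, ha.1.1, c, hc⟩

namespace TD

variable {g t : Submodule K (End K V)} (T : TD g t) [Nontrivial V] {I : Type} [Fintype I]
  (v : Basis I K V) (hv : ∀ x ∈ t, ∀ i, ∃ c : K, x (v i) = c • v i)
include T hv

/-- **The case of an idempotent which is not balanced**: the algebra is full unless the dimension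
and the rank are those of an exterior power. -/
theorem full_of_unb (hcn : ∀ h h', Rt (Lv t v) h → Rt (Lv t v) h' → Cn (Lv t v) h h')
    {e : End K V} (he : e ∈ t) (hee : e * e = e) (h0 : e ≠ 0) (h1 : e ≠ 1)
    (hub : 2 * rk e ≠ finrank K V)
    (hbin : ∀ N k : ℕ, 2 ≤ k → k + 2 ≤ N → finrank K V = N.choose k →
      rk e ≠ (N - 1).choose (k - 1)) (D : End K V) : D ∈ g := by
  have G := T.gr_of_unb v hv hcn he hee h0 h1 hub
  obtain ⟨I', hI', v', f, hf, D', h, α, x, y, P, hx0, H, hh⟩ :=
    exists_dt T.toCartan T.one T.irr T.hopp he hee h0 h1 (hall_of_gr G)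
  have hsum : ∑ i, f i = (rk e : ℚ) := by
    have h1 := trace_diag v' hf
    rw [SmallRank.trace_idem hee] at h1
    have h2 : ((rk e : ℚ) : K) = ((∑ i, f i : ℚ) : K) := by
      rw [← h1, Rat.cast_natCast]
    exact (Rat.cast_injective h2).symm
  have hcard : Fintype.card I' = finrank K V := (finrank_eq_card_basis v').symm
  have hnf : ∀ φ : V →ₗ[K] V →ₗ[K] K, (∀ x, (∀ y, φ x y = 0) → x = 0) →
      ¬ ∀ x ∈ g, ∃ κ : K, ∀ a b, φ (x a) b + φ a (x b) = κ * φ a b := by
    intro φ hnd hsim
    obtain ⟨κ, hκ⟩ := hsim e G.mem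
    exact hub (bal_of_form hnd hee h0 h1 hκ).2
  rcases one_or_choose D' (by
    rw [hsum, hcard]
    intro h1
    exact hub (by exact_mod_cast h1)) with h1 | ⟨N, k, hk, hkN, hN, hs⟩
  · exact full_of_rank_one G (form_zero T.irr hnf) P.rx.mem P.xx (rank_one v' P H hh h1) D
  · exfalso
    rw [hcard] at hN
    rw [hsum] at hs
    exact hbin N k hk hkN hN (by exact_mod_cast hs)

end TD

end Pool.Agent.FQA
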