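import Pool.Agent.FQA.Dich
import Pool.Agent.FQA.Sl
import Pool.Agent.FQA.Unb

/-!
# The simple case without invariant forms: the dimension may be an odd power of two
-/

set_option autoImplicit false
set_option linter.unusedSectionVars false

namespace Pool.Agent.FQA

open Module Pool.Agent.SmallRank

variable {K V : Type*} [Field K] [CharZero K] [IsAlgClosed K] [AddCommGroup V] [Module K V]
  [FiniteDimensional K V]

theorem nf_tail {g : Submodule K (End K V)} {e : End K V} (G : Gr g e)
    (hbal : 2 * rk e = finrank K V)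
    (hnf : ∀ B : V →ₗ[K] V →ₗ[K] K,
      (∀ x ∈ g, ∃ κ : K, ∀ a b, B (x a) b + B a (x b) = κ * B a b) → B = 0)
    (h4 : finrank K V ≠ 4) (hn : ∀ m : ℕ, 4 ≤ m → Even m → finrank K V ≠ 2 ^ m)
    (hcase : (∃ c f ρ, Pr g e c f ρ ∧ (ρ = 1 ∨ ρ = 2) ∧ 4 * ρ < finrank K V) ∨
      ∃ c f x y, Two g e c f x y) (D : End K V) : D ∈ g := by
  rcases hcase with ⟨c, f, ρ, B, hρ, -⟩ | ⟨c, f, x, y, T⟩
  · rcases hρ with h1 | h2
    · exact full_of_rank_one G hnf B.cu.1 B.cc (B.rkc.trans h1) D
    · by_cases hd : ∃ d ∈ g, d * d = 0 ∧ rk d = 1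
      · obtain ⟨d, hd, hdd, h3⟩ := hd
        exact full_of_rank_one G hnf hd hdd h3 D
      · exfalso
        have E : Ex g c f :=
          { lie := G.lie
            irr := G.irr
            one := G.one
            cg := B.cu.1
            fg := B.fd.1
            cc := B.cc
            ff := B.ff
            cfc := B.cfc
            fcf := B.fcf
            rkc := B.rkc.trans h2
            nolow := fun d hdg hdd h3 => hd ⟨d, hdg, hdd, h3⟩ }
        obtain ⟨B0, hB, hnd⟩ := E.exists_form G.simple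
        have h0 := hnf B0 hB
        have := G.nontrivial
        obtain ⟨w, hw⟩ := exists_ne (0 : V)
        refine hw (hnd w fun b => ?_)
        rw [h0]
        rfl
  · exfalso
    obtain ⟨j, hj⟩ := T.pow_two
    have r1 := G.rk_add
    have hcard : finrank K V = 2 ^ (j + 1) := by
      rw [pow_succ, ← hj]
      omega
    rcases Nat.even_or_odd j with hev | hodd
    · obtain ⟨B0, hB, hnd⟩ := T.exists_form hj hev
      have h0 := hnf B0 hB
      have := G.nontrivial
      obtain ⟨w, hw⟩ := exists_ne (0 : V)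
      refine hw (hnd w fun b => ?_)
      rw [h0]
      rfl
    · obtain ⟨i, hi⟩ := hodd
      rcases Nat.lt_or_ge i 1 with h5 | h5
      · apply h4
        rw [hcard, hi]
        have : i = 0 := by omega
        rw [this]
        rfl
      · exact hn (j + 1) (by omega) ⟨i + 1, by omega⟩ hcard

theorem nf_of_gr {g : Submodule K (End K V)} {e : End K V} (G : Gr g e)
    (hbal : 2 * rk e = finrank K V)
    (hnf : ∀ B : V →ₗ[K] V →ₗ[K] K,
      (∀ x ∈ g, ∃ κ : K, ∀ a b, B (x a) b + B a (x b) = κ * B a b) → B = 0)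
    (h2 : finrank K V ≠ 2) (h4 : finrank K V ≠ 4)
    (hn : ∀ m : ℕ, 4 ≤ m → Even m → finrank K V ≠ 2 ^ m)
    (hcase : (∃ u ∈ up g e, ∀ v, e v = 0 → u v = 0 → v = 0) ∨
      ∀ k : ℕ, 2 ≤ k → finrank K V ≠ (2 * k).choose k) (D : End K V) : D ∈ g := by
  rcases dich G hbal with ⟨⟨k, hk⟩, h⟩ | h
  · exfalso
    rcases hcase with hu | hc
    · exact h2 (h hu)
    · rcases k with _ | _ | k
      · rw [mul_zero, Nat.choose_self] at hk
        omega
      · exact h2 (by rw [hk]; decide)
      · exact hc (k + 2) (by omega) hk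
  · exact nf_tail G hbal hnf h4 hn h D

end Pool.Agent.FQA
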