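import Pool.Agent.FQA.Touch
import Pool.Agent.SmallRank.Defs

/-!
# Interface: touching, connectedness and simplicity
-/

set_option autoImplicit false
set_option linter.unusedSectionVars false

namespace Pool.Agent.FQA

open Module Pool.Agent.CoprimeSig Pool.Agent.Mod4 Pool.Agent.NumRank
open Pool.Agent.PrimePow.CC (Rf Rt Lat)

/-- `h'` is connected with `h` by a chain of roots of `L`, each of which is not orthogonal to the
next one. -/
def Cn {Ω : Type*} [Fintype Ω] (L : AddSubgroup (Ω → ℚ)) (h h' : Ω → ℚ) : Prop :=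
  Relation.ReflTransGen (fun a b => Rt L b ∧ a ⬝ᵥ b ≠ 0) h h'

section Comb

variable {Ω : Type*} [Fintype Ω] {L : AddSubgroup (Ω → ℚ)} {h h' : Ω → ℚ}

theorem Cn.stb (h : Ω → ℚ) : Stb L (Cn L h) := fun _ _ _ K hc h0 =>
  Relation.ReflTransGen.tail hc ⟨K, h0⟩

theorem Cn.rt (hc : Cn L h h') (H : Rt L h) : Rt L h' := by
  induction hc with
  | refl => exact H
  | tail _ h2 _ => exact h2.1

theorem Cn.of_stb {P : (Ω → ℚ) → Prop} (hP : Stb L P) (hc : Cn L h h') (H : Rt L h) (hh : P h) :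
    P h' := by
  induction hc with
  | refl => exact hh
  | tail h1 h2 ih => exact hP _ _ (Cn.rt h1 H) h2.1 ih h2.2

theorem Cn.symm (hc : Cn L h h') (H : Rt L h) : Cn L h' h := by
  induction hc with
  | refl => exact Relation.ReflTransGen.refl
  | tail h1 h2 ih =>
    refine Relation.ReflTransGen.head ⟨Cn.rt h1 H, ?_⟩ ih
    rw [dotProduct_comm]
    exact h2.2

theorem conn_of_cn (hcn : ∀ h h', Rt L h → Rt L h' → Cn L h h') : Conn L := by
  rintro P ⟨h, H, hh⟩ hP h' H'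
  exact Cn.of_stb hP (hcn h h' H H') H hh

end Comb

variable {K V : Type*} [Field K] [CharZero K] [IsAlgClosed K] [AddCommGroup V] [Module K V]
  [FiniteDimensional K V]

namespace TD

variable {g t : Submodule K (End K V)}

theorem of (C : Cartan g t) (hone : (1 : End K V) ∈ t)
    (hirr : ∀ U : Submodule K V, (∀ a ∈ g, ∀ w ∈ U, a w ∈ U) → U = ⊥ ∨ U = ⊤)
    (hidem : t ≤ Submodule.span K {e : End K V | e ∈ t ∧ e * e = e}) : TD g t where
  toCartan := C
  one := hone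
  irr := hirr
  idem := fun _ hτ => Submodule.span_mono Set.subset_union_right (hidem hτ)

variable (T : TD g t) [Nontrivial V] {I : Type} [Fintype I] (v : Basis I K V)
  (hv : ∀ x ∈ t, ∀ i, ∃ c : K, x (v i) = c • v i)
include T hv

/-- An element of `t` which is not a scalar does not pair to zero with every root. -/
theorem touch_ns {τ : End K V} (hτ : τ ∈ t) (hns : ∀ c : K, τ ≠ c • 1) {f : I → ℚ}
    (hf : ∀ i, τ (v i) = (f i : K) • v i) : ∃ h, Rt (Lv t v) h ∧ f ⬝ᵥ h ≠ 0 := by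
  obtain ⟨α, z, hz, hz0, hα, hατ⟩ : ∃ (α : End K V → K) (z : End K V), IsRoot g t α z ∧ z ≠ 0 ∧
      (∃ τ ∈ t, α τ ≠ 0) ∧ α τ ≠ 0 := by
    by_contra hcon
    push Not at hcon
    obtain ⟨c, hc⟩ := T.scalar_of (x := τ) (fun α z hz hz0 hα => by
      have h1 := hz.root τ hτ
      rw [hcon α z hz hz0 hα, zero_smul, sub_eq_zero] at h1
      exact h1) fun τ' hτ' => T.comm τ hτ τ' hτ'
    exact hns c hc
  obtain ⟨y, R⟩ := T.hopp α z hz hz0 hα
  obtain ⟨k, π, hk, hkv, -⟩ := exists_rf v hv (T.hmult v hv) R hz0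
  refine ⟨k, ⟨π, hk⟩, ?_⟩
  rw [dotProduct_comm]
  exact (dot_ne v R hz0 hτ hkv hf).1 hατ

/-- (S1) -/
theorem touch_ex {e : End K V} (he : e ∈ t) (hee : e * e = e) (h0 : e ≠ 0) (h1 : e ≠ 1)
    {f : I → ℚ} (hf : ∀ i, e (v i) = (f i : K) • v i) : ∃ h, Rt (Lv t v) h ∧ f ⬝ᵥ h ≠ 0 := by
  refine T.touch_ns v hv he (fun c hc => ?_) hf
  rw [hc, smul_mul_smul_comm, one_mul] at hee
  have h2 : (c * c - c) • (1 : End K V) = 0 := by
    rw [sub_smul, hee, sub_self]
  rcases smul_eq_zero.1 h2 with h3 | h3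
  · have h4 : c * (c - 1) = 0 := by rw [mul_sub, mul_one, h3]
    rcases mul_eq_zero.1 h4 with h5 | h5
    · exact h0 (by rw [hc, h5, zero_smul])
    · exact h1 (by rw [hc, sub_eq_zero.1 h5, one_smul])
  · exact one_ne_zero h3

/-- (S2) -/
theorem touch_cn {e e' : End K V} (he : e ∈ t) (hee : e * e = e) (he' : e' ∈ t)
    (hee' : e' * e' = e') {u : (End K V)ˣ} (hu : u ∈ FQ.expG K g)
    (hue : e' = (u : End K V) * e * ((u⁻¹ : (End K V)ˣ) : End K V)) {f f' : I → ℚ}
    (hf : ∀ i, e (v i) = (f i : K) • v i) (hf' : ∀ i, e' (v i) = (f' i : K) • v i)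
    {h h' : I → ℚ} (H : Rt (Lv t v) h) (h0 : f ⬝ᵥ h ≠ 0) (H' : Rt (Lv t v) h')
    (h0' : f' ⬝ᵥ h' ≠ 0) : Cn (Lv t v) h h' :=
  T.touch v hv (Cn.stb h) he hee he' hee' hu hue hf hf' H (by rwa [dotProduct_comm])
    Relation.ReflTransGen.refl H' (by rwa [dotProduct_comm])

/-- The simplicity in the form of `SmallRank.Gr`. -/
theorem gr (hcn : ∀ h h', Rt (Lv t v) h → Rt (Lv t v) h' → Cn (Lv t v) h h')
    (hpow : ∀ m, finrank K V ≠ 2 ^ m) {e : End K V} (he : e ∈ g) (hee : e * e = e) (h0 : e ≠ 0)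
    (h1 : e ≠ 1) : SmallRank.Gr g e where
  lie := T.lie
  irr := T.irr
  one := T.hone
  mem := he
  idem := hee
  ne0 := h0
  ne1 := h1
  simple := fun _ hs hid htr hne =>
    T.simple_of_conn ⟨hs, hid, htr⟩ v hv (conn_of_cn hcn) hpow hne

/-- (S3) An ideal which contains a translate of a nontrivial idempotent contains the elements of
trace zero. -/
theorem mem_of_cn (hcn : ∀ h h', Rt (Lv t v) h → Rt (Lv t v) h' → Cn (Lv t v) h h')
    (hpow : ∀ m, finrank K V ≠ 2 ^ m) {s : Submodule K (End K V)} (hs : s ≤ g)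
    (hid : ∀ x ∈ g, ∀ z ∈ s, x * z - z * x ∈ s) {z : End K V} (hz : z ∈ s)
    (hns : ∀ c : K, z ≠ c • 1) {x : End K V} (hx : x ∈ g) (hx0 : LinearMap.trace K V x = 0) :
    x ∈ s := by
  let s' : Submodule K (End K V) := s ⊓ LinearMap.ker (LinearMap.trace K V)
  have hs' : Idl g s' := by
    refine ⟨inf_le_left.trans hs, fun y hy w hw => ⟨hid y hy w hw.1, ?_⟩, fun w hw => hw.2⟩
    rw [SetLike.mem_coe, LinearMap.mem_ker, map_sub, LinearMap.trace_mul_comm, sub_self]
  have hne : s' ≠ ⊥ := by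
    intro hbot
    obtain ⟨c, hc⟩ := PrimePow.schur_irr T.irr z fun y hy => by
      have h1 : y * z - z * y ∈ s' := ⟨hid y hy z hz, by
        rw [SetLike.mem_coe, LinearMap.mem_ker, map_sub, LinearMap.trace_mul_comm, sub_self]⟩
      rw [hbot, Submodule.mem_bot, sub_eq_zero] at h1
      exact h1.symm
    exact hns c hc
  obtain ⟨a, ha, c, hac⟩ := T.simple_of_conn hs' v hv (conn_of_cn hcn) hpow hne x hx
  have h1 : c = 0 := by
    have h2 : LinearMap.trace K V a = 0 := ha.2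
    rw [hac, map_add, h2, zero_add, map_smul, LinearMap.trace_one, smul_eq_mul] at hx0
    rcases mul_eq_zero.1 hx0 with h3 | h3
    · exact h3
    · rw [Nat.cast_eq_zero] at h3
      exact absurd h3 finrank_pos.ne'
  rw [hac, h1, zero_smul, add_zero]
  exact ha.1

omit hv in
omit T [Nontrivial V] in
theorem not_scalar {e : End K V} (hee : e * e = e) (h0 : e ≠ 0) (h1 : e ≠ 1) (a b : K)
    (ha : a ≠ 0) (c : K) : a • e - b • 1 ≠ c • 1 := by
  intro hc
  have h2 : e = (a⁻¹ * (c + b)) • 1 := by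
    rw [mul_smul, add_smul, ← hc, sub_add_cancel, smul_smul, inv_mul_cancel₀ ha, one_smul]
  set d := a⁻¹ * (c + b)
  rw [h2, smul_mul_smul_comm, one_mul] at hee
  have h3 : (d * d - d) • (1 : End K V) = 0 := by
    rw [sub_smul, hee, sub_self]
  rcases smul_eq_zero.1 h3 with h4 | h4
  · have h5 : d * (d - 1) = 0 := by rw [mul_sub, mul_one, h4]
    rcases mul_eq_zero.1 h5 with h6 | h6
    · exact h0 (by rw [h2, h6, zero_smul])
    · exact h1 (by rw [h2, sub_eq_zero.1 h6, one_smul])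
  · apply h0
    rw [← one_mul e, h4, zero_mul]

end TD

end Pool.Agent.FQA
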