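import Pool.Agent.FQA.Cube
import Pool.Agent.FQA.Iface
import Pool.Agent.NumRank.Final

/-!
# The algebra is simple if the roots are connected and there is no root without zeros
-/

set_option autoImplicit false
set_option linter.unusedSectionVars false

namespace Pool.Agent.FQA

open Module Pool.Agent.CoprimeSig Pool.Agent.Mod4 Pool.Agent.NumRank
open Pool.Agent.PrimePow.CC (Rf Rt Lat)

variable {K V : Type*} [Field K] [CharZero K] [IsAlgClosed K] [AddCommGroup V] [Module K V]
  [FiniteDimensional K V]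

namespace TD

variable {g t : Submodule K (End K V)} (T : TD g t) [Nontrivial V] {I : Type} [Fintype I]
  (v : Basis I K V) (hv : ∀ x ∈ t, ∀ i, ∃ c : K, x (v i) = c • v i)
include T hv

theorem simple_of_nofl (hc : Conn (Lv t v)) (hno : ∀ k, ¬ Fl (Lv t v) k)
    {s : Submodule K (End K V)} (hs : Idl g s) (hne : s ≠ ⊥) :
    ∀ x ∈ g, ∃ a ∈ s, ∃ c : K, x = a + c • 1 := by
  by_contra hcon
  push Not at hcon
  obtain ⟨x, hx, hx2⟩ := hcon
  obtain ⟨k, hk⟩ := (T.dec hs v hv).exists_fl (T.lat v hv) (sat v) hc (T.ex_a hs v hv hne)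
    (T.ex_b hs v hv ⟨x, hx, hx2⟩)
  exact hno k hk

/-- The simplicity in the form of `SmallRank.Gr`. -/
theorem gr_of_nofl (hcn : ∀ h h', Rt (Lv t v) h → Rt (Lv t v) h' → Cn (Lv t v) h h')
    (hno : ∀ k, ¬ Fl (Lv t v) k) {e : End K V} (he : e ∈ g) (hee : e * e = e) (h0 : e ≠ 0)
    (h1 : e ≠ 1) : SmallRank.Gr g e where
  lie := T.lie
  irr := T.irr
  one := T.hone
  mem := he
  idem := hee
  ne0 := h0
  ne1 := h1
  simple := fun _ hs hid htr hne =>
    T.simple_of_nofl v hv (conn_of_cn hcn) hno ⟨hs, hid, htr⟩ hne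

/-- The values of an idempotent of the torus. -/
theorem idem_val {e : End K V} (he : e ∈ t) (hee : e * e = e) : ∃ f ∈ Lv t v,
    (∀ i, f i = 0 ∨ f i = 1) ∧ (∀ i, e (v i) = (f i : K) • v i) ∧
      ((∑ i, f i : ℚ) : K) = LinearMap.trace K V e := by
  have h1 : ∀ i, ∃ q : ℚ, (q = 0 ∨ q = 1) ∧ e (v i) = (q : K) • v i := by
    intro i
    obtain ⟨c, hc⟩ := hv e he i
    have h2 : c * c = c := by
      have h3 : e (e (v i)) = e (v i) := LinearMap.congr_fun hee (v i)
      rw [hc, map_smul, hc, smul_smul] at h3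
      exact smul_left_injective K (v.ne_zero i) h3
    have h3 : c * (c - 1) = 0 := by rw [mul_sub, mul_one, h2, sub_self]
    rcases mul_eq_zero.1 h3 with h4 | h4
    · exact ⟨0, Or.inl rfl, by rw [hc, h4, Rat.cast_zero]⟩
    · exact ⟨1, Or.inr rfl, by rw [hc, sub_eq_zero.1 h4, Rat.cast_one]⟩
  choose f hf hfe using h1
  refine ⟨f, ⟨fun i => ?_, e, he, hfe⟩, hf, hfe, ?_⟩
  · rcases hf i with h | h
    · exact ⟨0, by rw [h, Int.cast_zero]⟩
    · exact ⟨1, by rw [h, Int.cast_one]⟩
  · exact (trace_diag v hfe).symm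

/-- If there is a root without zeros then the nontrivial idempotents of the torus are balanced. -/
theorem bal_of_fl (hc : Conn (Lv t v)) (hfl : ∃ k, Fl (Lv t v) k) {e : End K V} (he : e ∈ t)
    (hee : e * e = e) (h0 : e ≠ 0) (h1 : e ≠ 1) : 2 * SmallRank.rk e = finrank K V := by
  obtain ⟨S, C⟩ := exists_cube (T.lat v hv) hc hfl
  obtain ⟨f, hf, hval, hfe, htr⟩ := T.idem_val v hv he hee
  have h2 : ∃ i, f i = 1 := by
    by_contra hcon
    push Not at hcon
    apply h0
    refine v.ext fun i => ?_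
    rw [hfe, (hval i).resolve_right (hcon i), Rat.cast_zero, zero_smul, LinearMap.zero_apply]
  have h3 : ∃ i, f i = 0 := by
    by_contra hcon
    push Not at hcon
    apply h1
    refine v.ext fun i => ?_
    rw [hfe, (hval i).resolve_left (hcon i), Rat.cast_one, one_smul, Module.End.one_apply]
  have h4 := C.balanced hf hval h2 h3
  rw [SmallRank.trace_idem hee] at htr
  have h5 : (∑ i, f i : ℚ) = (SmallRank.rk e : ℚ) := by
    have h6 : ((∑ i, f i : ℚ) : K) = ((SmallRank.rk e : ℚ) : K) := by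
      rw [htr, Rat.cast_natCast]
    exact Rat.cast_injective h6
  rw [h5] at h4
  rw [finrank_eq_card_basis v]
  exact_mod_cast h4

/-- The algebra is simple if there is an idempotent in the torus which is not balanced. -/
theorem gr_of_unb (hcn : ∀ h h', Rt (Lv t v) h → Rt (Lv t v) h' → Cn (Lv t v) h h')
    {e : End K V} (he : e ∈ t) (hee : e * e = e) (h0 : e ≠ 0) (h1 : e ≠ 1)
    (hub : 2 * SmallRank.rk e ≠ finrank K V) : SmallRank.Gr g e :=
  T.gr_of_nofl v hv hcn (fun k hk => hub (T.bal_of_fl v hv (conn_of_cn hcn) ⟨k, hk⟩ he hee h0 h1))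
    (T.le he) hee h0 h1

end TD

end Pool.Agent.FQA
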