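import Pool.Agent.FQA.HwIso
import Pool.Agent.FQA.GrN
import Pool.Agent.FQA.Ni

/-!
# A representation whose weights are symmetric has an invariant form
-/

set_option autoImplicit false
set_option linter.unusedSectionVars false

namespace Pool.Agent.FQA

open Module Pool.Agent.CoprimeSig Pool.Agent.Mod4 Pool.Agent.NumRank
open Pool.Agent.PrimePow.CC (Rf Rt Lat)

variable {K V : Type*} [Field K] [CharZero K] [IsAlgClosed K] [AddCommGroup V] [Module K V]
  [FiniteDimensional K V]

/-- The dual representation, twisted by the trace. -/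
private noncomputable def dualRep (K V : Type*) [Field K] [AddCommGroup V] [Module K V] :
    End K V →ₗ[K] End K (Dual K V) where
  toFun x := (2 / (finrank K V : K) * LinearMap.trace K V x) • (1 : End K (Dual K V)) - x.dualMap
  map_add' x y := by
    refine LinearMap.ext fun φ => LinearMap.ext fun b => ?_
    simp only [LinearMap.sub_apply, LinearMap.smul_apply, Module.End.one_apply, smul_eq_mul,
      LinearMap.dualMap_apply, LinearMap.add_apply, map_add]
    ring
  map_smul' c x := by
    refine LinearMap.ext fun φ => LinearMap.ext fun b => ?_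
    simp only [LinearMap.sub_apply, LinearMap.smul_apply, Module.End.one_apply, smul_eq_mul,
      LinearMap.dualMap_apply, map_smul, RingHom.id_apply]
    ring

omit [CharZero K] [IsAlgClosed K] [FiniteDimensional K V] in
private theorem dualRep_apply (x : End K V) (φ : Dual K V) (b : V) :
    dualRep K V x φ b = (2 / (finrank K V : K) * LinearMap.trace K V x) * φ b - φ (x b) := by
  change ((2 / (finrank K V : K) * LinearMap.trace K V x) • (1 : End K (Dual K V)) -
    x.dualMap) φ b = _
  simp only [LinearMap.sub_apply, LinearMap.smul_apply, Module.End.one_apply, smul_eq_mul,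
    LinearMap.dualMap_apply]

namespace TD

variable {g t : Submodule K (End K V)} (T : TD g t) [Nontrivial V] {I : Type} [Fintype I]
  (v : Basis I K V) (hv : ∀ x ∈ t, ∀ i, ∃ c : K, x (v i) = c • v i)
include T hv

private theorem sd_wt {ν : I → I} (hν : ∀ i, ν (ν i) = i)
    (hf : ∀ f ∈ Lv t v, ∃ c : ℚ, ∀ i, f (ν i) = c - f i) {x : End K V} (hx : x ∈ t) :
    ∀ i, ∃ c : K, x (v i) = c • v i ∧
      x (v (ν i)) = (2 / (finrank K V : K) * LinearMap.trace K V x - c) • v (ν i) := by
  have hn : (finrank K V : K) ≠ 0 := by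
    rw [Nat.cast_ne_zero]
    exact (finrank_pos (R := K) (M := V)).ne'
  have h1 := T.idem x hx
  clear hx
  induction h1 using Submodule.span_induction with
  | mem z hz =>
    intro i
    rcases hz with hz | hz
    · rw [Set.mem_singleton_iff.1 hz]
      refine ⟨1, by simp, ?_⟩
      rw [LinearMap.trace_one, div_mul_cancel₀ _ hn, Module.End.one_apply,
        show (2 : K) - 1 = 1 by norm_num, one_smul]
    · obtain ⟨f, hfL, -, hfe, htr⟩ := T.idem_val v hv hz.1 hz.2
      obtain ⟨c, hc⟩ := hf f hfL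
      have h2 : 2 * ∑ i, f i = (finrank K V : ℚ) * c := by
        have h3 : ∑ i, f (ν i) = ∑ i, f i :=
          Equiv.sum_comp (⟨ν, ν, hν, hν⟩ : I ≃ I) f
        have h4 : ∑ i, f (ν i) = ∑ i, (c - f i) := Finset.sum_congr rfl fun i _ => hc i
        rw [h3, Finset.sum_sub_distrib, Finset.sum_const, Finset.card_univ, nsmul_eq_mul,
          ← finrank_eq_card_basis v] at h4
        linarith
      refine ⟨(f i : K), hfe i, ?_⟩
      rw [hfe, hc, ← htr]
      congr 1
      have h3 : (2 : K) * ((∑ i, f i : ℚ) : K) = (finrank K V : K) * (c : K) := by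
        exact_mod_cast congrArg (fun q : ℚ => (q : K)) h2
      rw [Rat.cast_sub, div_mul_eq_mul_div, h3, mul_div_cancel_left₀ _ hn]
  | zero => exact fun i => ⟨0, by simp, by simp⟩
  | add a b _ _ ha hb =>
    intro i
    obtain ⟨c, h1, h2⟩ := ha i
    obtain ⟨c', h3, h4⟩ := hb i
    refine ⟨c + c', by rw [LinearMap.add_apply, h1, h3, add_smul], ?_⟩
    rw [LinearMap.add_apply, h2, h4, map_add, ← add_smul]
    congr 1
    ring
  | smul r a _ ha =>
    intro i
    obtain ⟨c, h1, h2⟩ := ha i
    refine ⟨r * c, by rw [LinearMap.smul_apply, h1, smul_smul], ?_⟩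
    rw [LinearMap.smul_apply, h2, map_smul, smul_smul, smul_eq_mul]
    congr 1
    ring

/-- **The form.** -/
theorem form_of_inv {ν : I → I} (hν : ∀ i, ν (ν i) = i)
    (hf : ∀ f ∈ Lv t v, ∃ c : ℚ, ∀ i, f (ν i) = c - f i) :
    ∃ B : V →ₗ[K] V →ₗ[K] K, (∀ x, (∀ y, B x y = 0) → x = 0) ∧
      ∀ x ∈ g, ∃ κ : K, ∀ a b, B (x a) b + B a (x b) = κ * B a b := by
  classical
  let v' : Basis I K (Dual K V) := v.dualBasis.reindex ⟨ν, ν, hν, hν⟩
  have hv' : ∀ i j, v' i (v j) = if j = ν i then 1 else 0 := by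
    intro i j
    have h1 : v' i = v.dualBasis (ν i) := by
      change (v.dualBasis.reindex ⟨ν, ν, hν, hν⟩) i = _
      rw [Basis.reindex_apply]
      rfl
    rw [h1, Basis.dualBasis_apply_self]
  have hρ : ∀ x ∈ g, ∀ y ∈ g, dualRep K V (x * y - y * x) =
      dualRep K V x * dualRep K V y - dualRep K V y * dualRep K V x := by
    intro x _ y _
    refine LinearMap.ext fun φ => LinearMap.ext fun b => ?_
    rw [LinearMap.sub_apply, LinearMap.sub_apply, Module.End.mul_apply, Module.End.mul_apply]
    simp only [dualRep_apply, map_sub, LinearMap.sub_apply, Module.End.mul_apply,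
      LinearMap.trace_mul_comm K y x]
    ring
  have hw : ∀ x ∈ t, ∀ i, ∃ c : K, x (v i) = c • v i ∧ dualRep K V x (v' i) = c • v' i := by
    intro x hx i
    obtain ⟨c, h1, h2⟩ := T.sd_wt v hv hν hf hx i
    refine ⟨c, h1, v.ext fun j => ?_⟩
    obtain ⟨cj, hj⟩ := hv x hx j
    rw [dualRep_apply, hj, map_smul, LinearMap.smul_apply, hv', smul_eq_mul, smul_eq_mul]
    by_cases hij : j = ν i
    · rw [if_pos hij, mul_one, mul_one, mul_one]
      rw [hij] at hj
      rw [hj] at h2
      rw [smul_left_injective K (v.ne_zero _) h2]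
      ring
    · rw [if_neg hij, mul_zero, mul_zero, mul_zero, sub_zero]
  have hirr' : ∀ U : Submodule K (Dual K V), (∀ x ∈ g, ∀ w ∈ U, dualRep K V x w ∈ U) →
      U = ⊥ ∨ U = ⊤ := by
    intro U hU
    rcases T.irr U.dualCoannihilator (fun x hx w hw => by
      rw [Submodule.mem_dualCoannihilator] at hw ⊢
      intro φ hφ
      have h1 := hw _ (hU x hx φ hφ)
      rw [dualRep_apply, hw φ hφ, mul_zero, zero_sub, neg_eq_zero] at h1
      exact h1) with h | h
    · right
      have h1 := Subspace.dualCoannihilator_dualAnnihilator_eq (W := U)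
      rw [h, Submodule.dualAnnihilator_bot] at h1
      exact h1.symm
    · left
      have h1 := Subspace.dualCoannihilator_dualAnnihilator_eq (W := U)
      rw [h, Submodule.dualAnnihilator_top] at h1
      exact h1.symm
  obtain ⟨θ, hinj, hθ⟩ := iso_of_wts T v v' hρ hw hirr'
  refine ⟨θ, fun x hx => hinj ?_, fun x hx =>
    ⟨2 / (finrank K V : K) * LinearMap.trace K V x, fun a b => ?_⟩⟩
  · rw [map_zero]
    exact LinearMap.ext hx
  · rw [hθ x hx a, dualRep_apply]
    ring

/-- Without invariant forms there is no root without zeros. -/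
theorem nofl_of_nf (hc : Conn (Lv t v))
    (hnf : ∀ φ : V →ₗ[K] V →ₗ[K] K, (∀ x, (∀ y, φ x y = 0) → x = 0) →
      ¬ ∀ x ∈ g, ∃ κ : K, ∀ a b, φ (x a) b + φ a (x b) = κ * φ a b) :
    ∀ k, ¬ Fl (Lv t v) k := by
  intro k hk
  obtain ⟨S, C⟩ := exists_cube (T.lat v hv) hc ⟨k, hk⟩
  obtain ⟨ν, hν, -, hf⟩ := C.exists_inv
  obtain ⟨B, hB, hB'⟩ := T.form_of_inv v hv hν hf
  exact hnf B hB hB'

end TD

end Pool.Agent.FQA
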