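import Pool.Agent.FQA.WdSum
import Pool.Agent.SmallRank.Full

/-!
# The orthogonal case in dimension six (PACKAGE FX16)

`V1 = range e`, `V0 = range (1 - e)`, `rk e = rk (1 - e) = 3` (`SmallRank.two_rk`,
`Pool/Agent/SmallRank/Full.lean`; `rk_compl`). `ψ` is zero on `V1 × V1` and on `V0 × V0` (`hmul`),
so it gives a
perfect pairing of `V1` and `V0`. Elements of `up g e` are skew (`hgsp`, `Gr.up_mul_up`,
`mult_zero`).

For `m : V`, `c : End K V`, `u u' u'' : V` put
`τ m c u u' u'' = ψ m u * ψ u' (c u'') + ψ m u' * ψ u'' (c u) + ψ m u'' * ψ u (c u')`. Let `U` be the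
submodule of the
`m ∈ V1` with `τ m c u u' u'' = 0` for all `c ∈ up g e` and all `u, u', u''`.

(1) `U` is stable under the `z ∈ g` with `e * z = z * e`. Let `κ` be the multiplier of `z`,
`c' = z * c - c * z ∈ up g e` (`Gr.lie_up`). From `τ m c (z u) u' u'' + τ m c u (z u') u'' + τ m c
u u' (z u'') = 0`, the
relations `ψ (z u') (c u'') = κ ψ u' (c u'') - ψ u' (z (c u''))`, `τ m c' u u' u'' = 0`, `τ m c u u'
u'' = 0` it follows that
`ψ m (z u) ψ u' (c u'') + (cyclic) = 0`, and with
`ψ (z m) u = κ ψ m u - ψ m (z u)`: `τ (z m) c u u' u'' = κ τ m c u u' u'' - 0 = 0`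
(`linear_combination`).

(2) `U ≠ V1`: let `0 ≠ c ∈ up g e` (`exists_up`, `Pool/Agent/SmallRank/ZeroPart.lean`). There are
`u', u''` with `ψ u' (c u'') ≠ 0`; one can take `u', u'' ∈ V0`
(`c = c * (1 - e)`, and `ψ (e u') (c u'') = 0` as `c u'' ∈ V1`). `V1` has dimension three, so there
is `0 ≠ m ∈ V1` with `ψ m u' = 0`, `ψ m u'' = 0`, and then `u` with `ψ m u ≠ 0`
(`hnd`): `τ m c u u' u'' ≠ 0`. By `irr_range` (`Pool/Agent/SmallRank/IrrOne.lean`): `U = ⊥`.

(3) Let `b : Fin 3 → V` be a basis of `V0` and `a : Fin 3 → V` the dual basis of `V1`: `ψ (a i) (b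
j) = δ_ij` (see the proof of
`wd_mem_of_parts` in `Pool/Agent/FQA/WdSum.lean` for the existence). For `c ∈ up g e` let
`γ c = (ψ (b 1) (c (b 2)), ψ (b 2) (c (b 0)), ψ (b 0) (c (b 1))) ∈ K³` (linear in `c`). Claim: `γ`
maps `up g e` onto
`K³`. Otherwise there is `0 ≠ μ : Fin 3 → K` with `∑ μ_i (γ c)_i = 0` for all `c ∈ up g e`; let `m =
∑ μ_i a_i ∈ V1`, `m ≠ 0`. Then
`τ m c (b 0) (b 1) (b 2) = ∑ μ_i (γ c)_i = 0`, `τ m c` is alternating in the `b`s (skewness of `c`
and `hsymm`: `ψ u (c u) = 0`), so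
`τ m c` is zero on all triples of `b`s, and it is trilinear and vanishes if an argument is in `V1`
(`ψ m V1 = 0`, `c V1 = 0`, `ψ V1 (range c) = 0`), so `m ∈ U`, a contradiction.

(4) `wd ψ (a i) (a j)` maps `b k` to `ψ (a i) (b k) • a j - ψ (a j) (b k) • a i` and kills `V1`. An
element `c ∈ up g e` is determined by `γ c`: `c (b k) = ∑ ψ (b i) (c (b k)) • a i`. So for all `i
≠ j` the element of `up g e` with the suitable `γ c` (plus or
minus a basis vector) is `wd ψ (a i) (a j)`, hence `wd ψ (a i) (a j) ∈ g`, and by bilinearity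
(`wd_add_left`, `wd_smul_left`, ...; `wd ψ a a = 0` by `wd_swap`) `wd ψ x y ∈ g` for all `x, y ∈
V1`.

`skew_of_six`: `wd_up_six` for `e` and for `1 - e` (`G.symm`; multiplier one), `wd_mem_of_parts`
(`3 ≤ rk e`), `skew_of_wd`.
-/

set_option autoImplicit false
set_option linter.unusedSectionVars false

namespace Pool.Agent.FQA

open Module Pool.Agent.SmallRank

variable {K V : Type*} [Field K] [CharZero K] [IsAlgClosed K] [AddCommGroup V] [Module K V]
  [FiniteDimensional K V] {ψ : V →ₗ[K] V →ₗ[K] K}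

/-- The form `τ`. -/
private def tau (ψ : V →ₗ[K] V →ₗ[K] K) (m : V) (c : End K V) (u u' u'' : V) : K :=
  ψ m u * ψ u' (c u'') + ψ m u' * ψ u'' (c u) + ψ m u'' * ψ u (c u')

/-- A basis of the kernel and the dual basis of the range. -/
private theorem frame (hsymm : ∀ u w, ψ u w = ψ w u) (hnd : ∀ x, (∀ y, ψ x y = 0) → x = 0)
    {e : End K V} (hee : e * e = e) (hmul : ∀ u w, ψ (e u) w + ψ u (e w) = ψ u w)
    (h6 : finrank K V = 6) :
    ∃ a b : Fin 3 → V, (∀ i, e (a i) = a i) ∧ (∀ i, e (b i) = 0) ∧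
      (∀ i j, ψ (a i) (b j) = if i = j then 1 else 0) ∧
      (∀ w, w - e w = ∑ i, ψ (a i) w • b i) := by
  have hee' : ∀ x, e (e x) = e x := fun x => LinearMap.congr_fun hee x
  have hf : ∀ x, (1 - e : End K V) x = x - e x := fun x => rfl
  have hr := two_rk hnd hee hmul
  have hc := rk_compl hee
  have h1 : finrank K (LinearMap.range e) = 3 := by
    change rk e = 3
    omega
  have h0 : finrank K (LinearMap.range (1 - e)) = 3 := by
    change rk (1 - e) = 3
    omega
  have iso1 : ∀ x y, ψ (e x) (e y) = 0 := by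
    intro x y
    have h := hmul (e x) (e y)
    rw [hee', hee'] at h
    linear_combination h
  let S : LinearMap.range e →ₗ[K] Dual K (LinearMap.range (1 - e)) :=
    { toFun := fun w => (ψ (w : V)).comp (LinearMap.range (1 - e)).subtype
      map_add' := fun a b => by
        ext u
        simp
      map_smul' := fun c a => by
        ext u
        simp }
  have hSa : ∀ (w : LinearMap.range e) (u : LinearMap.range (1 - e)), S w u = ψ (w : V) (u : V) :=
    fun w u => rfl
  have hS : Function.Injective S := by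
    rw [injective_iff_map_eq_zero]
    rintro ⟨w, u, rfl⟩ hw
    refine Subtype.ext (hnd _ fun v => ?_)
    have h2 : ψ (e u) ((1 - e : End K V) v) = 0 :=
      congrArg (fun t => t (⟨(1 - e : End K V) v, v, rfl⟩ : LinearMap.range (1 - e))) hw
    have h3 := iso1 u v
    rw [hf, map_sub, h3, sub_zero] at h2
    exact h2
  let J : LinearMap.range e ≃ₗ[K] Dual K (LinearMap.range (1 - e)) :=
    LinearMap.linearEquivOfInjective S hS (by rw [Subspace.dual_finrank_eq, h1, h0])
  have hJ : ∀ v, J v = S v := fun v => rfl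
  let B0 : Basis (Fin 3) K (LinearMap.range (1 - e)) := finBasisOfFinrankEq K _ h0
  have hab : ∀ i (w : LinearMap.range (1 - e)),
      ψ ((J.symm (B0.coord i) : LinearMap.range e) : V) (w : V) = B0.repr w i := by
    intro i w
    rw [← hSa, ← hJ, LinearEquiv.apply_symm_apply, Basis.coord_apply]
  refine ⟨fun i => ((J.symm (B0.coord i) : LinearMap.range e) : V), fun i => (B0 i : V), ?_, ?_,
    ?_, ?_⟩
  · intro i
    obtain ⟨v, hv⟩ := (J.symm (B0.coord i)).2
    change e ((J.symm (B0.coord i) : LinearMap.range e) : V) =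
      ((J.symm (B0.coord i) : LinearMap.range e) : V)
    rw [← hv, hee']
  · intro i
    obtain ⟨v, hv⟩ := (B0 i).2
    change e (B0 i : V) = 0
    rw [← hv, hf, map_sub, hee', sub_self]
  · intro i j
    change ψ ((J.symm (B0.coord i) : LinearMap.range e) : V) (B0 j : V) = _
    rw [hab, Basis.repr_self, Finsupp.single_apply]
    by_cases h : i = j
    · rw [if_pos h, if_pos h.symm]
    · rw [if_neg h, if_neg (Ne.symm h)]
  · intro w
    have h2 := B0.sum_repr (⟨(1 - e : End K V) w, w, rfl⟩ : LinearMap.range (1 - e))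
    have h3 := congrArg (fun t : LinearMap.range (1 - e) => (t : V)) h2
    simp only [Submodule.coe_sum, Submodule.coe_smul] at h3
    rw [← hf, ← h3]
    refine Finset.sum_congr rfl fun i _ => ?_
    rw [← hab]
    congr 1
    change ψ ((J.symm (B0.coord i) : LinearMap.range e) : V) ((1 - e : End K V) w) = _
    obtain ⟨v, hv⟩ := (J.symm (B0.coord i)).2
    rw [← hv, hf, map_sub, iso1, sub_zero]
    exact congrArg (fun t => ψ t w) hv

/-- A skew operator of degree one is given by three numbers. -/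
private theorem three (hsymm : ∀ u w, ψ u w = ψ w u) {e : End K V}
    (hmul : ∀ u w, ψ (e u) w + ψ u (e w) = ψ u w) {a b : Fin 3 → V}
    (hw : ∀ w, w - e w = ∑ i, ψ (a i) w • b i) {c : End K V}
    (hc : ∀ u w, ψ (c u) w + ψ u (c w) = 0) (h1 : e * c = c) (h2 : c * e = 0) (u w : V) :
    ψ u (c w) =
      (ψ (a 1) u * ψ (a 2) w - ψ (a 2) u * ψ (a 1) w) * ψ (b 1) (c (b 2)) +
      (ψ (a 2) u * ψ (a 0) w - ψ (a 0) u * ψ (a 2) w) * ψ (b 2) (c (b 0)) +
      (ψ (a 0) u * ψ (a 1) w - ψ (a 1) u * ψ (a 0) w) * ψ (b 0) (c (b 1)) := by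
  have h1' : ∀ x, e (c x) = c x := fun x => LinearMap.congr_fun h1 x
  have h2' : ∀ x, c (e x) = 0 := fun x => LinearMap.congr_fun h2 x
  have h3 : c w = ψ (a 0) w • c (b 0) + ψ (a 1) w • c (b 1) + ψ (a 2) w • c (b 2) := by
    have h4 : c w = c (w - e w) := by rw [map_sub, h2', sub_zero]
    rw [h4, hw, Fin.sum_univ_three]
    simp only [map_add, map_smul]
  have h5 : ∀ x, ψ (e u) (c x) = 0 := by
    intro x
    have h6 := hmul u (c x)
    rw [h1'] at h6
    linear_combination h6
  have h7 : ∀ x, ψ u (c x) = ψ (a 0) u * ψ (b 0) (c x) + ψ (a 1) u * ψ (b 1) (c x) +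
      ψ (a 2) u * ψ (b 2) (c x) := by
    intro x
    have h8 : ψ u (c x) = ψ (u - e u) (c x) := by
      rw [map_sub, LinearMap.sub_apply, h5, sub_zero]
    rw [h8, hw, Fin.sum_univ_three]
    simp only [map_add, map_smul, LinearMap.add_apply, LinearMap.smul_apply, smul_eq_mul]
  have h9 : ∀ i j, ψ (b i) (c (b j)) = -ψ (b j) (c (b i)) := by
    intro i j
    have h10 := hc (b j) (b i)
    rw [hsymm (c (b j)) (b i)] at h10
    linear_combination h10
  have h11 : ∀ i, ψ (b i) (c (b i)) = 0 := by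
    intro i
    have h12 := h9 i i
    have h13 : (2 : K) * ψ (b i) (c (b i)) = 0 := by linear_combination h12
    exact (mul_eq_zero.1 h13).resolve_left two_ne_zero
  rw [h3]
  simp only [map_add, map_smul, smul_eq_mul, h7]
  rw [h11 0, h11 1, h11 2, h9 0 2, h9 1 0, h9 2 1]
  ring

theorem wd_up_six (hsymm : ∀ u w, ψ u w = ψ w u) (hnd : ∀ x, (∀ y, ψ x y = 0) → x = 0)
    {g : Submodule K (End K V)} {e : End K V} (G : Gr g e)
    (hgsp : ∀ x ∈ g, ∃ κ : K, ∀ u w, ψ (x u) w + ψ u (x w) = κ * ψ u w)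
    (hmul : ∀ u w, ψ (e u) w + ψ u (e w) = ψ u w) (h6 : finrank K V = 6)
    {a b : V} (ha : a ∈ LinearMap.range e) (hb : b ∈ LinearMap.range e) : wd ψ a b ∈ g := by
  have := G.nontrivial
  obtain ⟨A, B, hA, hB, hAB, hw⟩ := frame hsymm hnd G.idem hmul h6
  have hee' : ∀ x, e (e x) = e x := fun x => LinearMap.congr_fun G.idem x
  have hr := two_rk hnd G.idem hmul
  have hskew : ∀ c ∈ up g e, ∀ u w, ψ (c u) w + ψ u (c w) = 0 := by
    intro c hc u w
    obtain ⟨κ, hκ⟩ := hgsp c hc.1
    have h0 := mult_zero hnd hκ (Gr.up_mul_up hc hc)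
    rw [hκ, h0, zero_mul]
  -- the submodule `U`
  let U : Submodule K V :=
    { carrier := {m | e m = m ∧ ∀ c ∈ up g e, ∀ u u' u'', tau ψ m c u u' u'' = 0}
      add_mem' := by
        rintro x y ⟨hx, hx'⟩ ⟨hy, hy'⟩
        refine ⟨by rw [map_add, hx, hy], fun c hc u u' u'' => ?_⟩
        have h1 := hx' c hc u u' u''
        have h2 := hy' c hc u u' u''
        simp only [tau, map_add, LinearMap.add_apply] at h1 h2 ⊢
        linear_combination h1 + h2
      zero_mem' := by
        refine ⟨map_zero _, fun c hc u u' u'' => ?_⟩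
        simp only [tau, map_zero, LinearMap.zero_apply]
        ring
      smul_mem' := by
        rintro t x ⟨hx, hx'⟩
        refine ⟨by rw [map_smul, hx], fun c hc u u' u'' => ?_⟩
        have h1 := hx' c hc u u' u''
        simp only [tau, map_smul, LinearMap.smul_apply, smul_eq_mul] at h1 ⊢
        linear_combination t * h1 }
  have hUm : ∀ m, m ∈ U ↔ e m = m ∧ ∀ c ∈ up g e, ∀ u u' u'', tau ψ m c u u' u'' = 0 :=
    fun m => Iff.rfl
  have hUle : U ≤ LinearMap.range e := fun m hm => ⟨m, hm.1⟩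
  have hst : ∀ z ∈ g, e * z = z * e → ∀ u ∈ U, z u ∈ U := by
    intro z hz hze m hm
    obtain ⟨κ, hκ⟩ := hgsp z hz
    rw [hUm] at hm ⊢
    have hze' : ∀ x, e (z x) = z (e x) := fun x => LinearMap.congr_fun hze x
    refine ⟨by rw [hze', hm.1], fun c hc u u' u'' => ?_⟩
    have hc' := G.lie_up hz hze hc
    have e1 := hm.2 c hc (z u) u' u''
    have e2 := hm.2 c hc u (z u') u''
    have e3 := hm.2 c hc u u' (z u'')
    have e4 := hm.2 _ hc' u u' u''
    have e5 := hm.2 c hc u u' u''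
    have k1 := hκ u' (c u'')
    have k2 := hκ u'' (c u)
    have k3 := hκ u (c u')
    have l1 := hκ m u
    have l2 := hκ m u'
    have l3 := hκ m u''
    simp only [tau, LinearMap.sub_apply, Module.End.mul_apply, map_sub] at e1 e2 e3 e4 e5 ⊢
    linear_combination (ψ u' (c u'')) * l1 + (ψ u'' (c u)) * l2 + (ψ u (c u')) * l3 -
      (e1 + e2 + e3) + (ψ m u) * k1 + (ψ m u') * k2 + (ψ m u'') * k3 + 2 * κ * e5 - e4
  have hne : U ≠ LinearMap.range e := by
    intro hUe
    obtain ⟨c, hc, hc0⟩ := exists_up G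
    obtain ⟨u'', hu''⟩ : ∃ x, c x ≠ 0 := by
      by_contra h
      push Not at h
      exact hc0 (LinearMap.ext h)
    obtain ⟨u', hu'⟩ : ∃ y, ψ y (c u'') ≠ 0 := by
      by_contra h
      push Not at h
      exact hu'' (hnd _ fun y => by rw [hsymm]; exact h y)
    let T : LinearMap.range e →ₗ[K] K × K :=
      ((ψ.flip u').comp (LinearMap.range e).subtype).prod
        ((ψ.flip u'').comp (LinearMap.range e).subtype)
    have hT : ¬ Function.Injective T := by
      intro h
      have h1 := LinearMap.finrank_le_finrank_of_injective h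
      rw [finrank_prod, finrank_self] at h1
      change rk e ≤ _ at h1
      omega
    rw [injective_iff_map_eq_zero] at hT
    push Not at hT
    obtain ⟨m, hm, hm0⟩ := hT
    have hm1 : ψ (m : V) u' = 0 := congrArg Prod.fst hm
    have hm2 : ψ (m : V) u'' = 0 := congrArg Prod.snd hm
    obtain ⟨u, hu⟩ : ∃ y, ψ (m : V) y ≠ 0 := by
      by_contra h
      push Not at h
      exact hm0 (Subtype.ext (hnd _ h))
    have hmU : (m : V) ∈ U := by
      rw [hUe]
      exact m.2
    have h2 := ((hUm _).1 hmU).2 c hc u u' u''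
    simp only [tau] at h2
    rw [hm1, hm2, zero_mul, zero_mul, add_zero, add_zero] at h2
    exact (mul_ne_zero hu hu') h2
  have hbot : U = ⊥ := (irr_range G hUle hst).resolve_right hne
  -- the three numbers are arbitrary
  let γ : up g e →ₗ[K] Fin 3 → K :=
    { toFun := fun c => ![ψ (B 1) ((c : End K V) (B 2)), ψ (B 2) ((c : End K V) (B 0)),
        ψ (B 0) ((c : End K V) (B 1))]
      map_add' := fun x y => by
        ext i
        fin_cases i <;> simp
      map_smul' := fun t x => by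
        ext i
        fin_cases i <;> simp }
  have hγ0 : ∀ c : up g e, γ c 0 = ψ (B 1) ((c : End K V) (B 2)) := fun c => rfl
  have hγ1 : ∀ c : up g e, γ c 1 = ψ (B 2) ((c : End K V) (B 0)) := fun c => rfl
  have hγ2 : ∀ c : up g e, γ c 2 = ψ (B 0) ((c : End K V) (B 1)) := fun c => rfl
  have hγ : LinearMap.range γ = ⊤ := by
    by_contra hlt
    obtain ⟨f, hf0, hf⟩ := Submodule.exists_le_ker_of_lt_top _ (lt_top_iff_ne_top.2 hlt)
    have hfa : ∀ v : Fin 3 → K, f v = v 0 * f (Pi.single 0 1) + v 1 * f (Pi.single 1 1) +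
        v 2 * f (Pi.single 2 1) := by
      intro v
      conv_lhs => rw [← Finset.univ_sum_single v, Fin.sum_univ_three]
      have h3 : ∀ i : Fin 3, (Pi.single i (v i) : Fin 3 → K) = v i • Pi.single i 1 := by
        intro i
        rw [← Pi.single_smul, smul_eq_mul, mul_one]
      rw [h3, h3, h3]
      simp only [map_add, map_smul, smul_eq_mul]
    set μ : Fin 3 → K := fun i => f (Pi.single i 1) with hμ
    set m : V := μ 0 • A 0 + μ 1 • A 1 + μ 2 • A 2 with hm
    have hmu : ∀ x, ψ m x = μ 0 * ψ (A 0) x + μ 1 * ψ (A 1) x + μ 2 * ψ (A 2) x := by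
      intro x
      rw [hm]
      simp only [map_add, map_smul, LinearMap.add_apply, LinearMap.smul_apply, smul_eq_mul]
    have hmU : m ∈ U := by
      rw [hUm]
      refine ⟨by rw [hm]; simp only [map_add, map_smul, hA], fun c hc u u' u'' => ?_⟩
      have h3 : f (γ ⟨c, hc⟩) = 0 := by
        have h4 := hf (LinearMap.mem_range_self γ ⟨c, hc⟩)
        exact h4
      rw [hfa, hγ0, hγ1, hγ2] at h3
      have h4 := three hsymm hmul hw (hskew c hc) hc.2.1 hc.2.2
      change ψ (B 1) (c (B 2)) * μ 0 + ψ (B 2) (c (B 0)) * μ 1 + ψ (B 0) (c (B 1)) * μ 2 = 0 at h3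
      simp only [tau]
      rw [h4 u' u'', h4 u'' u, h4 u u', hmu, hmu, hmu]
      linear_combination (ψ (A 0) u * (ψ (A 1) u' * ψ (A 2) u'' - ψ (A 2) u' * ψ (A 1) u'') +
        ψ (A 1) u * (ψ (A 2) u' * ψ (A 0) u'' - ψ (A 0) u' * ψ (A 2) u'') +
        ψ (A 2) u * (ψ (A 0) u' * ψ (A 1) u'' - ψ (A 1) u' * ψ (A 0) u'')) * h3
    rw [hbot, Submodule.mem_bot] at hmU
    have hμ0 : ∀ j, μ j = 0 := by
      intro j
      have h3 := hmu (B j)
      rw [hmU, map_zero, LinearMap.zero_apply, hAB, hAB, hAB] at h3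
      fin_cases j <;> simpa using h3.symm
    apply hf0
    refine LinearMap.ext fun v => ?_
    rw [hfa]
    change v 0 * μ 0 + v 1 * μ 1 + v 2 * μ 2 = 0
    rw [hμ0, hμ0, hμ0, mul_zero, mul_zero, mul_zero, add_zero, add_zero]
  -- the operator
  obtain ⟨x, rfl⟩ := ha
  obtain ⟨y, rfl⟩ := hb
  have iso1 : ∀ x y, ψ (e x) (e y) = 0 := by
    intro x y
    have h := hmul (e x) (e y)
    rw [hee', hee'] at h
    linear_combination h
  set D : End K V := wd ψ (e x) (e y) with hD
  have hDs : ∀ u w, ψ (D u) w + ψ u (D w) = 0 := fun u w => wd_skew hsymm _ _ u w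
  have hD1 : e * D = D := by
    refine LinearMap.ext fun w => ?_
    rw [Module.End.mul_apply, hD, wd_apply, map_sub, map_smul, map_smul, hee', hee']
  have hD2 : D * e = 0 := by
    refine LinearMap.ext fun w => ?_
    rw [Module.End.mul_apply, hD, wd_apply, iso1, iso1, zero_smul, zero_smul, sub_zero,
      LinearMap.zero_apply]
  have hmem : ![ψ (B 1) (D (B 2)), ψ (B 2) (D (B 0)), ψ (B 0) (D (B 1))] ∈ LinearMap.range γ := by
    rw [hγ]
    exact Submodule.mem_top
  obtain ⟨⟨c, hc⟩, hcγ⟩ := hmem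
  have g0 : ψ (B 1) (c (B 2)) = ψ (B 1) (D (B 2)) := congrFun hcγ 0
  have g1 : ψ (B 2) (c (B 0)) = ψ (B 2) (D (B 0)) := congrFun hcγ 1
  have g2 : ψ (B 0) (c (B 1)) = ψ (B 0) (D (B 1)) := congrFun hcγ 2
  have hcD : c = D := by
    refine LinearMap.ext fun w => ?_
    rw [← sub_eq_zero]
    refine hnd _ fun u => ?_
    rw [hsymm, map_sub, three hsymm hmul hw (hskew c hc) hc.2.1 hc.2.2,
      three hsymm hmul hw hDs hD1 hD2, g0, g1, g2, sub_self]
  rw [← hcD]
  exact hc.1

theorem skew_of_six (hsymm : ∀ u w, ψ u w = ψ w u) (hnd : ∀ x, (∀ y, ψ x y = 0) → x = 0)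
    {g : Submodule K (End K V)} {e : End K V} (G : Gr g e)
    (hgsp : ∀ x ∈ g, ∃ κ : K, ∀ u w, ψ (x u) w + ψ u (x w) = κ * ψ u w)
    (hmul : ∀ u w, ψ (e u) w + ψ u (e w) = ψ u w) (h6 : finrank K V = 6) {D : End K V}
    (hD : ∀ u w, ψ (D u) w + ψ u (D w) = 0) : D ∈ g := by
  have hmul' : ∀ u w, ψ ((1 - e : End K V) u) w + ψ u ((1 - e : End K V) w) = ψ u w := by
    intro u w
    have h := hmul u w
    simp only [LinearMap.sub_apply, Module.End.one_apply, map_sub]
    linear_combination -h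
  have hr := two_rk hnd G.idem hmul
  refine skew_of_wd hsymm hnd (fun u w => ?_) hD
  refine wd_mem_of_parts hsymm hnd G.lie G.one G.mem G.idem hmul (by omega)
    (fun a ha b hb => wd_up_six hsymm hnd G hgsp hmul h6 ha hb)
    (fun a ha b hb => wd_up_six hsymm hnd G.symm hgsp hmul' h6 ha hb) u w

end Pool.Agent.FQA
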