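import Pool.Agent.FQA.Spread

/-!
# The lattice of the orthogonal algebra (PACKAGE FX12)

Proof. Copy of the proof of `exists_tw` (`Pool/Agent/FQA/Spread.lean`) with `hsymm` in place of
`hskew`: the
places with `rw [hskew]` and `neg_ne_zero` become `rw [hsymm]`. `i ≠ j`: otherwise `ψ (v i) (v i) ≠
0`; `e (v i) = κ • v i`
(`hv`), `κ * κ = κ` (`hee`), so `κ = 0` or `κ = 1`, and `hmul` for `v i, v i` gives
`2 * κ * ψ (v i) (v i) = ψ (v i) (v i)`, so `2 * κ = 1`, a contradiction.
-/

set_option autoImplicit false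
set_option linter.unusedSectionVars false

namespace Pool.Agent.FQA

open Module Pool.Agent.CoprimeSig Pool.Agent.Mod4 Pool.Agent.NumRank
open Pool.Agent.SmallRank (rk)

variable {K V : Type*} [Field K] [CharZero K] [IsAlgClosed K] [AddCommGroup V] [Module K V]
  [FiniteDimensional K V]

theorem exists_twS {g t : Submodule K (End K V)} (C : Cartan g t) {I : Type} [Fintype I]
    [DecidableEq I] (v : Basis I K V) (hv : ∀ x ∈ t, ∀ i, ∃ c : K, x (v i) = c • v i)
    (hmult : ∀ i j, (∀ τ ∈ t, wv v i τ = wv v j τ) → i = j) {ψ : V →ₗ[K] V →ₗ[K] K}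
    (hsymm : ∀ u w, ψ u w = ψ w u) (hnd : ∀ x, (∀ y, ψ x y = 0) → x = 0)
    (hgsp : ∀ x ∈ g, ∃ κ : K, ∀ u w, ψ (x u) w + ψ u (x w) = κ * ψ u w)
    (hsp : ∀ D : End K V, (∀ u w, ψ (D u) w + ψ u (D w) = 0) → D ∈ g)
    {e : End K V} (he : e ∈ t) (hee : e * e = e)
    (hmul : ∀ u w, ψ (e u) w + ψ u (e w) = ψ u w) (i : I) :
    ∃ j, i ≠ j ∧ tw i j ∈ Lv t v := by
  have huniq : ∀ a b c : I, ψ (v a) (v b) ≠ 0 → ψ (v a) (v c) ≠ 0 → b = c := by
    intro a b c hb hc
    refine hmult b c fun τ hτ => ?_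
    obtain ⟨κ, hκ⟩ := hgsp τ (C.le hτ)
    have h1 := hκ (v a) (v b)
    have h2 := hκ (v a) (v c)
    rw [wv_apply v hv hτ a, wv_apply v hv hτ b, map_smul, LinearMap.smul_apply, map_smul,
      smul_eq_mul, smul_eq_mul, ← add_mul] at h1
    rw [wv_apply v hv hτ a, wv_apply v hv hτ c, map_smul, LinearMap.smul_apply, map_smul,
      smul_eq_mul, smul_eq_mul, ← add_mul] at h2
    have h3 := mul_right_cancel₀ hb h1
    have h4 := mul_right_cancel₀ hc h2
    rw [← h4] at h3
    exact add_left_cancel h3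
  obtain ⟨j, hj⟩ : ∃ j, ψ (v i) (v j) ≠ 0 := by
    by_contra hcon
    push Not at hcon
    refine v.ne_zero i (hnd _ fun y => ?_)
    have h1 : ψ (v i) = 0 := v.ext fun j => by rw [hcon j, LinearMap.zero_apply]
    rw [h1, LinearMap.zero_apply]
  have hij : i ≠ j := by
    rintro rfl
    obtain ⟨κ, hκ⟩ := hv e he i
    have h1 : κ * κ = κ := by
      have h2 : (e * e) (v i) = e (v i) := by rw [hee]
      rw [Module.End.mul_apply, hκ, map_smul, hκ, smul_smul] at h2
      exact smul_left_injective K (v.ne_zero i) h2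
    have h2 := hmul (v i) (v i)
    rw [hκ, map_smul, LinearMap.smul_apply, map_smul, smul_eq_mul, ← add_mul] at h2
    have h3 : κ + κ = 1 := mul_right_cancel₀ hj (by rw [h2, one_mul])
    have h5 : (1 : K) = 0 := by
      have h4 : κ * (κ + κ) = κ * 1 := by rw [h3]
      rw [mul_add, h1, h3, mul_one] at h4
      rw [← h4] at h3
      linear_combination h3
    exact one_ne_zero h5
  have hji : ψ (v j) (v i) ≠ 0 := by
    rw [hsymm]
    exact hj
  refine ⟨j, hij, ?_⟩
  set d : I → ℚ := tw i j with hd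
  let D : End K V := v.constr K fun k => (d k : K) • v k
  have hDv : ∀ k, D (v k) = (d k : K) • v k := fun k => v.constr_basis K _ k
  have hdi : d i = 1 := by rw [hd, tw, if_pos rfl]
  have hdj : d j = -1 := by rw [hd, tw, if_neg hij.symm, if_pos rfl]
  have hd0 : ∀ k, k ≠ i → k ≠ j → d k = 0 := fun k h1 h2 => by
    rw [hd, tw, if_neg h1, if_neg h2]
  have hDs : ∀ a b, ψ (D (v a)) (v b) + ψ (v a) (D (v b)) = 0 := by
    intro a b
    rw [hDv, hDv, map_smul, LinearMap.smul_apply, map_smul, smul_eq_mul, smul_eq_mul, ← add_mul]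
    by_cases hab : ψ (v a) (v b) = 0
    · rw [hab, mul_zero]
    have hba : ψ (v b) (v a) ≠ 0 := by
      rw [hsymm]
      exact hab
    by_cases hai : a = i
    · subst hai
      have h1 := huniq _ _ _ hab hj
      rw [h1, hdi, hdj]
      norm_num
    by_cases haj : a = j
    · subst haj
      have h1 := huniq _ _ _ hab hji
      rw [h1, hdi, hdj]
      norm_num
    have hbi : b ≠ i := by
      rintro rfl
      exact haj (huniq _ _ _ hba hj)
    have hbj : b ≠ j := by
      rintro rfl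
      exact hai (huniq _ _ _ hba hji)
    rw [hd0 a hai haj, hd0 b hbi hbj, Rat.cast_zero, add_zero, zero_mul]
  have hDψ : ∀ u w, ψ (D u) w + ψ u (D w) = 0 := by
    have h1 : ψ ∘ₗ D + ψ.compl₂ D = 0 := by
      refine v.ext fun a => v.ext fun b => ?_
      simpa using hDs a b
    intro u w
    have h2 := LinearMap.congr_fun (LinearMap.congr_fun h1 u) w
    simpa using h2
  have hDt : D ∈ t := by
    refine C.cent D (hsp D hDψ) fun τ hτ => v.ext fun k => ?_
    rw [Module.End.mul_apply, Module.End.mul_apply, wv_apply v hv hτ k, map_smul, hDv, map_smul,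
      wv_apply v hv hτ k, smul_smul, smul_smul, mul_comm]
  refine ⟨fun k => ?_, D, hDt, hDv⟩
  by_cases h1 : k = i
  · exact ⟨1, by rw [h1, hdi, Int.cast_one]⟩
  by_cases h2 : k = j
  · exact ⟨-1, by rw [h2, hdj, Int.cast_neg, Int.cast_one]⟩
  · exact ⟨0, by rw [hd0 k h1 h2, Int.cast_zero]⟩

end Pool.Agent.FQA
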