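import Pool.Agent.FQA.WdUp
import Pool.Agent.FQA.Rho
import Pool.Agent.FQA.TwS
import Pool.Agent.FQA.Full
import Pool.Agent.TypeIV.Kinds

/-!
# The orthogonal type (PACKAGE FX13, assembly)

`rk_up_ne_one`: an element of square zero of `g` is skew (`hgsp`, `mult_zero`), so its rank is even by
`TypeIV.MX.even_of_symm` (`Pool/Agent/TypeIV/Kinds.lean`).

`so_of_inv`: `exists_rho` gives `c f ρ`, `B : Pr g e c f ρ`, `ρ = 1 ∨ ρ = 2`, `4 * ρ < finrank K V`.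
`ρ ≠ 1` by `rk_up_ne_one` (`B.rkc`, `B.cc`). So `ρ = 2`, `8 < finrank K V` and `skew_of_two`
(`Pool/Agent/FQA/WdUp.lean`).

`so_of_small`: `τ` of rank at most two, not a scalar. Take `c f ρ` with `Pr g e c f ρ` (minimal rank,
as in the proof of `SmallRank.small`, `Pool/Agent/SmallRank/Core.lean`). `exists_small`,
`min_dn` and `B.min` give `ρ ≤ rk τ ≤ 2`. `ρ ≠ 1` by `rk_up_ne_one`, `ρ ≥ 1` (`Pr.rho_pos`), so `ρ =
2`. `2 * rk e = finrank K V` is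
`SmallRank.two_rk` (`Pool/Agent/SmallRank/Full.lean`). `skew_of_two`.

`TD.so_of_conj`: `T.gr` gives `Gr g e` (see the proof of `TD.gr_or` in `Pool/Agent/FQA/Full.lean`,
which uses `T.gr` and `T.one`; here `e ≠ 0`, `e ≠ 1` by `hmul` and `hnd`: compare
`TD.ne_idem` there). `SmallRank.two_rk` gives `2 * rk e = finrank K V`.
`FQ.exists_tube` (`Pool/Agent/FQ/TubeI.lean`; `2 • e - 1 ∈ g`) gives `x ∈ g`, `e * x = x`, `x * e =
0`, injective on
the kernel of `e`. Then `so_of_inv`.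

`TD.so_spread`: `T.gr` gives `G : Gr g e`. `exists_twS` for `T'` (with `e'`, `hmul'`) gives `i ≠ j`
with `tw i j ∈ Lv t' v' = Lv t v`, so there is `τ ∈ t` with `τ (v k) = tw i j k • v k` (see the proof
of `spread` in
`Pool/Agent/FQA/Spread.lean`), `rk τ ≤ 2` (`rk_tw`), not a scalar (`ns_tw`). `so_of_small`. (`hmult'`
of `exists_twS`:
see how `TD.spread` in `Pool/Agent/FQA/Full.lean` obtains it from `T'`.)
-/

set_option autoImplicit false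
set_option linter.unusedSectionVars false

namespace Pool.Agent.FQA

open Module Pool.Agent.SmallRank
open Pool.Agent.NumRank (Lv)
open Pool.Agent.PrimePow.CC (Rt)

variable {K V : Type*} [Field K] [CharZero K] [IsAlgClosed K] [AddCommGroup V] [Module K V]
  [FiniteDimensional K V] {ψ : V →ₗ[K] V →ₗ[K] K}

theorem rk_up_ne_one [Nontrivial V] (hsymm : ∀ u w, ψ u w = ψ w u)
    (hnd : ∀ x, (∀ y, ψ x y = 0) → x = 0) {g : Submodule K (End K V)}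
    (hgsp : ∀ x ∈ g, ∃ κ : K, ∀ u w, ψ (x u) w + ψ u (x w) = κ * ψ u w) {c : End K V}
    (hc : c ∈ g) (hcc : c * c = 0) : rk c ≠ 1 := by
  intro h1
  obtain ⟨κ, hκ⟩ := hgsp c hc
  have hk := mult_zero hnd hκ hcc
  have h2 : Even (finrank K (LinearMap.range c)) :=
    Pool.Agent.TypeIV.MX.even_of_symm hnd hsymm (fun x y => by rw [hκ, hk, zero_mul])
  have h3 : finrank K (LinearMap.range c) = 1 := h1
  rw [h3] at h2
  exact absurd h2 (by decide)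

theorem so_of_inv (hsymm : ∀ u w, ψ u w = ψ w u) (hnd : ∀ x, (∀ y, ψ x y = 0) → x = 0)
    {g : Submodule K (End K V)} {e : End K V} (G : Gr g e)
    (hgsp : ∀ x ∈ g, ∃ κ : K, ∀ u w, ψ (x u) w + ψ u (x w) = κ * ψ u w)
    (hmul : ∀ u w, ψ (e u) w + ψ u (e w) = ψ u w)
    (hbal : 2 * rk e = finrank K V) {u : End K V} (hu : u ∈ up g e)
    (hinj : ∀ v, e v = 0 → u v = 0 → v = 0) (hn : ∀ m : ℕ, finrank K V ≠ 2 ^ m) :
    8 < finrank K V ∧ ∀ D : End K V, (∀ a b, ψ (D a) b + ψ a (D b) = 0) → D ∈ g := by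
  have := G.nontrivial
  obtain ⟨c, f, ρ, B, hρ, h4⟩ := exists_rho G hbal hu hinj hn
  have h1 : ρ ≠ 1 := by
    rintro rfl
    exact rk_up_ne_one hsymm hnd hgsp B.cu.1 B.cc B.rkc
  obtain rfl : ρ = 2 := hρ.resolve_left h1
  exact ⟨by omega, fun D hD => skew_of_two hsymm hnd hgsp B hmul hbal (by omega) hD⟩

theorem so_of_small (hsymm : ∀ u w, ψ u w = ψ w u) (hnd : ∀ x, (∀ y, ψ x y = 0) → x = 0)
    {g : Submodule K (End K V)} {e : End K V} (G : Gr g e)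
    (hgsp : ∀ x ∈ g, ∃ κ : K, ∀ u w, ψ (x u) w + ψ u (x w) = κ * ψ u w)
    (hmul : ∀ u w, ψ (e u) w + ψ u (e w) = ψ u w) (h8 : 8 < finrank K V) {τ : End K V}
    (hτ : τ ∈ g) (hns : ∀ c : K, τ ≠ c • 1) (hrk : rk τ ≤ 2) {D : End K V}
    (hD : ∀ a b, ψ (D a) b + ψ a (D b) = 0) : D ∈ g := by
  classical
  have := G.nontrivial
  have hbal := two_rk hnd G.idem hmul
  obtain ⟨z, hz, hz0⟩ := exists_up G
  have hex : ∃ n, ∃ y ∈ up g e, y ≠ 0 ∧ rk y = n := ⟨_, z, hz, hz0, rfl⟩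
  obtain ⟨c, hc, hc0, hcr⟩ := Nat.find_spec hex
  obtain ⟨ρ, hρ⟩ : ∃ ρ, ρ = Nat.find hex := ⟨_, rfl⟩
  rw [← hρ] at hcr
  have hmin : ∀ x ∈ up g e, x ≠ 0 → ρ ≤ rk x := fun x hx hx0 => by
    rw [hρ]
    exact Nat.find_min' hex ⟨x, hx, hx0, rfl⟩
  obtain ⟨f, B⟩ := exists_pair G hmin hc hc0 hcr
  have hle : ρ ≤ rk τ := by
    obtain ⟨w, hw0, hwr, hw | hw⟩ := exists_small G hτ hns
    · exact (hmin w hw hw0).trans hwr
    · exact (min_dn G hmin w hw hw0).trans hwr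
  have hpos := B.rho_pos
  have h1 : ρ ≠ 1 := by
    intro h
    exact rk_up_ne_one hsymm hnd hgsp B.cu.1 B.cc (B.rkc.trans h)
  have h2 : ρ = 2 := by omega
  subst h2
  exact skew_of_two hsymm hnd hgsp B hmul hbal h8 hD

/-- An idempotent of multiplier one is not zero or one. -/
private theorem so_ne [Nontrivial V] (hnd : ∀ x, (∀ y, ψ x y = 0) → x = 0) {e : End K V}
    (hmul : ∀ u w, ψ (e u) w + ψ u (e w) = ψ u w) : e ≠ 0 ∧ e ≠ 1 := by
  obtain ⟨a, ha⟩ := exists_ne (0 : V)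
  constructor
  · rintro rfl
    refine ha (hnd a fun b => ?_)
    have h1 := hmul a b
    simpa using h1.symm
  · rintro rfl
    refine ha (hnd a fun b => ?_)
    have h1 := hmul a b
    rw [Module.End.one_apply, Module.End.one_apply] at h1
    linear_combination h1

variable {g t : Submodule K (End K V)} (T : TD g t) [Nontrivial V] {I : Type} [Fintype I]
  [DecidableEq I] (v : Basis I K V) (hv : ∀ x ∈ t, ∀ i, ∃ c : K, x (v i) = c • v i)
include T hv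

theorem TD.so_of_conj (hcn : ∀ h h', Rt (Lv t v) h → Rt (Lv t v) h' → Cn (Lv t v) h h')
    (hsymm : ∀ u w, ψ u w = ψ w u) (hnd : ∀ x, (∀ y, ψ x y = 0) → x = 0)
    (hgsp : ∀ x ∈ g, ∃ κ : K, ∀ u w, ψ (x u) w + ψ u (x w) = κ * ψ u w)
    (hn : ∀ m : ℕ, finrank K V ≠ 2 ^ m) {e : End K V} (he : e ∈ t) (hee : e * e = e)
    (hmul : ∀ u w, ψ (e u) w + ψ u (e w) = ψ u w)
    {u : (End K V)ˣ} (hu : u ∈ FQ.expG K g)
    (hue : (u : End K V) * e * ((u⁻¹ : (End K V)ˣ) : End K V) = 1 - e) :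
    8 < finrank K V ∧ ∀ D : End K V, (∀ a b, ψ (D a) b + ψ a (D b) = 0) → D ∈ g := by
  obtain ⟨h0, h1⟩ := so_ne hnd hmul
  have G := T.gr v hv hcn hn (T.le he) hee h0 h1
  have hbal := two_rk hnd hee hmul
  have h2e : (2 : K) • e - 1 ∈ g := g.sub_mem (g.smul_mem _ G.mem) G.one
  obtain ⟨x, hx, hex, hxe, hinj⟩ := FQ.exists_tube G.lie hee h2e hu hue
  exact so_of_inv hsymm hnd G hgsp hmul hbal (u := x) ⟨hx, hex, hxe⟩ hinj hn

theorem TD.so_spread (hcn : ∀ h h', Rt (Lv t v) h → Rt (Lv t v) h' → Cn (Lv t v) h h')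
    (hsymm : ∀ u w, ψ u w = ψ w u) (hnd : ∀ x, (∀ y, ψ x y = 0) → x = 0)
    (hgsp : ∀ x ∈ g, ∃ κ : K, ∀ u w, ψ (x u) w + ψ u (x w) = κ * ψ u w)
    (hn : ∀ m : ℕ, finrank K V ≠ 2 ^ m) (h8 : 8 < finrank K V) {e : End K V} (he : e ∈ t)
    (hee : e * e = e) (hmul : ∀ u w, ψ (e u) w + ψ u (e w) = ψ u w)
    {V' : Type*} [AddCommGroup V'] [Module K V'] [FiniteDimensional K V'] [Nontrivial V']
    {g' t' : Submodule K (End K V')} (T' : TD g' t') (v' : Basis I K V')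
    (hv' : ∀ x ∈ t', ∀ i, ∃ c : K, x (v' i) = c • v' i) (hL : Lv t v = Lv t' v')
    {ψ' : V' →ₗ[K] V' →ₗ[K] K} (hsymm' : ∀ u w, ψ' u w = ψ' w u)
    (hnd' : ∀ x, (∀ y, ψ' x y = 0) → x = 0)
    (hgsp' : ∀ x ∈ g', ∃ κ : K, ∀ u w, ψ' (x u) w + ψ' u (x w) = κ * ψ' u w)
    {e' : End K V'} (he' : e' ∈ t') (hee' : e' * e' = e')
    (hmul' : ∀ u w, ψ' (e' u) w + ψ' u (e' w) = ψ' u w)
    (hfull : ∀ D : End K V', (∀ a b, ψ' (D a) b + ψ' a (D b) = 0) → D ∈ g') {D : End K V}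
    (hD : ∀ a b, ψ (D a) b + ψ a (D b) = 0) : D ∈ g := by
  obtain ⟨h0, h1⟩ := so_ne hnd hmul
  have G := T.gr v hv hcn hn (T.le he) hee h0 h1
  obtain ⟨i⟩ : Nonempty I := v.index_nonempty
  obtain ⟨j, hij, hj⟩ := exists_twS T'.toCartan v' hv' (T'.hmult v' hv') hsymm' hnd' hgsp' hfull
    he' hee' hmul' i
  rw [← hL] at hj
  obtain ⟨-, τ, hτ, hf⟩ := hj
  exact so_of_small hsymm hnd G hgsp hmul h8 (T.le hτ) (ns_tw v hij hf) (rk_tw v hf) hD

end Pool.Agent.FQA
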