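import Pool.Agent.FQA.Dich
import Pool.Agent.FQA.So
import Pool.Agent.FQA.Six
import Pool.Agent.Tube.CliffMod

/-!
# The simple orthogonal case: exponents of the powers of two modulo four
-/

set_option autoImplicit false
set_option linter.unusedSectionVars false

namespace Pool.Agent.FQA

open Module Pool.Agent.SmallRank

variable {K V : Type*} [Field K] [CharZero K] [IsAlgClosed K] [AddCommGroup V] [Module K V]
  [FiniteDimensional K V] {ψ : V →ₗ[K] V →ₗ[K] K}

/-- The exponent of the rank modulo four if there is a symmetric form. -/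
theorem Two.mod4_symm {g : Submodule K (End K V)} {e c f x y : End K V} (T : Two g e c f x y)
    (hsymm : ∀ u w, ψ u w = ψ w u) (hnd : ∀ x, (∀ y, ψ x y = 0) → x = 0)
    (hgsp : ∀ x ∈ g, ∃ κ : K, ∀ u w, ψ (x u) w + ψ u (x w) = κ * ψ u w)
    (hmul : ∀ u w, ψ (e u) w + ψ u (e w) = ψ u w) {j : ℕ} (hj : rk (1 - e) = 2 ^ j) :
    j % 4 = 2 ∨ j % 4 = 3 := by
  have hus : ∀ z ∈ up g e, ∀ a b, ψ (z a) b = -ψ a (z b) := fun z hz a b =>
    eq_neg_of_add_eq_zero_left (up_skew T.G hgsp hz a b)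
  obtain ⟨q, hq⟩ : ∃ q : V →ₗ[K] V →ₗ[K] K, ∀ a b, q a b = ψ a ((c + x) b) :=
    ⟨ψ.compl₂ (c + x), fun a b => rfl⟩
  have hee' : ∀ w, e (e w) = e w := fun w => LinearMap.congr_fun T.G.idem w
  have hiso : ∀ a b, ψ (e a) (e b) = 0 := by
    intro a b
    have h := hmul (e a) (e b)
    rw [hee', hee'] at h
    linear_combination h
  have heu : ∀ b, e ((c + x) b) = (c + x) b := fun b => LinearMap.congr_fun T.hu.2.1 b
  have hpu : ∀ b, (c + x) ((1 - e : End K V) b) = (c + x) b := fun b =>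
    LinearMap.congr_fun (T.up_p T.hu) b
  have F : Tube.Fm (1 - e) (Two.J g e (c + x) ⊓ LinearMap.ker (LinearMap.trace K V)) q (-1) 1 :=
    { sym := fun a b => by
        rw [hq, hq, hsymm a, hus _ T.hu b a]
        ring
      nd := fun a ha => by
        have h1 : (c + x) a = 0 := hnd _ fun b => by
          rw [hus _ T.hu, ← hq, ha, neg_zero]
        rw [← T.uu', Module.End.mul_apply, h1, map_zero]
      adp := fun a b => by
        rw [hq, hq, hpu, LinearMap.sub_apply, Module.End.one_apply, map_sub, LinearMap.sub_apply,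
          ← heu b, hiso, sub_zero]
      ads := fun s hs a b => by
        have h1 := T.J_up hs.1
        rw [hq, hq, one_mul]
        have h2 := hus _ T.hu (s a) b
        have h3 := hus _ h1 a b
        rw [Module.End.mul_apply, Module.End.mul_apply] at h3
        rw [← neg_eq_iff_eq_neg] at h2
        rw [← h2, h3, neg_neg] }
  exact (Tube.Fm.mod4 j _ _ q T.cl hj).2.1 F

theorem so_of_gr (hsymm : ∀ u w, ψ u w = ψ w u) (hnd : ∀ x, (∀ y, ψ x y = 0) → x = 0)
    {g : Submodule K (End K V)} {e : End K V} (G : Gr g e)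
    (hgsp : ∀ x ∈ g, ∃ κ : K, ∀ u w, ψ (x u) w + ψ u (x w) = κ * ψ u w)
    (hmul : ∀ u w, ψ (e u) w + ψ u (e w) = ψ u w) (h2 : finrank K V ≠ 2)
    (hn : ∀ m : ℕ, 3 ≤ m → m % 4 = 0 ∨ m % 4 = 3 → finrank K V ≠ 2 ^ m)
    (hcase : (∃ u ∈ up g e, ∀ v, e v = 0 → u v = 0 → v = 0) ∨
      ∀ k : ℕ, 3 ≤ k → finrank K V ≠ (2 * k).choose k) {D : End K V}
    (hD : ∀ a b, ψ (D a) b + ψ a (D b) = 0) : D ∈ g := by
  have := G.nontrivial
  have hbal := two_rk hnd G.idem hmul
  rcases dich G hbal with ⟨⟨k, hk⟩, h⟩ | ⟨c, f, ρ, B, hρ, h4⟩ | ⟨c, f, x, y, T⟩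
  · rcases hcase with hu | hc
    · exact absurd (h hu) h2
    · rcases k with _ | _ | _ | k
      · rw [mul_zero, Nat.choose_self] at hk
        omega
      · exact absurd (by rw [hk]; decide) h2
      · exact skew_of_six hsymm hnd G hgsp hmul (by rw [hk]; decide) hD
      · exact absurd hk (hc (k + 3) (by omega))
  · have h1 : ρ ≠ 1 := by
      rintro rfl
      exact rk_up_ne_one hsymm hnd hgsp B.cu.1 B.cc B.rkc
    obtain rfl : ρ = 2 := hρ.resolve_left h1
    exact skew_of_two hsymm hnd hgsp B hmul hbal (by omega) hD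
  · exfalso
    obtain ⟨j, hj⟩ := T.pow_two
    have r1 := G.rk_add
    have hcard : finrank K V = 2 ^ (j + 1) := by
      rw [pow_succ, ← hj]
      omega
    have h3 := T.mod4_symm hsymm hnd hgsp hmul hj
    exact hn (j + 1) (by omega) (by omega) hcard

end Pool.Agent.FQA
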