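import Pool.Agent.SmallRank.Full

/-!
# The simple symplectic case: exponents of the powers of two modulo four
-/

set_option autoImplicit false
set_option linter.unusedSectionVars false

namespace Pool.Agent.FQA

open Module Pool.Agent.SmallRank
open Pool.Agent.OddRank (mm skew_mem)
open Pool.Agent.Tube (GD)

variable {K V : Type*} [Field K] [CharZero K] [IsAlgClosed K] [AddCommGroup V] [Module K V]
  [FiniteDimensional K V]

private theorem sp_tube {g : Submodule K (End K V)} {e : End K V} (G : Gr g e)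
    {ψ : V →ₗ[K] V →ₗ[K] K} (halt : ∀ x, ψ x x = 0) (hnd : ∀ x, (∀ y, ψ x y = 0) → x = 0)
    (hgsp : ∀ x ∈ g, ∃ κ : K, ∀ u v, ψ (x u) v + ψ u (x v) = κ * ψ u v)
    (hmult : ∀ u v, ψ (e u) v + ψ u (e v) = ψ u v)
    (hpow : ∀ m, 5 ≤ m → m % 4 = 1 ∨ m % 4 = 2 → finrank K V ≠ 2 ^ m)
    {u : End K V} (hu : u ∈ up g e) (hinj : ∀ v, e v = 0 → u v = 0 → v = 0)
    {D : End K V} (hD : ∀ u v, ψ (D u) v + ψ u (D v) = 0) : D ∈ g := by
  have H : GD ψ g e := ⟨halt, hnd, G.lie, hgsp, G.idem, hmult, fun a ha => G.lie e G.mem a ha⟩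
  refine H.skew_mem_of_tube4 (x := u) ⟨hu.1, hu.2.1, hu.2.2⟩ hinj ?_ hpow hD
  intro W h1 h2
  exact G.irr_ud (fun a ha w hw => h1 a ⟨ha.1, ha.2.1, ha.2.2⟩ w hw)
    (fun a ha w hw => h2 a ⟨ha.1, ha.2.1, ha.2.2⟩ w hw)

/-- **The simple symplectic case.** -/
theorem sp_of_gr {g : Submodule K (End K V)} {e : End K V} (G : Gr g e)
    {ψ : V →ₗ[K] V →ₗ[K] K} (halt : ∀ x, ψ x x = 0)
    (hnd : ∀ x, (∀ y, ψ x y = 0) → x = 0)
    (hgsp : ∀ x ∈ g, ∃ κ : K, ∀ u v, ψ (x u) v + ψ u (x v) = κ * ψ u v)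
    (hmult : ∀ u v, ψ (e u) v + ψ u (e v) = ψ u v)
    (hpow : ∀ m, 5 ≤ m → m % 4 = 1 ∨ m % 4 = 2 → finrank K V ≠ 2 ^ m)
    (hcase : (∃ u ∈ up g e, ∀ v, e v = 0 → u v = 0 → v = 0) ∨
      ∀ k, Odd k → 3 ≤ k → finrank K V ≠ (2 * k).choose k)
    {D : End K V} (hD : ∀ u v, ψ (D u) v + ψ u (D v) = 0) : D ∈ g := by
  classical
  rcases hcase with ⟨u, hu, hinj⟩ | hbin
  · exact sp_tube G halt hnd hgsp hmult hpow hu hinj hD
  have := G.nontrivial
  have hbal := two_rk hnd G.idem hmult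
  -- an element of minimal rank
  obtain ⟨z, hz, hz0⟩ := exists_up G
  have hex : ∃ n, ∃ y ∈ up g e, y ≠ 0 ∧ rk y = n := ⟨_, z, hz, hz0, rfl⟩
  obtain ⟨c, hc, hc0, hcr⟩ := Nat.find_spec hex
  obtain ⟨ρ, hρ⟩ : ∃ ρ, ρ = Nat.find hex := ⟨_, rfl⟩
  rw [← hρ] at hcr
  have hmin : ∀ x ∈ up g e, x ≠ 0 → ρ ≤ rk x := fun x hx hx0 => by
    rw [hρ]
    exact Nat.find_min' hex ⟨x, hx, hx0, rfl⟩
  obtain ⟨f, B⟩ := exists_pair G hmin hc hc0 hcr
  by_cases h0 : ∀ x ∈ up g e, f * x = 0 → x * f = 0 → x = 0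
  · -- the projective case
    obtain ⟨M, x, y, P⟩ := B.exists_pb h0
    obtain ⟨k, hM, hn, hs⟩ := P.finrank_eq hbal
    have hskew : ∀ a ∈ g, ∀ b ∈ g, ∀ u v,
        ψ ((a * b - b * a) u) v + ψ u ((a * b - b * a) v) = 0 := by
      intro a ha b hb u v
      obtain ⟨α, hα⟩ := hgsp a ha
      obtain ⟨β, hβ⟩ := hgsp b hb
      exact skew_comm hα hβ u v
    have hk : Odd k := by
      refine P.lt.odd halt hnd ?_ ?_ (by omega) hs (lo := fun a => ⟨a, by omega⟩)
        (hi := fun a => ⟨a + k, by omega⟩) ?_ ?_ ?_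
      · intro i u v
        obtain ⟨a, ha, b, hb, hab⟩ := P.nn_comm i
        have h1 := hskew a ha b hb u v
        have h2 := hmult u v
        rw [hab]
        simp only [LinearMap.add_apply, LinearMap.sub_apply, Module.End.one_apply, map_add,
          map_sub] at h1 ⊢
        linear_combination h1 - h2
      · intro i j hij u v
        obtain ⟨a, ha, b, hb, hab⟩ := P.ee_comm i j hij
        rw [hab]
        exact hskew a ha b hb u v
      · intro a b hab
        simpa [Fin.ext_iff] using hab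
      · intro a b hab
        simpa [Fin.ext_iff] using hab
      · intro a b hab
        have h1 : (a : ℕ) = b + k := by simpa [Fin.ext_iff] using hab
        have h2 := a.2
        omega
    by_cases hk3 : 3 ≤ k
    · exact absurd hn (hbin k hk hk3)
    · have hk1 : k = 1 := by
        obtain ⟨j, hj⟩ := hk
        omega
      rw [hk1] at hn
      have hn2 : finrank K V = 2 := by
        rw [hn]
        decide
      have hrc : rk c = 1 := by
        have h1 : rk c ≤ rk e := by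
          have h2 := rk_mul_left e c
          rwa [hc.2.1] at h2
        have h2 := rk_pos hc0
        omega
      exact skew_mem halt hnd (mm_mem G halt hnd hgsp hmult hc.1 (Gr.up_mul_up hc hc)
        (Or.inl hrc)) hD
  · push Not at h0
    obtain ⟨x, hx, hfx, hxf, hx0⟩ := h0
    by_cases hlt : 4 * ρ < finrank K V
    · -- an element of small rank
      have hns : ∀ κ : K, c ≠ κ • 1 := by
        intro κ hκ
        have h1 : c * c = 0 := Gr.up_mul_up hc hc
        rw [hκ, smul_mul_smul_comm, one_mul] at h1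
        rcases smul_eq_zero.1 h1 with h2 | h2
        · rcases mul_self_eq_zero.1 h2 with rfl
          exact hc0 (by rw [hκ, zero_smul])
        · exact one_ne_zero h2
      refine skew_of_small G halt hnd hgsp hmult hc.1 hns ?_ hD
      have h1 := G.rk_add
      have h2 : rk (1 - e) = rk e := by omega
      have h3 : 0 < rk e := G.rk_e_pos
      rw [h2, hcr, ← hbal]
      have h4 : 4 * ρ < 2 * rk e := by rw [hbal]; exact hlt
      nlinarith
    · -- tube type
      have hcx : c + x ∈ up g e := (up g e).add_mem hc hx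
      exact sp_tube G halt hnd hgsp hmult hpow hcx
        (fun v hv hcv => B.inj_of_zero hbal (by omega) hx hx0 hfx hxf hv hcv) hD

end Pool.Agent.FQA
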