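import Pool.Agent.FQA.Kind
import Pool.Agent.FQA.NfB
import Pool.Agent.FQA.SoN
import Pool.Agent.FQA.SpN
import Pool.Agent.FQA.SelfDual

/-!
# The three kinds, with the exact exceptional dimensions

`T : TD g t` with connected roots and an idempotent `e` of `t` with `2 * rk e = finrank K V`.

* no invariant form: `TD.nf_conj` (`e` is conjugate to `1 - e`) and `TD.nf_bal` (no conjugation);
  excluded are `2 ^ m` for even `m ≥ 4`;
* symplectic: `TD.sp_conj`, `TD.sp_bal`, `TD.sp_small`; excluded are `2 ^ m` for `m ≥ 5` with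
  `m % 4 = 1, 2`; if the dimension is `2 ^ m`, `m ≥ 3`, then it is assumed that no root of the
  lattice is without zeros;
* orthogonal: `TD.so_conj`, `TD.so_bal`, `TD.so_small`; excluded are `2 ^ m` for `m ≥ 3` with
  `m % 4 = 0, 3`; if the dimension is `2 ^ m`, `m ≥ 2`, then it is assumed that no root of the
  lattice is without zeros.
-/

set_option autoImplicit false
set_option linter.unusedSectionVars false

namespace Pool.Agent.FQA

open Module Pool.Agent.CoprimeSig Pool.Agent.Mod4 Pool.Agent.NumRank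
open Pool.Agent.PrimePow.CC (Rf Rt Lat)
open Pool.Agent.SmallRank (rk rk_compl trace_idem two_rk)

variable {K V : Type*} [Field K] [CharZero K] [IsAlgClosed K] [AddCommGroup V] [Module K V]
  [FiniteDimensional K V] {ψ : V →ₗ[K] V →ₗ[K] K}

/-- A conjugate of `1 - e` has the right rank. -/
theorem conj_bal [Nontrivial V] {e : End K V} (hee : e * e = e) {u : (End K V)ˣ}
    (hue : (u : End K V) * e * ((u⁻¹ : (End K V)ˣ) : End K V) = 1 - e) :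
    e ≠ 0 ∧ e ≠ 1 ∧ 2 * rk e = finrank K V := by
  have htr : LinearMap.trace K V e = LinearMap.trace K V (1 - e) := by
    rw [← hue, LinearMap.trace_mul_comm, ← mul_assoc, Units.inv_mul, one_mul]
  have hid : (1 - e) * (1 - e) = 1 - e := by
    rw [mul_sub, mul_one, sub_mul, one_mul, hee, sub_self, sub_zero]
  rw [trace_idem hee, trace_idem hid] at htr
  have hrk : rk e = rk (1 - e) := by exact_mod_cast htr
  have hadd := rk_compl hee
  refine ⟨?_, ?_, by omega⟩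
  · rintro rfl
    rw [mul_zero, zero_mul, sub_zero] at hue
    exact zero_ne_one hue
  · rintro rfl
    rw [mul_one, Units.mul_inv, sub_self] at hue
    exact one_ne_zero hue

/-- An idempotent of half the rank is not zero or one. -/
theorem ne_of_bal [Nontrivial V] {e : End K V} (hbal : 2 * rk e = finrank K V) :
    e ≠ 0 ∧ e ≠ 1 := by
  have hpos : 0 < finrank K V := finrank_pos
  constructor
  · rintro rfl
    have h1 : rk (0 : End K V) = 0 := SmallRank.rk_eq_zero.2 rfl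
    omega
  · rintro rfl
    have h1 : rk (1 : End K V) = finrank K V := by
      change finrank K (LinearMap.range (1 : End K V)) = _
      rw [show (1 : End K V) = LinearMap.id from rfl, LinearMap.range_id, finrank_top]
    omega

variable {g t : Submodule K (End K V)} (T : TD g t) [Nontrivial V] {I : Type} [Fintype I]
  (v : Basis I K V) (hv : ∀ x ∈ t, ∀ i, ∃ c : K, x (v i) = c • v i)
include T

/-- The tube element. -/
theorem TD.exists_tube {e : End K V} (he : e ∈ g) (hee : e * e = e) {u : (End K V)ˣ}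
    (hu : u ∈ FQ.expG K g)
    (hue : (u : End K V) * e * ((u⁻¹ : (End K V)ˣ) : End K V) = 1 - e) :
    ∃ x ∈ SmallRank.up g e, ∀ w, e w = 0 → x w = 0 → w = 0 := by
  have h2e : (2 : K) • e - 1 ∈ g := g.sub_mem (g.smul_mem _ he) T.hone
  obtain ⟨x, hx, hex, hxe, hinj⟩ := FQ.exists_tube T.lie hee h2e hu hue
  exact ⟨x, ⟨hx, hex, hxe⟩, hinj⟩

/-- If the dimension is not a power of two then no root of the lattice is without zeros. -/
theorem TD.nofl_of_pow (hv : ∀ x ∈ t, ∀ i, ∃ c : K, x (v i) = c • v i)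
    (hcn : ∀ h h', Rt (Lv t v) h → Rt (Lv t v) h' → Cn (Lv t v) h h')
    (hn : ∀ m : ℕ, finrank K V ≠ 2 ^ m) : ∀ k, ¬ Fl (Lv t v) k := by
  intro k hk
  obtain ⟨S, C⟩ := exists_cube (T.lat v hv) (conn_of_cn hcn) ⟨k, hk⟩
  refine hn S.card ?_
  rw [finrank_eq_card_basis v, C.card]

include hv

/-! No invariant form. -/

theorem TD.nf_core (hcn : ∀ h h', Rt (Lv t v) h → Rt (Lv t v) h' → Cn (Lv t v) h h')
    (hnf : ∀ φ : V →ₗ[K] V →ₗ[K] K, (∀ x, (∀ y, φ x y = 0) → x = 0) →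
      ¬ ∀ x ∈ g, ∃ κ : K, ∀ a b, φ (x a) b + φ a (x b) = κ * φ a b)
    (hn : ∀ m : ℕ, 4 ≤ m → Even m → finrank K V ≠ 2 ^ m) {e : End K V} (he : e ∈ t)
    (hee : e * e = e) (hbal : 2 * rk e = finrank K V)
    (hcase : (∃ u ∈ SmallRank.up g e, ∀ w, e w = 0 → u w = 0 → w = 0) ∨
      ∀ k : ℕ, 2 ≤ k → finrank K V ≠ (2 * k).choose k) (D : End K V) : D ∈ g := by
  obtain ⟨h0, h1⟩ := ne_of_bal hbal
  by_cases d2 : finrank K V = 2
  · exact T.full_of_proj hnf (T.le he) hee h1 (by omega) D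
  by_cases d4 : finrank K V = 4
  · exact T.full_four hnf d4 (T.le he) hee (by omega) D
  exact nf_of_gr (T.gr_of_nofl v hv hcn (T.nofl_of_nf v hv (conn_of_cn hcn) hnf) (T.le he) hee
    h0 h1) hbal (form_zero T.irr hnf) d2 d4 hn hcase D

theorem TD.nf_bal (hcn : ∀ h h', Rt (Lv t v) h → Rt (Lv t v) h' → Cn (Lv t v) h h')
    (hnf : ∀ φ : V →ₗ[K] V →ₗ[K] K, (∀ x, (∀ y, φ x y = 0) → x = 0) →
      ¬ ∀ x ∈ g, ∃ κ : K, ∀ a b, φ (x a) b + φ a (x b) = κ * φ a b)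
    (hn : ∀ m : ℕ, 4 ≤ m → Even m → finrank K V ≠ 2 ^ m)
    (hbin : ∀ k : ℕ, 2 ≤ k → finrank K V ≠ (2 * k).choose k) {e : End K V} (he : e ∈ t)
    (hee : e * e = e) (hbal : 2 * rk e = finrank K V) (D : End K V) : D ∈ g :=
  T.nf_core v hv hcn hnf hn he hee hbal (Or.inr hbin) D

theorem TD.nf_conj (hcn : ∀ h h', Rt (Lv t v) h → Rt (Lv t v) h' → Cn (Lv t v) h h')
    (hnf : ∀ φ : V →ₗ[K] V →ₗ[K] K, (∀ x, (∀ y, φ x y = 0) → x = 0) →
      ¬ ∀ x ∈ g, ∃ κ : K, ∀ a b, φ (x a) b + φ a (x b) = κ * φ a b)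
    (hn : ∀ m : ℕ, 4 ≤ m → Even m → finrank K V ≠ 2 ^ m) {e : End K V} (he : e ∈ t)
    (hee : e * e = e) {u : (End K V)ˣ} (hu : u ∈ FQ.expG K g)
    (hue : (u : End K V) * e * ((u⁻¹ : (End K V)ˣ) : End K V) = 1 - e) (D : End K V) : D ∈ g :=
  T.nf_core v hv hcn hnf hn he hee (conj_bal hee hue).2.2
    (Or.inl (T.exists_tube (T.le he) hee hu hue)) D

/-! The symplectic kind. -/

theorem TD.sp_core (hcn : ∀ h h', Rt (Lv t v) h → Rt (Lv t v) h' → Cn (Lv t v) h h')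
    (halt : ∀ x, ψ x x = 0) (hnd : ∀ x, (∀ y, ψ x y = 0) → x = 0)
    (hgsp : ∀ x ∈ g, ∃ κ : K, ∀ u w, ψ (x u) w + ψ u (x w) = κ * ψ u w)
    (hn : ∀ m : ℕ, 5 ≤ m → m % 4 = 1 ∨ m % 4 = 2 → finrank K V ≠ 2 ^ m)
    (hfl : ∀ m : ℕ, 3 ≤ m → finrank K V = 2 ^ m → ∀ k, ¬ Fl (Lv t v) k)
    {e : End K V} (he : e ∈ t) (hee : e * e = e)
    (hmul : ∀ u w, ψ (e u) w + ψ u (e w) = ψ u w)
    (hcase : (∃ u ∈ SmallRank.up g e, ∀ w, e w = 0 → u w = 0 → w = 0) ∨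
      ∀ k : ℕ, Odd k → 3 ≤ k → finrank K V ≠ (2 * k).choose k) {D : End K V}
    (hD : ∀ a b, ψ (D a) b + ψ a (D b) = 0) : D ∈ g := by
  by_cases h4 : finrank K V % 4 = 2 ∨ finrank K V = 4
  · exact T.skew_of_mod4 halt hnd hgsp h4 hD
  push Not at h4
  have hbal := two_rk hnd hee hmul
  obtain ⟨h0, h1⟩ := ne_of_bal hbal
  have hno : ∀ k, ¬ Fl (Lv t v) k := by
    by_cases hp : ∃ m : ℕ, finrank K V = 2 ^ m
    · obtain ⟨m, hm⟩ := hp
      have hpos : 0 < finrank K V := finrank_pos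
      rcases m with _ | _ | _ | m
      · rw [pow_zero] at hm
        omega
      · rw [zero_add, pow_one] at hm
        exact absurd (by rw [hm]) h4.1
      · exact absurd (by rw [hm]; rfl) h4.2
      · exact hfl (m + 3) (by omega) hm
    · push Not at hp
      exact T.nofl_of_pow v hv hcn hp
  exact sp_of_gr (T.gr_of_nofl v hv hcn hno (T.le he) hee h0 h1) halt hnd hgsp hmul hn hcase hD

theorem TD.sp_conj (hcn : ∀ h h', Rt (Lv t v) h → Rt (Lv t v) h' → Cn (Lv t v) h h')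
    (halt : ∀ x, ψ x x = 0) (hnd : ∀ x, (∀ y, ψ x y = 0) → x = 0)
    (hgsp : ∀ x ∈ g, ∃ κ : K, ∀ u w, ψ (x u) w + ψ u (x w) = κ * ψ u w)
    (hn : ∀ m : ℕ, 5 ≤ m → m % 4 = 1 ∨ m % 4 = 2 → finrank K V ≠ 2 ^ m)
    (hfl : ∀ m : ℕ, 3 ≤ m → finrank K V = 2 ^ m → ∀ k, ¬ Fl (Lv t v) k)
    {e : End K V} (he : e ∈ t) (hee : e * e = e)
    (hmul : ∀ u w, ψ (e u) w + ψ u (e w) = ψ u w)
    {u : (End K V)ˣ} (hu : u ∈ FQ.expG K g)
    (hue : (u : End K V) * e * ((u⁻¹ : (End K V)ˣ) : End K V) = 1 - e) {D : End K V}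
    (hD : ∀ a b, ψ (D a) b + ψ a (D b) = 0) : D ∈ g :=
  T.sp_core v hv hcn halt hnd hgsp hn hfl he hee hmul
    (Or.inl (T.exists_tube (T.le he) hee hu hue)) hD

theorem TD.sp_bal (hcn : ∀ h h', Rt (Lv t v) h → Rt (Lv t v) h' → Cn (Lv t v) h h')
    (halt : ∀ x, ψ x x = 0) (hnd : ∀ x, (∀ y, ψ x y = 0) → x = 0)
    (hgsp : ∀ x ∈ g, ∃ κ : K, ∀ u w, ψ (x u) w + ψ u (x w) = κ * ψ u w)
    (hn : ∀ m : ℕ, 5 ≤ m → m % 4 = 1 ∨ m % 4 = 2 → finrank K V ≠ 2 ^ m)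
    (hfl : ∀ m : ℕ, 3 ≤ m → finrank K V = 2 ^ m → ∀ k, ¬ Fl (Lv t v) k)
    (hbin : ∀ k : ℕ, Odd k → 3 ≤ k → finrank K V ≠ (2 * k).choose k)
    {e : End K V} (he : e ∈ t) (hee : e * e = e)
    (hmul : ∀ u w, ψ (e u) w + ψ u (e w) = ψ u w) {D : End K V}
    (hD : ∀ a b, ψ (D a) b + ψ a (D b) = 0) : D ∈ g :=
  T.sp_core v hv hcn halt hnd hgsp hn hfl he hee hmul (Or.inr hbin) hD

/-- An element of rank at most two in the torus. -/
theorem TD.sp_small (hcn : ∀ h h', Rt (Lv t v) h → Rt (Lv t v) h' → Cn (Lv t v) h h')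
    (halt : ∀ x, ψ x x = 0) (hnd : ∀ x, (∀ y, ψ x y = 0) → x = 0)
    (hgsp : ∀ x ∈ g, ∃ κ : K, ∀ u w, ψ (x u) w + ψ u (x w) = κ * ψ u w)
    (hfl : ∀ m : ℕ, 3 ≤ m → finrank K V = 2 ^ m → ∀ k, ¬ Fl (Lv t v) k)
    {e : End K V} (he : e ∈ t) (hee : e * e = e)
    (hmul : ∀ u w, ψ (e u) w + ψ u (e w) = ψ u w) {τ : End K V} (hτ : τ ∈ t)
    (hns : ∀ c : K, τ ≠ c • 1) (hrk : rk τ ≤ 2) {D : End K V}
    (hD : ∀ a b, ψ (D a) b + ψ a (D b) = 0) : D ∈ g := by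
  by_cases h4 : finrank K V % 4 = 2 ∨ finrank K V = 4
  · exact T.skew_of_mod4 halt hnd hgsp h4 hD
  push Not at h4
  have hbal := two_rk hnd hee hmul
  obtain ⟨h0, h1⟩ := ne_of_bal hbal
  have hno : ∀ k, ¬ Fl (Lv t v) k := by
    by_cases hp : ∃ m : ℕ, finrank K V = 2 ^ m
    · obtain ⟨m, hm⟩ := hp
      have hpos : 0 < finrank K V := finrank_pos
      rcases m with _ | _ | _ | m
      · rw [pow_zero] at hm
        omega
      · rw [zero_add, pow_one] at hm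
        exact absurd (by rw [hm]) h4.1
      · exact absurd (by rw [hm]; rfl) h4.2
      · exact hfl (m + 3) (by omega) hm
    · push Not at hp
      exact T.nofl_of_pow v hv hcn hp
  exact full_of_tw (T.gr_of_nofl v hv hcn hno (T.le he) hee h0 h1) halt hnd hgsp hmul (T.le hτ)
    hns hrk hD

/-! The orthogonal kind. -/

omit v hv in
theorem TD.ne_two (hsymm : ∀ u w, ψ u w = ψ w u) (hnd : ∀ x, (∀ y, ψ x y = 0) → x = 0)
    (hgsp : ∀ x ∈ g, ∃ κ : K, ∀ u w, ψ (x u) w + ψ u (x w) = κ * ψ u w)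
    {e : End K V} (he : e ∈ g) (hee : e * e = e)
    (hmul : ∀ u w, ψ (e u) w + ψ u (e w) = ψ u w) : finrank K V ≠ 2 := by
  intro h
  have hbal := two_rk hnd hee hmul
  obtain ⟨h0, h1⟩ := ne_of_bal hbal
  obtain ⟨x, hx, hx0⟩ := exists_up_irr T.lie T.irr he hee h0 h1
  obtain ⟨hxg, hex, hxe⟩ := hx
  have hxx : x * x = 0 := by
    nth_rewrite 2 [← hex]
    rw [← mul_assoc, hxe, zero_mul]
  have h2 : rk x ≤ rk e := by
    rw [← hex]
    exact SmallRank.rk_mul_left _ _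
  have h3 : 0 < rk x := SmallRank.rk_pos hx0
  exact rk_up_ne_one hsymm hnd hgsp hxg hxx (by omega)

theorem TD.so_gr (hcn : ∀ h h', Rt (Lv t v) h → Rt (Lv t v) h' → Cn (Lv t v) h h')
    (hsymm : ∀ u w, ψ u w = ψ w u) (hnd : ∀ x, (∀ y, ψ x y = 0) → x = 0)
    (hgsp : ∀ x ∈ g, ∃ κ : K, ∀ u w, ψ (x u) w + ψ u (x w) = κ * ψ u w)
    (hfl : ∀ m : ℕ, 2 ≤ m → finrank K V = 2 ^ m → ∀ k, ¬ Fl (Lv t v) k)
    {e : End K V} (he : e ∈ t) (hee : e * e = e)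
    (hmul : ∀ u w, ψ (e u) w + ψ u (e w) = ψ u w) : SmallRank.Gr g e := by
  have hbal := two_rk hnd hee hmul
  obtain ⟨h0, h1⟩ := ne_of_bal hbal
  refine T.gr_of_nofl v hv hcn ?_ (T.le he) hee h0 h1
  by_cases hp : ∃ m : ℕ, finrank K V = 2 ^ m
  · obtain ⟨m, hm⟩ := hp
    have hpos : 0 < finrank K V := finrank_pos
    rcases m with _ | _ | m
    · rw [pow_zero] at hm
      omega
    · rw [zero_add, pow_one] at hm
      exact absurd hm (T.ne_two hsymm hnd hgsp (T.le he) hee hmul)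
    · exact hfl (m + 2) (by omega) hm
  · push Not at hp
    exact T.nofl_of_pow v hv hcn hp

theorem TD.so_core (hcn : ∀ h h', Rt (Lv t v) h → Rt (Lv t v) h' → Cn (Lv t v) h h')
    (hsymm : ∀ u w, ψ u w = ψ w u) (hnd : ∀ x, (∀ y, ψ x y = 0) → x = 0)
    (hgsp : ∀ x ∈ g, ∃ κ : K, ∀ u w, ψ (x u) w + ψ u (x w) = κ * ψ u w)
    (hn : ∀ m : ℕ, 3 ≤ m → m % 4 = 0 ∨ m % 4 = 3 → finrank K V ≠ 2 ^ m)
    (hfl : ∀ m : ℕ, 2 ≤ m → finrank K V = 2 ^ m → ∀ k, ¬ Fl (Lv t v) k)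
    {e : End K V} (he : e ∈ t) (hee : e * e = e)
    (hmul : ∀ u w, ψ (e u) w + ψ u (e w) = ψ u w)
    (hcase : (∃ u ∈ SmallRank.up g e, ∀ w, e w = 0 → u w = 0 → w = 0) ∨
      ∀ k : ℕ, 3 ≤ k → finrank K V ≠ (2 * k).choose k) {D : End K V}
    (hD : ∀ a b, ψ (D a) b + ψ a (D b) = 0) : D ∈ g :=
  so_of_gr hsymm hnd (T.so_gr v hv hcn hsymm hnd hgsp hfl he hee hmul) hgsp hmul
    (T.ne_two hsymm hnd hgsp (T.le he) hee hmul) hn hcase hD

theorem TD.so_conj (hcn : ∀ h h', Rt (Lv t v) h → Rt (Lv t v) h' → Cn (Lv t v) h h')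
    (hsymm : ∀ u w, ψ u w = ψ w u) (hnd : ∀ x, (∀ y, ψ x y = 0) → x = 0)
    (hgsp : ∀ x ∈ g, ∃ κ : K, ∀ u w, ψ (x u) w + ψ u (x w) = κ * ψ u w)
    (hn : ∀ m : ℕ, 3 ≤ m → m % 4 = 0 ∨ m % 4 = 3 → finrank K V ≠ 2 ^ m)
    (hfl : ∀ m : ℕ, 2 ≤ m → finrank K V = 2 ^ m → ∀ k, ¬ Fl (Lv t v) k)
    {e : End K V} (he : e ∈ t) (hee : e * e = e)
    (hmul : ∀ u w, ψ (e u) w + ψ u (e w) = ψ u w)
    {u : (End K V)ˣ} (hu : u ∈ FQ.expG K g)
    (hue : (u : End K V) * e * ((u⁻¹ : (End K V)ˣ) : End K V) = 1 - e) {D : End K V}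
    (hD : ∀ a b, ψ (D a) b + ψ a (D b) = 0) : D ∈ g :=
  T.so_core v hv hcn hsymm hnd hgsp hn hfl he hee hmul
    (Or.inl (T.exists_tube (T.le he) hee hu hue)) hD

theorem TD.so_bal (hcn : ∀ h h', Rt (Lv t v) h → Rt (Lv t v) h' → Cn (Lv t v) h h')
    (hsymm : ∀ u w, ψ u w = ψ w u) (hnd : ∀ x, (∀ y, ψ x y = 0) → x = 0)
    (hgsp : ∀ x ∈ g, ∃ κ : K, ∀ u w, ψ (x u) w + ψ u (x w) = κ * ψ u w)
    (hn : ∀ m : ℕ, 3 ≤ m → m % 4 = 0 ∨ m % 4 = 3 → finrank K V ≠ 2 ^ m)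
    (hfl : ∀ m : ℕ, 2 ≤ m → finrank K V = 2 ^ m → ∀ k, ¬ Fl (Lv t v) k)
    (hbin : ∀ k : ℕ, 3 ≤ k → finrank K V ≠ (2 * k).choose k)
    {e : End K V} (he : e ∈ t) (hee : e * e = e)
    (hmul : ∀ u w, ψ (e u) w + ψ u (e w) = ψ u w) {D : End K V}
    (hD : ∀ a b, ψ (D a) b + ψ a (D b) = 0) : D ∈ g :=
  T.so_core v hv hcn hsymm hnd hgsp hn hfl he hee hmul (Or.inr hbin) hD

/-- An element of rank at most two in the torus. -/
theorem TD.so_small (hcn : ∀ h h', Rt (Lv t v) h → Rt (Lv t v) h' → Cn (Lv t v) h h')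
    (hsymm : ∀ u w, ψ u w = ψ w u) (hnd : ∀ x, (∀ y, ψ x y = 0) → x = 0)
    (hgsp : ∀ x ∈ g, ∃ κ : K, ∀ u w, ψ (x u) w + ψ u (x w) = κ * ψ u w)
    (h8 : finrank K V ≠ 8)
    (hfl : ∀ m : ℕ, 2 ≤ m → finrank K V = 2 ^ m → ∀ k, ¬ Fl (Lv t v) k)
    {e : End K V} (he : e ∈ t) (hee : e * e = e)
    (hmul : ∀ u w, ψ (e u) w + ψ u (e w) = ψ u w) {τ : End K V} (hτ : τ ∈ t)
    (hns : ∀ c : K, τ ≠ c • 1) (hrk : rk τ ≤ 2) {D : End K V}
    (hD : ∀ a b, ψ (D a) b + ψ a (D b) = 0) : D ∈ g := by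
  have G := T.so_gr v hv hcn hsymm hnd hgsp hfl he hee hmul
  have d2 := T.ne_two hsymm hnd hgsp (T.le he) hee hmul
  have hbal := two_rk hnd hee hmul
  have hpos : 0 < finrank K V := finrank_pos
  by_cases h6 : finrank K V = 6
  · exact skew_of_six hsymm hnd G hgsp hmul h6 hD
  by_cases h4 : finrank K V = 4
  · refine so_of_gr hsymm hnd G hgsp hmul d2 (fun m hm h h1 => ?_) (Or.inr fun k hk h => ?_) hD
    · have h2 : 2 ^ 3 ≤ 2 ^ m := Nat.pow_le_pow_right (by norm_num) hm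
      omega
    · have h1 : (2 * k).choose 2 ≤ (2 * k).choose k := by
        have := Nat.choose_le_centralBinom 2 k
        rwa [Nat.centralBinom] at this
      have h2 : (6 : ℕ).choose 2 ≤ (2 * k).choose 2 := Nat.choose_le_choose 2 (by omega)
      have h3 : (6 : ℕ).choose 2 = 15 := by decide
      omega
  exact so_of_small hsymm hnd G hgsp hmul (by omega) (T.le hτ) hns hrk hD

end Pool.Agent.FQA
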