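import Pool.Agent.SmallRank.LettOdd
import Pool.Agent.FQA.KindN

/-!
# A symmetric form exists only on the exterior powers of even degree
-/

set_option autoImplicit false
set_option linter.unusedSectionVars false

namespace Pool.Agent.SmallRank.Lt

open Module

variable {K V : Type*} [Field K] [CharZero K] [IsAlgClosed K] [AddCommGroup V] [Module K V]
  [FiniteDimensional K V] {m : ℕ} {g : Submodule K (End K V)} {N : Fin m → End K V}
  {E : Fin m → Fin m → End K V} (L : Lt g N E)
include L

/-- The parity for a symmetric form. -/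
theorem even [Nontrivial V] {ψ : V →ₗ[K] V →ₗ[K] K} (hsw : ∀ u v, ψ u v = ψ v u)
    (hnd : ∀ x, (∀ y, ψ x y = 0) → x = 0)
    (hN : ∀ i u v, ψ (N i u) v + ψ u (N i v) = ψ u v)
    (hE : ∀ i j, i ≠ j → ∀ u v, ψ (E i j u) v + ψ u (E i j v) = 0)
    {k : ℕ} (hkm : k ≤ m) (hk : ∑ i, N i = (k : K) • (1 : End K V))
    {lo hi : Fin k → Fin m} (hlo : Function.Injective lo) (hhi : Function.Injective hi)
    (hdis : ∀ a b, lo a ≠ hi b) : Even k := by
  classical
  -- the commuting operators
  set F : Fin k → End K V := fun a => E (hi a) (lo a) with hF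
  set F' : Fin k → End K V := fun a => E (lo a) (hi a) with hF'
  have hFc : ∀ a b, a ≠ b → F a * F b = F b * F a := fun a b hab =>
    L.cE _ _ _ _ (hdis a a).symm (hdis b b).symm (hdis a b) (hdis b a).symm
  have hFc' : ∀ a b, a ≠ b → F' a * F' b = F' b * F' a := fun a b hab =>
    L.cE _ _ _ _ (hdis a a) (hdis b b) (hdis b a).symm (hdis a b)
  have hFF : ∀ a b, a ≠ b → F' a * F b = F b * F' a := fun a b hab =>
    L.cE _ _ _ _ (hdis a a) (hdis b b).symm (fun h => hab (hhi h)) (fun h => hab (hlo h))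
  have pF : ∀ T : Finset (Fin k), (T : Set (Fin k)).Pairwise (Function.onFun Commute F) :=
    fun T a _ b _ hab => hFc a b hab
  have pF' : ∀ T : Finset (Fin k), (T : Set (Fin k)).Pairwise (Function.onFun Commute F') :=
    fun T a _ b _ hab => hFc' a b hab
  -- the adjoint
  have hadj : ∀ (T : Finset (Fin k)) (u v : V),
      ψ (T.noncommProd F (pF T) u) v = (-1 : K) ^ T.card * ψ u (T.noncommProd F (pF T) v) := by
    intro T
    induction T using Finset.induction_on with
    | empty => intro u v; simp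
    | insert a T ha ih =>
      intro u v
      have hc : T.noncommProd F (pF T) * F a = F a * T.noncommProd F (pF T) := by
        have h1 := Finset.noncommProd_commute T F (pF T) (F a) fun b hb =>
          hFc a b fun h => ha (h ▸ hb)
        exact h1.symm
      rw [Finset.noncommProd_insert_of_notMem _ _ _ _ ha, Module.End.mul_apply,
        Finset.card_insert_of_notMem ha]
      have h2 := hE (hi a) (lo a) (hdis a a).symm (T.noncommProd F (pF T) u) v
      have h3 : ψ (F a (T.noncommProd F (pF T) u)) v = -ψ (T.noncommProd F (pF T) u) (F a v) :=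
        eq_neg_of_add_eq_zero_left h2
      rw [h3, ih, pow_succ, ← hc, Module.End.mul_apply]
      ring
  -- a vector
  set S : Finset (Fin m) := Finset.univ.image lo with hS
  set S' : Finset (Fin m) := Finset.univ.image hi with hS'
  have hSc : S.card = k := by
    rw [hS, Finset.card_image_of_injective _ hlo, Finset.card_univ, Fintype.card_fin]
  have hSc' : S'.card = k := by
    rw [hS', Finset.card_image_of_injective _ hhi, Finset.card_univ, Fintype.card_fin]
  have h1 := L.rk_one hkm hk hSc
  obtain ⟨v₀, hv₀⟩ : ∃ v₀, L.NS S v₀ ≠ 0 := by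
    by_contra hn
    push Not at hn
    have h2 : L.NS S = 0 := LinearMap.ext hn
    rw [rk_eq_zero.2 h2] at h1
    exact zero_ne_one h1
  set v : V := L.NS S v₀ with hv
  have hNlo : ∀ a, N (lo a) v = v := by
    intro a
    rw [hv, ← Module.End.mul_apply, L.N_NS (Finset.mem_image_of_mem lo (Finset.mem_univ a))]
  have hNhi : ∀ a, N (hi a) v = 0 := by
    intro a
    rw [hv, ← Module.End.mul_apply, L.N_NS_zero hk hSc, LinearMap.zero_apply]
    intro h
    obtain ⟨b, -, hb⟩ := Finset.mem_image.1 h
    exact hdis b a hb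
  -- the image of the vector
  have hinv : ∀ T : Finset (Fin k),
      (T.noncommProd F' (pF' T)) (T.noncommProd F (pF T) v) = v := by
    intro T
    induction T using Finset.induction_on with
    | empty => simp
    | insert a T ha ih =>
      have hc : T.noncommProd F' (pF' T) * F a = F a * T.noncommProd F' (pF' T) := by
        have h1 := Finset.noncommProd_commute T F' (pF' T) (F a) fun b hb =>
          (hFF b a fun h => ha (h ▸ hb)).symm
        exact h1.symm
      rw [Finset.noncommProd_insert_of_notMem _ _ _ _ ha,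
        Finset.noncommProd_insert_of_notMem _ _ _ _ ha]
      have h2 : (F' a * T.noncommProd F' (pF' T)) ((F a * T.noncommProd F (pF T)) v) =
          (F' a * F a) ((T.noncommProd F' (pF' T)) (T.noncommProd F (pF T) v)) := by
        rw [← Module.End.mul_apply, ← Module.End.mul_apply (T.noncommProd F' (pF' T)),
          ← Module.End.mul_apply (F' a * F a), mul_assoc, ← mul_assoc (T.noncommProd F' (pF' T)),
          hc]
        simp only [mul_assoc]
      rw [h2, ih, hF, hF', L.EE _ _ (hdis a a), LinearMap.sub_apply, Module.End.mul_apply, hNlo,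
        hNhi, map_zero, sub_zero]
  set w : V := Finset.univ.noncommProd F (pF Finset.univ) v with hw
  have hw0 : w ≠ 0 := by
    intro h0
    have h2 := hinv Finset.univ
    rw [← hw, h0, map_zero] at h2
    exact hv₀ (hv ▸ h2.symm)
  have hNw : ∀ a, N (hi a) w = w := by
    intro a
    have h2 : Finset.univ.noncommProd F (pF Finset.univ) =
        F a * (Finset.univ.erase a).noncommProd F (pF (Finset.univ.erase a)) := by
      have h3 := Finset.noncommProd_insert_of_notMem (Finset.univ.erase a) a F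
        (pF (insert a (Finset.univ.erase a))) (Finset.notMem_erase a _)
      rw [← h3]
      congr 1
      exact (Finset.insert_erase (Finset.mem_univ a)).symm
    rw [hw, h2, ← Module.End.mul_apply, ← mul_assoc, L.NE _ _ (hdis a a).symm]
  have hNSw : L.NS S' w = w := by
    refine L.NS_fix fun i hi' => ?_
    obtain ⟨a, -, rfl⟩ := Finset.mem_image.1 hi'
    exact hNw a
  -- the pairing with `v` factors through `S'`
  have hpair : ∀ T : Finset (Fin m), T ⊆ S' → ∀ u, ψ v (L.NS T u) = ψ v u := by
    intro T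
    induction T using Finset.induction_on with
    | empty => intro _ u; rw [L.NS_empty, Module.End.one_apply]
    | insert i T hi' ih =>
      intro hT u
      obtain ⟨a, -, ha⟩ := Finset.mem_image.1 (hT (Finset.mem_insert_self i T))
      have h2 := hN i v (L.NS T u)
      rw [← ha, hNhi, map_zero, LinearMap.zero_apply, zero_add] at h2
      rw [L.NS_insert hi', Module.End.mul_apply, ← ha, h2,
        ih fun j hj => hT (Finset.mem_insert_of_mem hj)]
  obtain ⟨u, hu⟩ : ∃ u, ψ v u ≠ 0 := by
    by_contra hn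
    push Not at hn
    exact hv₀ (hnd v hn)
  have hvw : ψ v w ≠ 0 := by
    intro h0
    have h2 := L.rk_one hkm hk hSc'
    obtain ⟨κ, hκ⟩ : ∃ κ : K, κ • w = L.NS S' u := by
      have h3 : w ∈ LinearMap.range (L.NS S') := ⟨w, hNSw⟩
      have h4 : L.NS S' u ∈ LinearMap.range (L.NS S') := ⟨u, rfl⟩
      obtain ⟨κ, hκ⟩ := (finrank_eq_one_iff_of_nonzero' (⟨w, h3⟩ : LinearMap.range (L.NS S'))
        (fun h => hw0 (congrArg Subtype.val h))).1 h2 ⟨_, h4⟩
      exact ⟨κ, congrArg Subtype.val hκ⟩
    rw [← hpair S' le_rfl u, ← hκ, map_smul, h0, smul_zero] at hu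
    exact hu rfl
  have h2 := hadj Finset.univ v v
  rw [← hw, Finset.card_univ, Fintype.card_fin, hsw w v] at h2
  by_contra hodd
  rw [Nat.not_even_iff_odd] at hodd
  rw [hodd.neg_one_pow] at h2
  have h3 : ψ v w = 0 := by
    have h4 : (2 : K) * ψ v w = 0 := by linear_combination h2
    exact (mul_eq_zero.1 h4).resolve_left two_ne_zero
  exact hvw h3

end Pool.Agent.SmallRank.Lt

namespace Pool.Agent.FQA

open Module Pool.Agent.CoprimeSig Pool.Agent.Mod4 Pool.Agent.NumRank Pool.Agent.SmallRank
open Pool.Agent.PrimePow.CC (Rf Rt Lat)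

variable {K V : Type*} [Field K] [CharZero K] [IsAlgClosed K] [AddCommGroup V] [Module K V]
  [FiniteDimensional K V] {ψ : V →ₗ[K] V →ₗ[K] K}

/-- The simple orthogonal case: only the middle binomial coefficients with `k` even are excluded. -/
theorem so_of_gr' (hsymm : ∀ u w, ψ u w = ψ w u) (hnd : ∀ x, (∀ y, ψ x y = 0) → x = 0)
    {g : Submodule K (End K V)} {e : End K V} (G : Gr g e)
    (hgsp : ∀ x ∈ g, ∃ κ : K, ∀ u w, ψ (x u) w + ψ u (x w) = κ * ψ u w)
    (hmul : ∀ u w, ψ (e u) w + ψ u (e w) = ψ u w) (hn : ∀ m : ℕ, 3 ≤ m → m % 4 = 0 ∨ m % 4 = 3 → finrank K V ≠ 2 ^ m)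
    (hbin : ∀ k : ℕ, Even k → 4 ≤ k → finrank K V ≠ (2 * k).choose k) {D : End K V}
    (hD : ∀ a b, ψ (D a) b + ψ a (D b) = 0) : D ∈ g := by
  have := G.nontrivial
  have hbal := two_rk hnd G.idem hmul
  rcases dich3 G hbal with ⟨c, f, ρ, B, h0⟩ | ⟨c, f, ρ, B, hρ, h4⟩ | ⟨c, f, x, y, T⟩
  · obtain ⟨M, x, y, P⟩ := B.exists_pb h0
    obtain ⟨k, hM, hk, hs⟩ := P.finrank_eq hbal
    have hskew : ∀ a ∈ g, ∀ b ∈ g, ∀ u v,
        ψ ((a * b - b * a) u) v + ψ u ((a * b - b * a) v) = 0 := by
      intro a ha b hb u v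
      obtain ⟨α, hα⟩ := hgsp a ha
      obtain ⟨β, hβ⟩ := hgsp b hb
      exact skew_comm hα hβ u v
    have hev : Even k := by
      refine P.lt.even hsymm hnd ?_ ?_ (by omega) hs (lo := fun a => ⟨a, by omega⟩)
        (hi := fun a => ⟨a + k, by omega⟩) ?_ ?_ ?_
      · intro i u v
        obtain ⟨a, ha, b, hb, hab⟩ := P.nn_comm i
        have h1 := hskew a ha b hb u v
        have h2 := hmul u v
        rw [hab]
        simp only [LinearMap.add_apply, LinearMap.sub_apply, Module.End.one_apply, map_add,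
          map_sub] at h1 ⊢
        linear_combination h1 - h2
      · intro i j hij u v
        obtain ⟨a, ha, b, hb, hab⟩ := P.ee_comm i j hij
        rw [hab]
        exact hskew a ha b hb u v
      · intro a b hab
        simpa [Fin.ext_iff] using hab
      · intro a b hab
        simpa [Fin.ext_iff] using hab
      · intro a b hab
        have h1 : (a : ℕ) = b + k := by simpa [Fin.ext_iff] using hab
        have h2 := a.2
        omega
    have r1 := G.rk_add
    have r3 : 0 < rk e := G.rk_e_pos
    by_cases h4 : 4 ≤ k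
    · exact absurd hk (hbin k hev h4)
    · have h5 : k = 0 ∨ k = 2 := by
        obtain ⟨j, hj⟩ := hev
        omega
      rcases h5 with rfl | rfl
      · rw [mul_zero, Nat.choose_self] at hk
        omega
      · exact skew_of_six hsymm hnd G hgsp hmul (by rw [hk]; decide) hD
  · have h1 : ρ ≠ 1 := by
      rintro rfl
      exact rk_up_ne_one hsymm hnd hgsp B.cu.1 B.cc B.rkc
    obtain rfl : ρ = 2 := hρ.resolve_left h1
    exact skew_of_two hsymm hnd hgsp B hmul hbal (by omega) hD
  · exfalso
    obtain ⟨j, hj⟩ := T.pow_two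
    have r1 := G.rk_add
    have hcard : finrank K V = 2 ^ (j + 1) := by
      rw [pow_succ, ← hj]
      omega
    have h3 := T.mod4_symm hsymm hnd hgsp hmul hj
    exact hn (j + 1) (by omega) (by omega) hcard

variable {g t : Submodule K (End K V)} (T : TD g t) [Nontrivial V] {I : Type} [Fintype I]
  (v : Basis I K V) (hv : ∀ x ∈ t, ∀ i, ∃ c : K, x (v i) = c • v i)
include T hv

/-- The balanced orthogonal case, with the exact parity. -/
theorem TD.so_bal' (hcn : ∀ h h', Rt (Lv t v) h → Rt (Lv t v) h' → Cn (Lv t v) h h')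
    (hsymm : ∀ u w, ψ u w = ψ w u) (hnd : ∀ x, (∀ y, ψ x y = 0) → x = 0)
    (hgsp : ∀ x ∈ g, ∃ κ : K, ∀ u w, ψ (x u) w + ψ u (x w) = κ * ψ u w)
    (hn : ∀ m : ℕ, 3 ≤ m → m % 4 = 0 ∨ m % 4 = 3 → finrank K V ≠ 2 ^ m)
    (hfl : ∀ m : ℕ, 2 ≤ m → finrank K V = 2 ^ m → ∀ k, ¬ Fl (Lv t v) k)
    (hbin : ∀ k : ℕ, Even k → 4 ≤ k → finrank K V ≠ (2 * k).choose k)
    {e : End K V} (he : e ∈ t) (hee : e * e = e)
    (hmul : ∀ u w, ψ (e u) w + ψ u (e w) = ψ u w) {D : End K V}
    (hD : ∀ a b, ψ (D a) b + ψ a (D b) = 0) : D ∈ g :=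
  so_of_gr' hsymm hnd (T.so_gr v hv hcn hsymm hnd hgsp hfl he hee hmul) hgsp hmul
    hn hbin hD

end Pool.Agent.FQA
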