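import Pool.Agent.SmallRank.Defs

/-!
# Extremal pairs of rank two: the grading

`c`, `f` are elements of square zero and rank two of the Lie algebra `g` of operators on `V` with
`c f c = c`, `f c f = f`. `P = c f` and `Q = f c` are orthogonal idempotents, `R = 1 - P - Q`. The
element `P - Q` of `g` has the eigenvalues `1`, `0`, `-1` on `V` and gives a grading of `g` in the
degrees `2`, `1`, `0`, `-1`, `-2`; the component of degree `2` is the line of `c`, the component
of degree `-2` the line of `f`.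
-/

set_option autoImplicit false
set_option linter.unusedSectionVars false

namespace Pool.Agent.FQA

open Module Pool.Agent.SmallRank

variable {K V : Type*} [Field K] [CharZero K] [IsAlgClosed K] [AddCommGroup V] [Module K V]
  [FiniteDimensional K V]

/-- An extremal pair of rank two in an irreducible Lie algebra without elements of square zero and
rank one. -/
structure Ex (g : Submodule K (End K V)) (c f : End K V) : Prop where
  lie : ∀ a ∈ g, ∀ b ∈ g, a * b - b * a ∈ g
  irr : ∀ U : Submodule K V, (∀ a ∈ g, ∀ w ∈ U, a w ∈ U) → U = ⊥ ∨ U = ⊤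
  one : (1 : End K V) ∈ g
  cg : c ∈ g
  fg : f ∈ g
  cc : c * c = 0
  ff : f * f = 0
  cfc : c * f * c = c
  fcf : f * c * f = f
  rkc : rk c = 2
  nolow : ∀ d ∈ g, d * d = 0 → rk d ≠ 1

/-- The elements of degree zero. -/
def g0 (g : Submodule K (End K V)) (c f : End K V) : Submodule K (End K V) where
  carrier := {x | x ∈ g ∧ c * f * x = x * (c * f) ∧ f * c * x = x * (f * c)}
  add_mem' := fun {x y} hx hy => ⟨g.add_mem hx.1 hy.1, by rw [mul_add, hx.2.1, hy.2.1, add_mul],
    by rw [mul_add, hx.2.2, hy.2.2, add_mul]⟩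
  zero_mem' := ⟨g.zero_mem, by rw [mul_zero, zero_mul], by rw [mul_zero, zero_mul]⟩
  smul_mem' := fun s x hx => ⟨g.smul_mem s hx.1, by rw [mul_smul_comm, hx.2.1, smul_mul_assoc],
    by rw [mul_smul_comm, hx.2.2, smul_mul_assoc]⟩

/-- The elements of degree one: `x = P x R + R x Q`. -/
def g1 (g : Submodule K (End K V)) (c f : End K V) : Submodule K (End K V) where
  carrier := {x | x ∈ g ∧ x * (c * f) = 0 ∧ f * c * x = 0 ∧ c * f * x + x * (f * c) = x}
  add_mem' := fun {x y} hx hy => ⟨g.add_mem hx.1 hy.1, by rw [add_mul, hx.2.1, hy.2.1, add_zero],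
    by rw [mul_add, hx.2.2.1, hy.2.2.1, add_zero], by
      rw [mul_add, add_mul, add_add_add_comm, hx.2.2.2, hy.2.2.2]⟩
  zero_mem' := ⟨g.zero_mem, by rw [zero_mul], by rw [mul_zero], by
    rw [mul_zero, zero_mul, zero_add]⟩
  smul_mem' := fun s x hx => ⟨g.smul_mem s hx.1, by rw [smul_mul_assoc, hx.2.1, smul_zero],
    by rw [mul_smul_comm, hx.2.2.1, smul_zero], by
      rw [mul_smul_comm, smul_mul_assoc, ← smul_add, hx.2.2.2]⟩

theorem mem_g0 {g : Submodule K (End K V)} {c f x : End K V} :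
    x ∈ g0 g c f ↔ x ∈ g ∧ c * f * x = x * (c * f) ∧ f * c * x = x * (f * c) := Iff.rfl

theorem mem_g1 {g : Submodule K (End K V)} {c f x : End K V} :
    x ∈ g1 g c f ↔ x ∈ g ∧ x * (c * f) = 0 ∧ f * c * x = 0 ∧ c * f * x + x * (f * c) = x :=
  Iff.rfl

theorem g0_symm {g : Submodule K (End K V)} {c f : End K V} : g0 g f c = g0 g c f := by
  ext x
  rw [mem_g0, mem_g0]
  exact ⟨fun h => ⟨h.1, h.2.2, h.2.1⟩, fun h => ⟨h.1, h.2.2, h.2.1⟩⟩

namespace Ex

variable {g : Submodule K (End K V)} {c f : End K V} (E : Ex g c f)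
include E

theorem symm : Ex g f c where
  lie := E.lie
  irr := E.irr
  one := E.one
  cg := E.fg
  fg := E.cg
  cc := E.ff
  ff := E.cc
  cfc := E.fcf
  fcf := E.cfc
  rkc := by
    have h1 : rk f ≤ rk c := by
      conv_lhs => rw [← E.fcf]
      exact (rk_mul_left _ _).trans (rk_mul_right _ _)
    have h2 : rk c ≤ rk f := by
      conv_lhs => rw [← E.cfc]
      exact (rk_mul_left _ _).trans (rk_mul_right _ _)
    rw [le_antisymm h1 h2, E.rkc]
  nolow := E.nolow

theorem c0 : c ≠ 0 := by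
  intro h
  have h1 := E.rkc
  rw [rk_eq_zero.2 h] at h1
  exact absurd h1 (by decide)

theorem nontrivial : Nontrivial V := by
  by_contra h
  rw [not_nontrivial_iff_subsingleton] at h
  exact E.c0 (LinearMap.ext fun w => Subsingleton.elim _ _)

theorem nd : ∀ x ∈ g, (∀ y ∈ g, LinearMap.trace K V (x * y) = 0) → x = 0 :=
  have := E.nontrivial
  OddRank.trace_nondeg g E.lie E.irr

/-! The idempotents -/

theorem PP : c * f * (c * f) = c * f := by rw [← mul_assoc, E.cfc]
theorem QQ : f * c * (f * c) = f * c := by rw [← mul_assoc, E.fcf]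
theorem PQ : c * f * (f * c) = 0 := by rw [mul_assoc, ← mul_assoc f f, E.ff, zero_mul, mul_zero]
theorem QP : f * c * (c * f) = 0 := by rw [mul_assoc, ← mul_assoc c c, E.cc, zero_mul, mul_zero]
theorem Pc : c * f * c = c := E.cfc
theorem cP : c * (c * f) = 0 := by rw [← mul_assoc, E.cc, zero_mul]
theorem Qc : f * c * c = 0 := by rw [mul_assoc, E.cc, mul_zero]
theorem cQ : c * (f * c) = c := by rw [← mul_assoc, E.cfc]
theorem Pf : c * f * f = 0 := by rw [mul_assoc, E.ff, mul_zero]
theorem fP : f * (c * f) = f := by rw [← mul_assoc, E.fcf]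
theorem Qf : f * c * f = f := E.fcf
theorem fQ : f * (f * c) = 0 := by rw [← mul_assoc, E.ff, zero_mul]

theorem hg : c * f - f * c ∈ g := E.lie _ E.cg _ E.fg

theorem h0 : c * f - f * c ∈ g0 g c f := ⟨E.hg, by
  rw [mul_sub, sub_mul, E.PP, E.PQ, E.QP], by rw [mul_sub, sub_mul, E.QP, E.QQ, E.PQ]⟩

theorem one0 : (1 : End K V) ∈ g0 g c f := ⟨E.one, by rw [mul_one, one_mul], by
  rw [mul_one, one_mul]⟩

/-- the quadratic operators -/
theorem quad {d x : End K V} (hd : d ∈ g) (hdd : d * d = 0) (hx : x ∈ g) : d * x * d ∈ g := by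
  have h1 := E.lie _ hd _ (E.lie _ hd _ hx)
  have h2 : d * (d * x - x * d) - (d * x - x * d) * d = (-2 : K) • (d * x * d) := by
    rw [mul_sub, sub_mul, ← mul_assoc, hdd, zero_mul, mul_assoc x, hdd, mul_zero, ← mul_assoc]
    rw [zero_sub, sub_zero, neg_smul, two_smul]
    abel
  rw [h2] at h1
  have h3 := g.smul_mem (-2⁻¹ : K) h1
  rwa [smul_smul, show (-2⁻¹ : K) * -2 = 1 by norm_num, one_smul] at h3

theorem extc {x : End K V} (hx : x ∈ g) : ∃ s : K, c * x * c = s • c :=
  OddRank.two_ext E.lie E.nolow E.cg E.cc (by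
    have h1 := E.rkc
    exact h1.le) hx

theorem extf {x : End K V} (hx : x ∈ g) : ∃ s : K, f * x * f = s • f := E.symm.extc hx

/-- the component of degree two -/
theorem two {x : End K V} (hx : x ∈ g) : ∃ s : K, c * f * x * (f * c) = s • c := by
  obtain ⟨s, hs⟩ := E.extf hx
  refine ⟨s, ?_⟩
  have h1 : c * f * x * (f * c) = c * (f * x * f) * c := by simp only [mul_assoc]
  rw [h1, hs, mul_smul_comm, smul_mul_assoc, E.cfc]

theorem mtwo {x : End K V} (hx : x ∈ g) : ∃ s : K, f * c * x * (c * f) = s • f := E.symm.two hx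

theorem trc : LinearMap.trace K V (c * f) = 2 := by
  rw [trace_idem E.PP]
  have h1 : rk (c * f) = 2 := by
    have h2 : rk (c * f) ≤ rk c := rk_mul_left _ _
    have h3 : rk c ≤ rk (c * f) := by
      conv_lhs => rw [← E.cfc]
      exact rk_mul_left _ _
    rw [le_antisymm h2 h3, E.rkc]
  rw [h1]
  norm_num

theorem trf : LinearMap.trace K V (f * c) = 2 := E.symm.trc

theorem rkP : rk (c * f) = 2 := by
  have h1 := E.trc
  rw [trace_idem E.PP] at h1
  exact_mod_cast h1

/-- the commutator with `P - Q` of an element without components of degree two and minus two -/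
theorem ad_h (x : End K V) : (c * f - f * c) * x - x * (c * f - f * c) =
    (c * f * x * (1 - c * f - f * c) + (1 - c * f - f * c) * x * (f * c)) -
    (f * c * x * (1 - c * f - f * c) + (1 - c * f - f * c) * x * (c * f)) +
    (2 : K) • (c * f * x * (f * c)) - (2 : K) • (f * c * x * (c * f)) := by
  simp only [mul_sub, sub_mul, mul_one, one_mul, two_smul]
  abel

/-- the component of degree one -/
theorem mem1 {x : End K V} (hx : x ∈ g) :
    c * f * x * (1 - c * f - f * c) + (1 - c * f - f * c) * x * (f * c) ∈ g1 g c f := by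
  set P := c * f with hP
  set Q := f * c with hQ
  have PP : P * P = P := E.PP
  have QQ : Q * Q = Q := E.QQ
  have PQ : P * Q = 0 := E.PQ
  have QP : Q * P = 0 := E.QP
  have hhg : P - Q ∈ g := E.hg
  obtain ⟨s, hs⟩ := E.two hx
  obtain ⟨s', hs'⟩ := E.mtwo hx
  have hp2 : P * x * Q ∈ g := by
    rw [hP, hQ, hs]
    exact g.smul_mem _ E.cg
  have hm2 : Q * x * P ∈ g := by
    rw [hP, hQ, hs']
    exact g.smul_mem _ E.fg
  have PPa : ∀ a, P * (P * a) = P * a := fun a => by rw [← mul_assoc, PP]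
  have QQa : ∀ a, Q * (Q * a) = Q * a := fun a => by rw [← mul_assoc, QQ]
  have PQa : ∀ a, P * (Q * a) = 0 := fun a => by rw [← mul_assoc, PQ, zero_mul]
  have QPa : ∀ a, Q * (P * a) = 0 := fun a => by rw [← mul_assoc, QP, zero_mul]
  have hy0 : x - P * x * Q - Q * x * P ∈ g := g.sub_mem (g.sub_mem hx hp2) hm2
  have h1 := E.lie _ hhg _ hy0
  have h2 := E.lie _ hhg _ h1
  have h4 := g.smul_mem (2⁻¹ : K) (g.add_mem h2 h1)
  have h5 : (2⁻¹ : K) • ((P - Q) * ((P - Q) * (x - P * x * Q - Q * x * P) -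
      (x - P * x * Q - Q * x * P) * (P - Q)) - ((P - Q) * (x - P * x * Q - Q * x * P) -
      (x - P * x * Q - Q * x * P) * (P - Q)) * (P - Q) + ((P - Q) * (x - P * x * Q - Q * x * P) -
      (x - P * x * Q - Q * x * P) * (P - Q))) = P * x * (1 - P - Q) + (1 - P - Q) * x * Q := by
    rw [inv_smul_eq_iff₀ (two_ne_zero), two_smul]
    simp only [mul_sub, sub_mul, mul_one, one_mul, mul_assoc, PP, QQ, PQ, QP, PPa, QQa, PQa, QPa,
      mul_zero]
    abel
  rw [h5] at h4
  have q1 : (P * x * (1 - P - Q) + (1 - P - Q) * x * Q) * P = 0 := by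
    simp only [mul_sub, sub_mul, add_mul, mul_one, one_mul, mul_assoc, PP, QP, mul_zero]
    abel
  have q2 : Q * (P * x * (1 - P - Q) + (1 - P - Q) * x * Q) = 0 := by
    simp only [mul_sub, sub_mul, mul_add, mul_one, one_mul, mul_assoc, QPa, QQa]
    abel
  have q3 : P * (P * x * (1 - P - Q) + (1 - P - Q) * x * Q) +
      (P * x * (1 - P - Q) + (1 - P - Q) * x * Q) * Q =
      P * x * (1 - P - Q) + (1 - P - Q) * x * Q := by
    simp only [mul_sub, sub_mul, mul_add, add_mul, mul_one, one_mul, mul_assoc, PPa, PQa, QQ, PQ,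
      mul_zero]
    abel
  exact ⟨h4, q1, q2, q3⟩

/-- the component of degree minus one -/
theorem memm {x : End K V} (hx : x ∈ g) :
    f * c * x * (1 - c * f - f * c) + (1 - c * f - f * c) * x * (c * f) ∈ g1 g f c := by
  have h1 := E.symm.mem1 hx
  rwa [show (1 : End K V) - f * c - c * f = 1 - c * f - f * c by abel] at h1

/-- the component of degree zero -/
theorem mem0 {x : End K V} (hx : x ∈ g) :
    c * f * x * (c * f) + f * c * x * (f * c) +
      (1 - c * f - f * c) * x * (1 - c * f - f * c) ∈ g0 g c f := by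
  have h1 := (E.mem1 hx).1
  have h2 := (E.memm hx).1
  obtain ⟨s, hs⟩ := E.two hx
  obtain ⟨s', hs'⟩ := E.mtwo hx
  have hp2 : c * f * x * (f * c) ∈ g := by
    rw [hs]
    exact g.smul_mem _ E.cg
  have hm2 : f * c * x * (c * f) ∈ g := by
    rw [hs']
    exact g.smul_mem _ E.fg
  have h3 := g.sub_mem (g.sub_mem (g.sub_mem (g.sub_mem hx h1) h2) hp2) hm2
  set P := c * f with hP
  set Q := f * c with hQ
  have PP : P * P = P := E.PP
  have QQ : Q * Q = Q := E.QQ
  have PQ : P * Q = 0 := E.PQ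
  have QP : Q * P = 0 := E.QP
  have PPa : ∀ a, P * (P * a) = P * a := fun a => by rw [← mul_assoc, PP]
  have PQa : ∀ a, P * (Q * a) = 0 := fun a => by rw [← mul_assoc, PQ, zero_mul]
  have QQa : ∀ a, Q * (Q * a) = Q * a := fun a => by rw [← mul_assoc, QQ]
  have QPa : ∀ a, Q * (P * a) = 0 := fun a => by rw [← mul_assoc, QP, zero_mul]
  have q0 : x - (P * x * (1 - P - Q) + (1 - P - Q) * x * Q) -
      (Q * x * (1 - P - Q) + (1 - P - Q) * x * P) - P * x * Q - Q * x * P =
      P * x * P + Q * x * Q + (1 - P - Q) * x * (1 - P - Q) := by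
    simp only [mul_sub, sub_mul, mul_one, one_mul]
    abel
  rw [q0] at h3
  have q1 : P * (P * x * P + Q * x * Q + (1 - P - Q) * x * (1 - P - Q)) =
      (P * x * P + Q * x * Q + (1 - P - Q) * x * (1 - P - Q)) * P := by
    simp only [mul_sub, sub_mul, mul_add, add_mul, mul_one, one_mul, mul_assoc, PPa, PQa, PP, QP,
      mul_zero]
    abel
  have q2 : Q * (P * x * P + Q * x * Q + (1 - P - Q) * x * (1 - P - Q)) =
      (P * x * P + Q * x * Q + (1 - P - Q) * x * (1 - P - Q)) * Q := by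
    simp only [mul_sub, sub_mul, mul_add, add_mul, mul_one, one_mul, mul_assoc, QQa, QPa, QQ, PQ,
      mul_zero]
    abel
  exact ⟨h3, q1, q2⟩

/-- the decomposition in the components -/
theorem decomp {x : End K V} (hx : x ∈ g) : ∃ x0 ∈ g0 g c f, ∃ x1 ∈ g1 g c f, ∃ y1 ∈ g1 g f c,
    ∃ s s' : K, x = x0 + x1 + y1 + s • c + s' • f := by
  obtain ⟨s, hs⟩ := E.two hx
  obtain ⟨s', hs'⟩ := E.mtwo hx
  refine ⟨_, E.mem0 hx, _, E.mem1 hx, _, E.memm hx, s, s', ?_⟩
  rw [← hs, ← hs']
  simp only [mul_sub, sub_mul, mul_one, one_mul]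
  abel

/-! Products -/

theorem mul_c {x : End K V} (hx : x ∈ g1 g c f) : x * c = 0 := by
  rw [← E.cfc, ← mul_assoc, hx.2.1, zero_mul]

theorem c_mul {x : End K V} (hx : x ∈ g1 g c f) : c * x = 0 := by
  rw [← E.cQ, mul_assoc, hx.2.2.1, mul_zero]

theorem com0c {z : End K V} (hz : z ∈ g0 g c f) : ∃ s : K, z * c - c * z = s • c := by
  obtain ⟨s, hs⟩ := E.two (E.lie z hz.1 c E.cg)
  refine ⟨s, ?_⟩
  have h1 : c * f * (z * c) * (f * c) = z * c := by
    rw [← mul_assoc (c * f) z c, hz.2.1, mul_assoc z (c * f) c, E.cfc, mul_assoc z c (f * c), E.cQ]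
  have h2 : c * f * (c * z) * (f * c) = c * z := by
    rw [← mul_assoc (c * f) c z, E.cfc, mul_assoc c z (f * c), ← hz.2.2, ← mul_assoc c (f * c) z,
      E.cQ]
  rw [← hs, mul_sub, sub_mul, h1, h2]

theorem com0f {z : End K V} (hz : z ∈ g0 g c f) : ∃ s : K, z * f - f * z = s • f :=
  E.symm.com0c (by rwa [g0_symm])

theorem com00 {z w : End K V} (hz : z ∈ g0 g c f) (hw : w ∈ g0 g c f) :
    z * w - w * z ∈ g0 g c f := by
  have key : ∀ p : End K V, p * z = z * p → p * w = w * p →
      p * (z * w - w * z) = (z * w - w * z) * p := by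
    intro p h1 h2
    have e1 : p * (z * w - w * z) = (p * z) * w - (p * w) * z := by
      rw [mul_sub, mul_assoc, mul_assoc]
    rw [e1, h1, h2, mul_assoc, h2, mul_assoc w p z, h1, sub_mul, mul_assoc, mul_assoc]
  exact ⟨E.lie _ hz.1 _ hw.1, key _ hz.2.1 hw.2.1, key _ hz.2.2 hw.2.2⟩

theorem com01 {z x : End K V} (hz : z ∈ g0 g c f) (hx : x ∈ g1 g c f) :
    z * x - x * z ∈ g1 g c f := by
  refine ⟨E.lie _ hz.1 _ hx.1, ?_, ?_, ?_⟩
  · rw [sub_mul, mul_assoc, hx.2.1, mul_zero, mul_assoc, ← hz.2.1, ← mul_assoc, hx.2.1, zero_mul,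
      sub_zero]
  · rw [mul_sub, ← mul_assoc, hz.2.2, mul_assoc, hx.2.2.1, mul_zero, ← mul_assoc, hx.2.2.1,
      zero_mul, sub_zero]
  · rw [mul_sub, sub_mul, ← mul_assoc, hz.2.1, ← mul_assoc (c * f) x z, mul_assoc x z (f * c),
      ← hz.2.2, ← mul_assoc x (f * c) z, mul_assoc z x (f * c), mul_assoc z (c * f) x]
    conv_rhs => rw [← hx.2.2.2]
    rw [mul_add, add_mul]
    abel

theorem com11 {x y : End K V} (hx : x ∈ g1 g c f) (hy : y ∈ g1 g c f) :
    ∃ s : K, x * y - y * x = s • c := by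
  obtain ⟨s, hs⟩ := E.two (E.lie x hx.1 y hy.1)
  refine ⟨s, ?_⟩
  rw [← hs]
  have h1 : ∀ x y : End K V, x ∈ g1 g c f → y ∈ g1 g c f → c * f * (x * y) * (f * c) = x * y := by
    intro x y hx hy
    have h2 : x * y = x * (y * (f * c)) := by
      conv_lhs => rw [← hy.2.2.2]
      rw [mul_add, ← mul_assoc x (c * f) y, hx.2.1, zero_mul, zero_add]
    have h3 : x * y = c * f * (x * y) := by
      conv_lhs => rw [← hx.2.2.2]
      rw [add_mul, mul_assoc x, hy.2.2.1, mul_zero, add_zero, mul_assoc]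
    rw [← h3, mul_assoc, ← h2]
  rw [mul_sub, sub_mul, h1 x y hx hy, h1 y x hy hx]

/-- degree one times degree minus one -/
theorem com1m {x w : End K V} (hx : x ∈ g1 g c f) (hw : w ∈ g1 g f c) :
    x * w - w * x ∈ g0 g c f := by
  refine ⟨E.lie _ hx.1 _ hw.1, ?_, ?_⟩
  · -- `P x w = x w P`, `P w = 0`, `x P = 0`
    have h1 : c * f * w = 0 := hw.2.2.1
    have h2 : x * (c * f) = 0 := hx.2.1
    have h3 : c * f * (x * w) = x * w - x * (f * c) * w := by
      have h4 : c * f * x = x - x * (f * c) := eq_sub_of_add_eq hx.2.2.2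
      rw [← mul_assoc, h4, sub_mul]
    have h5 : x * w * (c * f) = x * w - x * (f * c) * w := by
      have h6 : w * (c * f) = w - f * c * w := by
        rw [eq_sub_iff_add_eq, add_comm]
        exact hw.2.2.2
      rw [mul_assoc, h6, mul_sub, ← mul_assoc x (f * c) w]
    have h7 : c * f * (w * x) = 0 := by rw [← mul_assoc, h1, zero_mul]
    have h8 : w * x * (c * f) = 0 := by rw [mul_assoc, h2, mul_zero]
    rw [mul_sub, sub_mul, h3, h5, h7, h8]
  · have h1 : w * (f * c) = 0 := hw.2.1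
    have h2 : f * c * x = 0 := hx.2.2.1
    have h3 : f * c * (w * x) = w * x - w * (c * f) * x := by
      have h4 : f * c * w = w - w * (c * f) := eq_sub_of_add_eq hw.2.2.2
      rw [← mul_assoc, h4, sub_mul]
    have h5 : w * x * (f * c) = w * x - w * (c * f) * x := by
      have h6 : x * (f * c) = x - c * f * x := by
        rw [eq_sub_iff_add_eq, add_comm]
        exact hx.2.2.2
      rw [mul_assoc, h6, mul_sub, ← mul_assoc w (c * f) x]
    have h7 : f * c * (x * w) = 0 := by rw [← mul_assoc, h2, zero_mul]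
    have h8 : x * w * (f * c) = 0 := by rw [mul_assoc, h1, mul_zero]
    rw [mul_sub, sub_mul, h3, h5, h7, h8]

/-- the commutator with `f` of an element of degree one -/
theorem comf1 {x : End K V} (hx : x ∈ g1 g c f) : f * x - x * f ∈ g1 g f c := by
  have e1 : f * x * (f * c) = 0 := by
    have h1 : x * (f * c) = x - c * f * x := by
      rw [eq_sub_iff_add_eq, add_comm]
      exact hx.2.2.2
    rw [mul_assoc, h1, mul_sub, ← mul_assoc f (c * f) x, E.fP, sub_self]
  have e2 : x * f * (f * c) = 0 := by rw [mul_assoc, E.fQ, mul_zero]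
  have e3 : c * f * (f * x) = 0 := by rw [← mul_assoc, E.Pf, zero_mul]
  have e4 : c * f * (x * f) = 0 := by
    have h1 : c * f * x = x - x * (f * c) := eq_sub_of_add_eq hx.2.2.2
    rw [← mul_assoc, h1, sub_mul, mul_assoc x (f * c) f, E.Qf, sub_self]
  have e5 : f * c * (f * x) = f * x := by rw [← mul_assoc, E.Qf]
  have e6 : f * c * (x * f) = 0 := by rw [← mul_assoc, hx.2.2.1, zero_mul]
  have e7 : f * x * (c * f) = 0 := by rw [mul_assoc, hx.2.1, mul_zero]
  have e8 : x * f * (c * f) = x * f := by rw [mul_assoc, E.fP]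
  refine ⟨E.lie _ E.fg _ hx.1, ?_, ?_, ?_⟩
  · rw [sub_mul, e1, e2, sub_zero]
  · rw [mul_sub, e3, e4, sub_zero]
  · rw [mul_sub, sub_mul, e5, e6, e7, e8]
    abel

/-- `[c, [f, x]] = x` for `x` of degree one -/
theorem comcf {x : End K V} (hx : x ∈ g1 g c f) :
    c * (f * x - x * f) - (f * x - x * f) * c = x := by
  rw [mul_sub, sub_mul, ← mul_assoc, ← mul_assoc c x f, E.c_mul hx, zero_mul, sub_zero,
    mul_assoc f x c, E.mul_c hx, mul_zero, zero_sub, sub_neg_eq_add, mul_assoc]
  exact hx.2.2.2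

/-- elements of degree minus one are commutators with `f` -/
theorem exists_comf {w : End K V} (hw : w ∈ g1 g f c) : ∃ y ∈ g1 g c f, w = f * y - y * f :=
  ⟨_, E.symm.comf1 hw, (E.symm.comcf hw).symm⟩

/-- traces of products of components of different degrees -/
theorem tr01 {z x : End K V} (hz : z ∈ g0 g c f) (hx : x ∈ g1 g c f) :
    LinearMap.trace K V (z * x) = 0 := by
  have h1 : LinearMap.trace K V (z * (c * f * x)) = 0 := by
    rw [← mul_assoc, LinearMap.trace_mul_comm, ← hz.2.1, ← mul_assoc, hx.2.1, zero_mul, map_zero]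
  have h2 : LinearMap.trace K V (z * (x * (f * c))) = 0 := by
    rw [← mul_assoc, LinearMap.trace_mul_comm, ← mul_assoc, hz.2.2, mul_assoc, hx.2.2.1, mul_zero,
      map_zero]
  rw [← hx.2.2.2, mul_add, map_add, h1, h2, add_zero]

theorem tr0m {z w : End K V} (hz : z ∈ g0 g c f) (hw : w ∈ g1 g f c) :
    LinearMap.trace K V (z * w) = 0 := E.symm.tr01 (by rwa [g0_symm]) hw

theorem tr0c {z : End K V} (hz : z ∈ g0 g c f) : LinearMap.trace K V (z * c) = 0 := by
  rw [← E.cfc, ← mul_assoc, ← hz.2.1, LinearMap.trace_mul_comm, ← mul_assoc, ← mul_assoc, E.cc,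
    zero_mul, zero_mul, map_zero]

theorem tr0f {z : End K V} (hz : z ∈ g0 g c f) : LinearMap.trace K V (z * f) = 0 :=
  E.symm.tr0c (by rwa [g0_symm])

/-- degree one against degree one -/
theorem tr11 {x y : End K V} (hx : x ∈ g1 g c f) (hy : y ∈ g1 g c f) :
    LinearMap.trace K V (x * y) = 0 := by
  have h1 : x * y = c * f * (x * y) := by
    conv_lhs => rw [← hx.2.2.2]
    rw [add_mul, mul_assoc x, hy.2.2.1, mul_zero, add_zero, mul_assoc]
  rw [h1, LinearMap.trace_mul_comm, mul_assoc, hy.2.1, mul_zero, map_zero]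

theorem tr1c {x : End K V} (hx : x ∈ g1 g c f) : LinearMap.trace K V (x * c) = 0 := by
  rw [E.mul_c hx, map_zero]

theorem tr1f {x : End K V} (hx : x ∈ g1 g c f) : LinearMap.trace K V (x * f) = 0 := by
  rw [← E.fcf, ← mul_assoc, LinearMap.trace_mul_comm, ← mul_assoc, ← mul_assoc]
  have h1 : f * (x * (f * c)) = 0 := by
    have h2 : x * (f * c) = x - c * f * x := by
      rw [eq_sub_iff_add_eq, add_comm]
      exact hx.2.2.2
    rw [h2, mul_sub, ← mul_assoc f (c * f) x, E.fP, sub_self]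
  have h3 : f * x * (f * c) = 0 := by rw [mul_assoc, h1]
  rw [mul_assoc (f * x) f c, h3, map_zero]

/-- The trace form is not degenerate on degree one and minus one. -/
theorem nd1 {x : End K V} (hx : x ∈ g1 g c f)
    (h : ∀ w ∈ g1 g f c, LinearMap.trace K V (x * w) = 0) : x = 0 := by
  refine E.nd x hx.1 fun y hy => ?_
  obtain ⟨y0, h0, y1, h1, ym, hm, s, s', rfl⟩ := E.decomp hy
  simp only [mul_add, map_add, mul_smul_comm, map_smul]
  rw [LinearMap.trace_mul_comm K x y0, E.tr01 h0 hx, E.tr11 hx h1, h ym hm, E.tr1c hx, E.tr1f hx]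
  simp

theorem nd0 {z : End K V} (hz : z ∈ g0 g c f)
    (h : ∀ w ∈ g0 g c f, LinearMap.trace K V (z * w) = 0) : z = 0 := by
  refine E.nd z hz.1 fun y hy => ?_
  obtain ⟨y0, h0, y1, h1, ym, hm, s, s', rfl⟩ := E.decomp hy
  simp only [mul_add, map_add, mul_smul_comm, map_smul]
  rw [h y0 h0, E.tr01 hz h1, E.tr0m hz hm, E.tr0c hz, E.tr0f hz]
  simp

end Ex

end Pool.Agent.FQA
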