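import Pool.Agent.FQA.Ni

/-!
# Dimension four without invariant forms (PACKAGE FX15)

Proof. `rk e = 2 = rk (1 - e)` (`rk_compl`). Let `V0 = range (1 - e)` (the kernel of `e`), `V1 =
range e`.

Case 1: there is `x ∈ up g e` with `rk x = 1`. Then `x * x = 0` (`Gr.up_mul_up`) and
`TD.full_of_one`.

Case 2: otherwise all nonzero elements of `up g e` have rank two (`x = e * x`, so `rk x ≤ 2`). There
is `0 ≠ u ∈ up g e`
(`exists_up_irr`). `up g e` is the line of `u`: let `x ∈ up g e`. `u` and `x` vanish on `V1` and map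
`V0` to `V1`, `u` is bijective from `V0` to
`V1` (rank two). The operator `u⁻¹ x` of `V0` has an eigenvector `w ≠ 0`: `x w = c u w`, so
`x - c • u ∈ up g e` kills `V1` and `w`, its rank is at most one, so it
is zero. (To get `u⁻¹`: there is `s : End K V` with `s * u = 1 - e`, `u * s = e`.)
In the same way there is `0 ≠ u' ∈ dn g e` (`exists_up_irr` for `1 - e`, `up_symm`) and, if there is
no element of rank one in `dn g e`
(otherwise conclude as in Case 1, `Gr.dn_mul_dn`), `dn g e` is the line of `u'`, and `u'` is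
bijective from `V1` to `V0`.

`u * u' * u ∈ up g e` (half of the double commutator, see `Gr.quad_up` in
`Pool/Agent/SmallRank/Defs.lean`, which only uses the Lie bracket), so `u u' u = μ u`, so `u' u w =
μ w` for `w ∈ V0` and
`u u' w = μ w` for `w ∈ V1` (`u` is bijective), `μ ≠ 0`. Let `z ∈ g` with `e z = z e`. Then
`z u - u z ∈ up g e`, so `z u - u z = λ u`.

Every `w : V` is uniquely `a + u a'` with `a, a' ∈ V0`: `a = (1 - e) w`, `a' = μ⁻¹ u' (e w)`. Let
`ω` be a
nondegenerate alternating form on `V0` (dimension two), so that for every operator `z0` of `V0`: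
`ω (z0 a) b + ω a (z0 b) = trace z0 * ω a b`. Explicitly: take a basis `b0, b1` of `V0` and the
functionals `p0, p1 : V → K` with
`(1 - e) w = p0 w • b0 + p1 w • b1`; `ω w w' = p0 w * p1 w' - p1 w * p0 w'` is bilinear on `V`. Let
`B w w' = ω w (u' w') - ω (u' w) w'`, which for `w = a + u a'`, `w' = b + u b'` is
`μ (ω a b' - ω a' b)` (note `ω (e w) = 0`, `u' a = 0`).
`B` is nondegenerate on the left: if `ω a b' = 0` for all `b'` then `a = 0`, and so on.
Multipliers: `u` and `u'` have multiplier zero: `B (u w) w' + B w (u w') = μ (- ω a b + ω a b) = 0`,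
`B (u' w) w' + B w (u' w') = μ (μ ω a' b' - μ ω a' b') = 0`. `z` as above has
multiplier `trace z0 + λ`, `z0 = z` restricted to `V0`: `z (a + u a') = z a + u (z a' + λ a')`. So
all elements of `g` (`Gr.decomp`: `a = a₁ + a₋₁ + a₀`; the formula is an identity, the
components are in `g` by `OddRank.deg_one_mem`, `OddRank.deg_neg_mem`) have multipliers, against
`hnf`.
-/

set_option autoImplicit false
set_option linter.unusedSectionVars false

namespace Pool.Agent.FQA

open Module Pool.Agent.SmallRank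

section

variable {K V : Type*} [Field K] [CharZero K] [IsAlgClosed K] [AddCommGroup V] [Module K V]
  [FiniteDimensional K V]

private theorem four_inv {e x : End K V} (hee : e * e = e) (h1 : e * x = x) (h2 : x * e = 0)
    (hr : rk x = rk e) (hr' : rk x = rk (1 - e)) :
    ∃ s : End K V, s * x = 1 - e ∧ x * s = e ∧ (1 - e) * s = s ∧ s * e = s ∧
      LinearMap.ker x = LinearMap.range e := by
  have hran : LinearMap.range x = LinearMap.range e := by
    refine Submodule.eq_of_le_of_finrank_eq ?_ hr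
    rw [← h1]
    exact LinearMap.range_comp_le_range x e
  have hker : LinearMap.ker x = LinearMap.range e := by
    symm
    refine Submodule.eq_of_le_of_finrank_eq ?_ ?_
    · rintro _ ⟨w, rfl⟩
      rw [LinearMap.mem_ker, ← Module.End.mul_apply, h2, LinearMap.zero_apply]
    · have h3 := LinearMap.finrank_range_add_finrank_ker x
      have h4 := rk_compl hee
      unfold rk at hr hr' h4
      omega
  obtain ⟨r, hr2⟩ := LinearMap.exists_rightInverse_of_surjective x.rangeRestrict
    (LinearMap.range_rangeRestrict x)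
  have hxr : ∀ y : LinearMap.range x, x (r y) = y := fun y => by
    have h3 := congrArg Subtype.val (LinearMap.congr_fun hr2 y)
    exact h3
  let eR : V →ₗ[K] LinearMap.range x := LinearMap.codRestrict (LinearMap.range x) e
    (fun w => by rw [hran]; exact ⟨w, rfl⟩)
  have heR : ∀ w, ((eR w : LinearMap.range x) : V) = e w := fun w => rfl
  have hxe : ∀ w, x (e w) = 0 := fun w => by
    rw [← Module.End.mul_apply, h2, LinearMap.zero_apply]
  have hE : ∀ w, e (e w) = e w := fun w => by rw [← Module.End.mul_apply, hee]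
  refine ⟨(1 - e) ∘ₗ r ∘ₗ eR, ?_, ?_, ?_, ?_, hker⟩
  · ext w
    rw [Module.End.mul_apply, LinearMap.comp_apply, LinearMap.comp_apply]
    have h3 : r (eR (x w)) - w ∈ LinearMap.ker x := by
      rw [LinearMap.mem_ker, map_sub, hxr, heR, ← Module.End.mul_apply e x, h1, sub_self]
    rw [hker] at h3
    obtain ⟨w', hw'⟩ := h3
    have h4 : (1 - e) (r (eR (x w)) - w) = 0 := by
      rw [← hw', LinearMap.sub_apply, Module.End.one_apply, hE, sub_self]
    rw [map_sub, sub_eq_zero] at h4
    exact h4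
  · ext w
    rw [Module.End.mul_apply, LinearMap.comp_apply, LinearMap.comp_apply, LinearMap.sub_apply,
      Module.End.one_apply, map_sub, hxe, sub_zero, hxr, heR]
  · ext w
    simp only [Module.End.mul_apply, LinearMap.comp_apply, LinearMap.sub_apply,
      Module.End.one_apply, map_sub, hE]
    abel
  · ext w
    have h3 : eR (e w) = eR w := Subtype.ext (by rw [heR, heR, hE])
    rw [Module.End.mul_apply, LinearMap.comp_apply, LinearMap.comp_apply, LinearMap.comp_apply,
      LinearMap.comp_apply, h3]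

private theorem four_line {g : Submodule K (End K V)} {e u : End K V} (hee : e * e = e)
    (hrk : ∀ x ∈ up g e, x ≠ 0 → rk x = rk (1 - e)) (hpos : 0 < rk (1 - e))
    (hre : rk e = rk (1 - e)) (hu : u ∈ up g e) (hu0 : u ≠ 0) {x : End K V}
    (hx : x ∈ up g e) : ∃ c : K, x = c • u := by
  obtain ⟨s, hsu, hus, hs1, hs2, -⟩ := four_inv hee hu.2.1 hu.2.2
    ((hrk u hu hu0).trans hre.symm) (hrk u hu hu0)
  have hW : ∀ w ∈ LinearMap.range (1 - e), (s * x) w ∈ LinearMap.range (1 - e) := by
    intro w _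
    refine ⟨(s * x) w, ?_⟩
    rw [← Module.End.mul_apply, ← mul_assoc, hs1]
  have hnt : Nontrivial (LinearMap.range (1 - e)) := Module.finrank_pos_iff.1 hpos
  obtain ⟨c, hc⟩ := Module.End.exists_eigenvalue ((s * x).restrict hW)
  obtain ⟨w, hw⟩ := hc.exists_hasEigenvector
  have hw0 : (w : V) ≠ 0 := fun h => hw.2 (Subtype.ext h)
  have hw1 : (s * x) (w : V) = c • (w : V) := by
    have h1 := congrArg Subtype.val (Module.End.HasEigenvector.apply_eq_smul hw)
    exact h1
  have hwe : e (w : V) = 0 := by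
    obtain ⟨w', hw'⟩ := w.2
    rw [← hw', LinearMap.sub_apply, Module.End.one_apply, map_sub, ← Module.End.mul_apply, hee,
      sub_self]
  have hxw : (x - c • u) (w : V) = 0 := by
    have h1 : x (w : V) = u ((s * x) (w : V)) := by
      rw [← Module.End.mul_apply, ← mul_assoc, hus, hx.2.1]
    rw [LinearMap.sub_apply, h1, hw1, map_smul, LinearMap.smul_apply, sub_self]
  refine ⟨c, ?_⟩
  by_contra hne
  have hne' : x - c • u ≠ 0 := sub_ne_zero.2 hne
  have hmem : x - c • u ∈ up g e := (up g e).sub_mem hx ((up g e).smul_mem c hu)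
  obtain ⟨-, -, -, -, -, hker⟩ := four_inv hee hmem.2.1 hmem.2.2
    ((hrk _ hmem hne').trans hre.symm) (hrk _ hmem hne')
  have h2 : (w : V) ∈ LinearMap.ker (x - c • u) := hxw
  rw [hker] at h2
  obtain ⟨w', hw'⟩ := h2
  apply hw0
  rw [← hw', ← hee, Module.End.mul_apply, hw', hwe]

private theorem four_quad {g : Submodule K (End K V)} (hlie : ∀ a ∈ g, ∀ b ∈ g, a * b - b * a ∈ g)
    {e x y : End K V} (hx : x ∈ up g e) (hy : y ∈ g) : x * y * x ∈ up g e := by
  have hxx : x * x = 0 := Gr.up_mul_up hx hx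
  have h1 := hlie _ hx.1 _ (hlie _ hx.1 _ hy)
  have h2 : x * (x * y - y * x) - (x * y - y * x) * x = (-2 : K) • (x * y * x) := by
    rw [mul_sub, sub_mul, ← mul_assoc, hxx, zero_mul, mul_assoc y, hxx, mul_zero, ← mul_assoc]
    rw [zero_sub, sub_zero, neg_smul, two_smul]
    abel
  rw [h2] at h1
  have h3 := g.smul_mem (-2⁻¹ : K) h1
  rw [smul_smul, show (-2⁻¹ : K) * -2 = 1 by norm_num, one_smul] at h3
  exact ⟨h3, by rw [← mul_assoc, ← mul_assoc, hx.2.1], by rw [mul_assoc, hx.2.2, mul_zero]⟩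

/-- the form -/
private noncomputable def fB (p0 p1 : V →ₗ[K] K) (s : End K V) : V →ₗ[K] V →ₗ[K] K :=
  LinearMap.mk₂ K (fun w w' => p0 w * p1 (s w') - p1 w * p0 (s w') -
      (p0 (s w) * p1 w' - p1 (s w) * p0 w'))
    (fun a b c => by simp only [map_add]; ring) (fun a b c => by
      simp only [map_smul, smul_eq_mul]; ring)
    (fun a b c => by simp only [map_add]; ring) (fun a b c => by
      simp only [map_smul, smul_eq_mul]; ring)

private theorem fB_apply (p0 p1 : V →ₗ[K] K) (s : End K V) (w w' : V) :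
    fB p0 p1 s w w' = p0 w * p1 (s w') - p1 w * p0 (s w') -
      (p0 (s w) * p1 w' - p1 (s w) * p0 w') := rfl

/-- everything after the line -/
private theorem four_form {g : Submodule K (End K V)}
    (hlie : ∀ a ∈ g, ∀ b ∈ g, a * b - b * a ∈ g)
    {e u s : End K V} (he : e ∈ g) (hee : e * e = e) (hr : rk (1 - e) = 2) (hu : u ∈ up g e)
    (hs : s ∈ dn g e) (hsu : s * u = 1 - e) (hus : u * s = e)
    (hup : ∀ x ∈ up g e, ∃ c : K, x = c • u) (hdn : ∀ x ∈ dn g e, ∃ c : K, x = c • s) :
    ∃ φ : V →ₗ[K] V →ₗ[K] K, (∀ x, (∀ y, φ x y = 0) → x = 0) ∧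
      ∀ x ∈ g, ∃ κ : K, ∀ a b, φ (x a) b + φ a (x b) = κ * φ a b := by
  -- coordinates on the kernel of `e`
  let b : Basis (Fin 2) K (LinearMap.range (1 - e)) := Module.finBasisOfFinrankEq K _ hr
  let p0 : V →ₗ[K] K := b.coord 0 ∘ₗ (1 - e).rangeRestrict
  let p1 : V →ₗ[K] K := b.coord 1 ∘ₗ (1 - e).rangeRestrict
  have hp0d : ∀ w, p0 w = b.repr ((1 - e).rangeRestrict w) 0 := fun w => rfl
  have hp1d : ∀ w, p1 w = b.repr ((1 - e).rangeRestrict w) 1 := fun w => rfl
  have hexp : ∀ w, (1 - e) w = p0 w • (b 0 : V) + p1 w • (b 1 : V) := by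
    intro w
    have h1 := b.sum_repr ((1 - e).rangeRestrict w)
    rw [Fin.sum_univ_two] at h1
    have h2 := congrArg Subtype.val h1
    rw [Submodule.coe_add, Submodule.coe_smul, Submodule.coe_smul] at h2
    exact h2.symm
  have hfix : ∀ i, (1 - e).rangeRestrict (b i : V) = b i := by
    intro i
    apply Subtype.ext
    obtain ⟨w, hw⟩ := (b i).2
    change (1 - e) (b i : V) = b i
    rw [← hw, ← Module.End.mul_apply]
    congr 1
    rw [mul_sub, mul_one, sub_mul, one_mul, hee, sub_self, sub_zero]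
  have h00 : p0 (b 0 : V) = 1 := by rw [hp0d, hfix, b.repr_self]; simp
  have h01 : p0 (b 1 : V) = 0 := by rw [hp0d, hfix, b.repr_self]; simp
  have h10 : p1 (b 0 : V) = 0 := by rw [hp1d, hfix, b.repr_self]; simp
  have h11 : p1 (b 1 : V) = 1 := by rw [hp1d, hfix, b.repr_self]; simp
  have hpe0 : ∀ w, p0 ((1 - e) w) = p0 w := fun w => by
    rw [hexp w, map_add, map_smul, map_smul, h00, h01]; simp
  have hpe1 : ∀ w, p1 ((1 - e) w) = p1 w := fun w => by
    rw [hexp w, map_add, map_smul, map_smul, h10, h11]; simp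
  have hue : (1 - e) * u = 0 := by rw [sub_mul, one_mul, hu.2.1, sub_self]
  have hpu0 : ∀ w, p0 (u w) = 0 := fun w => by
    rw [← hpe0, ← Module.End.mul_apply, hue, LinearMap.zero_apply, map_zero]
  have hpu1 : ∀ w, p1 (u w) = 0 := fun w => by
    rw [← hpe1, ← Module.End.mul_apply, hue, LinearMap.zero_apply, map_zero]
  have hsuw : ∀ w, s (u w) = (1 - e) w := fun w => by rw [← Module.End.mul_apply, hsu]
  have hss : ∀ w, s (s w) = 0 := fun w => by
    rw [← Module.End.mul_apply, Gr.dn_mul_dn hs hs, LinearMap.zero_apply]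
  refine ⟨fB p0 p1 s, ?_, ?_⟩
  · intro x hx
    have hA : ∀ y, p0 x * p1 y - p1 x * p0 y = 0 := by
      intro y
      have h1 := hx (u y)
      rw [fB_apply, hsuw, hpu0, hpu1, hpe0, hpe1] at h1
      linear_combination h1
    have hA0 : p0 x = 0 := by
      have h1 := hA (b 1 : V)
      rw [h01, h11] at h1
      linear_combination h1
    have hA1 : p1 x = 0 := by
      have h1 := hA (b 0 : V)
      rw [h00, h10] at h1
      linear_combination -h1
    have hsb : ∀ i, s (b i : V) = 0 := by
      intro i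
      have h1 : (1 - e) (b i : V) = b i := congrArg Subtype.val (hfix i)
      rw [← h1, ← Module.End.mul_apply, mul_sub, mul_one, hs.2.2, sub_self,
        LinearMap.zero_apply]
    have hB0 : p0 (s x) = 0 := by
      have h1 := hx (b 1 : V)
      rw [fB_apply, hsb, h01, h11, map_zero, map_zero] at h1
      linear_combination -h1
    have hB1 : p1 (s x) = 0 := by
      have h1 := hx (b 0 : V)
      rw [fB_apply, hsb, h00, h10, map_zero, map_zero] at h1
      linear_combination h1
    have h1 : (1 - e) x = 0 := by rw [hexp, hA0, hA1, zero_smul, zero_smul, add_zero]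
    have h2 : (1 - e) (s x) = 0 := by rw [hexp, hB0, hB1, zero_smul, zero_smul, add_zero]
    have h3 : s x = 0 := by
      rw [LinearMap.sub_apply, Module.End.one_apply, ← Module.End.mul_apply e s, hs.2.1,
        LinearMap.zero_apply, sub_zero] at h2
      exact h2
    have h4 : e x = 0 := by rw [← hus, Module.End.mul_apply, h3, map_zero]
    rw [LinearMap.sub_apply, Module.End.one_apply, h4, sub_zero] at h1
    exact h1
  · intro x hx
    have hdeg1 : e * x * (1 - e) ∈ up g e :=
      ⟨OddRank.deg_one_mem hee (fun y hy => hlie _ he _ hy) hx, by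
        rw [← mul_assoc, ← mul_assoc, hee], by
        rw [mul_assoc, sub_mul, one_mul, hee, sub_self, mul_zero]⟩
    have hdeg2 : (1 - e) * x * e ∈ dn g e :=
      ⟨OddRank.deg_neg_mem hee (fun y hy => hlie _ he _ hy) hx, by
        rw [← mul_assoc, ← mul_assoc, mul_sub, mul_one, hee, sub_self, zero_mul, zero_mul], by
        rw [mul_assoc, hee]⟩
    obtain ⟨c, hc⟩ := hup _ hdeg1
    obtain ⟨d, hd⟩ := hdn _ hdeg2
    obtain ⟨z, hz⟩ : ∃ z, z = x - e * x * (1 - e) - (1 - e) * x * e := ⟨_, rfl⟩
    have hzg : z ∈ g := by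
      rw [hz]
      exact g.sub_mem (g.sub_mem hx hdeg1.1) hdeg2.1
    have hze : e * z = z * e := by
      rw [hz]
      have h1 : e * (e * x) = e * x := by rw [← mul_assoc, hee]
      have h2 : x * e * e = x * e := by rw [mul_assoc, hee]
      simp only [mul_sub, sub_mul, mul_one, one_mul, ← mul_assoc, hee]
      simp only [mul_assoc, hee]
      abel
    have hxz : x = z + c • u + d • s := by
      rw [← hc, ← hd, hz]
      abel
    have hzu : z * u - u * z ∈ up g e := by
      refine ⟨hlie _ hzg _ hu.1, ?_, ?_⟩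
      · rw [mul_sub, ← mul_assoc, hze, mul_assoc, hu.2.1, ← mul_assoc, hu.2.1]
      · rw [sub_mul, mul_assoc, hu.2.2, mul_zero, mul_assoc, ← hze, ← mul_assoc, hu.2.2, zero_mul,
          sub_zero]
    obtain ⟨l, hl⟩ := hup _ hzu
    have hsz : s * z = z * s + l • s := by
      have h1 : s * (z * u - u * z) * s = l • s := by
        rw [hl, mul_smul_comm, smul_mul_assoc, hsu, sub_mul, one_mul, hs.2.1, sub_zero]
      have h2 : s * (z * u - u * z) * s = s * z - z * s := by
        rw [mul_sub, sub_mul, mul_assoc s (z * u) s, mul_assoc z u s, hus, ← mul_assoc s u z, hsu,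
          sub_mul, one_mul, sub_mul, hze, mul_assoc z e s, hs.2.1, mul_zero, sub_zero, ← hze,
          ← mul_assoc, hs.2.2]
      rw [← h1, h2]
      abel
    have hzp : (1 - e) * z = z * (1 - e) := by rw [sub_mul, mul_sub, one_mul, mul_one, hze]
    have hz0 : ∀ w, p0 (z w) = p0 w * p0 (z (b 0 : V)) + p1 w * p0 (z (b 1 : V)) := by
      intro w
      rw [← hpe0, ← Module.End.mul_apply, hzp, Module.End.mul_apply, hexp w, map_add, map_smul,
        map_smul, map_add, map_smul, map_smul, smul_eq_mul, smul_eq_mul]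
    have hz1 : ∀ w, p1 (z w) = p0 w * p1 (z (b 0 : V)) + p1 w * p1 (z (b 1 : V)) := by
      intro w
      rw [← hpe1, ← Module.End.mul_apply, hzp, Module.End.mul_apply, hexp w, map_add, map_smul,
        map_smul, map_add, map_smul, map_smul, smul_eq_mul, smul_eq_mul]
    have hszw : ∀ w, s (z w) = z (s w) + l • s w := fun w => by
      rw [← Module.End.mul_apply, hsz, LinearMap.add_apply, Module.End.mul_apply,
        LinearMap.smul_apply]
    refine ⟨p0 (z (b 0 : V)) + p1 (z (b 1 : V)) + l, fun v w => ?_⟩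
    have hxv : ∀ v, x v = z v + c • u v + d • s v := fun v => by
      rw [hxz]; rfl
    rw [hxv v, hxv w]
    rw [fB_apply, fB_apply, fB_apply]
    simp only [map_add, map_smul, smul_eq_mul, hpu0, hpu1, hsuw, hpe0, hpe1, hss, hszw, map_zero]
    rw [hz0 v, hz1 v, hz0 w, hz1 w, hz0 (s v), hz1 (s v), hz0 (s w), hz1 (s w)]
    ring

end

variable {K V : Type*} [Field K] [CharZero K] [IsAlgClosed K] [AddCommGroup V] [Module K V]
  [FiniteDimensional K V] {g t : Submodule K (End K V)} (T : TD g t) [Nontrivial V]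
include T

theorem TD.full_four
    (hnf : ∀ φ : V →ₗ[K] V →ₗ[K] K, (∀ x, (∀ y, φ x y = 0) → x = 0) →
      ¬ ∀ x ∈ g, ∃ κ : K, ∀ a b, φ (x a) b + φ a (x b) = κ * φ a b)
    (h4 : finrank K V = 4) {e : End K V} (he : e ∈ g) (hee : e * e = e) (hr : rk e = 2)
    (D : End K V) : D ∈ g := by
  by_contra hD
  have hno : ∀ N ∈ g, N * N = 0 → rk N ≠ 1 := fun N hN hNN h1 =>
    hD (T.full_of_one hnf hN hNN h1 D)
  have hr' : rk (1 - e) = 2 := by
    have h1 := rk_compl hee
    omega
  have he0 : e ≠ 0 := fun h => by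
    rw [rk_eq_zero.2 h] at hr
    omega
  have he1 : e ≠ 1 := fun h => by
    rw [h, rk_one] at hr
    omega
  have he' : (1 - e) ∈ g := g.sub_mem T.hone he
  have hee' : (1 - e) * (1 - e) = 1 - e := by
    rw [mul_sub, mul_one, sub_mul, one_mul, hee, sub_self, sub_zero]
  have hrkup : ∀ x ∈ up g e, x ≠ 0 → rk x = 2 := by
    intro x hx hx0
    have h1 := rk_pos hx0
    have h2 := hno x hx.1 (Gr.up_mul_up hx hx)
    have h3 : rk x ≤ 2 := by
      rw [← hr, ← hx.2.1]
      exact rk_mul_left e x
    omega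
  have hrkdn : ∀ x ∈ dn g e, x ≠ 0 → rk x = 2 := by
    intro x hx hx0
    have h1 := rk_pos hx0
    have h2 := hno x hx.1 (Gr.dn_mul_dn hx hx)
    have h3 : rk x ≤ 2 := by
      rw [← hr, ← hx.2.2]
      exact rk_mul_right x e
    omega
  obtain ⟨u, hu, hu0⟩ := exists_up_irr T.lie T.irr he hee he0 he1
  obtain ⟨u', hu', hu0'⟩ := exists_up_irr T.lie T.irr he' hee' (sub_ne_zero.2 he1.symm)
    (fun h => he0 (by rw [← sub_sub_cancel 1 e, h, sub_self]))
  rw [up_symm] at hu'
  have hup : ∀ x ∈ up g e, ∃ c : K, x = c • u := fun x hx =>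
    four_line hee (fun x hx hx0 => (hrkup x hx hx0).trans hr'.symm) (by omega)
      (hr.trans hr'.symm) hu hu0 hx
  have hdn : ∀ x ∈ dn g e, ∃ c : K, x = c • u' := by
    intro x hx
    rw [← up_symm] at hx
    refine four_line hee' (fun x hx hx0 => ?_) ?_ ?_ (by rw [up_symm]; exact hu') hu0' hx
    · rw [up_symm] at hx
      rw [sub_sub_cancel, hrkdn x hx hx0, hr]
    · rw [sub_sub_cancel]
      omega
    · rw [sub_sub_cancel]
      omega
  obtain ⟨s, hsu, hus, hs1, hs2, -⟩ := four_inv hee hu.2.1 hu.2.2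
    ((hrkup u hu hu0).trans hr.symm) ((hrkup u hu hu0).trans hr'.symm)
  obtain ⟨m, hm⟩ := hup _ (four_quad T.lie hu hu'.1)
  have hmu : u * u' = m • e := by
    have h1 : u * u' * u * s = m • e := by rw [hm, smul_mul_assoc, hus]
    rw [mul_assoc (u * u'), hus, mul_assoc, hu'.2.2] at h1
    exact h1
  have hum : u' * u = m • (1 - e) := by
    have h1 : s * (u * u' * u) = m • (1 - e) := by rw [hm, mul_smul_comm, hsu]
    rw [mul_assoc u, ← mul_assoc s, hsu, sub_mul, one_mul, ← mul_assoc, hu'.2.1, zero_mul,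
      sub_zero] at h1
    exact h1
  have hm0 : m ≠ 0 := by
    intro h0
    rw [h0, zero_smul] at hum
    have h1 := hu'
    rw [← up_symm] at h1
    obtain ⟨s', hsu', -, -, -, -⟩ := four_inv hee' h1.2.1 h1.2.2
      ((hrkdn u' hu' hu0').trans hr'.symm)
      (by rw [sub_sub_cancel]; exact (hrkdn u' hu' hu0').trans hr.symm)
    rw [sub_sub_cancel] at hsu'
    apply hu0
    rw [← hu.2.1, ← hsu', mul_assoc, hum, mul_zero]
  obtain ⟨φ, h1, h2⟩ := four_form T.lie he hee hr' hu ((dn g e).smul_mem m⁻¹ hu')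
    (by rw [smul_mul_assoc, hum, smul_smul, inv_mul_cancel₀ hm0, one_smul])
    (by rw [mul_smul_comm, hmu, smul_smul, inv_mul_cancel₀ hm0, one_smul]) hup
    (fun x hx => by
      obtain ⟨c, hc⟩ := hdn x hx
      refine ⟨c * m, ?_⟩
      rw [smul_smul, mul_assoc, mul_inv_cancel₀ hm0, mul_one, hc])
  exact hnf φ h1 h2

end Pool.Agent.FQA
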