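import Pool.Agent.FQA.Iface

/-!
# Irreducible representations with the same weights of multiplicity one are isomorphic
-/

set_option autoImplicit false
set_option linter.unusedSectionVars false

namespace Pool.Agent.FQA

open Module Pool.Agent.CoprimeSig Pool.Agent.Mod4 Pool.Agent.NumRank
open Pool.Agent.PrimePow.CC (Rf Rt Lat)

variable {K V V' : Type*} [Field K] [CharZero K] [IsAlgClosed K] [AddCommGroup V] [Module K V]
  [FiniteDimensional K V] [AddCommGroup V'] [Module K V'] {I : Type} [Fintype I]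

/-! ## Eigenvectors of a diagonal operator -/

omit [IsAlgClosed K] [CharZero K] [Fintype I] in
private theorem coord_zero {W : Type*} [AddCommGroup W] [Module K W] (b : Basis I K W)
    {X : End K W} {d : I → K} (hX : ∀ i, X (b i) = d i • b i) {y : W} {κ : K} (hy : X y = κ • y)
    {j : I} (hj : κ ≠ d j) : b.repr y j = 0 := by
  have h1 : (b.coord j).comp X = d j • b.coord j := by
    refine b.ext fun i => ?_
    rw [LinearMap.comp_apply, hX, map_smul, LinearMap.smul_apply, Basis.coord_apply,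
      Basis.repr_self]
    by_cases hij : i = j
    · rw [hij]
    · rw [Finsupp.single_eq_of_ne (Ne.symm hij), smul_zero, smul_zero]
  have h2 := LinearMap.congr_fun h1 y
  rw [LinearMap.comp_apply, hy, map_smul, LinearMap.smul_apply, Basis.coord_apply, smul_eq_mul,
    smul_eq_mul] at h2
  have h3 : (κ - d j) * b.repr y j = 0 := by rw [sub_mul, h2, sub_self]
  exact (mul_eq_zero.1 h3).resolve_left (sub_ne_zero.2 hj)

omit [IsAlgClosed K] [CharZero K] in
private theorem eig_shift {W : Type*} [AddCommGroup W] [Module K W] {X z : End K W} {s κ : K}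
    (hs : X * z - z * X = s • z) {y : W} (hy : X y = κ • y) : X (z y) = (κ + s) • z y := by
  have h1 := LinearMap.congr_fun hs y
  rw [LinearMap.sub_apply, Module.End.mul_apply, Module.End.mul_apply, hy, map_smul,
    LinearMap.smul_apply] at h1
  rw [add_smul, ← h1]
  abel

/-- A generic element of the torus. -/
structure Gen (t : Submodule K (End K V)) (v : Basis I K V) (x₀ : End K V) (d : I → ℚ) :
    Prop where
  mem : x₀ ∈ t
  app : ∀ i, x₀ (v i) = (d i : K) • v i
  inj : Function.Injective d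

namespace TD

variable {g t : Submodule K (End K V)} (T : TD g t) [Nontrivial V]
  (v : Basis I K V) (hv : ∀ x ∈ t, ∀ i, ∃ c : K, x (v i) = c • v i)
include T hv

theorem exists_gen : ∃ x₀ d, Gen t v x₀ d := by
  classical
  have hL := T.lat v hv
  have he : ∀ q : {q : I × I // q.1 ≠ q.2}, ∃ f : I → ℚ, f q.1.1 ≠ f q.1.2 ∧
      ∃ x ∈ t, ∀ i, x (v i) = (f i : K) • v i := by
    rintro ⟨q, hq⟩
    by_contra hcon
    push Not at hcon
    refine hq (hL.sep _ _ fun f hf => ?_)
    by_contra h
    obtain ⟨-, x, hx, hfx⟩ := hf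
    obtain ⟨i, hi⟩ := hcon f h x hx
    exact hi (hfx i)
  choose f hf x hx hfx using he
  let F : {q : I × I // q.1 ≠ q.2} → Module.Dual ℚ ({q : I × I // q.1 ≠ q.2} → ℚ) := fun q =>
    ∑ j, (f j q.1.1 - f j q.1.2) • LinearMap.proj j
  have hF : ∀ q t, F q t = ∑ j, (f j q.1.1 - f j q.1.2) * t j := by
    intro q t
    simp [F, LinearMap.sum_apply]
  obtain ⟨r, hr⟩ := Module.Dual.exists_forall_ne_zero_of_forall_exists F fun q =>
    ⟨Pi.single q 1, by
      rw [hF, Finset.sum_eq_single q]
      · rw [Pi.single_eq_same, mul_one]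
        exact sub_ne_zero.2 (hf q)
      · intro j _ hj
        rw [Pi.single_eq_of_ne hj, mul_zero]
      · intro h
        exact absurd (Finset.mem_univ _) h⟩
  refine ⟨∑ j, (r j : K) • x j, fun i => ∑ j, f j i * r j, ?_, ?_, ?_⟩
  · exact Submodule.sum_mem _ fun j _ => Submodule.smul_mem _ _ (hx j)
  · intro i
    rw [LinearMap.sum_apply, Rat.cast_sum, Finset.sum_smul]
    refine Finset.sum_congr rfl fun j _ => ?_
    rw [LinearMap.smul_apply, hfx, smul_smul, Rat.cast_mul, mul_comm]
  · intro a b h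
    by_contra hne
    refine hr ⟨(a, b), hne⟩ ?_
    rw [hF]
    simp only [sub_mul, Finset.sum_sub_distrib]
    exact sub_eq_zero.2 h

variable {x₀ : End K V} {d : I → ℚ} (G : Gen t v x₀ d)
include G

omit T hv [Nontrivial V] in
private theorem gen_rat {z : End K V} {s : K} (hz : z ≠ 0) (hs : x₀ * z - z * x₀ = s • z) :
    ∃ q : ℚ, s = (q : K) := by
  obtain ⟨i, hi⟩ : ∃ i, z (v i) ≠ 0 := by
    by_contra hcon
    push Not at hcon
    exact hz (v.ext fun i => by rw [hcon, LinearMap.zero_apply])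
  have h1 := eig_shift hs (G.app i)
  obtain ⟨j, hj⟩ : ∃ j, v.repr (z (v i)) j ≠ 0 := by
    by_contra hcon
    push Not at hcon
    apply hi
    have h2 : v.repr (z (v i)) = 0 := Finsupp.ext hcon
    exact v.repr.map_eq_zero_iff.1 h2
  have h2 : (d i : K) + s = (d j : K) := by
    by_contra h
    exact hj (coord_zero v (d := fun i => (d i : K)) G.app h1 h)
  refine ⟨d j - d i, ?_⟩
  rw [Rat.cast_sub, ← h2]
  ring

omit [Nontrivial V] in
private theorem gen_zero {z : End K V} (hz : z ∈ g) (h0 : x₀ * z - z * x₀ = 0) : z ∈ t := by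
  have hzv : ∀ i, ∃ c : K, z (v i) = c • v i := by
    intro i
    have h1 : x₀ * z - z * x₀ = (0 : K) • z := by rw [h0, zero_smul]
    have h2 := eig_shift h1 (G.app i)
    rw [add_zero] at h2
    refine ⟨v.repr (z (v i)) i, v.repr.injective (Finsupp.ext fun j => ?_)⟩
    rw [map_smul, Finsupp.smul_apply, Basis.repr_self, smul_eq_mul]
    by_cases hij : i = j
    · rw [hij, Finsupp.single_eq_same, mul_one]
    · rw [Finsupp.single_eq_of_ne (Ne.symm hij), mul_zero]
      refine coord_zero v (d := fun i => (d i : K)) G.app h2 fun h => hij ?_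
      exact G.inj (Rat.cast_injective h)
  refine T.cent z hz fun y hy => v.ext fun i => ?_
  obtain ⟨c, hc⟩ := hzv i
  obtain ⟨c', hc'⟩ := hv y hy i
  rw [Module.End.mul_apply, Module.End.mul_apply, hc', map_smul, hc, map_smul, hc', smul_smul,
    smul_smul, mul_comm]

omit hv [Nontrivial V] in
private theorem gen_span {z : End K V} (hz : z ∈ g) :
    z ∈ Submodule.span K {y | y ∈ g ∧ ∃ s : ℚ, x₀ * y - y * x₀ = (s : K) • y} := by
  refine Submodule.span_mono ?_ (mem_span_roots T.toCartan hz)
  rintro y ⟨α, hy⟩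
  refine ⟨hy.mem, ?_⟩
  have h1 := hy.root x₀ G.mem
  by_cases h0 : y = 0
  · exact ⟨0, by rw [h0]; simp⟩
  · obtain ⟨q, hq⟩ := gen_rat v G h0 h1
    exact ⟨q, by rw [← hq]; exact h1⟩

end TD

/-- The smallest subspace which contains `(a, a')` and is stable under the elements of negative
degree. -/
private def gN (g : Submodule K (End K V)) (x₀ : End K V) (ρ : End K V →ₗ[K] End K V') (a : V)
    (a' : V') : Submodule K (V × V') :=
  sInf {N | (a, a') ∈ N ∧ ∀ z ∈ g, ∀ s : ℚ, s < 0 → x₀ * z - z * x₀ = (s : K) • z →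
    ∀ w ∈ N, (z w.1, ρ z w.2) ∈ N}

omit [IsAlgClosed K] [FiniteDimensional K V] in
private theorem gN_mem {g : Submodule K (End K V)} {x₀ : End K V}
    {ρ : End K V →ₗ[K] End K V'} (a : V) (a' : V') : (a, a') ∈ gN g x₀ ρ a a' :=
  Submodule.mem_sInf.2 fun _ hN => hN.1

omit [IsAlgClosed K] [FiniteDimensional K V] in
private theorem gN_st {g : Submodule K (End K V)} {x₀ : End K V}
    {ρ : End K V →ₗ[K] End K V'} {a : V} {a' : V'} {z : End K V} (hz : z ∈ g) {s : ℚ}
    (hs0 : s < 0) (hs : x₀ * z - z * x₀ = (s : K) • z) {w : V × V'} (hw : w ∈ gN g x₀ ρ a a') :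
    (z w.1, ρ z w.2) ∈ gN g x₀ ρ a a' :=
  Submodule.mem_sInf.2 fun N hN => hN.2 z hz s hs0 hs w (Submodule.mem_sInf.1 hw N hN)

variable {g t : Submodule K (End K V)} (T : TD g t) [Nontrivial V]
  (v : Basis I K V) (hv : ∀ x ∈ t, ∀ i, ∃ c : K, x (v i) = c • v i)
  (v' : Basis I K V') {ρ : End K V →ₗ[K] End K V'}
  (hρ : ∀ x ∈ g, ∀ y ∈ g, ρ (x * y - y * x) = ρ x * ρ y - ρ y * ρ x)
  (hw : ∀ x ∈ t, ∀ i, ∃ c : K, x (v i) = c • v i ∧ ρ x (v' i) = c • v' i)
include T hρ hw

private theorem gN_g {x₀ : End K V} {d : I → ℚ} (G : Gen t v x₀ d) {a : I}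
    (ha : ∀ b, d b ≤ d a) : ∀ w ∈ gN g x₀ ρ (v a) (v' a), ∀ z ∈ g,
      (z w.1, ρ z w.2) ∈ gN g x₀ ρ (v a) (v' a) := by
  have hv : ∀ x ∈ t, ∀ i, ∃ c : K, x (v i) = c • v i := fun x hx i => by
    obtain ⟨c, hc, -⟩ := hw x hx i
    exact ⟨c, hc⟩
  have hx₀' : ∀ i, ρ x₀ (v' i) = (d i : K) • v' i := by
    intro i
    obtain ⟨c, hc, hc'⟩ := hw x₀ G.mem i
    rw [G.app] at hc
    rw [hc', ← smul_left_injective K (v.ne_zero i) hc]
  have hρs : ∀ z ∈ g, ∀ s : K, x₀ * z - z * x₀ = s • z → ρ x₀ * ρ z - ρ z * ρ x₀ = s • ρ z := by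
    intro z hz s hs
    rw [← hρ x₀ (T.le G.mem) z hz, hs, map_smul]
  have hup : ∀ z ∈ g, ∀ s : ℚ, 0 < s → x₀ * z - z * x₀ = (s : K) • z →
      z (v a) = 0 ∧ ρ z (v' a) = 0 := by
    intro z hz s hs0 hs
    have key : ∀ j, ((d a : K) + (s : K)) ≠ (d j : K) := by
      intro j h
      rw [← Rat.cast_add] at h
      have h4 : d a + s = d j := Rat.cast_injective h
      have h5 := ha j
      linarith
    constructor
    · have h1 := eig_shift hs (G.app a)
      exact v.repr.map_eq_zero_iff.1 (Finsupp.ext fun j =>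
        coord_zero v (d := fun i => (d i : K)) G.app h1 (key j))
    · have h1 := eig_shift (hρs z hz _ hs) (hx₀' a)
      exact v'.repr.map_eq_zero_iff.1 (Finsupp.ext fun j =>
        coord_zero v' (d := fun i => (d i : K)) hx₀' h1 (key j))
  let N' : Submodule K (V × V') :=
    { carrier := {w | w ∈ gN g x₀ ρ (v a) (v' a) ∧ ∀ z ∈ g,
        (z w.1, ρ z w.2) ∈ gN g x₀ ρ (v a) (v' a)}
      add_mem' := by
        rintro u w ⟨hu, hu'⟩ ⟨hw, hw'⟩
        refine ⟨Submodule.add_mem _ hu hw, fun z hz => ?_⟩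
        have h1 := Submodule.add_mem _ (hu' z hz) (hw' z hz)
        rw [Prod.mk_add_mk, ← map_add, ← map_add] at h1
        exact h1
      zero_mem' := ⟨Submodule.zero_mem _, fun z _ => by
        have h1 : ((z (0 : V × V').1, ρ z (0 : V × V').2) : V × V') = 0 := by simp
        rw [h1]
        exact Submodule.zero_mem _⟩
      smul_mem' := by
        rintro c w ⟨hw, hw'⟩
        refine ⟨Submodule.smul_mem _ _ hw, fun z hz => ?_⟩
        have h1 := Submodule.smul_mem _ c (hw' z hz)
        rw [Prod.smul_mk, ← map_smul, ← map_smul] at h1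
        exact h1 }
  have h1 : gN g x₀ ρ (v a) (v' a) ≤ N' := by
    refine sInf_le ⟨⟨gN_mem (v a) (v' a), fun z hz => ?_⟩, ?_⟩
    · have h2 := T.gen_span v G hz
      clear hz
      induction h2 using Submodule.span_induction with
      | mem y hy =>
        obtain ⟨hy, s, hs⟩ := hy
        rcases lt_trichotomy s 0 with h3 | h3 | h3
        · exact gN_st hy h3 hs (gN_mem (v a) (v' a))
        · rw [h3, Rat.cast_zero, zero_smul] at hs
          obtain ⟨c, h4, h5⟩ := hw y (T.gen_zero v hv G hy hs) a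
          have h6 : ((y (v a), ρ y (v' a)) : V × V') = c • (v a, v' a) := by
            rw [h4, h5, Prod.smul_mk]
          change ((y (v a), ρ y (v' a)) : V × V') ∈ _
          rw [h6]
          exact Submodule.smul_mem _ _ (gN_mem (v a) (v' a))
        · obtain ⟨h4, h5⟩ := hup y hy s h3 hs
          change ((y (v a), ρ y (v' a)) : V × V') ∈ _
          rw [h4, h5]
          exact Submodule.zero_mem _
      | zero =>
        change (((0 : End K V) (v a), ρ 0 (v' a)) : V × V') ∈ _
        rw [map_zero]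
        exact Submodule.zero_mem _
      | add x y _ _ hx hy =>
        have h3 := Submodule.add_mem _ hx hy
        change (((x + y) (v a), ρ (x + y) (v' a)) : V × V') ∈ _
        rw [map_add]
        exact h3
      | smul c x _ hx =>
        have h3 := Submodule.smul_mem _ c hx
        change (((c • x) (v a), ρ (c • x) (v' a)) : V × V') ∈ _
        rw [map_smul]
        exact h3
    · rintro z hz s hs0 hs w ⟨hw, hw'⟩
      refine ⟨gN_st hz hs0 hs hw, fun x hx => ?_⟩
      have h2 := gN_st hz hs0 hs (hw' x hx)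
      have h3 := hw' _ (T.lie x hx z hz)
      have h4 := Submodule.add_mem _ h2 h3
      have h5 : z (x w.1) + (x * z - z * x) w.1 = x (z w.1) := by
        rw [LinearMap.sub_apply, Module.End.mul_apply, Module.End.mul_apply]
        abel
      have h6 : ρ z (ρ x w.2) + ρ (x * z - z * x) w.2 = ρ x (ρ z w.2) := by
        rw [hρ x hx z hz, LinearMap.sub_apply, Module.End.mul_apply, Module.End.mul_apply]
        abel
      rw [Prod.mk_add_mk] at h4
      change ((z (x w.1) + (x * z - z * x) w.1, ρ z (ρ x w.2) + ρ (x * z - z * x) w.2) :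
        V × V') ∈ _ at h4
      rw [h5, h6] at h4
      exact h4
  exact fun w hw z hz => (h1 hw).2 z hz

/-- **Irreducible representations with the same weights of multiplicity one are isomorphic.** -/
theorem iso_of_wts (hirr' : ∀ U : Submodule K V', (∀ x ∈ g, ∀ w ∈ U, ρ x w ∈ U) → U = ⊥ ∨ U = ⊤) :
    ∃ θ : V →ₗ[K] V', Function.Injective θ ∧ ∀ x ∈ g, ∀ w, θ (x w) = ρ x (θ w) := by
  classical
  have hv : ∀ x ∈ t, ∀ i, ∃ c : K, x (v i) = c • v i := fun x hx i => by
    obtain ⟨c, hc, -⟩ := hw x hx i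
    exact ⟨c, hc⟩
  obtain ⟨x₀, d, G⟩ := T.exists_gen v hv
  obtain ⟨a₀⟩ : Nonempty I := v.index_nonempty
  obtain ⟨a, -, ha'⟩ := Finset.exists_max_image Finset.univ d ⟨a₀, Finset.mem_univ a₀⟩
  have ha : ∀ b, d b ≤ d a := fun b => ha' b (Finset.mem_univ b)
  obtain ⟨N, hN⟩ : ∃ N, N = gN g x₀ ρ (v a) (v' a) := ⟨_, rfl⟩
  have hNg : ∀ w ∈ N, ∀ z ∈ g, (z w.1, ρ z w.2) ∈ N := by
    rw [hN]
    exact gN_g T v v' hρ hw G ha
  have hNa : (v a, v' a) ∈ N := by
    rw [hN]
    exact gN_mem (v a) (v' a)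
  have hx₀' : ∀ i, ρ x₀ (v' i) = (d i : K) • v' i := by
    intro i
    obtain ⟨c, hc, hc'⟩ := hw x₀ G.mem i
    rw [G.app] at hc
    rw [hc', ← smul_left_injective K (v.ne_zero i) hc]
  have hco : ∀ w ∈ N, v.coord a w.1 = v'.coord a w.2 := by
    have h1 : N ≤ LinearMap.eqLocus (v.coord a ∘ₗ LinearMap.fst K V V')
        (v'.coord a ∘ₗ LinearMap.snd K V V') := by
      rw [hN]
      refine sInf_le ⟨?_, ?_⟩
      · change v.coord a (v a) = v'.coord a (v' a)
        rw [Basis.coord_apply, Basis.coord_apply, Basis.repr_self, Basis.repr_self]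
      · rintro z hz s hs0 hs w -
        change v.coord a (z w.1) = v'.coord a (ρ z w.2)
        have hs' : ρ x₀ * ρ z - ρ z * ρ x₀ = (s : K) • ρ z := by
          rw [← hρ x₀ (T.le G.mem) z hz, hs, map_smul]
        have key : ∀ j, ((d j : K) + (s : K)) ≠ (d a : K) := by
          intro j h
          rw [← Rat.cast_add] at h
          have h4 : d j + s = d a := Rat.cast_injective h
          have h5 := ha j
          linarith
        have h2 : v.coord a ∘ₗ z = 0 := by
          refine v.ext fun j => ?_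
          rw [LinearMap.comp_apply, LinearMap.zero_apply, Basis.coord_apply]
          exact coord_zero v (d := fun i => (d i : K)) G.app (eig_shift hs (G.app j)) (key j)
        have h3 : v'.coord a ∘ₗ ρ z = 0 := by
          refine v'.ext fun j => ?_
          rw [LinearMap.comp_apply, LinearMap.zero_apply, Basis.coord_apply]
          exact coord_zero v' (d := fun i => (d i : K)) hx₀' (eig_shift hs' (hx₀' j)) (key j)
        rw [← LinearMap.comp_apply, ← LinearMap.comp_apply, h2, h3, LinearMap.zero_apply,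
          LinearMap.zero_apply]
    exact fun w hw => h1 hw
  -- the kernels
  have hK' : ∀ u : V', ((0 : V), u) ∈ N → u = 0 := by
    rcases hirr' (N.comap (LinearMap.inr K V V')) (fun x hx u hu => by
        have h2 := hNg _ hu x hx
        change ((0 : V), ρ x u) ∈ N
        have h3 : x ((LinearMap.inr K V V') u).1 = 0 := map_zero x
        rw [h3] at h2
        exact h2) with h1 | h1
    · intro u hu
      have h2 : u ∈ N.comap (LinearMap.inr K V V') := hu
      rw [h1] at h2
      exact h2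
    · exfalso
      have h2 : v' a ∈ N.comap (LinearMap.inr K V V') := by
        rw [h1]
        exact Submodule.mem_top
      have h3 := hco _ h2
      change v.coord a 0 = v'.coord a (v' a) at h3
      rw [Basis.coord_apply v', Basis.repr_self, Finsupp.single_eq_same, map_zero] at h3
      exact zero_ne_one h3
  have hK : ∀ u : V, (u, (0 : V')) ∈ N → u = 0 := by
    rcases T.irr (N.comap (LinearMap.inl K V V')) (fun x hx u hu => by
        have h2 := hNg _ hu x hx
        change (x u, (0 : V')) ∈ N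
        have h3 : ρ x ((LinearMap.inl K V V') u).2 = 0 := map_zero (ρ x)
        rw [h3] at h2
        exact h2) with h1 | h1
    · intro u hu
      have h2 : u ∈ N.comap (LinearMap.inl K V V') := hu
      rw [h1] at h2
      exact h2
    · exfalso
      have h2 : v a ∈ N.comap (LinearMap.inl K V V') := by
        rw [h1]
        exact Submodule.mem_top
      have h3 := hco _ h2
      change v.coord a (v a) = v'.coord a 0 at h3
      rw [Basis.coord_apply v, Basis.repr_self, Finsupp.single_eq_same, map_zero] at h3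
      exact one_ne_zero h3
  have hS : ∀ w : V, ∃ u : V', (w, u) ∈ N := by
    rcases T.irr (N.map (LinearMap.fst K V V')) (by
        rintro x hx _ ⟨w, hw, rfl⟩
        exact ⟨_, hNg w hw x hx, rfl⟩) with h1 | h1
    · exfalso
      have h2 : v a ∈ N.map (LinearMap.fst K V V') := ⟨_, hNa, rfl⟩
      rw [h1, Submodule.mem_bot] at h2
      exact v.ne_zero a h2
    · intro w
      have h2 : w ∈ N.map (LinearMap.fst K V V') := by
        rw [h1]
        exact Submodule.mem_top
      obtain ⟨y, hy, rfl⟩ := h2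
      exact ⟨y.2, hy⟩
  -- the linear map
  let f : N →ₗ[K] V := LinearMap.fst K V V' ∘ₗ N.subtype
  have hf : Function.Bijective f := by
    constructor
    · rw [← LinearMap.ker_eq_bot, LinearMap.ker_eq_bot']
      rintro ⟨⟨y1, y2⟩, hy⟩ h1
      have h2 : y1 = 0 := h1
      subst h2
      have h3 := hK' y2 hy
      subst h3
      rfl
    · intro w
      obtain ⟨u, hu⟩ := hS w
      exact ⟨⟨(w, u), hu⟩, rfl⟩
  let e := LinearEquiv.ofBijective f hf
  let θ : V →ₗ[K] V' := LinearMap.snd K V V' ∘ₗ N.subtype ∘ₗ e.symm.toLinearMap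
  have hθ : ∀ w : V, (w, θ w) ∈ N := by
    intro w
    have h1 : f (e.symm w) = w := e.apply_symm_apply w
    have h2 : ((e.symm w : N) : V × V').1 = w := h1
    have h3 : (w, θ w) = ((e.symm w : N) : V × V') := Prod.ext h2.symm rfl
    rw [h3]
    exact (e.symm w).2
  have hu : ∀ w : V, ∀ u, (w, u) ∈ N → u = θ w := by
    intro w u h1
    have h2 := Submodule.sub_mem _ h1 (hθ w)
    rw [Prod.mk_sub_mk, sub_self] at h2
    exact sub_eq_zero.1 (hK' _ h2)
  refine ⟨θ, ?_, fun x hx w => (hu (x w) _ (hNg _ (hθ w) x hx)).symm⟩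
  rw [← LinearMap.ker_eq_bot, LinearMap.ker_eq_bot']
  intro w hw0
  refine hK w ?_
  rw [← hw0]
  exact hθ w

end Pool.Agent.FQA
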