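import Pool.Agent.FQA.Sl
import Pool.Agent.FQA.So
import Pool.Agent.FQA.Four
import Pool.Agent.FQA.Six

/-!
# The theorems for the three kinds (PACKAGE FX18, assembly)

`TD.full_of_conj_nf`. Proof. `e ≠ 0` and `e ≠ 1`: `u * e * u⁻¹ = 1 - e` (if `e = 0` then `1 = 0`; if
`e = 1` then `1 = 0`), and `2 * rk e = finrank K V` by traces (`trace (u * e * u⁻¹) = trace e`,
`trace_idem`), see the proof of `TD.sl_of_conj` in
`Pool/Agent/FQA/Sl.lean`. If `finrank K V = 2` then `rk e = 1` and `TD.full_of_proj`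
(`Pool/Agent/FQA/Ni.lean`). If `finrank K V = 4` then `rk e = 2` and `TD.full_four`
(`Pool/Agent/FQA/Four.lean`). Otherwise
`finrank K V ≠ 2 ^ m` for all `m` (`m = 0`: the dimension is even; `m = 1, 2`: excluded; `m ≥ 3`:
`hn`) and `TD.sl_of_conj` with `form_zero T.irr hnf` (`Pool/Agent/FQA/Ni.lean`).

`TD.pow_sym`. `2 * rk e = finrank K V` by `SmallRank.two_rk` (`Pool/Agent/SmallRank/Full.lean`), so
the dimension is not
`2 ^ 0`. If it is `2` then `rk e = 1`, `exists_up_irr` (`Pool/Agent/FQA/Ni.lean`; `e ≠ 0`, `e ≠ 1`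
by `hmul`, `hnd` and `Nontrivial V`) gives `0 ≠ x ∈ up g e`
with `x * x = 0`, `rk x = 1`, against `rk_up_ne_one` (`Pool/Agent/FQA/So.lean`). So `finrank K V ≠ 2
^ m` for all `m` by `hn`.

`TD.full_of_conj_sym`. `TD.pow_sym` and `TD.so_of_conj`.

`TD.exists_small`. If `ψ'` is alternating: `exists_tw` (`Pool/Agent/FQA/Spread.lean`) for `T'`; if
`ψ'` is symmetric: `exists_twS` (`Pool/Agent/FQA/TwS.lean`) for `T'`
(`hmult'` is `T'.hmult v' hv'`). So there are `i ≠ j` with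
`tw i j ∈ Lv t' v' = Lv t v` (`I` is not empty, `v.index_nonempty`), hence `τ ∈ t` with
`τ (v k) = tw i j k • v k`, and `rk_tw`, `ns_tw`.

`TD.spread_sym`. `TD.exists_small` gives `τ`. `TD.pow_sym`, `T.gr` gives `G : Gr g e` (see
`TD.so_of_conj`). `2 * rk e = finrank K V`, so the dimension is even and not `2, 4, 8`: it is `6`
(`skew_of_six`, `Pool/Agent/FQA/Six.lean`) or larger than `8`
(`so_of_small`, `Pool/Agent/FQA/So.lean`).

`TD.spread_alt`. If `finrank K V % 4 = 2` or `finrank K V = 4` then `TD.skew_of_mod4`, otherwise `Gr g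
e` (`TD.gr_or`, both in `Pool/Agent/FQA/Full.lean`) and `full_of_tw` with the `τ` of
`TD.exists_small`
(`Pool/Agent/FQA/Spread.lean`).
-/

set_option autoImplicit false
set_option linter.unusedSectionVars false

namespace Pool.Agent.FQA

open Module Pool.Agent.SmallRank
open Pool.Agent.NumRank (Lv)
open Pool.Agent.PrimePow.CC (Rt)

variable {K V : Type*} [Field K] [CharZero K] [IsAlgClosed K] [AddCommGroup V] [Module K V]
  [FiniteDimensional K V] {ψ : V →ₗ[K] V →ₗ[K] K}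

/-- An idempotent of multiplier one is not zero or one. -/
private theorem kd_ne [Nontrivial V] (hnd : ∀ x, (∀ y, ψ x y = 0) → x = 0) {e : End K V}
    (hmul : ∀ u w, ψ (e u) w + ψ u (e w) = ψ u w) : e ≠ 0 ∧ e ≠ 1 := by
  obtain ⟨a, ha⟩ := exists_ne (0 : V)
  constructor
  · rintro rfl
    refine ha (hnd a fun b => ?_)
    have h1 := hmul a b
    simpa using h1.symm
  · rintro rfl
    refine ha (hnd a fun b => ?_)
    have h1 := hmul a b
    rw [Module.End.one_apply, Module.End.one_apply] at h1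
    linear_combination h1

variable {g t : Submodule K (End K V)} (T : TD g t) [Nontrivial V] {I : Type} [Fintype I]
  [DecidableEq I] (v : Basis I K V) (hv : ∀ x ∈ t, ∀ i, ∃ c : K, x (v i) = c • v i)
include T

theorem TD.pow_sym (hsymm : ∀ u w, ψ u w = ψ w u) (hnd : ∀ x, (∀ y, ψ x y = 0) → x = 0)
    (hgsp : ∀ x ∈ g, ∃ κ : K, ∀ u w, ψ (x u) w + ψ u (x w) = κ * ψ u w)
    (hn : ∀ m : ℕ, 2 ≤ m → finrank K V ≠ 2 ^ m) {e : End K V} (he : e ∈ g) (hee : e * e = e)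
    (hmul : ∀ u w, ψ (e u) w + ψ u (e w) = ψ u w) (m : ℕ) : finrank K V ≠ 2 ^ m := by
  intro h
  have hbal := two_rk hnd hee hmul
  rcases m with _ | _ | m
  · rw [pow_zero] at h
    omega
  · rw [zero_add, pow_one] at h
    obtain ⟨h0, h1⟩ := kd_ne hnd hmul
    obtain ⟨x, hx, hx0⟩ := exists_up_irr T.lie T.irr he hee h0 h1
    obtain ⟨hxg, hex, hxe⟩ := hx
    have hxx : x * x = 0 := by
      nth_rewrite 2 [← hex]
      rw [← mul_assoc, hxe, zero_mul]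
    have h2 : rk x ≤ rk e := by
      rw [← hex]
      exact rk_mul_left _ _
    have h3 : 0 < rk x := rk_pos hx0
    exact rk_up_ne_one hsymm hnd hgsp hxg hxx (by omega)
  · exact hn (m + 2) (by omega) h

include hv

theorem TD.full_of_conj_nf (hcn : ∀ h h', Rt (Lv t v) h → Rt (Lv t v) h' → Cn (Lv t v) h h')
    (hnf : ∀ φ : V →ₗ[K] V →ₗ[K] K, (∀ x, (∀ y, φ x y = 0) → x = 0) →
      ¬ ∀ x ∈ g, ∃ κ : K, ∀ a b, φ (x a) b + φ a (x b) = κ * φ a b)
    (hn : ∀ m : ℕ, 3 ≤ m → finrank K V ≠ 2 ^ m) {e : End K V} (he : e ∈ t) (hee : e * e = e)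
    {u : (End K V)ˣ} (hu : u ∈ FQ.expG K g)
    (hue : (u : End K V) * e * ((u⁻¹ : (End K V)ˣ) : End K V) = 1 - e) (D : End K V) : D ∈ g := by
  have h0 : e ≠ 0 := by
    rintro rfl
    rw [mul_zero, zero_mul, sub_zero] at hue
    exact zero_ne_one hue
  have h1 : e ≠ 1 := by
    rintro rfl
    rw [mul_one, Units.mul_inv, sub_self] at hue
    exact one_ne_zero hue
  have htr : LinearMap.trace K V e = LinearMap.trace K V (1 - e) := by
    rw [← hue, LinearMap.trace_mul_comm, ← mul_assoc, Units.inv_mul, one_mul]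
  have hid : (1 - e) * (1 - e) = 1 - e := by
    rw [mul_sub, mul_one, sub_mul, one_mul, hee, sub_self, sub_zero]
  rw [trace_idem hee, trace_idem hid] at htr
  have hrk : rk e = rk (1 - e) := by exact_mod_cast htr
  have hadd := rk_compl hee
  have hpos : 0 < finrank K V := finrank_pos
  by_cases d2 : finrank K V = 2
  · exact T.full_of_proj hnf (T.le he) hee h1 (by omega) D
  by_cases d4 : finrank K V = 4
  · exact T.full_four hnf d4 (T.le he) hee (by omega) D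
  refine T.sl_of_conj v hv hcn (form_zero T.irr hnf) (fun m h => ?_) he hee hu hue D
  rcases m with _ | _ | _ | m
  · rw [pow_zero] at h
    omega
  · exact d2 (by rw [h]; rfl)
  · exact d4 (by rw [h]; rfl)
  · exact hn (m + 3) (by omega) h

theorem TD.full_of_conj_sym (hcn : ∀ h h', Rt (Lv t v) h → Rt (Lv t v) h' → Cn (Lv t v) h h')
    (hsymm : ∀ u w, ψ u w = ψ w u) (hnd : ∀ x, (∀ y, ψ x y = 0) → x = 0)
    (hgsp : ∀ x ∈ g, ∃ κ : K, ∀ u w, ψ (x u) w + ψ u (x w) = κ * ψ u w)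
    (hn : ∀ m : ℕ, 2 ≤ m → finrank K V ≠ 2 ^ m) {e : End K V} (he : e ∈ t) (hee : e * e = e)
    (hmul : ∀ u w, ψ (e u) w + ψ u (e w) = ψ u w)
    {u : (End K V)ˣ} (hu : u ∈ FQ.expG K g)
    (hue : (u : End K V) * e * ((u⁻¹ : (End K V)ˣ) : End K V) = 1 - e) {D : End K V}
    (hD : ∀ a b, ψ (D a) b + ψ a (D b) = 0) : D ∈ g := by
  exact (T.so_of_conj v hv hcn hsymm hnd hgsp
    (T.pow_sym hsymm hnd hgsp hn (T.le he) hee hmul) he hee hmul hu hue).2 D hD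

theorem TD.exists_small {V' : Type*} [AddCommGroup V'] [Module K V'] [FiniteDimensional K V']
    {g' t' : Submodule K (End K V')} (T' : TD g' t') (v' : Basis I K V')
    (hv' : ∀ x ∈ t', ∀ i, ∃ c : K, x (v' i) = c • v' i) (hL : Lv t v = Lv t' v')
    {ψ' : V' →ₗ[K] V' →ₗ[K] K} (hform' : (∀ x, ψ' x x = 0) ∨ ∀ u w, ψ' u w = ψ' w u)
    (hnd' : ∀ x, (∀ y, ψ' x y = 0) → x = 0)
    (hgsp' : ∀ x ∈ g', ∃ κ : K, ∀ u w, ψ' (x u) w + ψ' u (x w) = κ * ψ' u w)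
    {e' : End K V'} (he' : e' ∈ t') (hee' : e' * e' = e')
    (hmul' : ∀ u w, ψ' (e' u) w + ψ' u (e' w) = ψ' u w)
    (hfull : ∀ D : End K V', (∀ a b, ψ' (D a) b + ψ' a (D b) = 0) → D ∈ g') :
    ∃ τ ∈ t, (∀ c : K, τ ≠ c • 1) ∧ rk τ ≤ 2 := by
  obtain ⟨i⟩ : Nonempty I := v.index_nonempty
  have hV' : Nontrivial V' := ⟨⟨v' i, 0, v'.ne_zero i⟩⟩
  have h1 : ∃ j, i ≠ j ∧ tw i j ∈ Lv t' v' := by
    rcases hform' with halt' | hsymm'
    · exact exists_tw T'.toCartan v' hv' (T'.hmult v' hv') halt' hnd' hgsp' hfull i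
    · exact exists_twS T'.toCartan v' hv' (T'.hmult v' hv') hsymm' hnd' hgsp' hfull he' hee' hmul' i
  obtain ⟨j, hij, hj⟩ := h1
  rw [← hL] at hj
  obtain ⟨-, τ, hτ, hf⟩ := hj
  exact ⟨τ, hτ, ns_tw v hij hf, rk_tw v hf⟩

theorem TD.spread_sym (hcn : ∀ h h', Rt (Lv t v) h → Rt (Lv t v) h' → Cn (Lv t v) h h')
    (hsymm : ∀ u w, ψ u w = ψ w u) (hnd : ∀ x, (∀ y, ψ x y = 0) → x = 0)
    (hgsp : ∀ x ∈ g, ∃ κ : K, ∀ u w, ψ (x u) w + ψ u (x w) = κ * ψ u w)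
    (hn : ∀ m : ℕ, 2 ≤ m → finrank K V ≠ 2 ^ m) {e : End K V} (he : e ∈ t) (hee : e * e = e)
    (hmul : ∀ u w, ψ (e u) w + ψ u (e w) = ψ u w)
    {V' : Type*} [AddCommGroup V'] [Module K V'] [FiniteDimensional K V']
    {g' t' : Submodule K (End K V')} (T' : TD g' t') (v' : Basis I K V')
    (hv' : ∀ x ∈ t', ∀ i, ∃ c : K, x (v' i) = c • v' i) (hL : Lv t v = Lv t' v')
    {ψ' : V' →ₗ[K] V' →ₗ[K] K} (hform' : (∀ x, ψ' x x = 0) ∨ ∀ u w, ψ' u w = ψ' w u)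
    (hnd' : ∀ x, (∀ y, ψ' x y = 0) → x = 0)
    (hgsp' : ∀ x ∈ g', ∃ κ : K, ∀ u w, ψ' (x u) w + ψ' u (x w) = κ * ψ' u w)
    {e' : End K V'} (he' : e' ∈ t') (hee' : e' * e' = e')
    (hmul' : ∀ u w, ψ' (e' u) w + ψ' u (e' w) = ψ' u w)
    (hfull : ∀ D : End K V', (∀ a b, ψ' (D a) b + ψ' a (D b) = 0) → D ∈ g') {D : End K V}
    (hD : ∀ a b, ψ (D a) b + ψ a (D b) = 0) : D ∈ g := by
  obtain ⟨h0, h1⟩ := kd_ne hnd hmul
  have hpow := T.pow_sym hsymm hnd hgsp hn (T.le he) hee hmul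
  have G := T.gr v hv hcn hpow (T.le he) hee h0 h1
  obtain ⟨τ, hτ, hns, hrk⟩ := T.exists_small v hv T' v' hv' hL hform' hnd' hgsp' he' hee' hmul' hfull
  have hbal := two_rk hnd hee hmul
  have hpos : 0 < finrank K V := finrank_pos
  by_cases h6 : finrank K V = 6
  · exact skew_of_six hsymm hnd G hgsp hmul h6 hD
  have d1 := hpow 1
  have d2 := hpow 2
  have d3 := hpow 3
  norm_num at d1 d2 d3
  exact so_of_small hsymm hnd G hgsp hmul (by omega) (T.le hτ) hns hrk hD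

theorem TD.spread_alt (hcn : ∀ h h', Rt (Lv t v) h → Rt (Lv t v) h' → Cn (Lv t v) h h')
    (halt : ∀ x, ψ x x = 0) (hnd : ∀ x, (∀ y, ψ x y = 0) → x = 0)
    (hgsp : ∀ x ∈ g, ∃ κ : K, ∀ u w, ψ (x u) w + ψ u (x w) = κ * ψ u w)
    (hn : ∀ m : ℕ, 3 ≤ m → finrank K V ≠ 2 ^ m) {e : End K V} (he : e ∈ t) (hee : e * e = e)
    (hmul : ∀ u w, ψ (e u) w + ψ u (e w) = ψ u w)
    {V' : Type*} [AddCommGroup V'] [Module K V'] [FiniteDimensional K V']
    {g' t' : Submodule K (End K V')} (T' : TD g' t') (v' : Basis I K V')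
    (hv' : ∀ x ∈ t', ∀ i, ∃ c : K, x (v' i) = c • v' i) (hL : Lv t v = Lv t' v')
    {ψ' : V' →ₗ[K] V' →ₗ[K] K} (hform' : (∀ x, ψ' x x = 0) ∨ ∀ u w, ψ' u w = ψ' w u)
    (hnd' : ∀ x, (∀ y, ψ' x y = 0) → x = 0)
    (hgsp' : ∀ x ∈ g', ∃ κ : K, ∀ u w, ψ' (x u) w + ψ' u (x w) = κ * ψ' u w)
    {e' : End K V'} (he' : e' ∈ t') (hee' : e' * e' = e')
    (hmul' : ∀ u w, ψ' (e' u) w + ψ' u (e' w) = ψ' u w)
    (hfull : ∀ D : End K V', (∀ a b, ψ' (D a) b + ψ' a (D b) = 0) → D ∈ g') {D : End K V}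
    (hD : ∀ a b, ψ (D a) b + ψ a (D b) = 0) : D ∈ g := by
  rcases T.gr_or halt hnd hgsp v hv hcn hn he hee hmul with h4 | G
  · exact T.skew_of_mod4 halt hnd hgsp h4 hD
  · obtain ⟨τ, hτ, hns, hrk⟩ :=
      T.exists_small v hv T' v' hv' hL hform' hnd' hgsp' he' hee' hmul' hfull
    exact full_of_tw G halt hnd hgsp hmul (T.le hτ) hns hrk hD

end Pool.Agent.FQA
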