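import Pool.Agent.FQA.Comb

/-!
# Roots which are not orthogonal to two orthogonal sets of roots

If the reflections in two orthogonal sets `A`, `B` of roots are transitive on the points and some
root is neither orthogonal to `A` nor to `B` then there is a root without zeros. So if the roots are
connected then the number of points is a power of two.
-/

set_option autoImplicit false
set_option linter.unusedSectionVars false

namespace Pool.Agent.FQA

open Pool.Agent.PrimePow.CC (Rf Rt Lat dot_pos)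
open Pool.Agent.NumRank

variable {Ω : Type*} [Fintype Ω] {L : AddSubgroup (Ω → ℚ)} {f h k : Ω → ℚ}
  {A B : (Ω → ℚ) → Prop}

/-- Orthogonal projections exist. -/
theorem exists_proj (S : Submodule ℚ (Ω → ℚ)) (f : Ω → ℚ) :
    ∃ g ∈ S, ∀ h ∈ S, h ⬝ᵥ (f - g) = 0 := by
  classical
  let T : S →ₗ[ℚ] Module.Dual ℚ S :=
    { toFun := fun g =>
        { toFun := fun h => (h : Ω → ℚ) ⬝ᵥ (g : Ω → ℚ)
          map_add' := fun a b => by
            rw [Submodule.coe_add, add_dotProduct]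
          map_smul' := fun c a => by
            rw [Submodule.coe_smul, smul_dotProduct, RingHom.id_apply] }
      map_add' := fun a b => by
        ext h
        change (h : Ω → ℚ) ⬝ᵥ ((a + b : S) : Ω → ℚ) = _
        rw [Submodule.coe_add, dotProduct_add]
        rfl
      map_smul' := fun c a => by
        ext h
        change (h : Ω → ℚ) ⬝ᵥ ((c • a : S) : Ω → ℚ) = _
        rw [Submodule.coe_smul, dotProduct_smul]
        rfl }
  have hinj : Function.Injective T := by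
    rw [injective_iff_map_eq_zero]
    intro g hg
    have h1 : (g : Ω → ℚ) ⬝ᵥ (g : Ω → ℚ) = 0 := LinearMap.congr_fun hg g
    by_contra h2
    have h3 : (g : Ω → ℚ) ≠ 0 := fun h4 => h2 (Subtype.ext h4)
    exact (dot_pos h3).ne' h1
  have hsurj : Function.Surjective T :=
    (LinearMap.injective_iff_surjective_of_finrank_eq_finrank
      (Subspace.dual_finrank_eq (K := ℚ) (V := S)).symm).1 hinj
  obtain ⟨g, hg⟩ := hsurj
    { toFun := fun h => (h : Ω → ℚ) ⬝ᵥ f
      map_add' := fun a b => by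
        rw [Submodule.coe_add, add_dotProduct]
      map_smul' := fun c a => by
        rw [Submodule.coe_smul, smul_dotProduct, RingHom.id_apply] }
  refine ⟨g, g.2, fun h hh => ?_⟩
  have h1 : h ⬝ᵥ (g : Ω → ℚ) = h ⬝ᵥ f := LinearMap.congr_fun hg ⟨h, hh⟩
  rw [dotProduct_sub, h1, sub_self]

/-- The rational span of the lattice. -/
def LQ (L : AddSubgroup (Ω → ℚ)) : Submodule ℚ (Ω → ℚ) := Submodule.span ℚ (L : Set (Ω → ℚ))

/-- The functions in the rational span with integral values are in the lattice. -/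
def Sat (L : AddSubgroup (Ω → ℚ)) : Prop :=
  ∀ f ∈ LQ L, (∀ ω, ∃ z : ℤ, f ω = z) → f ∈ L

theorem mem_LQ (hf : f ∈ L) : f ∈ LQ L := Submodule.subset_span hf

/-- Reflections of the functions in the rational span. -/
theorem move_LQ {π : Equiv.Perm Ω} (hπ : ∀ f ∈ L, ∀ ω, f (π ω) = f ω - cf f h * h ω)
    (hf : f ∈ LQ L) (ω : Ω) : f (π ω) = f ω - cf f h * h ω := by
  unfold LQ at hf
  induction hf using Submodule.span_induction with
  | mem f hf => exact hπ f hf ω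
  | zero =>
    have h0 : cf (0 : Ω → ℚ) h = 0 := by
      unfold cf
      rw [dotProduct_zero, mul_zero, zero_div]
    rw [h0]
    simp
  | add f g _ _ hf hg =>
    rw [Pi.add_apply, Pi.add_apply, hf, hg, cf_add]
    ring
  | smul c f _ hf =>
    rw [Pi.smul_apply, Pi.smul_apply, hf, cf_smul, smul_eq_mul, smul_eq_mul]
    ring

theorem Rf_move {π : Equiv.Perm Ω} (H : Rf L h π) : ∀ f ∈ L, ∀ ω, f (π ω) = f ω - cf f h * h ω := by
  intro f hf ω
  obtain ⟨a, ha, ha'⟩ := H.coef hf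
  have h1 : cf f h = a := by
    unfold cf
    rw [← ha']
    field_simp [H.dot_self_pos.ne']
  rw [ha, h1]

/-- Two orthogonal sets of roots with transitive reflections. -/
structure Dec (L : AddSubgroup (Ω → ℚ)) (A B : (Ω → ℚ) → Prop) : Prop where
  ra : ∀ h, A h → Rt L h
  rb : ∀ h, B h → Rt L h
  orth : ∀ h k, A h → B k → h ⬝ᵥ k = 0
  tr : ∀ X : Set Ω, X.Nonempty → (∀ h π, (A h ∨ B h) → Rf L h π → ∀ ω ∈ X, π ω ∈ X) →
    X = Set.univ

namespace Dec

variable (D : Dec L A B)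
include D

theorem symm : Dec L B A where
  ra := D.rb
  rb := D.ra
  orth := fun h k hh hk => by rw [dotProduct_comm]; exact D.orth k h hk hh
  tr := fun X hX h => D.tr X hX fun a π ha => h a π ha.symm

theorem span_le : Submodule.span ℚ {h | A h} ≤ LQ L := by
  rw [Submodule.span_le]
  intro h hh
  exact mem_LQ (Rt_mem (D.ra h hh))

theorem orth_span (hf : f ∈ Submodule.span ℚ {h | A h}) (hk : B k) : k ⬝ᵥ f = 0 := by
  induction hf using Submodule.span_induction with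
  | mem f hf =>
    rw [dotProduct_comm]
    exact D.orth f k hf hk
  | zero => exact dotProduct_zero _
  | add f g _ _ hf hg => rw [dotProduct_add, hf, hg, add_zero]
  | smul c f _ hf => rw [dotProduct_smul, hf, smul_zero]

theorem span_perp (hf : f ∈ Submodule.span ℚ {h | A h}) {g : Ω → ℚ}
    (hg : ∀ h, A h → h ⬝ᵥ g = 0) : f ⬝ᵥ g = 0 := by
  induction hf using Submodule.span_induction with
  | mem f hf => exact hg f hf
  | zero => exact zero_dotProduct _
  | add f g _ _ hf hg => rw [add_dotProduct, hf, hg, add_zero]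
  | smul c f _ hf => rw [smul_dotProduct, hf, smul_zero]

/-- The points can be mixed. -/
theorem mix (ω ω' : Ω) : ∃ ω'', (∀ f ∈ Submodule.span ℚ {h | A h}, f ω'' = f ω) ∧
    ∀ f ∈ LQ L, (∀ h, A h → h ⬝ᵥ f = 0) → f ω'' = f ω' := by
  have h1 := D.tr {ω' | ∃ ω'', (∀ f ∈ Submodule.span ℚ {h | A h}, f ω'' = f ω) ∧
    ∀ f ∈ LQ L, (∀ h, A h → h ⬝ᵥ f = 0) → f ω'' = f ω'} ⟨ω, ω, fun _ _ => rfl, fun _ _ _ => rfl⟩ ?_
  · have h2 : ω' ∈ {ω' | ∃ ω'', (∀ f ∈ Submodule.span ℚ {h | A h}, f ω'' = f ω) ∧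
      ∀ f ∈ LQ L, (∀ h, A h → h ⬝ᵥ f = 0) → f ω'' = f ω'} := h1 ▸ Set.mem_univ ω'
    exact h2
  · rintro h π hh H ω₁ ⟨ω₂, h2, h3⟩
    have hπ := Rf_move H
    rcases hh with hh | hh
    · refine ⟨ω₂, h2, fun f hf hfA => ?_⟩
      rw [h3 f hf hfA, move_LQ hπ hf]
      have h4 : cf f h = 0 := by
        rw [cf_eq_zero H.dot_self_pos.ne']
        exact hfA h hh
      rw [h4, zero_mul, sub_zero]
    · refine ⟨π ω₂, fun f hf => ?_, fun f hf hfA => ?_⟩
      · rw [move_LQ hπ (D.span_le hf)]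
        have h4 : cf f h = 0 := by
          rw [cf_eq_zero H.dot_self_pos.ne']
          exact D.orth_span hf hh
        rw [h4, zero_mul, sub_zero, h2 f hf]
      · rw [move_LQ hπ hf, move_LQ hπ hf, h3 f hf hfA,
          h3 h (mem_LQ H.mem) fun a ha => D.orth a h ha hh]

/-- A function in the span which is orthogonal to both sets is constant. -/
theorem const (hf : f ∈ LQ L) (hA : ∀ h, A h → h ⬝ᵥ f = 0) (hB : ∀ h, B h → h ⬝ᵥ f = 0)
    (ω ω' : Ω) : f ω = f ω' := by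
  have h1 := D.tr {x | f x = f ω} ⟨ω, rfl⟩ (fun h π hh H x hx => by
    rw [Set.mem_ofPred_eq] at hx ⊢
    have h4 : cf f h = 0 := by
      rw [cf_eq_zero H.dot_self_pos.ne']
      rcases hh with hh | hh
      · exact hA h hh
      · exact hB h hh
    rw [move_LQ (Rf_move H) hf, h4, zero_mul, sub_zero, hx])
  have h2 : ω' ∈ {x | f x = f ω} := h1 ▸ Set.mem_univ ω'
  exact h2.symm

/-- **A root which is not orthogonal to `A` and not orthogonal to `B` gives a root without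
zeros.** -/
theorem full (hL : Lat L) (hsat : Sat L) (H : Rt L h) (ha : ∃ a, A a ∧ a ⬝ᵥ h ≠ 0)
    (hb : ∃ b, B b ∧ b ⬝ᵥ h ≠ 0) : ∃ k, Fl L k := by
  obtain ⟨a, haA, hah⟩ := ha
  obtain ⟨b, hbB, hbh⟩ := hb
  obtain ⟨h1, h1S, h1p⟩ := exists_proj (Submodule.span ℚ {h | A h}) h
  obtain ⟨h2, rfl⟩ : ∃ h2, h = h1 + h2 := ⟨h - h1, by abel⟩
  rw [add_sub_cancel_left] at h1p
  have h2p : ∀ x, A x → x ⬝ᵥ h2 = 0 := fun x hx => h1p x (Submodule.subset_span hx)
  have h1L : h1 ∈ LQ L := D.span_le h1S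
  have h2L : h2 ∈ LQ L := by
    have e1 := (LQ L).sub_mem (mem_LQ (Rt_mem H)) h1L
    rwa [add_sub_cancel_left] at e1
  have h12 : h1 ⬝ᵥ h2 = 0 := h1p h1 h1S
  have hh1 : h1 ≠ 0 := by
    rintro rfl
    apply hah
    rw [zero_add, h2p a haA]
  have hh2 : h2 ≠ 0 := by
    rintro rfl
    apply hbh
    rw [add_zero, D.orth_span h1S hbB]
  have hp1 := dot_pos hh1
  have hp2 := dot_pos hh2
  have hhh : (h1 + h2) ⬝ᵥ (h1 + h2) = h1 ⬝ᵥ h1 + h2 ⬝ᵥ h2 := by
    rw [add_dotProduct, dotProduct_add, dotProduct_add, dotProduct_comm h2 h1, h12]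
    ring
  have hc1 : cf h1 (h1 + h2) * (h1 ⬝ᵥ h1 + h2 ⬝ᵥ h2) = 2 * (h1 ⬝ᵥ h1) := by
    have e1 := cf_mul (f := h1) (Rt_sq_ne H)
    rw [hhh] at e1
    rw [e1, add_dotProduct, dotProduct_comm h2 h1, h12, add_zero]
  have hc2 : cf h2 (h1 + h2) * (h1 ⬝ᵥ h1 + h2 ⬝ᵥ h2) = 2 * (h2 ⬝ᵥ h2) := by
    have e1 := cf_mul (f := h2) (Rt_sq_ne H)
    rw [hhh] at e1
    rw [e1, add_dotProduct, h12, zero_add]
  set p := cf h1 (h1 + h2) with hp
  set q := cf h2 (h1 + h2) with hq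
  have hpq : p + q = 2 := by
    have e1 : (p + q) * (h1 ⬝ᵥ h1 + h2 ⬝ᵥ h2) = 2 * (h1 ⬝ᵥ h1 + h2 ⬝ᵥ h2) := by
      rw [add_mul, hc1, hc2]
      ring
    exact mul_right_cancel₀ (by linarith) e1
  have hp0 : 0 < p := by
    by_contra hcon
    push Not at hcon
    have e1 : p * (h1 ⬝ᵥ h1 + h2 ⬝ᵥ h2) ≤ 0 :=
      mul_nonpos_of_nonpos_of_nonneg hcon (by linarith)
    linarith
  have hq0 : 0 < q := by
    by_contra hcon
    push Not at hcon
    have e1 : q * (h1 ⬝ᵥ h1 + h2 ⬝ᵥ h2) ≤ 0 :=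
      mul_nonpos_of_nonpos_of_nonneg hcon (by linarith)
    linarith
  obtain ⟨π, hπ, Hπ⟩ := Rt_move H
  -- a point where the root is `-1`
  obtain ⟨ω, hω⟩ : ∃ ω, (h1 + h2) ω = -1 := by
    obtain ⟨ω', hω'⟩ := Rt_one H
    exact ⟨π ω', by rw [Hπ.neg, hω']⟩
  have m1 := move_LQ hπ h1L ω
  have m2 := move_LQ hπ h2L ω
  rw [hω, ← hp] at m1
  rw [hω, ← hq] at m2
  have hsum : h1 ω + h2 ω = -1 := hω
  have hp1' : p = 1 := by
    obtain ⟨ω'', e1, e2⟩ := D.mix ω (π ω)
    have e3 := Rt_val H ω''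
    rw [Pi.add_apply, e1 h1 h1S, e2 h2 h2L h2p, m2] at e3
    rcases e3 with e3 | e3 | e3 <;> linarith
  have hq1 : q = 1 := by linarith
  rw [hp1'] at m1
  rw [hq1] at m2
  -- the values of `h1`
  have hval : ∀ ω', h1 ω' = h1 ω ∨ h1 ω' = h1 ω + 1 := by
    intro ω'
    obtain ⟨ω₁, e1, e2⟩ := D.mix ω' ω
    obtain ⟨ω₂, e3, e4⟩ := D.mix ω' (π ω)
    have e5 := Rt_val H ω₁
    have e6 := Rt_val H ω₂
    rw [Pi.add_apply, e1 h1 h1S, e2 h2 h2L h2p] at e5
    rw [Pi.add_apply, e3 h1 h1S, e4 h2 h2L h2p, m2] at e6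
    rcases e5 with e5 | e5 | e5
    · left; linarith
    · right; linarith
    · rcases e6 with e6 | e6 | e6
      · linarith
      · left; linarith
      · right; linarith
  obtain ⟨k, hk⟩ : ∃ k : Ω → ℚ, k = (2 : ℚ) • h1 - (2 * h1 ω + 1) • (fun _ => (1 : ℚ)) := ⟨_, rfl⟩
  have hkv : ∀ ω', k ω' = 2 * h1 ω' - (2 * h1 ω + 1) := by
    intro ω'
    rw [hk]
    simp
  have hk1 : ∀ ω', k ω' = 1 ∨ k ω' = -1 := by
    intro ω'
    rw [hkv]
    rcases hval ω' with e1 | e1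
    · right; rw [e1]; ring
    · left; rw [e1]; ring
  have hkL : k ∈ L := by
    refine hsat k ?_ fun ω' => ?_
    · rw [hk]
      exact (LQ L).sub_mem ((LQ L).smul_mem _ h1L) ((LQ L).smul_mem _ (mem_LQ hL.one))
    · rcases hk1 ω' with e1 | e1
      · exact ⟨1, by rw [e1]; norm_num⟩
      · exact ⟨-1, by rw [e1]; norm_num⟩
  -- the reflection
  have hs : ∀ ω', ∃ ω₀, (∀ f ∈ Submodule.span ℚ {h | A h},
      f ω₀ = f ω' - cf f (h1 + h2) * k ω') ∧
      ∀ f ∈ LQ L, (∀ h, A h → h ⬝ᵥ f = 0) → f ω₀ = f ω' := by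
    intro ω'
    obtain ⟨ω₂, e1, e2⟩ : ∃ ω₂, (∀ f ∈ Submodule.span ℚ {h | A h}, f ω₂ = f ω') ∧
        (h1 + h2) ω₂ = k ω' := by
      rcases hval ω' with e0 | e0
      · obtain ⟨ω₂, e1, e2⟩ := D.mix ω' ω
        refine ⟨ω₂, e1, ?_⟩
        rw [Pi.add_apply, e1 h1 h1S, e2 h2 h2L h2p, hkv, e0]
        linarith
      · obtain ⟨ω₂, e1, e2⟩ := D.mix ω' (π ω)
        refine ⟨ω₂, e1, ?_⟩
        rw [Pi.add_apply, e1 h1 h1S, e2 h2 h2L h2p, hkv, m2, e0]
        linarith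
    obtain ⟨ω₀, e3, e4⟩ := D.mix (π ω₂) ω'
    refine ⟨ω₀, fun f hf => ?_, e4⟩
    rw [e3 f hf, move_LQ hπ (D.span_le hf), e1 f hf, e2]
  choose s hs1 hs2 using hs
  -- the decomposition of a function
  have hdec : ∀ f ∈ LQ L, ∃ a : ℚ, ∀ ω', f (s ω') = f ω' - a * k ω' := by
    intro f hf
    obtain ⟨f1, f1S, f1p⟩ := exists_proj (Submodule.span ℚ {h | A h}) f
    refine ⟨cf f1 (h1 + h2), fun ω' => ?_⟩
    have e1 := hs2 ω' (f - f1) ((LQ L).sub_mem hf (D.span_le f1S))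
      fun h hh => f1p h (Submodule.subset_span hh)
    rw [Pi.sub_apply, Pi.sub_apply, hs1 ω' f1 f1S] at e1
    linarith
  have hks : ∀ ω', k (s ω') = -k ω' := by
    intro ω'
    rw [hkv (s ω'), hs1 ω' h1 h1S, ← hp, hp1']
    have e1 := hkv ω'
    linarith
  have hss : ∀ ω', s (s ω') = ω' := by
    intro ω'
    refine hL.sep _ _ fun f hf => ?_
    obtain ⟨a, ha⟩ := hdec f (mem_LQ hf)
    rw [ha, ha, hks]
    ring
  have hk0 : k ≠ 0 := by
    intro h0
    rcases hk1 ω with e1 | e1 <;> rw [h0, Pi.zero_apply] at e1 <;> norm_num at e1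
  refine ⟨k, ⟨⟨⟨s, s, hss, hss⟩, ⟨hkL, hk0, fun ω' => ?_, fun f hf => ?_, hks⟩⟩, hk1⟩⟩
  · rcases hk1 ω' with e1 | e1
    · exact Or.inr (Or.inr e1)
    · exact Or.inl e1
  · obtain ⟨a, ha⟩ := hdec f (mem_LQ hf)
    obtain ⟨z, hz⟩ := hL.int f hf ω
    obtain ⟨z', hz'⟩ := hL.int f hf (s ω)
    have e1 := ha ω
    rw [hz, hz'] at e1
    rcases hk1 ω with e2 | e2
    · refine ⟨z - z', fun ω' => ?_⟩
      have e3 : a = ((z - z' : ℤ) : ℚ) := by
        rw [e2] at e1
        push_cast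
        linarith
      rw [← e3]
      exact ha ω'
    · refine ⟨z' - z, fun ω' => ?_⟩
      have e3 : a = ((z' - z : ℤ) : ℚ) := by
        rw [e2] at e1
        push_cast
        linarith
      rw [← e3]
      exact ha ω'

/-- **If the roots are connected then the number of points is a power of two.** -/
theorem pow_two (hL : Lat L) (hsat : Sat L) (hc : Conn L) (hA : ∃ h, A h) (hB : ∃ h, B h) :
    ∃ m, Fintype.card Ω = 2 ^ m := by
  refine Pool.Agent.FQA.pow_two hL hc ?_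
  by_contra hcon
  have hno : ∀ h, Rt L h → (∀ a, A a → a ⬝ᵥ h = 0) ∨ ∀ b, B b → b ⬝ᵥ h = 0 := by
    intro h H
    by_contra hcon'
    push Not at hcon'
    exact hcon (D.full hL hsat H hcon'.1 hcon'.2)
  obtain ⟨a, ha⟩ := hA
  obtain ⟨b, hb⟩ := hB
  have h1 := hc (fun h => ∀ b, B b → b ⬝ᵥ h = 0)
    ⟨a, D.ra a ha, fun b hb => by rw [dotProduct_comm]; exact D.orth a b ha hb⟩ ?_ b (D.rb b hb)
    b hb
  · exact Rt_sq_ne (D.rb b hb) h1
  · intro h h' H H' hP h0
    rcases hno h' H' with h2 | h2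
    · exfalso
      apply h0
      obtain ⟨g, gS, gp⟩ := exists_proj (Submodule.span ℚ {h | A h}) h
      have hconst := D.const (f := h - g) ((LQ L).sub_mem (mem_LQ (Rt_mem H)) (D.span_le gS))
        (fun x hx => gp x (Submodule.subset_span hx))
        (fun x hx => by rw [dotProduct_sub, hP x hx, D.orth_span gS hx, sub_zero])
      have hg2 : g ⬝ᵥ h' = 0 := D.span_perp gS h2
      obtain ⟨ω, -⟩ := Rt_one H
      have h3 : (h - g) ⬝ᵥ h' = 0 := by
        have h4 : h - g = fun _ => (h - g) ω := funext fun ω' => hconst ω' ω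
        rw [h4]
        simp only [dotProduct]
        rw [← Finset.mul_sum, Rt_sum H', mul_zero]
      rw [sub_dotProduct, hg2, sub_zero] at h3
      exact h3
    · exact h2

end Dec

/-- A function with the values zero and one is not orthogonal to the roots of only one connected
component: a set of roots which is stable under non-orthogonality and contains a root not
orthogonal to `f` contains all of them. -/
theorem one_comp (hL : Lat L) (hf : f ∈ L) (hval : ∀ ω, f ω = 0 ∨ f ω = 1)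
    (P : (Ω → ℚ) → Prop) (hP : ∀ h k, Rt L h → Rt L k → P h → h ⬝ᵥ k ≠ 0 → P k)
    (H : Rt L h) (hh : P h) (hfh : h ⬝ᵥ f ≠ 0) (K : Rt L k) (hfk : k ⬝ᵥ f ≠ 0) : P k := by
  by_contra hcon
  have D : Dec L (fun h => Rt L h ∧ P h) (fun h => Rt L h ∧ ¬ P h) := by
    refine ⟨fun h hh => hh.1, fun h hh => hh.1, fun a b ha hb => ?_, fun X hX hX2 => ?_⟩
    · by_contra h0
      exact hb.2 (hP a b ha.1 hb.1 ha.2 h0)
    · refine hL.tr X hX fun h π H ω hω => hX2 h π ?_ H ω hω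
      by_cases h1 : P h
      · exact Or.inl ⟨⟨π, H⟩, h1⟩
      · exact Or.inr ⟨⟨π, H⟩, h1⟩
  obtain ⟨f1, f1S, f1p⟩ := exists_proj (Submodule.span ℚ {h | Rt L h ∧ P h}) f
  have hf2 : f - f1 ∈ LQ L := (LQ L).sub_mem (mem_LQ hf) (D.span_le f1S)
  have hf2p : ∀ x, (Rt L x ∧ P x) → x ⬝ᵥ (f - f1) = 0 :=
    fun x hx => f1p x (Submodule.subset_span hx)
  have nonconst : ∀ {u x : Ω → ℚ}, Rt L x → x ⬝ᵥ u ≠ 0 → ∃ ω ω', u ω < u ω' := by
    intro u x X h0
    by_contra hc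
    push Not at hc
    apply h0
    obtain ⟨ω, -⟩ := Rt_one X
    have h4 : u = fun _ => u ω := funext fun ω' => le_antisymm (hc ω ω') (hc ω' ω)
    rw [h4]
    simp only [dotProduct]
    rw [← Finset.sum_mul, Rt_sum X, zero_mul]
  obtain ⟨x, x', hx⟩ := nonconst (u := f1) H (by
    have h1 := f1p h (Submodule.subset_span ⟨H, hh⟩)
    rw [dotProduct_sub, sub_eq_zero] at h1
    rw [← h1]
    exact hfh)
  obtain ⟨y, y', hy⟩ := nonconst (u := f - f1) K (by
    rw [dotProduct_sub, D.orth_span f1S ⟨K, hcon⟩, sub_zero]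
    exact hfk)
  have key : ∀ a b, f1 a + (f - f1) b = 0 ∨ f1 a + (f - f1) b = 1 := by
    intro a b
    obtain ⟨c, h1, h2⟩ := D.mix a b
    have h3 := hval c
    have h4 : f c = f1 c + (f - f1) c := by rw [Pi.sub_apply]; ring
    rwa [h4, h1 f1 f1S, h2 (f - f1) hf2 hf2p] at h3
  have k1 := key x y
  have k2 := key x' y
  have k3 := key x' y'
  rcases k1 with k1 | k1 <;> rcases k2 with k2 | k2 <;> rcases k3 with k3 | k3 <;> linarith

end Pool.Agent.FQA
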