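import Pool.Agent.NumRank.Data
import Pool.Agent.Mod4.Ideal
import Pool.Agent.FQA.Mixed

/-!
# Irreducible Lie algebras with a torus spanned by idempotents

`g` is an irreducible Lie algebra of operators with the self-centralising torus `t`, which is
spanned by the identity and idempotents. The lattice `Lv t v` of the integral functions on the set
of weights has many reflections. If its roots are connected and the dimension is not a power of
two then `g` is simple up to scalars.
-/

set_option autoImplicit false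
set_option linter.unusedSectionVars false

namespace Pool.Agent.FQA

open Module Pool.Agent.CoprimeSig Pool.Agent.Mod4 Pool.Agent.NumRank
open Pool.Agent.PrimePow.CC (Rf Rt Lat)

variable {K V : Type*} [Field K] [CharZero K] [IsAlgClosed K] [AddCommGroup V] [Module K V]
  [FiniteDimensional K V]

/-- `g` is irreducible and `t` is a self-centralising torus in `g` spanned by the identity and
idempotents. -/
structure TD (g t : Submodule K (End K V)) : Prop extends Cartan g t where
  one : (1 : End K V) ∈ t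
  irr : ∀ U : Submodule K V, (∀ a ∈ g, ∀ w ∈ U, a w ∈ U) → U = ⊥ ∨ U = ⊤
  idem : ∀ τ ∈ t, τ ∈ Submodule.span K ({1} ∪ {e : End K V | e ∈ t ∧ e * e = e})

/-- The values on the basis. -/
theorem trace_dg {I : Type*} [Fintype I] (v : Basis I K V) {x : End K V} {f : I → ℚ}
    (hx : ∀ i, x (v i) = (f i : K) • v i) :
    LinearMap.trace K V x = ((∑ i, f i : ℚ) : K) := by
  classical
  rw [LinearMap.trace_eq_matrix_trace K v, Matrix.trace]
  push_cast
  refine Finset.sum_congr rfl fun i _ => ?_
  rw [Matrix.diag_apply, LinearMap.toMatrix_apply, hx, map_smul,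
    Basis.repr_self, Finsupp.smul_apply, Finsupp.single_eq_same, smul_eq_mul, mul_one]

theorem trace_pair {I : Type*} [Fintype I] (v : Basis I K V) {κ τ : End K V}
    {k h : I → ℚ} (hκ : ∀ i, κ (v i) = (k i : K) • v i) (hτ : ∀ i, τ (v i) = (h i : K) • v i) :
    LinearMap.trace K V (κ * τ) = ((k ⬝ᵥ h : ℚ) : K) := by
  rw [trace_dg v (f := fun i => k i * h i)]
  · rfl
  · intro i
    rw [Module.End.mul_apply, hτ, map_smul, hκ, smul_smul, Rat.cast_mul, mul_comm]

theorem fun_eq {I : Type*} (v : Basis I K V) {τ : End K V} {h k : I → ℚ}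
    (hτ : ∀ i, τ (v i) = (h i : K) • v i) (kτ : ∀ i, τ (v i) = (k i : K) • v i) : h = k := by
  funext i
  have h1 := hτ i
  rw [kτ i] at h1
  exact_mod_cast (smul_left_injective K (v.ne_zero i) h1).symm

namespace TD

variable {g t : Submodule K (End K V)} (T : TD g t)
include T

theorem hone : (1 : End K V) ∈ g := T.le T.one

/-- A nonzero root does not vanish at some idempotent. -/
theorem exists_idem {α : End K V → K} {x : End K V} (hx : IsRoot g t α x) (hx0 : x ≠ 0)
    (hα : ∃ τ ∈ t, α τ ≠ 0) : ∃ e ∈ t, e * e = e ∧ α e ≠ 0 := by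
  by_contra hcon
  push Not at hcon
  obtain ⟨τ, hτ, h0⟩ := hα
  apply h0
  have h1 : τ * x - x * τ = 0 := by
    have h2 := T.idem τ hτ
    clear h0 hτ
    induction h2 using Submodule.span_induction with
    | mem z hz =>
      rcases hz with hz | hz
      · rw [Set.mem_singleton_iff.1 hz, one_mul, mul_one, sub_self]
      · rw [hx.root z hz.1, hcon z hz.1 hz.2, zero_smul]
    | zero => rw [zero_mul, mul_zero, sub_zero]
    | add a b _ _ ha hb =>
      rw [add_mul, mul_add, add_sub_add_comm, ha, hb, add_zero]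
    | smul c a _ ha => rw [smul_mul_assoc, mul_smul_comm, ← smul_sub, ha, smul_zero]
  rw [hx.root τ hτ] at h1
  exact (smul_eq_zero.1 h1).resolve_right hx0

/-- Every nonzero root vector has an opposite. -/
theorem hopp (α : End K V → K) (x : End K V) (hx : IsRoot g t α x) (hx0 : x ≠ 0)
    (hα : ∃ τ ∈ t, α τ ≠ 0) : ∃ y, Opp g t α x y := by
  obtain ⟨e, he, hee, hαe⟩ := T.exists_idem hx hx0 hα
  exact (exists_opp T.toCartan hx hx0 he hee hαe).2

variable [Nontrivial V] {I : Type} [Fintype I] (v : Basis I K V)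
  (hv : ∀ x ∈ t, ∀ i, ∃ c : K, x (v i) = c • v i)
include hv

theorem hmult : ∀ i j, (∀ τ ∈ t, wv v i τ = wv v j τ) → i = j := fun _ _ h =>
  mult_one T.toCartan T.one T.irr T.hopp v hv h

theorem lat : Lat (Lv t v) := NumRank.lat v hv T.toCartan T.one T.irr T.hopp (T.hmult v hv)

omit T [Nontrivial V] hv in
theorem mem_of_LQ {f : I → ℚ} (hf : f ∈ LQ (Lv t v)) :
    ∃ x ∈ t, ∀ i, x (v i) = (f i : K) • v i := by
  unfold LQ at hf
  induction hf using Submodule.span_induction with
  | mem f hf => exact hf.2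
  | zero => exact ⟨0, t.zero_mem, fun i => by simp⟩
  | add f f' _ _ h1 h2 =>
    obtain ⟨x, hx, h3⟩ := h1
    obtain ⟨y, hy, h4⟩ := h2
    exact ⟨x + y, t.add_mem hx hy, fun i => by
      rw [LinearMap.add_apply, h3, h4, Pi.add_apply, Rat.cast_add, add_smul]⟩
  | smul c f _ h1 =>
    obtain ⟨x, hx, h3⟩ := h1
    exact ⟨(c : K) • x, t.smul_mem _ hx, fun i => by
      rw [LinearMap.smul_apply, h3, Pi.smul_apply, smul_eq_mul, Rat.cast_mul, smul_smul]⟩

omit T [Nontrivial V] hv in
theorem sat : Sat (Lv t v) := fun _ hf hint => ⟨hint, mem_of_LQ v hf⟩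

omit [Nontrivial V] hv in
/-- If all root vectors with nonzero root and `t` commute with `x` then `x` is a scalar. -/
theorem scalar_of {x : End K V}
    (h1 : ∀ (α : End K V → K) (z : End K V), IsRoot g t α z → z ≠ 0 → (∃ τ ∈ t, α τ ≠ 0) →
      x * z = z * x) (h2 : ∀ τ ∈ t, x * τ = τ * x) : ∃ c : K, x = c • 1 := by
  refine PrimePow.schur_irr T.irr x fun y hy => ?_
  have h3 := mem_span_roots T.toCartan hy
  clear hy
  induction h3 using Submodule.span_induction with
  | mem z hz =>
    obtain ⟨α, hz⟩ := hz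
    by_cases hz0 : z = 0
    · rw [hz0, mul_zero, zero_mul]
    by_cases hα : ∃ τ ∈ t, α τ ≠ 0
    · exact h1 α z hz hz0 hα
    · push Not at hα
      refine h2 z (T.cent z hz.mem fun τ hτ => ?_)
      have h4 := hz.root τ hτ
      rw [hα τ hτ, zero_smul, sub_eq_zero] at h4
      exact h4.symm
  | zero => rw [mul_zero, zero_mul]
  | add a b _ _ ha hb => rw [mul_add, add_mul, ha, hb]
  | smul c a _ ha => rw [mul_smul_comm, smul_mul_assoc, ha]

end TD

/-- An ideal of trace zero. -/
structure Idl (g s : Submodule K (End K V)) : Prop where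
  le : s ≤ g
  ideal : ∀ x ∈ g, ∀ z ∈ s, x * z - z * x ∈ s
  tr : ∀ z ∈ s, LinearMap.trace K V z = 0

/-- `h` is the coroot of a root vector in `s`. -/
def AR (g t s : Submodule K (End K V)) {I : Type} (v : Basis I K V) (h : I → ℚ) : Prop :=
  ∃ (α : End K V → K) (x y : End K V), Opp g t α x y ∧ x ≠ 0 ∧ x ∈ s ∧
    ∀ i, (x * y - y * x) (v i) = (h i : K) • v i

/-- The centraliser of `s` in `g`. -/
def cen (g s : Submodule K (End K V)) : Submodule K (End K V) where
  carrier := {b | b ∈ g ∧ ∀ y ∈ s, b * y = y * b}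
  add_mem' := fun {a b} ha hb => ⟨g.add_mem ha.1 hb.1, fun y hy => by
    rw [add_mul, mul_add, ha.2 y hy, hb.2 y hy]⟩
  zero_mem' := ⟨g.zero_mem, fun y _ => by rw [zero_mul, mul_zero]⟩
  smul_mem' := fun c a ha => ⟨g.smul_mem c ha.1, fun y hy => by
    rw [smul_mul_assoc, mul_smul_comm, ha.2 y hy]⟩

theorem mem_cen {g s : Submodule K (End K V)} {b : End K V} :
    b ∈ cen g s ↔ b ∈ g ∧ ∀ y ∈ s, b * y = y * b := Iff.rfl

namespace TD

variable {g t : Submodule K (End K V)} (T : TD g t) [Nontrivial V] {s : Submodule K (End K V)}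
  (hs : Idl g s)
include T hs

theorem cen_ideal : ∀ x ∈ g, ∀ b ∈ cen g s, x * b - b * x ∈ cen g s := by
  rintro x hx b ⟨hb, hb2⟩
  refine ⟨T.lie x hx b hb, fun y hy => ?_⟩
  have h1 := hb2 y hy
  have h2 := hb2 _ (hs.ideal x hx y hy)
  have e1 : (x * b - b * x) * y - y * (x * b - b * x) =
      x * (b * y - y * b) - (b * y - y * b) * x - (b * (x * y - y * x) - (x * y - y * x) * b) := by
    noncomm_ring
  rw [h1, h2, sub_self, sub_self, mul_zero, zero_mul, sub_zero, sub_zero] at e1
  exact sub_eq_zero.1 e1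

theorem split {x : End K V} (hx : x ∈ g) : ∃ a ∈ s, ∃ b ∈ cen g s, x = a + b := by
  obtain ⟨a, ha, b, hb, hab, hb2⟩ := split_ideal T.lie T.irr hs.le hs.ideal hs.tr x hx
  exact ⟨a, ha, b, ⟨hb, hb2⟩, hab⟩

/-- An element of `s` commuting with `s` is zero. -/
theorem zero_of {z : End K V} (hz : z ∈ s) (hz2 : ∀ y ∈ s, z * y = y * z) : z = 0 := by
  obtain ⟨c, hc⟩ := PrimePow.schur_irr T.irr z fun x hx => by
    obtain ⟨a, ha, b, hb, rfl⟩ := T.split hs hx
    rw [mul_add, add_mul, hz2 a ha, hb.2 z hz]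
  have h1 := hs.tr z hz
  rw [hc, map_smul, LinearMap.trace_one, smul_eq_mul] at h1
  rcases mul_eq_zero.1 h1 with h | h
  · rw [hc, h, zero_smul]
  · rw [Nat.cast_eq_zero] at h
    exact absurd h (finrank_pos).ne'

/-- The components of an element of `t`. -/
theorem split_t {τ : End K V} (hτ : τ ∈ t) : ∃ a ∈ s, ∃ b ∈ cen g s, τ = a + b ∧ a ∈ t ∧ b ∈ t := by
  obtain ⟨a, ha, b, hb, hab⟩ := T.split hs (T.le hτ)
  have hat : a ∈ t := by
    refine T.cent a (hs.le ha) fun τ' hτ' => ?_
    obtain ⟨a', ha', b', hb', hab'⟩ := T.split hs (T.le hτ')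
    have h1 := T.comm τ hτ τ' hτ'
    have h2 : a * a' - a' * a = -(b * b' - b' * b) := by
      have c1 := hb.2 a' ha'
      have c2 := hb'.2 a ha
      have e1 : τ * τ' - τ' * τ = (a * a' - a' * a) + (b * b' - b' * b) := by
        rw [hab, hab', add_mul, add_mul, mul_add, mul_add, mul_add, mul_add, c1, c2]
        abel
      rw [h1, sub_self] at e1
      exact eq_neg_of_add_eq_zero_left e1.symm
    have h3 : a * a' - a' * a = 0 := by
      refine T.zero_of hs (hs.ideal a (hs.le ha) a' ha') fun y hy => ?_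
      have h4 := (T.cen_ideal hs b hb.1 b' hb').2 y hy
      rw [h2, neg_mul, mul_neg, h4]
    rw [hab', mul_add, add_mul, sub_eq_zero.1 h3]
    have c2 := (hb'.2 a ha)
    rw [c2]
  exact ⟨a, ha, b, hb, hab, hat, by
    have : b = τ - a := by rw [hab]; abel
    rw [this]
    exact t.sub_mem hτ hat⟩

end TD

end Pool.Agent.FQA
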