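import Pool.Agent.FQA.Iface

/-!
# Dimension two modulo four: the roots are connected

If the torus is spanned by idempotents of rank `n / 2` and the roots are not connected, then the
points are a product of two sets with an even number of elements, so `4` divides `n`.
-/

set_option autoImplicit false
set_option linter.unusedSectionVars false

namespace Pool.Agent.FQA

open Module Pool.Agent.CoprimeSig Pool.Agent.Mod4 Pool.Agent.NumRank
open Pool.Agent.PrimePow.CC (Rf Rt Lat)

section Comb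

variable {Ω : Type*} [Fintype Ω] {L : AddSubgroup (Ω → ℚ)} {A B : (Ω → ℚ) → Prop}

/-- The functions in `S` have the same values. -/
def eqv (S : Set (Ω → ℚ)) : Setoid Ω where
  r ω ω' := ∀ f ∈ S, f ω = f ω'
  iseqv := ⟨fun _ _ _ => rfl, fun h f hf => (h f hf).symm, fun h h' f hf => (h f hf).trans (h' f hf)⟩

namespace Dec

/-- The elements of the rational span which are orthogonal to `A`. -/
def perp (L : AddSubgroup (Ω → ℚ)) (A : (Ω → ℚ) → Prop) : Set (Ω → ℚ) :=
  {f | f ∈ LQ L ∧ ∀ h, A h → h ⬝ᵥ f = 0}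

theorem bij (hL : Lat L) (D : Dec L A B) :
    Function.Bijective (fun ω : Ω =>
      ((Quotient.mk (eqv (Submodule.span ℚ {h | A h} : Set (Ω → ℚ))) ω,
        Quotient.mk (eqv (perp L A)) ω) :
        Quotient (eqv (Submodule.span ℚ {h | A h} : Set (Ω → ℚ))) × Quotient (eqv (perp L A)))) := by
  constructor
  · intro ω ω' h
    have h1 := Quotient.exact (Prod.ext_iff.1 h).1
    have h2 := Quotient.exact (Prod.ext_iff.1 h).2
    refine hL.sep ω ω' fun f hf => ?_
    obtain ⟨g, gS, gp⟩ := exists_proj (Submodule.span ℚ {h | A h}) f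
    have h3 : f - g ∈ perp L A := ⟨(LQ L).sub_mem (mem_LQ hf) (D.span_le gS),
      fun x hx => gp x (Submodule.subset_span hx)⟩
    have h4 := h1 g gS
    have h5 := h2 _ h3
    rw [Pi.sub_apply, Pi.sub_apply, h4] at h5
    linarith
  · rintro ⟨a, b⟩
    induction a using Quotient.inductionOn with | _ a => ?_
    induction b using Quotient.inductionOn with | _ b => ?_
    obtain ⟨ω, h1, h2⟩ := D.mix a b
    refine ⟨ω, Prod.ext (Quotient.sound fun f hf => h1 f hf)
      (Quotient.sound fun f hf => h2 f hf.1 hf.2)⟩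

open Classical in
theorem even_card (hL : Lat L) (D : Dec L A B) {f : Ω → ℚ} (hf : f ∈ L)
    (hval : ∀ ω, f ω = 0 ∨ f ω = 1) (hfA : ∀ h, A h → h ⬝ᵥ f = 0)
    (hsum : 2 * ∑ ω, f ω = Fintype.card Ω) [Nonempty Ω] :
    ∃ p q : ℕ, 0 < p ∧ Fintype.card Ω = p * (2 * q) ∧
      p = Fintype.card (Quotient (eqv (Submodule.span ℚ {h | A h} : Set (Ω → ℚ)))) := by
  let e := Equiv.ofBijective _ (D.bij hL)
  let F : Quotient (eqv (perp L A)) → ℚ :=
    Quotient.lift f fun ω ω' h => h f ⟨mem_LQ hf, hfA⟩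
  let Z : Quotient (eqv (perp L A)) → ℕ := fun b => if F b = 1 then 1 else 0
  have hFZ : ∀ b, F b = Z b := by
    intro b
    induction b using Quotient.inductionOn with | _ b => ?_
    change f b = ((if f b = 1 then 1 else 0 : ℕ) : ℚ)
    rcases hval b with h | h <;> rw [h] <;> norm_num
  have h1 : ∑ ω, f ω = ∑ x : Quotient (eqv (Submodule.span ℚ {h | A h} : Set (Ω → ℚ))) ×
      Quotient (eqv (perp L A)), F x.2 := by
    rw [← Equiv.sum_comp e]
    rfl
  rw [Fintype.sum_prod_type] at h1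
  simp only [Finset.sum_const, Finset.card_univ, nsmul_eq_mul] at h1
  have h2 : (Fintype.card Ω : ℚ) = Fintype.card (Quotient (eqv (Submodule.span ℚ {h | A h} :
      Set (Ω → ℚ)))) * (Fintype.card (Quotient (eqv (perp L A))) : ℚ) := by
    rw [Fintype.card_congr e, Fintype.card_prod, Nat.cast_mul]
  have hp : 0 < Fintype.card (Quotient (eqv (Submodule.span ℚ {h | A h} : Set (Ω → ℚ)))) :=
    Fintype.card_pos_iff.2 ⟨Quotient.mk _ (Classical.arbitrary Ω)⟩
  refine ⟨_, ∑ b, Z b, hp, ?_, rfl⟩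
  have h3 : ∑ b, F b = ((∑ b, Z b : ℕ) : ℚ) := by
    rw [Nat.cast_sum]
    exact Finset.sum_congr rfl fun b _ => hFZ b
  rw [h1, h3] at hsum
  have h4 : (Fintype.card Ω : ℚ) = ((Fintype.card (Quotient (eqv (Submodule.span ℚ {h | A h} :
      Set (Ω → ℚ)))) * (2 * ∑ b, Z b) : ℕ) : ℚ) := by
    rw [← hsum]
    push_cast
    ring
  exact_mod_cast h4

/-- If both sets of roots are touched by balanced functions then `4` divides the number of
points. -/
theorem four_dvd (hL : Lat L) (D : Dec L A B) {f f' : Ω → ℚ} (hf : f ∈ L)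
    (hval : ∀ ω, f ω = 0 ∨ f ω = 1) (hfA : ∀ h, A h → h ⬝ᵥ f = 0)
    (hsum : 2 * ∑ ω, f ω = Fintype.card Ω) (hf' : f' ∈ L)
    (hval' : ∀ ω, f' ω = 0 ∨ f' ω = 1) (hfB : ∀ h, B h → h ⬝ᵥ f' = 0)
    (hsum' : 2 * ∑ ω, f' ω = Fintype.card Ω) [Nonempty Ω] : 4 ∣ Fintype.card Ω := by
  classical
  obtain ⟨p, q, hp, h1, h2⟩ := D.even_card hL hf hval hfA hsum
  -- `f'` depends only on the classes for the span of `A`
  have hdep : ∀ ω ω', (∀ f ∈ Submodule.span ℚ {h | A h}, f ω = f ω') → f' ω = f' ω' := by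
    intro ω ω' h
    obtain ⟨g, gS, gp⟩ := exists_proj (Submodule.span ℚ {h | A h}) f'
    have h3 := D.const (f := f' - g) ((LQ L).sub_mem (mem_LQ hf') (D.span_le gS))
      (fun x hx => gp x (Submodule.subset_span hx))
      (fun x hx => by rw [dotProduct_sub, hfB x hx, D.orth_span gS hx, sub_zero]) ω ω'
    have h4 := h g gS
    rw [Pi.sub_apply, Pi.sub_apply, h4] at h3
    linarith
  let e := Equiv.ofBijective _ (D.bij hL)
  let F : Quotient (eqv (Submodule.span ℚ {h | A h} : Set (Ω → ℚ))) → ℚ :=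
    Quotient.lift f' fun ω ω' h => hdep ω ω' h
  let Z : Quotient (eqv (Submodule.span ℚ {h | A h} : Set (Ω → ℚ))) → ℕ :=
    fun b => if F b = 1 then 1 else 0
  have hFZ : ∀ b, F b = Z b := by
    intro b
    induction b using Quotient.inductionOn with | _ b => ?_
    change f' b = ((if f' b = 1 then 1 else 0 : ℕ) : ℚ)
    rcases hval' b with h | h <;> rw [h] <;> norm_num
  have h5 : ∑ ω, f' ω = ∑ x : Quotient (eqv (Submodule.span ℚ {h | A h} : Set (Ω → ℚ))) ×
      Quotient (eqv (perp L A)), F x.1 := by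
    rw [← Equiv.sum_comp e]
    rfl
  rw [Fintype.sum_prod_type] at h5
  simp only [Finset.sum_const, Finset.card_univ, nsmul_eq_mul] at h5
  have h6 : Fintype.card Ω = p * Fintype.card (Quotient (eqv (perp L A))) := by
    rw [Fintype.card_congr e, Fintype.card_prod, h2]
  have h7 : Fintype.card (Quotient (eqv (perp L A))) = 2 * q := by
    rw [h1] at h6
    exact (Nat.eq_of_mul_eq_mul_left hp h6).symm
  have h8 : ∑ b, F b = ((∑ b, Z b : ℕ) : ℚ) := by
    rw [Nat.cast_sum]
    exact Finset.sum_congr rfl fun b _ => hFZ b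
  rw [h5, ← Finset.mul_sum, h8, h6, h7] at hsum'
  have hq : 0 < q := by
    rcases Nat.eq_zero_or_pos q with h | h
    · exfalso
      have h9 : Fintype.card Ω = 0 := by rw [h1, h]; ring
      exact Fintype.card_ne_zero h9
    · exact h
  have h9 : 2 * ((2 * q) * ∑ b, Z b) = p * (2 * q) := by
    have h10 : ((2 * ((2 * q) * ∑ b, Z b) : ℕ) : ℚ) = ((p * (2 * q) : ℕ) : ℚ) := by
      push_cast
      push_cast at hsum'
      linarith
    exact_mod_cast h10
  have h11 : p = 2 * ∑ b, Z b := by
    have h12 : (2 * q) * (2 * ∑ b, Z b) = (2 * q) * p := by linarith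
    exact (Nat.eq_of_mul_eq_mul_left (by omega) h12).symm
  rw [h1, h11]
  exact ⟨(∑ b, Z b) * q, by ring⟩

end Dec

end Comb

variable {K V : Type*} [Field K] [CharZero K] [IsAlgClosed K] [AddCommGroup V] [Module K V]
  [FiniteDimensional K V]

namespace TD

variable {g t : Submodule K (End K V)} (T : TD g t) [Nontrivial V] {I : Type} [Fintype I]
  (v : Basis I K V) (hv : ∀ x ∈ t, ∀ i, ∃ c : K, x (v i) = c • v i)
include T hv

/-- Each root is touched by a balanced idempotent. -/
theorem exists_bal (htor : t ≤ Submodule.span K {e : End K V | e ∈ t ∧ e * e = e ∧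
      2 * LinearMap.trace K V e = finrank K V}) {h : I → ℚ} (H : Rt (Lv t v) h) :
    ∃ f : I → ℚ, f ∈ Lv t v ∧ (∀ i, f i = 0 ∨ f i = 1) ∧ 2 * ∑ i, f i = Fintype.card I ∧
      h ⬝ᵥ f ≠ 0 ∧ ∀ k k', Rt (Lv t v) k → Rt (Lv t v) k' → f ⬝ᵥ k ≠ 0 → f ⬝ᵥ k' ≠ 0 →
        Cn (Lv t v) k k' := by
  obtain ⟨-, x, hx, hxv⟩ := Rt_mem H
  by_contra hcon
  push Not at hcon
  -- the trace form of `x` with balanced idempotents is zero
  have key : ∀ y ∈ t, LinearMap.trace K V (x * y) = 0 := by
    intro y hy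
    have h1 := htor hy
    clear hy
    induction h1 using Submodule.span_induction with
    | mem e he =>
      obtain ⟨he, hee, htr⟩ := he
      obtain ⟨f, hf⟩ : ∃ f : I → ℚ, ∀ i, e (v i) = (f i : K) • v i := by
        choose c hc using fun i => hv e he i
        have h2 : ∀ i, c i = 0 ∨ c i = 1 := by
          intro i
          have h3 := LinearMap.congr_fun hee (v i)
          rw [Module.End.mul_apply, hc, map_smul, hc, smul_smul] at h3
          have h4 : c i * c i = c i := smul_left_injective K (v.ne_zero i) h3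
          have h5 : c i * (c i - 1) = 0 := by rw [mul_sub, mul_one, h4, sub_self]
          rcases mul_eq_zero.1 h5 with h6 | h6
          · exact Or.inl h6
          · exact Or.inr (sub_eq_zero.1 h6)
        classical
        refine ⟨fun i => if c i = 0 then 0 else 1, fun i => ?_⟩
        rw [hc]
        show c i • v i = ((if c i = 0 then (0 : ℚ) else 1 : ℚ) : K) • v i
        rcases h2 i with h3 | h3
        · rw [if_pos h3, h3, Rat.cast_zero]
        · rw [if_neg (by rw [h3]; exact one_ne_zero), h3, Rat.cast_one]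
      by_contra h0
      have hdot : h ⬝ᵥ f ≠ 0 := by
        intro h2
        apply h0
        rw [trace_pair v hxv hf, h2, Rat.cast_zero]
      obtain ⟨k, k', hk, hk', h3, h4, h5⟩ := hcon f (mem_Lv v he hee hf) (fun i => val01 v hee hf i)
        (by
          have h6 := trace_dg v hf
          rw [h6, finrank_eq_card_basis v] at htr
          exact_mod_cast htr) hdot
      refine h5 (T.touch_cn v hv he hee he hee (u := 1) (one_mem _) (by simp) hf hf hk h3 hk' h4)
    | zero => rw [mul_zero, map_zero]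
    | add a b _ _ ha hb => rw [mul_add, map_add, ha, hb, add_zero]
    | smul a b _ hb => rw [mul_smul_comm, map_smul, hb, smul_zero]
  have h1 := key x hx
  rw [trace_pair v hxv hxv] at h1
  exact Rt_sq_ne H (by exact_mod_cast h1)

/-- **Dimension two modulo four: the roots are connected.** -/
theorem cn_of_mod4 (hn : finrank K V % 4 = 2)
    (htor : t ≤ Submodule.span K {e : End K V | e ∈ t ∧ e * e = e ∧
      2 * LinearMap.trace K V e = finrank K V}) :
    ∀ h h', Rt (Lv t v) h → Rt (Lv t v) h' → Cn (Lv t v) h h' := by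
  intro h h' H H'
  by_contra hcon
  have hL := T.lat v hv
  let P : (I → ℚ) → Prop := Cn (Lv t v) h
  have D : Dec (Lv t v) (fun k => Rt (Lv t v) k ∧ P k) (fun k => Rt (Lv t v) k ∧ ¬ P k) := by
    refine ⟨fun k hk => hk.1, fun k hk => hk.1, fun a b ha hb => ?_, fun X hX hX2 => ?_⟩
    · by_contra h0
      exact hb.2 (Cn.stb h a b ha.1 hb.1 ha.2 h0)
    · refine hL.tr X hX fun k π K' ω hω => hX2 k π ?_ K' ω hω
      by_cases h1 : P k
      · exact Or.inl ⟨⟨π, K'⟩, h1⟩
      · exact Or.inr ⟨⟨π, K'⟩, h1⟩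
  obtain ⟨f', hf', hv', hs', h0', hc'⟩ := T.exists_bal v hv htor H
  obtain ⟨f, hf, hv1, hs, h0, hc⟩ := T.exists_bal v hv htor H'
  have hne : Nonempty I := by
    obtain ⟨i, -⟩ := Rt_one H
    exact ⟨i⟩
  have h4 : 4 ∣ Fintype.card I := by
    refine D.four_dvd hL hf hv1 (fun k hk => ?_) hs hf' hv' (fun k hk => ?_) hs'
    · by_contra h1
      have h2 : Cn (Lv t v) k h' := hc k h' hk.1 H' (by rwa [dotProduct_comm])
        (by rwa [dotProduct_comm])
      exact hcon (Relation.ReflTransGen.trans hk.2 h2)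
    · by_contra h1
      exact hk.2 (hc' h k H hk.1 (by rwa [dotProduct_comm]) (by rwa [dotProduct_comm]))
  rw [finrank_eq_card_basis v] at hn
  omega

end TD

end Pool.Agent.FQA
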