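import Pool.Agent.FQA.Types
import Pool.Agent.FQA.Eig

/-!
# The central element is zero
-/

set_option autoImplicit false
set_option linter.unusedSectionVars false

namespace Pool.Agent.FQA

open Module Pool.Agent.SmallRank

variable {K V : Type*} [Field K] [CharZero K] [IsAlgClosed K] [AddCommGroup V] [Module K V]
  [FiniteDimensional K V]

/-- The properties of the central element. -/
structure Th (g : Submodule K (End K V)) (c f θ : End K V) (t : K) : Prop where
  mem : θ ∈ g
  com0 : ∀ D ∈ g0 g c f, D * θ = θ * D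
  comc : c * θ = θ * c
  comf : f * θ = θ * f
  P : θ * (c * f) = 0
  Q : θ * (f * c) = 0
  tr : ∀ z ∈ g, LinearMap.trace K V (z * θ) =
    LinearMap.trace K V (z * (c * f + f * c)) - t * LinearMap.trace K V z

namespace Ex

variable {g : Submodule K (End K V)} {c f : End K V} (E : Ex g c f)
include E

theorem exists_th : ∃ θ t, Th g c f θ t := by
  obtain ⟨θ, h1, t, h2, h3, h4, h5, h6, h7⟩ := E.theta
  exact ⟨θ, t, ⟨h1, h2, h3, h4, h5, h6, h7⟩⟩

/-- products of two elements of degree one -/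
theorem mul11 {x y : End K V} (hx : x ∈ g1 g c f) (hy : y ∈ g1 g c f) :
    c * f * (x * y) = x * y ∧ x * y * (f * c) = x * y := by
  constructor
  · conv_rhs => rw [← hx.2.2.2]
    rw [add_mul, mul_assoc x, hy.2.2.1, mul_zero, add_zero, ← mul_assoc]
  · conv_rhs => rw [← hy.2.2.2]
    rw [mul_add, ← mul_assoc x (c * f) y, hx.2.1, zero_mul, zero_add, mul_assoc]

theorem fxQ {x : End K V} (hx : x ∈ g1 g c f) : f * x * (f * c) = 0 := by
  have h2 : x * (f * c) = x - c * f * x := by
    rw [eq_sub_iff_add_eq, add_comm]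
    exact hx.2.2.2
  rw [mul_assoc, h2, mul_sub, ← mul_assoc f (c * f) x, E.fP, sub_self]

variable {θ : End K V} {t : K} (H : Th g c f θ t)
include H

theorem th0 : θ ∈ g0 g c f := ⟨H.mem, by
  rw [H.P, mul_assoc, H.comf, ← mul_assoc, H.comc, mul_assoc, H.P], by
  rw [H.Q, mul_assoc, H.comc, ← mul_assoc, H.comf, mul_assoc, H.Q]⟩

theorem tr_key {x y : End K V} (hx : x ∈ g1 g c f) (hy : y ∈ g1 g c f) :
    LinearMap.trace K V ((θ * x - x * θ) * (f * y - y * f)) =
      -(LinearMap.trace K V (x * y * f) + LinearMap.trace K V (y * x * f)) := by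
  obtain ⟨w, hw⟩ : ∃ w, w = f * y - y * f := ⟨_, rfl⟩
  rw [← hw]
  have hwm : w ∈ g1 g f c := by
    rw [hw]
    exact E.comf1 hy
  have h1 : LinearMap.trace K V ((θ * x - x * θ) * w) =
      LinearMap.trace K V ((x * w - w * x) * θ) := by
    rw [sub_mul, sub_mul, map_sub, map_sub, mul_assoc θ, LinearMap.trace_mul_comm K θ,
      LinearMap.trace_mul_comm K (x * θ) w, ← mul_assoc w x θ]
  have h2 : LinearMap.trace K V (x * w - w * x) = 0 := by
    rw [map_sub, LinearMap.trace_mul_comm, sub_self]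
  have hwP : w * (c * f) = -(y * f) := by
    rw [hw, sub_mul, mul_assoc f, hy.2.1, mul_zero, zero_sub, mul_assoc y, E.fP]
  have h3 : (x * w - w * x) * (c * f + f * c) = -(x * y * f) - f * (y * x) := by
    have e1 : x * w * (c * f) = -(x * y * f) := by
      rw [mul_assoc, hwP, mul_neg, mul_assoc]
    have e2 : x * w * (f * c) = 0 := by rw [mul_assoc, hwm.2.1, mul_zero]
    have e3 : w * x * (c * f) = 0 := by rw [mul_assoc, hx.2.1, mul_zero]
    have e4 : w * x * (f * c) = f * (y * x) := by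
      rw [hw, sub_mul, sub_mul, mul_assoc f y x, mul_assoc f (y * x), (E.mul11 hy hx).2,
        mul_assoc y f x, mul_assoc y (f * x), E.fxQ hx, mul_zero, sub_zero]
    rw [mul_add, sub_mul, sub_mul, e1, e2, e3, e4]
    abel
  rw [h1, H.tr _ (E.lie x hx.1 w hwm.1), h2, h3, map_sub, map_neg,
    LinearMap.trace_mul_comm K f (y * x)]
  ring

/-- An eigenvector with nonzero eigenvalue. -/
theorem th_eig {s : K} (hs : s ≠ 0) {x : End K V} (hx : x ∈ g1 g c f) (hxs : x ∈ gE θ s) :
    ∀ y ∈ g1 g c f, ∃ r : K, x * y * f = r • (c * f) := by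
  by_cases hx0 : x = 0
  · intro y _
    exact ⟨0, by rw [hx0, zero_mul, zero_mul, zero_smul]⟩
  have hθ0 := E.th0 H
  have h2s : s + s ≠ 0 := by
    rw [← two_mul]
    exact mul_ne_zero two_ne_zero hs
  have hθP : c * f * θ = 0 := by rw [hθ0.2.1, H.P]
  have hθQ : f * c * θ = 0 := by rw [hθ0.2.2, H.Q]
  have hxx : x * x = 0 := by
    refine gE_comm (gE_mul hxs hxs) ?_ h2s
    have e1 : θ * (x * x) = 0 := by
      rw [← (E.mul11 hx hx).1, ← mul_assoc, H.P, zero_mul]
    have e2 : x * x * θ = 0 := by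
      rw [← (E.mul11 hx hx).2, mul_assoc, hθQ, mul_zero]
    rw [e1, e2]
  have hq0 : x * f * x ∈ g0 g c f := by
    refine ⟨E.quad hx.1 hxx E.fg, ?_, ?_⟩
    · have e1 : c * f * (x * f * x) = 0 := by
        have h1 : c * f * x = x - x * (f * c) := eq_sub_of_add_eq hx.2.2.2
        rw [mul_assoc x f x, ← mul_assoc (c * f) x, h1, sub_mul, mul_assoc x (f * c) (f * x),
          ← mul_assoc (f * c) f x, E.Qf, sub_self]
      rw [e1, mul_assoc (x * f), hx.2.1, mul_zero]
    · have e1 : x * f * x * (f * c) = 0 := by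
        rw [mul_assoc x f x, mul_assoc x (f * x), E.fxQ hx, mul_zero]
      rw [e1, mul_assoc x f x, ← mul_assoc (f * c) x, hx.2.2.1, zero_mul]
  have hxfx : x * f * x = 0 := by
    refine gE_comm (gE_mul (gE_mul hxs (gE_zero H.comf.symm)) hxs) (H.com0 _ hq0).symm ?_
    rw [add_zero]
    exact h2s
  rcases E.types hx hxfx with h | h
  · exact h
  · exfalso
    have h1 : θ * x - x * θ = 0 := by
      refine E.nd1 (E.com01 hθ0 hx) fun w hw => ?_
      obtain ⟨y, hy, rfl⟩ := E.exists_comf hw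
      rw [E.tr_key H hx hy, h y hy, neg_zero]
    exact hx0 (gE_comm hxs (sub_eq_zero.1 h1) hs)

/-- If there is a nonzero eigenvalue then all elements of degree one have the property. -/
theorem th_all {s : K} (hs : s ≠ 0) {x : End K V} (hx : x ∈ g1 g c f) (hxs : x ∈ gE θ s)
    (hx0 : x ≠ 0) : ∀ v ∈ g1 g c f, ∀ y ∈ g1 g c f, ∃ r : K, v * y * f = r • (c * f) := by
  have hθ0 := E.th0 H
  have hst : ∀ z ∈ g1 g c f, θ * z - z * θ ∈ g1 g c f := fun z hz => E.com01 hθ0 hz
  -- a partner of `x`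
  obtain ⟨r, y, hy, hyr, hne⟩ : ∃ r : K, ∃ y ∈ g1 g c f, y ∈ gE θ r ∧
      LinearMap.trace K V (x * (f * y - y * f)) ≠ 0 := by
    by_contra hcon
    push Not at hcon
    refine hx0 (E.nd1 hx fun w hw => ?_)
    obtain ⟨y, hy, rfl⟩ := E.exists_comf hw
    exact gE_induction (p := fun y => LinearMap.trace K V (x * (f * y - y * f)) = 0) hst
      (by simp) (fun a b ha hb => by
        have h1 : x * (f * (a + b) - (a + b) * f) = x * (f * a - a * f) + x * (f * b - b * f) := by
          noncomm_ring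
        rw [h1, map_add, ha, hb, add_zero]) (fun r y hy hyr => hcon r y hy hyr) hy
  obtain ⟨ω, hω⟩ := E.com11 hx hy
  have hω0 : ω ≠ 0 := by
    intro h
    apply hne
    rw [mul_sub, map_sub, ← mul_assoc, ← mul_assoc, LinearMap.trace_mul_comm K (x * f) y,
      ← mul_assoc, ← neg_sub, ← map_sub, ← sub_mul, hω, h, zero_smul, zero_mul, map_zero, neg_zero]
  have hr : s + r = 0 := by
    by_contra h
    have h1 : x * y - y * x ∈ gE θ (s + r) := by
      refine (gE θ (s + r)).sub_mem (gE_mul hxs hyr) ?_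
      rw [add_comm s r]
      exact gE_mul hyr hxs
    have h2 : x * y - y * x = 0 := by
      refine gE_comm h1 ?_ h
      rw [hω, mul_smul_comm, smul_mul_assoc, H.comc]
    rw [hω] at h2
    exact (smul_ne_zero hω0 E.c0) h2
  have hr0 : r ≠ 0 := by
    rintro rfl
    rw [add_zero] at hr
    exact hs hr
  -- the component with eigenvalue zero
  have hzero : ∀ v ∈ g1 g c f, v ∈ gE θ 0 → v = 0 := by
    intro v hv hv0
    obtain ⟨w, hw⟩ : ∃ w, w = f * v - v * f := ⟨_, rfl⟩
    have hwm : w ∈ g1 g f c := by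
      rw [hw]
      exact E.comf1 hv
    have hw0 : w ∈ gE θ 0 := by
      rw [hw]
      have h1 := gE_mul (gE_zero (θ := θ) (x := f) H.comf.symm) hv0
      have h2 := gE_mul hv0 (gE_zero (θ := θ) (x := f) H.comf.symm)
      rw [add_zero] at h1 h2
      exact (gE θ 0).sub_mem h1 h2
    have hcom : ∀ (q : K) (z : End K V), z ∈ g1 g c f → z ∈ gE θ q → q ≠ 0 → z * w = w * z := by
      intro q z hz hzq hq
      have h1 := gE_mul hzq hw0
      have h2 := gE_mul hw0 hzq
      rw [add_zero] at h1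
      rw [zero_add] at h2
      exact sub_eq_zero.1 (gE_comm ((gE θ q).sub_mem h1 h2) (H.com0 _ (E.com1m hz hwm)).symm hq)
    have h1 := hcom s x hx hxs hs
    have h2 := hcom r y hy hyr hr0
    have h3 : (x * y - y * x) * w = w * (x * y - y * x) := by
      rw [sub_mul, mul_sub, mul_assoc, h2, ← mul_assoc, h1, mul_assoc, mul_assoc y, h1,
        ← mul_assoc y, h2, mul_assoc w y x]
    rw [hω, smul_mul_assoc, mul_smul_comm] at h3
    have h4 : c * w - w * c = 0 := by
      rw [← sub_eq_zero, ← smul_sub] at h3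
      exact (smul_eq_zero.1 h3).resolve_left hω0
    have h5 := E.comcf hv
    rw [← hw, h4] at h5
    exact h5.symm
  intro v hv
  refine gE_induction (p := fun v => ∀ y ∈ g1 g c f, ∃ r : K, v * y * f = r • (c * f)) hst
    (fun y _ => ⟨0, by rw [zero_mul, zero_mul, zero_smul]⟩) (fun a b ha hb y hy => ?_)
    (fun q z hz hzq => ?_) hv
  · obtain ⟨r1, h1⟩ := ha y hy
    obtain ⟨r2, h2⟩ := hb y hy
    exact ⟨r1 + r2, by rw [add_mul, add_mul, h1, h2, add_smul]⟩
  · by_cases hq : q = 0
    · rw [hq] at hzq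
      rw [hzero z hz hzq]
      exact fun y _ => ⟨0, by rw [zero_mul, zero_mul, zero_smul]⟩
    · exact E.th_eig H hq hz hzq

omit H in
/-- The elements of degree zero do not all act by scalars on the component of degree one. -/
theorem not_scalar0 : ¬ ∀ z ∈ g0 g c f, ∃ r : K, z * (c * f) = r • (c * f) := by
  intro h
  have hfix : ∀ a ∈ LinearMap.range (c * f), (c * f) a = a := by
    rintro _ ⟨w, rfl⟩
    exact LinearMap.congr_fun E.PP w
  have h2 : finrank K (LinearMap.range (c * f)) = 2 := E.rkP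
  have hnt : Nontrivial (LinearMap.range (c * f)) := by
    rw [← finrank_pos_iff (R := K)]
    omega
  obtain ⟨⟨a, ha⟩, ha0⟩ := exists_ne (0 : LinearMap.range (c * f))
  replace ha0 : a ≠ 0 := fun h => ha0 (Subtype.ext h)
  have h3 : (K ∙ a) ≤ LinearMap.range (c * f) := by
    rw [Submodule.span_singleton_le_iff_mem]
    exact ha
  have h4 := finrank_span_singleton (K := K) ha0
  rcases E.top_irr h3 (fun z hz b hb => by
    obtain ⟨r, hr⟩ := h z hz
    have h5 : z b = r • b := by
      have h6 := LinearMap.congr_fun hr b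
      rw [Module.End.mul_apply, LinearMap.smul_apply, hfix b (h3 hb)] at h6
      exact h6
    rw [h5]
    exact Submodule.smul_mem _ _ hb) with h5 | h5
  · rw [Submodule.span_singleton_eq_bot] at h5
    exact ha0 h5
  · rw [h5, h2] at h4
    exact absurd h4 (by norm_num)

omit H in
/-- the last step -/
theorem scalar_all (hsimple : ∀ s : Submodule K (End K V), s ≤ g →
      (∀ x ∈ g, ∀ z ∈ s, x * z - z * x ∈ s) → (∀ z ∈ s, LinearMap.trace K V z = 0) → s ≠ ⊥ →
      ∀ x ∈ g, ∃ a ∈ s, ∃ k : K, x = a + k • 1)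
    (hall : ∀ v ∈ g1 g c f, ∀ y ∈ g1 g c f, ∃ r : K, v * y * f = r • (c * f)) : False := by
  -- products of degree one and minus one on the component of degree one
  have hall' : ∀ v ∈ g1 g c f, ∀ w ∈ g1 g f c, ∃ r : K, v * w * (c * f) = r • (c * f) := by
    intro v hv w hw
    obtain ⟨y, hy, rfl⟩ := E.exists_comf hw
    obtain ⟨r, hr⟩ := hall v hv y hy
    refine ⟨-r, ?_⟩
    rw [mul_assoc, sub_mul, mul_assoc f, hy.2.1, mul_zero, zero_sub, mul_assoc y, E.fP, mul_neg,
      ← mul_assoc, hr, neg_smul]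
  let S : Submodule K (End K V) :=
    { carrier := {z | z ∈ g ∧ LinearMap.trace K V z = 0 ∧ ∃ r : K, c * f * z * (c * f) =
        r • (c * f)}
      add_mem' := by
        rintro a b ⟨h1, h2, r, h3⟩ ⟨h4, h5, r', h6⟩
        exact ⟨g.add_mem h1 h4, by rw [map_add, h2, h5, add_zero], r + r', by
          rw [mul_add, add_mul, h3, h6, add_smul]⟩
      zero_mem' := ⟨g.zero_mem, map_zero _, 0, by rw [mul_zero, zero_mul, zero_smul]⟩
      smul_mem' := by
        rintro k a ⟨h1, h2, r, h3⟩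
        exact ⟨g.smul_mem k h1, by rw [map_smul, h2, smul_zero], k * r, by
          rw [mul_smul_comm, smul_mul_assoc, h3, smul_smul]⟩ }
  have hS : ∀ z, z ∈ S ↔ z ∈ g ∧ LinearMap.trace K V z = 0 ∧ ∃ r : K, c * f * z * (c * f) =
      r • (c * f) := fun z => Iff.rfl
  -- a product of two elements
  have hprod : ∀ D ∈ g, ∀ z ∈ g, ∃ r : K, c * f * (D * z) * (c * f) =
      c * f * D * (c * f) * (c * f * z * (c * f)) + r • (c * f) := by
    intro D hD z hz
    obtain ⟨α, hα⟩ := E.two hD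
    obtain ⟨δ, hδ⟩ := E.mtwo hz
    obtain ⟨r, hr⟩ := hall' _ (E.mem1 hD) _ (E.memm hz)
    refine ⟨α * δ + r, ?_⟩
    have h1 : c * f * (D * z) * (c * f) = c * f * D * (c * f) * (c * f * z * (c * f)) +
        c * f * D * (f * c) * (f * c * z * (c * f)) +
        c * f * D * (1 - c * f - f * c) * ((1 - c * f - f * c) * z * (c * f)) := by
      set P := c * f with hP
      set Q := f * c with hQ
      have PP : P * P = P := E.PP
      have QQ : Q * Q = Q := E.QQ
      have PQ : P * Q = 0 := E.PQ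
      have QP : Q * P = 0 := E.QP
      have PPa : ∀ a, P * (P * a) = P * a := fun a => by rw [← mul_assoc, PP]
      have QQa : ∀ a, Q * (Q * a) = Q * a := fun a => by rw [← mul_assoc, QQ]
      have PQa : ∀ a, P * (Q * a) = 0 := fun a => by rw [← mul_assoc, PQ, zero_mul]
      have QPa : ∀ a, Q * (P * a) = 0 := fun a => by rw [← mul_assoc, QP, zero_mul]
      simp only [mul_sub, sub_mul, mul_one, one_mul, mul_assoc, PPa, QQa, PQa, QPa, mul_zero]
      abel
    have h2 : c * f * D * (f * c) * (f * c * z * (c * f)) = (α * δ) • (c * f) := by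
      rw [hα, hδ, smul_mul_smul_comm]
    have h3 : c * f * D * (1 - c * f - f * c) * ((1 - c * f - f * c) * z * (c * f)) =
        r • (c * f) := by
      rw [← hr]
      set P := c * f with hP
      set Q := f * c with hQ
      have PP : P * P = P := E.PP
      have QQ : Q * Q = Q := E.QQ
      have PQ : P * Q = 0 := E.PQ
      have QP : Q * P = 0 := E.QP
      have PPa : ∀ a, P * (P * a) = P * a := fun a => by rw [← mul_assoc, PP]
      have QQa : ∀ a, Q * (Q * a) = Q * a := fun a => by rw [← mul_assoc, QQ]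
      have PQa : ∀ a, P * (Q * a) = 0 := fun a => by rw [← mul_assoc, PQ, zero_mul]
      have QPa : ∀ a, Q * (P * a) = 0 := fun a => by rw [← mul_assoc, QP, zero_mul]
      simp only [mul_sub, sub_mul, mul_add, add_mul, mul_one, one_mul, mul_assoc, PPa, QQa, PQa,
        QPa, PP, QP, mul_zero, zero_mul]
      abel
    rw [h1, h2, h3, add_smul, add_assoc]
  have hne : S ≠ ⊥ := by
    intro h
    have h1 : c ∈ S := by
      rw [hS]
      refine ⟨E.cg, ?_, 0, ?_⟩
      · have h1 := E.tr0c E.one0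
        rwa [one_mul] at h1
      · rw [E.Pc, E.cP, zero_smul]
    rw [h, Submodule.mem_bot] at h1
    exact E.c0 h1
  have hfin := hsimple S (fun z hz => hz.1) (by
    rintro D hD z ⟨hz, htz, r, hr⟩
    refine ⟨E.lie D hD z hz, by rw [map_sub, LinearMap.trace_mul_comm, sub_self], ?_⟩
    obtain ⟨r1, h1⟩ := hprod D hD z hz
    obtain ⟨r2, h2⟩ := hprod z hz D hD
    refine ⟨r1 - r2, ?_⟩
    have h3 : c * f * D * (c * f) * (c * f) = c * f * D * (c * f) := by
      rw [mul_assoc, E.PP]
    have h4 : c * f * (c * f * D * (c * f)) = c * f * D * (c * f) := by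
      simp only [← mul_assoc]
      rw [E.cfc]
    rw [mul_sub, sub_mul, h1, h2, hr, mul_smul_comm, smul_mul_assoc, h3, h4, sub_smul]
    abel) (fun z hz => hz.2.1) hne
  refine E.not_scalar0 fun z hz => ?_
  obtain ⟨a, ⟨ha, hta, r, hr⟩, k, rfl⟩ := hfin z hz.1
  refine ⟨r + k, ?_⟩
  have h1 : (a + k • 1) * (c * f) = c * f * (a + k • 1) * (c * f) := by
    rw [hz.2.1, mul_assoc, E.PP]
  rw [h1, mul_add, add_mul, hr, mul_smul_comm, mul_one, smul_mul_assoc, E.PP, add_smul]

/-- **The central element is zero.** -/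
theorem th_zero (hsimple : ∀ s : Submodule K (End K V), s ≤ g →
      (∀ x ∈ g, ∀ z ∈ s, x * z - z * x ∈ s) → (∀ z ∈ s, LinearMap.trace K V z = 0) → s ≠ ⊥ →
      ∀ x ∈ g, ∃ a ∈ s, ∃ k : K, x = a + k • 1) : θ = 0 := by
  have hθ0 := E.th0 H
  by_cases hcase : ∃ s : K, s ≠ 0 ∧ ∃ x ∈ g1 g c f, x ∈ gE θ s ∧ x ≠ 0
  · obtain ⟨s, hs, x, hx, hxs, hx0⟩ := hcase
    exact (E.scalar_all hsimple (E.th_all H hs hx hxs hx0)).elim
  push Not at hcase
  have hst : ∀ z ∈ g1 g c f, θ * z - z * θ ∈ g1 g c f := fun z hz => E.com01 hθ0 hz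
  have h1 : ∀ x ∈ g1 g c f, x ∈ gE θ 0 := fun x hx =>
    gE_induction (p := fun x => x ∈ gE θ 0) hst (gE θ 0).zero_mem
      (fun a b ha hb => (gE θ 0).add_mem ha hb) (fun s z hz hzs => by
        by_cases hs : s = 0
        · rwa [hs] at hzs
        · rw [hcase s hs z hz hzs]
          exact (gE θ 0).zero_mem) hx
  have hf0 : f ∈ gE θ 0 := gE_zero H.comf.symm
  have hc0 : c ∈ gE θ 0 := gE_zero H.comc.symm
  have hm : ∀ w ∈ g1 g f c, w ∈ gE θ 0 := by
    intro w hw
    obtain ⟨y, hy, rfl⟩ := E.exists_comf hw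
    have h2 := gE_mul hf0 (h1 y hy)
    have h3 := gE_mul (h1 y hy) hf0
    rw [add_zero] at h2 h3
    exact (gE θ 0).sub_mem h2 h3
  have hg : ∀ x ∈ g, x ∈ gE θ 0 := by
    intro x hx
    obtain ⟨x0, hx0, x1, hx1, y1, hy1, s, s', rfl⟩ := E.decomp hx
    exact (gE θ 0).add_mem ((gE θ 0).add_mem ((gE θ 0).add_mem ((gE θ 0).add_mem
      (gE_zero (H.com0 x0 hx0).symm) (h1 x1 hx1)) (hm y1 hy1)) ((gE θ 0).smul_mem s hc0))
      ((gE θ 0).smul_mem s' hf0)
  -- `θ` is nilpotent
  have htop : θ.maxGenEigenspace 0 = ⊤ := by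
    rcases E.irr (θ.maxGenEigenspace 0) (fun x hx w hw => by
      have h2 := gE_apply (hg x hx) hw
      rwa [add_zero] at h2) with h | h
    · exfalso
      have h2 : LinearMap.range (c * f) ≤ θ.maxGenEigenspace 0 := by
        rintro _ ⟨w, rfl⟩
        rw [Module.End.mem_maxGenEigenspace]
        refine ⟨1, ?_⟩
        rw [pow_one, zero_smul, sub_zero, ← Module.End.mul_apply, H.P, LinearMap.zero_apply]
      rw [h, le_bot_iff, LinearMap.range_eq_bot] at h2
      have h3 := E.trc
      rw [h2, map_zero] at h3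
      exact two_ne_zero h3.symm
    · exact h
  have hnil : IsNilpotent θ := by
    have h2 := Module.End.maxGenEigenspace_eq θ (0 : K)
    rw [htop] at h2
    refine ⟨θ.maxGenEigenspaceIndex 0, ?_⟩
    have h3 : LinearMap.ker ((θ - (0 : K) • 1) ^ (θ.maxGenEigenspaceIndex 0)) = ⊤ := by
      rw [← Module.End.genEigenspace_nat, ← h2]
    rw [LinearMap.ker_eq_top, zero_smul, sub_zero] at h3
    exact h3
  have h2 : ∀ z ∈ g0 g c f, LinearMap.trace K V (θ * z) = 0 := by
    intro z hz
    have h3 : Commute θ z := (H.com0 z hz).symm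
    have h4 : IsNilpotent (θ * z) := h3.isNilpotent_mul_right hnil
    have h5 := LinearMap.isNilpotent_trace_of_isNilpotent h4
    exact h5.eq_zero
  exact E.nd0 hθ0 h2

/-- The trace of `P + Q`. -/
theorem tr_PQ (hsimple : ∀ s : Submodule K (End K V), s ≤ g →
      (∀ x ∈ g, ∀ z ∈ s, x * z - z * x ∈ s) → (∀ z ∈ s, LinearMap.trace K V z = 0) → s ≠ ⊥ →
      ∀ x ∈ g, ∃ a ∈ s, ∃ k : K, x = a + k • 1) : ∀ z ∈ g,
      LinearMap.trace K V (z * (c * f)) + LinearMap.trace K V (z * (f * c)) =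
        t * LinearMap.trace K V z := by
  intro z hz
  have h1 := H.tr z hz
  rw [E.th_zero H hsimple, mul_zero, map_zero, mul_add, map_add] at h1
  linear_combination -h1

end Ex

end Pool.Agent.FQA
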