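import Pool.Agent.FQA.CapB
import Pool.Agent.Tube.CliffForm

/-!
# Capacity two: the form if the exponent of the rank is even
-/

set_option autoImplicit false
set_option linter.unusedSectionVars false

namespace Pool.Agent.FQA

open Module Pool.Agent.SmallRank

variable {K V : Type*} [Field K] [CharZero K] [IsAlgClosed K] [AddCommGroup V] [Module K V]
  [FiniteDimensional K V]

/-- If the elements of degree one and minus one are skew then all elements are similitudes. -/
theorem sim_of_ud {g : Submodule K (End K V)} {e : End K V} (G : Gr g e)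
    {B : V →ₗ[K] V →ₗ[K] K} (hu : ∀ x ∈ up g e, ∀ a b, B (x a) b + B a (x b) = 0)
    (hd : ∀ x ∈ dn g e, ∀ a b, B (x a) b + B a (x b) = 0) :
    ∀ x ∈ g, ∃ κ : K, ∀ a b, B (x a) b + B a (x b) = κ * B a b := by
  intro x hx
  obtain ⟨κ, hκ⟩ := zero_span G (G.zero_mem hx) (G.zero_comm x)
  have h1 : ∀ s ∈ Submodule.span K {d | ∃ x ∈ up g e, ∃ y ∈ dn g e, d = x * y - y * x},
      ∀ a b, B (s a) b + B a (s b) = 0 := by
    intro s hs
    induction hs using Submodule.span_induction with
    | mem d hd' =>
      obtain ⟨x, hx, y, hy, rfl⟩ := hd'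
      exact skew_comm (α := 0) (β := 0) (fun a b => by rw [zero_mul, hu x hx])
        (fun a b => by rw [zero_mul, hd y hy])
    | zero =>
      intro a b
      rw [LinearMap.zero_apply, LinearMap.zero_apply, map_zero, map_zero, LinearMap.zero_apply,
        add_zero]
    | add p q _ _ hp hq =>
      intro a b
      rw [LinearMap.add_apply, LinearMap.add_apply, map_add, map_add, LinearMap.add_apply]
      linear_combination hp a b + hq a b
    | smul k p _ hp =>
      intro a b
      rw [LinearMap.smul_apply, LinearMap.smul_apply, map_smul, map_smul, LinearMap.smul_apply,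
        ← smul_add, hp, smul_zero]
  refine ⟨2 * κ, fun a b => ?_⟩
  have e1 := hu _ (G.up_mem hx) a b
  have e2 := hd _ (G.dn_mem hx) a b
  have e3 := h1 _ hκ a b
  obtain ⟨u, hu'⟩ : ∃ u, u = e * x * (1 - e) := ⟨_, rfl⟩
  obtain ⟨d, hd'⟩ : ∃ d, d = (1 - e) * x * e := ⟨_, rfl⟩
  obtain ⟨z, hz'⟩ : ∃ z, z = e * x * e + (1 - e) * x * (1 - e) := ⟨_, rfl⟩
  have hx' : x = u + d + z := by rw [hu', hd', hz']; exact G.decomp x
  rw [← hu'] at e1
  rw [← hd'] at e2
  rw [← hz'] at e3
  rw [hx']
  simp only [LinearMap.add_apply, LinearMap.sub_apply, LinearMap.smul_apply, Module.End.one_apply,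
    map_add, map_sub, map_smul, smul_eq_mul] at e1 e2 e3 ⊢
  linear_combination e1 + e2 + e3

namespace Two

variable {g : Submodule K (End K V)} {e c f x y : End K V}

theorem p_J (T : Two g e c f x y) : (1 - e : End K V) ∈ J g e (c + x) :=
  ⟨T.G.idem', T.G.idem', by rw [T.up_p T.hu]; exact T.hu.1⟩

/-- every element of `J` is the sum of an element of trace zero and a multiple of `1 - e` -/
theorem J_dec (T : Two g e c f x y) {s : End K V} (hs : s ∈ J g e (c + x)) :
    ∃ κ : K, s - κ • (1 - e : End K V) ∈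
      J g e (c + x) ⊓ LinearMap.ker (LinearMap.trace K V) := by
  have hp0 : (1 - e : End K V) ≠ 0 := fun h => T.G.ne1 (sub_eq_zero.1 h).symm
  have hr : (rk (1 - e) : K) ≠ 0 := by
    exact_mod_cast (rk_pos hp0).ne'
  refine ⟨LinearMap.trace K V s / (rk (1 - e) : K), Submodule.sub_mem _ hs
    (Submodule.smul_mem _ _ T.p_J), ?_⟩
  change LinearMap.trace K V _ = 0
  rw [map_sub, map_smul, trace_idem T.G.idem', smul_eq_mul, div_mul_cancel₀ _ hr, sub_self]

theorem dn_J (T : Two g e c f x y) {b : End K V} (hb : b ∈ dn g e) :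
    b * (c + x) ∈ J g e (c + x) := by
  refine ⟨by rw [← mul_assoc, T.p_dn hb], by rw [mul_assoc, T.up_p T.hu], ?_⟩
  rw [← mul_assoc]
  exact (T.G.quad_up T.hu hb.1).1

theorem cl (T : Two g e c f x y) :
    Tube.Cl (1 - e) (Two.J g e (c + x) ⊓ LinearMap.ker (LinearMap.trace K V)) := by
  have hp0 : (1 - e : End K V) ≠ 0 := fun h => T.G.ne1 (sub_eq_zero.1 h).symm
  have hfix : ∀ w ∈ LinearMap.range (1 - e : End K V), (1 - e : End K V) w = w := by
    rintro w ⟨v, rfl⟩
    exact LinearMap.congr_fun T.G.idem' v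
  exact
    { pp := T.G.idem'
      p0 := hp0
      ps := fun s hs => hs.1.1
      sp := fun s hs => hs.1.2.1
      sq := fun s hs => T.sq_S hs.1 hs.2
      irr := by
        intro W hW hS
        have hJ : ∀ s ∈ Two.J g e (c + x), ∀ w ∈ W, s w ∈ W := by
          intro s hs w hw
          obtain ⟨κ, h1⟩ := T.J_dec hs
          have h2 := hS _ h1 w hw
          rw [LinearMap.sub_apply, LinearMap.smul_apply, hfix w (hW hw)] at h2
          have h3 := W.add_mem h2 (W.smul_mem κ hw)
          rwa [sub_add_cancel] at h3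
        have hU := T.G.irr_ud (U := W ⊔ W.map (c + x)) (by
            intro a ha w hw
            obtain ⟨w1, hw1, w2, hw2, rfl⟩ := Submodule.mem_sup.1 hw
            obtain ⟨w3, hw3, rfl⟩ := hw2
            have h1 : a ((c + x) w3) = 0 := by
              rw [← Module.End.mul_apply, Gr.up_mul_up ha T.hu, LinearMap.zero_apply]
            have h2 : a w1 = (c + x) (((f + y) * a) w1) := by
              rw [← Module.End.mul_apply, ← mul_assoc, T.uu, ha.2.1]
            rw [map_add, h1, add_zero, h2]
            exact Submodule.mem_sup_right ⟨_, hJ _ (T.up_J ha) w1 hw1, rfl⟩) (by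
            intro b hb w hw
            obtain ⟨w1, hw1, w2, hw2, rfl⟩ := Submodule.mem_sup.1 hw
            obtain ⟨w3, hw3, rfl⟩ := hw2
            have h1 : b w1 = 0 := by
              rw [← hfix w1 (hW hw1), ← Module.End.mul_apply, mul_sub, mul_one, hb.2.2,
                sub_self, LinearMap.zero_apply]
            rw [map_add, h1, zero_add]
            exact Submodule.mem_sup_left (hJ _ (T.dn_J hb) w3 hw3))
        rcases hU with hU | hU
        · left
          rw [eq_bot_iff, ← hU]
          exact le_sup_left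
        · right
          refine le_antisymm hW fun v hv => ?_
          have h1 : v ∈ W ⊔ W.map (c + x) := by rw [hU]; exact Submodule.mem_top
          obtain ⟨w1, hw1, w2, hw2, hv2⟩ := Submodule.mem_sup.1 h1
          obtain ⟨w3, hw3, rfl⟩ := hw2
          have h2 : (1 - e : End K V) ((c + x) w3) = 0 := by
            rw [← Module.End.mul_apply, sub_mul, one_mul, T.hu.2.1, sub_self,
              LinearMap.zero_apply]
          have h3 : v = w1 := by
            rw [← hfix v hv, ← hv2, map_add, h2, add_zero, hfix w1 (hW hw1)]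
          rw [h3]
          exact hw1 }

/-- **The form.** -/
theorem exists_form (T : Two g e c f x y) {j : ℕ} (hj : rk (1 - e) = 2 ^ j) (hev : Even j) :
    ∃ B : V →ₗ[K] V →ₗ[K] K,
      (∀ x ∈ g, ∃ κ : K, ∀ a b, B (x a) b + B a (x b) = κ * B a b) ∧
        ∀ x, (∀ y, B x y = 0) → x = 0 := by
  obtain ⟨q, F⟩ := Tube.Cl.exists_fn j _ _ T.cl hj
  rw [hev.neg_one_pow] at F
  obtain ⟨B, hB⟩ : ∃ B : V →ₗ[K] V →ₗ[K] K, ∀ v w, B v w =
      q ((f + y) v) w - q v ((f + y) w) :=
    ⟨q.comp (f + y) - q.compl₂ (f + y), fun v w => rfl⟩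
  -- the elements of `J` are selfadjoint
  have hsa : ∀ s ∈ J g e (c + x), ∀ v w, q (s v) w = q v (s w) := by
    intro s hs v w
    obtain ⟨κ, h1⟩ := T.J_dec hs
    have h2 := F.ads _ h1 v w
    rw [one_mul] at h2
    have h3 := F.adp v w
    obtain ⟨p, hp⟩ : ∃ p : End K V, p = 1 - e := ⟨_, rfl⟩
    rw [← hp] at h2 h3
    simp only [LinearMap.sub_apply, LinearMap.smul_apply, map_sub, map_smul, smul_eq_mul] at h2
    linear_combination h2 + κ * h3
  have hu'p : ∀ v, (1 - e : End K V) ((f + y) v) = (f + y) v := fun v =>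
    LinearMap.congr_fun (T.p_dn T.hu') v
  refine ⟨B, sim_of_ud T.G (fun a ha v w => ?_) (fun b hb v w => ?_), fun v hv => ?_⟩
  · -- degree one
    have h1 := hsa _ (T.up_J ha) v w
    rw [Module.End.mul_apply, Module.End.mul_apply] at h1
    have h2 : ∀ v, (1 - e : End K V) (a v) = 0 := fun v => by
      rw [← Module.End.mul_apply, sub_mul, one_mul, ha.2.1, sub_self, LinearMap.zero_apply]
    have h3 : q (a v) ((f + y) w) = 0 := by
      rw [← hu'p w, ← F.adp, h2, map_zero, LinearMap.zero_apply]
    have h4 : q ((f + y) v) (a w) = 0 := by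
      rw [← hu'p v, F.adp, h2, map_zero]
    rw [hB, hB, h3, h4, h1]
    ring
  · -- degree minus one
    have h1 := hsa _ (T.dn_J hb) ((f + y) v) ((f + y) w)
    have h2 : ∀ v, (b * (c + x)) ((f + y) v) = b v := fun v => by
      rw [← Module.End.mul_apply, mul_assoc, T.uu, hb.2.2]
    rw [h2, h2] at h1
    have h3 : ∀ v, (f + y) (b v) = 0 := fun v => by
      rw [← Module.End.mul_apply, Gr.dn_mul_dn T.hu' hb, LinearMap.zero_apply]
    rw [hB, hB, h3, h3, map_zero, map_zero, LinearMap.zero_apply, h1]
    ring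
  · -- nondegenerate
    have h1 : ∀ w, q ((f + y) v) w = 0 := by
      intro w
      have h2 := hv ((1 - e : End K V) w)
      have h3 : (f + y) ((1 - e : End K V) w) = 0 := by
        rw [← Module.End.mul_apply, mul_sub, mul_one, T.hu'.2.2, sub_self, LinearMap.zero_apply]
      rw [hB, h3, map_zero, sub_zero, ← F.adp, hu'p] at h2
      exact h2
    have h2 : (f + y) v = 0 := by
      rw [← hu'p v]
      exact F.nd _ h1
    have h3 : ∀ w, q ((1 - e : End K V) v) w = 0 := by
      intro w
      have h4 := hv ((c + x) w)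
      rw [hB, h2, map_zero, LinearMap.zero_apply, zero_sub, neg_eq_zero,
        ← Module.End.mul_apply, T.uu', ← F.adp] at h4
      exact h4
    have h4 : (1 - e : End K V) v = 0 := by
      have h5 := F.nd _ h3
      rwa [← Module.End.mul_apply, T.G.idem'] at h5
    have h5 : e v = 0 := by
      rw [← T.uu, Module.End.mul_apply, h2, map_zero]
    rw [LinearMap.sub_apply, Module.End.one_apply, h5, sub_zero] at h4
    exact h4

end Two

end Pool.Agent.FQA
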