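import Pool.Agent.FQA.KindN
import Pool.Agent.SmallRank.LettOdd
import Pool.Agent.CoprimeSig.Simul

/-!
# The middle exterior power has an invariant form

`Lt g N E` (`Pool/Agent/SmallRank/Lett.lean`) with `2 k` letters and `∑ N i = k`: `V` is the middle
exterior power of the standard representation, the weights are the sets of `k` letters and the
complement gives an invariant form by `TD.form_of_inv`. So in `nf_of_gr` there is no condition on
the binomial coefficients.
-/

set_option autoImplicit false
set_option linter.unusedSectionVars false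

namespace Pool.Agent.FQA

open Module Pool.Agent.SmallRank Pool.Agent.CoprimeSig
open Pool.Agent.NumRank (Lv)

variable {K V : Type*} [Field K] [CharZero K] [IsAlgClosed K] [AddCommGroup V] [Module K V]
  [FiniteDimensional K V]

section Letters

variable {m : ℕ} {g : Submodule K (End K V)} {N : Fin m → End K V}
  {E : Fin m → Fin m → End K V} (L : Lt g N E)
include L

private theorem lt_part {x : End K V} (hx : x ∈ g) :
    x - ∑ a, N a * x * (1 - N a) ∈ Submodule.span K (Set.range N ∪ {1}) := by
  have h1 := L.span x hx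
  clear hx
  induction h1 using Submodule.span_induction with
  | mem z hz =>
    rcases hz with (⟨i, j, hij, rfl⟩ | ⟨l, rfl⟩) | hz
    · have h2 : ∀ a, N a * E i j * (1 - N a) = if a = i then E i j else 0 := by
        intro a
        by_cases hai : a = i
        · rw [if_pos hai, hai, L.NE i j hij, mul_sub, mul_one, L.EN i j hij, sub_zero]
        · rw [if_neg hai]
          by_cases haj : a = j
          · rw [haj, L.NE' i j hij, zero_mul]
          · rw [L.cm a i j hai haj hij, mul_assoc, mul_sub, mul_one, L.idem, sub_self, mul_zero]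
      rw [Finset.sum_congr rfl fun a _ => h2 a, Finset.sum_ite_eq' Finset.univ i,
        if_pos (Finset.mem_univ _), sub_self]
      exact Submodule.zero_mem _
    · have h2 : ∀ a, N a * N l * (1 - N a) = 0 := by
        intro a
        rw [L.comm a l, mul_assoc, mul_sub, mul_one, L.idem, sub_self, mul_zero]
      rw [Finset.sum_congr rfl fun a _ => h2 a, Finset.sum_const_zero, sub_zero]
      exact Submodule.subset_span (Or.inl ⟨l, rfl⟩)
    · rw [Set.mem_singleton_iff.1 hz]
      have h2 : ∀ a, N a * 1 * (1 - N a) = 0 := by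
        intro a
        rw [mul_one, mul_sub, mul_one, L.idem, sub_self]
      rw [Finset.sum_congr rfl fun a _ => h2 a, Finset.sum_const_zero, sub_zero]
      exact Submodule.subset_span (Or.inr rfl)
  | zero => simp
  | add a b _ _ ha hb =>
    have h2 : ∑ c, N c * (a + b) * (1 - N c) =
        ∑ c, N c * a * (1 - N c) + ∑ c, N c * b * (1 - N c) := by
      rw [← Finset.sum_add_distrib]
      exact Finset.sum_congr rfl fun c _ => by rw [mul_add, add_mul]
    rw [h2, add_sub_add_comm]
    exact Submodule.add_mem _ ha hb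
  | smul r a _ ha =>
    have h2 : ∑ c, N c * (r • a) * (1 - N c) = r • ∑ c, N c * a * (1 - N c) := by
      rw [Finset.smul_sum]
      exact Finset.sum_congr rfl fun c _ => by rw [mul_smul_comm, smul_mul_assoc]
    rw [h2, ← smul_sub]
    exact Submodule.smul_mem _ _ ha

private theorem lt_comm : ∀ x ∈ Submodule.span K (Set.range N ∪ {1}),
    ∀ y ∈ Submodule.span K (Set.range N ∪ {1}), x * y = y * x := by
  have h1 : ∀ l, ∀ y ∈ Submodule.span K (Set.range N ∪ {1}), N l * y = y * N l := by
    intro l y hy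
    induction hy using Submodule.span_induction with
    | mem z hz =>
      rcases hz with ⟨i, rfl⟩ | hz
      · exact L.comm l i
      · rw [Set.mem_singleton_iff.1 hz, mul_one, one_mul]
    | zero => rw [mul_zero, zero_mul]
    | add a b _ _ ha hb => rw [mul_add, add_mul, ha, hb]
    | smul r a _ ha => rw [mul_smul_comm, smul_mul_assoc, ha]
  intro x hx y hy
  induction hx using Submodule.span_induction with
  | mem z hz =>
    rcases hz with ⟨i, rfl⟩ | hz
    · exact h1 i y hy
    · rw [Set.mem_singleton_iff.1 hz, mul_one, one_mul]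
  | zero => rw [mul_zero, zero_mul]
  | add a b _ _ ha hb => rw [mul_add, add_mul, ha, hb]
  | smul r a _ ha => rw [mul_smul_comm, smul_mul_assoc, ha]

private theorem lt_basis : ∃ v : Basis (Fin (finrank K V)) K V,
    ∀ x ∈ Submodule.span K (Set.range N ∪ {1}), ∀ i, ∃ c : K, x (v i) = c • v i := by
  obtain ⟨v, hv⟩ := exists_eigenbasis (K := K) (H := V) (Set.range N) (by
      rintro _ ⟨i, rfl⟩ _ ⟨j, rfl⟩
      exact L.comm i j) (by
      rintro _ ⟨l, rfl⟩
      rw [eq_top_iff]
      intro w _
      have h1 : ∀ w, N l (N l w) = N l w := fun w => LinearMap.congr_fun (L.idem l) w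
      have h2 : w = N l w + (w - N l w) := by abel
      rw [h2]
      refine Submodule.add_mem _ ?_ ?_
      · exact (le_iSup (fun μ : K => (N l).eigenspace μ) 1)
          (Module.End.mem_eigenspace_iff.2 (by rw [h1, one_smul]))
      · exact (le_iSup (fun μ : K => (N l).eigenspace μ) 0)
          (Module.End.mem_eigenspace_iff.2 (by rw [map_sub, h1, sub_self, zero_smul])))
  refine ⟨v, fun x hx i => ?_⟩
  induction hx using Submodule.span_induction with
  | mem z hz =>
    rcases hz with hz | hz
    · exact hv z hz i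
    · exact ⟨1, by rw [Set.mem_singleton_iff.1 hz, one_smul, Module.End.one_apply]⟩
  | zero => exact ⟨0, by rw [LinearMap.zero_apply, zero_smul]⟩
  | add a b _ _ ha hb =>
    obtain ⟨c, hc⟩ := ha
    obtain ⟨d, hd⟩ := hb
    exact ⟨c + d, by rw [LinearMap.add_apply, hc, hd, add_smul]⟩
  | smul r a _ ha =>
    obtain ⟨c, hc⟩ := ha
    exact ⟨r * c, by rw [LinearMap.smul_apply, hc, smul_smul]⟩

private theorem lt_td (hone : (1 : End K V) ∈ g)
    (hnd : ∀ x ∈ g, (∀ y ∈ g, LinearMap.trace K V (x * y) = 0) → x = 0) :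
    TD g (Submodule.span K (Set.range N ∪ {1})) := by
  obtain ⟨v, hv⟩ := lt_basis L
  refine TD.of
    { comm := lt_comm L
      diag := ⟨_, inferInstance, v, hv⟩
      lie := L.lie
      nd := hnd
      le := ?_
      cent := fun x hx hc => ?_ } (Submodule.subset_span (Or.inr rfl)) ?_ ?_
  · rw [Submodule.span_le]
    rintro _ (⟨i, rfl⟩ | h)
    · exact L.Nmem i
    · rw [Set.mem_singleton_iff.1 h]
      exact hone
  · have h1 := lt_part L hx
    have h2 : ∀ a, N a * x * (1 - N a) = 0 := by
      intro a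
      rw [← hc (N a) (Submodule.subset_span (Or.inl ⟨a, rfl⟩)), mul_assoc, mul_sub, mul_one,
        L.idem, sub_self, mul_zero]
    rwa [Finset.sum_congr rfl fun a _ => h2 a, Finset.sum_const_zero, sub_zero] at h1
  · intro U hU
    exact L.irr U fun i j hij w hw => hU _ (L.Emem i j hij) w hw
  · rw [Submodule.span_le]
    rintro _ (⟨i, rfl⟩ | h)
    · exact Submodule.subset_span ⟨Submodule.subset_span (Or.inl ⟨i, rfl⟩), L.idem i⟩
    · refine Submodule.subset_span ⟨Submodule.subset_span (Or.inr h), ?_⟩
      rw [Set.mem_singleton_iff.1 h, mul_one]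

/-- **The middle exterior power has an invariant form.** -/
theorem lt_form [Nontrivial V] (hone : (1 : End K V) ∈ g)
    (hnd : ∀ x ∈ g, (∀ y ∈ g, LinearMap.trace K V (x * y) = 0) → x = 0) {k : ℕ}
    (hm : m = 2 * k) (hn : finrank K V = m.choose k)
    (hk : ∑ i, N i = (k : K) • (1 : End K V)) :
    ∃ B : V →ₗ[K] V →ₗ[K] K, (∀ x, (∀ y, B x y = 0) → x = 0) ∧
      ∀ x ∈ g, ∃ κ : K, ∀ a b, B (x a) b + B a (x b) = κ * B a b := by
  classical
  have T := lt_td L hone hnd
  obtain ⟨v, hv⟩ := lt_basis L
  have hNt : ∀ l, N l ∈ Submodule.span K (Set.range N ∪ {1}) := fun l =>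
    Submodule.subset_span (Or.inl ⟨l, rfl⟩)
  -- the letters of a basis vector
  let S : Fin (finrank K V) → Finset (Fin m) := fun i => Finset.univ.filter fun l => N l (v i) = v i
  have hS : ∀ i l, N l (v i) = (if l ∈ S i then (1 : K) else 0) • v i := by
    intro i l
    obtain ⟨c, hc⟩ := hv (N l) (hNt l) i
    have h2 : c * c = c := by
      have h3 : N l (N l (v i)) = N l (v i) := LinearMap.congr_fun (L.idem l) (v i)
      rw [hc, map_smul, hc, smul_smul] at h3
      exact smul_left_injective K (v.ne_zero i) h3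
    have h3 : c * (c - 1) = 0 := by rw [mul_sub, mul_one, h2, sub_self]
    rcases mul_eq_zero.1 h3 with h4 | h4
    · rw [hc, h4]
      have h5 : l ∉ S i := by
        intro h6
        have h7 : N l (v i) = v i := (Finset.mem_filter.1 h6).2
        rw [hc, h4, zero_smul] at h7
        exact v.ne_zero i h7.symm
      rw [if_neg h5]
    · have h5 : l ∈ S i := Finset.mem_filter.2 ⟨Finset.mem_univ _, by
        rw [hc, sub_eq_zero.1 h4, one_smul]⟩
      rw [hc, sub_eq_zero.1 h4, if_pos h5]
  have hcard : ∀ i, (S i).card = k := by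
    intro i
    have h1 := LinearMap.congr_fun hk (v i)
    rw [LinearMap.sum_apply, Finset.sum_congr rfl fun l _ => hS i l, ← Finset.sum_smul,
      LinearMap.smul_apply, Module.End.one_apply] at h1
    have h2 := smul_left_injective K (v.ne_zero i) h1
    rw [Finset.sum_ite_mem, Finset.univ_inter, Finset.sum_const, nsmul_eq_mul, mul_one] at h2
    exact_mod_cast h2
  have hinj : Function.Injective S := by
    intro i j hij
    refine T.hmult v hv i j fun τ hτ => ?_
    have h1 : ∃ c : K, τ (v i) = c • v i ∧ τ (v j) = c • v j := by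
      induction hτ using Submodule.span_induction with
      | mem z hz =>
        rcases hz with ⟨l, rfl⟩ | hz
        · exact ⟨_, hS i l, by rw [hij]; exact hS j l⟩
        · exact ⟨1, by rw [Set.mem_singleton_iff.1 hz, one_smul, Module.End.one_apply],
            by rw [Set.mem_singleton_iff.1 hz, one_smul, Module.End.one_apply]⟩
      | zero => exact ⟨0, by simp, by simp⟩
      | add a b _ _ ha hb =>
        obtain ⟨c, h1, h2⟩ := ha
        obtain ⟨d, h3, h4⟩ := hb
        exact ⟨c + d, by rw [LinearMap.add_apply, h1, h3, add_smul],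
          by rw [LinearMap.add_apply, h2, h4, add_smul]⟩
      | smul r a _ ha =>
        obtain ⟨c, h1, h2⟩ := ha
        exact ⟨r * c, by rw [LinearMap.smul_apply, h1, smul_smul],
          by rw [LinearMap.smul_apply, h2, smul_smul]⟩
    obtain ⟨c, h2, h3⟩ := h1
    have h4 := Pool.Agent.NumRank.wv_apply v hv hτ i
    have h5 := Pool.Agent.NumRank.wv_apply v hv hτ j
    rw [h2] at h4
    rw [h3] at h5
    rw [← smul_left_injective K (v.ne_zero i) h4, ← smul_left_injective K (v.ne_zero j) h5]
  -- the complement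
  have hsurj : ∀ A : Finset (Fin m), A.card = k → ∃ i, S i = A := by
    intro A hA
    have h1 : Finset.univ.image S = Finset.univ.powersetCard k := by
      refine Finset.eq_of_subset_of_card_le ?_ ?_
      · intro B hB
        obtain ⟨i, -, rfl⟩ := Finset.mem_image.1 hB
        exact Finset.mem_powersetCard.2 ⟨Finset.subset_univ _, hcard i⟩
      · rw [Finset.card_image_of_injective _ hinj, Finset.card_powersetCard, Finset.card_univ,
          Finset.card_univ, Fintype.card_fin, Fintype.card_fin, hn]
    have h2 : A ∈ Finset.univ.image S := by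
      rw [h1]
      exact Finset.mem_powersetCard.2 ⟨Finset.subset_univ _, hA⟩
    obtain ⟨i, -, hi⟩ := Finset.mem_image.1 h2
    exact ⟨i, hi⟩
  have hν : ∀ i, ∃ j, S j = (S i)ᶜ := fun i => hsurj _ (by
    rw [Finset.card_compl, Fintype.card_fin, hcard, hm]
    omega)
  choose ν hν using hν
  refine T.form_of_inv v hv (ν := ν) (fun i => hinj (by rw [hν, hν, compl_compl])) ?_
  rintro f ⟨-, τ, hτ, hf⟩
  have h1 : ∃ c : K, ∀ i, ∃ d : K, τ (v i) = d • v i ∧ τ (v (ν i)) = (c - d) • v (ν i) := by
    clear hf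
    induction hτ using Submodule.span_induction with
    | mem z hz =>
      rcases hz with ⟨l, rfl⟩ | hz
      · refine ⟨1, fun i => ⟨_, hS i l, ?_⟩⟩
        rw [hS (ν i) l, hν i]
        congr 1
        by_cases h : l ∈ S i
        · rw [if_pos h, if_neg (by rw [Finset.mem_compl, not_not]; exact h), sub_self]
        · rw [if_neg h, if_pos (Finset.mem_compl.2 h), sub_zero]
      · refine ⟨2, fun i => ⟨1, ?_, ?_⟩⟩
        · rw [Set.mem_singleton_iff.1 hz, one_smul, Module.End.one_apply]
        · rw [Set.mem_singleton_iff.1 hz, Module.End.one_apply, show (2 : K) - 1 = 1 by norm_num,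
            one_smul]
    | zero => exact ⟨0, fun i => ⟨0, by simp, by simp⟩⟩
    | add a b _ _ ha hb =>
      obtain ⟨c, ha⟩ := ha
      obtain ⟨c', hb⟩ := hb
      refine ⟨c + c', fun i => ?_⟩
      obtain ⟨d, h1, h2⟩ := ha i
      obtain ⟨d', h3, h4⟩ := hb i
      refine ⟨d + d', by rw [LinearMap.add_apply, h1, h3, add_smul], ?_⟩
      rw [LinearMap.add_apply, h2, h4, ← add_smul]
      congr 1
      ring
    | smul r a _ ha =>
      obtain ⟨c, ha⟩ := ha
      refine ⟨r * c, fun i => ?_⟩
      obtain ⟨d, h1, h2⟩ := ha i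
      refine ⟨r * d, by rw [LinearMap.smul_apply, h1, smul_smul], ?_⟩
      rw [LinearMap.smul_apply, h2, smul_smul]
      congr 1
      ring
  obtain ⟨c, hc⟩ := h1
  have h2 : ∀ i, ((f (ν i) + f i : ℚ) : K) = c := by
    intro i
    obtain ⟨d, h3, h4⟩ := hc i
    have h5 := hf i
    have h6 := hf (ν i)
    rw [h3] at h5
    rw [h4] at h6
    have h7 := smul_left_injective K (v.ne_zero _) h5
    have h8 := smul_left_injective K (v.ne_zero _) h6
    push_cast
    have h7' : d = (f i : K) := h7
    have h8' : c - d = (f (ν i) : K) := h8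
    rw [← h8', ← h7']
    ring
  obtain ⟨i₀⟩ : Nonempty (Fin (finrank K V)) := v.index_nonempty
  refine ⟨f (ν i₀) + f i₀, fun i => ?_⟩
  have h3 : f (ν i) + f i = f (ν i₀) + f i₀ := by
    have h4 := (h2 i).trans (h2 i₀).symm
    exact_mod_cast h4
  linarith

end Letters

/-- The projective case has an invariant form. -/
theorem form_of_proj {g : Submodule K (End K V)} {e c f : End K V} {ρ : ℕ} (B : Pr g e c f ρ)
    (hbal : 2 * rk e = finrank K V) (h0 : ∀ x ∈ up g e, f * x = 0 → x * f = 0 → x = 0) :
    ∃ B : V →ₗ[K] V →ₗ[K] K, (∀ x, (∀ y, B x y = 0) → x = 0) ∧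
      ∀ x ∈ g, ∃ κ : K, ∀ a b, B (x a) b + B a (x b) = κ * B a b := by
  have := B.G.nontrivial
  obtain ⟨M, x, y, P⟩ := B.exists_pb h0
  obtain ⟨k, hk, hn, hs⟩ := P.finrank_eq hbal
  exact lt_form P.lt B.G.one B.G.nd hk (by rw [hn, hk]) hs

/-- The simple balanced case without invariant forms. -/
theorem nf_of_gr_free {g : Submodule K (End K V)} {e : End K V} (G : Gr g e)
    (hbal : 2 * rk e = finrank K V)
    (hnf : ∀ φ : V →ₗ[K] V →ₗ[K] K, (∀ x, (∀ y, φ x y = 0) → x = 0) →
      ¬ ∀ x ∈ g, ∃ κ : K, ∀ a b, φ (x a) b + φ a (x b) = κ * φ a b)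
    (h4 : finrank K V ≠ 4)
    (hn : ∀ m : ℕ, 4 ≤ m → Even m → finrank K V ≠ 2 ^ m) (D : End K V) : D ∈ g := by
  have := G.nontrivial
  rcases dich3 G hbal with ⟨c, f, ρ, B, h0⟩ | h
  · obtain ⟨φ, h1, h2⟩ := form_of_proj B hbal h0
    exact absurd h2 (hnf φ h1)
  · exact nf_tail G hbal (form_zero G.irr hnf) h4 hn h D

/-- **No invariant form, balanced idempotent**: no condition except on the even powers of two. -/
theorem TD.nf_free {g t : Submodule K (End K V)} (T : TD g t) [Nontrivial V] {I : Type}
    [Fintype I] (v : Basis I K V) (hv : ∀ x ∈ t, ∀ i, ∃ c : K, x (v i) = c • v i)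
    (hcn : ∀ h h', Pool.Agent.PrimePow.CC.Rt (Lv t v) h →
      Pool.Agent.PrimePow.CC.Rt (Lv t v) h' → Cn (Lv t v) h h')
    (hnf : ∀ φ : V →ₗ[K] V →ₗ[K] K, (∀ x, (∀ y, φ x y = 0) → x = 0) →
      ¬ ∀ x ∈ g, ∃ κ : K, ∀ a b, φ (x a) b + φ a (x b) = κ * φ a b)
    (hn : ∀ m : ℕ, 4 ≤ m → Even m → finrank K V ≠ 2 ^ m) {e : End K V} (he : e ∈ t)
    (hee : e * e = e) (hbal : 2 * rk e = finrank K V) (D : End K V) : D ∈ g := by
  obtain ⟨h0, h1⟩ := ne_of_bal hbal
  by_cases d4 : finrank K V = 4
  · exact T.full_four hnf d4 (T.le he) hee (by omega) D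
  exact nf_of_gr_free (T.gr_of_nofl v hv hcn (T.nofl_of_nf v hv (conn_of_cn hcn) hnf) (T.le he)
    hee h0 h1) hbal hnf d4 hn D

end Pool.Agent.FQA
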