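import Pool.Agent.OddRank.RankTwo
import Pool.Agent.SmallRank.Defs

/-!
# Ideals in the full algebras (PACKAGE FX17)

`ideal_all`. Notation: for `ξ : Dual K V`, `w : V` let `ξ ⊗ w` be the operator `x ↦ ξ x • w`
(`LinearMap.smulRight`). `g` is everything, so `[A, z] ∈ s` for all `A` and all `z ∈ s`; write `≡`
for the congruence modulo `s`.
`z` is not a scalar, so there is `v` with `v`, `z v` linearly independent (otherwise every vector
is an eigenvector and `z` is a scalar; for example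
`LinearMap.exists_eq_smul_id_of_forall_notLinearIndependent` or a similar name in Mathlib). Choose
`φ` with `φ v = 0`, `φ (z v) = 1`. `E = φ ⊗ v`, `E * E = 0`,
`[E, [E, z]] = -2 E z E = -2 φ(z v) E = - 2 E`, so `E ∈ s`. For `A = ξ ⊗ w`: `[A, E] = ξ v • φ ⊗ w -
φ w • ξ ⊗ v ∈ s` (1). With `φ w = 0`, `ξ v = 1`: `φ ⊗ w ∈ s` for
all `w ∈ ker φ`; with `ξ v = 0`, `φ w = 1`: `ξ ⊗ v ∈ s` for all `ξ` with `ξ v = 0`. Use these
elements in place of `E`:
(3) `φ' ⊗ w ≡ φ' w • (ξ0 ⊗ v)` if `φ' v = 0` and `ξ0 v = 1`; (4) `ξ ⊗ v' ≡ ξ v' • (φ ⊗ w0)` if `φ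
v' = 0` and `φ w0 = 1`. Fix `w0`, `ξ0` with `φ w0 = 1`, `ξ0 v = 1`,
`c0 = φ ⊗ w0`. By (4) `ξ0 ⊗ v ≡ c0`. `[φ ⊗ w0 - ξ0 ⊗ v, ξ0 ⊗ w0] = 2 (ξ0 ⊗ w0) - ξ0 w0 • (c0 + ξ0 ⊗
v) ∈ s`, so `ξ0 ⊗ w0 ≡ ξ0 w0 • c0`. For general
`ξ = ξ v • ξ0 + φ'` (`φ' v = 0`), `w = φ w • w0 + v'` (`φ v' = 0`):
`ξ ⊗ w ≡ ξ v φ w • (ξ0 ⊗ w0) + ξ v ξ0 v' • c0 + φ' w • c0 ≡ ξ w • c0`. Every operator is a sum of
operators `ξ ⊗ w` (basis), and `trace (ξ ⊗ w) = ξ w`, so
`x ≡ trace x • c0`. (Alternatively use the results of `Pool/Agent/TypeIV/Single.lean`, `ideal_full`.)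

`ideal_alt`. `OddRank.mm ψ u v` (`Pool/Agent/OddRank/RankTwo.lean`; up to normalisation
`w ↦ ψ u w • v + ψ v w • u`) is skew, so it is in `g`. Every skew operator is a sum of these
(`OddRank.skew_mem`:
it suffices that all `mm ψ u v ∈ s`; then every `x ∈ g` with trace zero, which is skew, is in `s`:
let `κ` be its multiplier, `2 trace x = κ * finrank`, see `trace_of_sim` in
`Pool/Agent/FQT/ConjW.lean`, copy it).
First there is a skew `z' ≠ 0` in `s`: `z` is not a scalar, so it does not commute with all `mm ψ u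
v` (an operator which commutes with all `mm ψ u u` preserves all lines, so it is a
scalar), `z' = [mm ψ u v, z] ∈ s` is skew (`SmallRank.skew_comm`). `(a, b) ↦ ψ (z' a) b` is
symmetric and not zero, so there is `a` with `ψ (z' a) a ≠ 0`. `N = mm ψ a a`, `N * N = 0`, `[N, [N,
z']] = -2 N z' N`
is a nonzero multiple of `N`, so `mm ψ a a ∈ s`. For all `b` with `ψ a b ≠ 0`: `[mm ψ b b, mm ψ a
a]` is a nonzero multiple of `mm ψ a b`, so `mm ψ a b ∈ s`; the `b` with
`ψ a b ≠ 0` span `V`, so `mm ψ a b ∈ s` for all `b`. `[mm ψ b b, mm ψ a c]` is a combination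
`2 ψ b a • mm ψ b c + 2 ψ b c • mm ψ b a` (up to normalisation), and `mm ψ b a ∈ s`, so `mm ψ b c ∈
s` for all `c` and all `b` with `ψ b a ≠ 0`; these
`b` span `V`.
-/

set_option autoImplicit false
set_option linter.unusedSectionVars false

namespace Pool.Agent.FQA

open Module Pool.Agent.SmallRank

variable {K V : Type*} [Field K] [CharZero K] [IsAlgClosed K] [AddCommGroup V] [Module K V]
  [FiniteDimensional K V]

private theorem simf_mul (ξ η : Dual K V) (w u : V) :
    (ξ.smulRight w * η.smulRight u : End K V) = ξ u • η.smulRight w := by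
  ext x
  simp [Module.End.mul_apply, smul_smul, mul_comm]

private theorem simf_dual {p : Submodule K V} {x : V} (hx : x ∉ p) :
    ∃ f : Dual K V, f x = 1 ∧ ∀ y ∈ p, f y = 0 := by
  obtain ⟨f, hf, hp⟩ := Submodule.exists_dual_map_eq_bot_of_notMem hx inferInstance
  refine ⟨(f x)⁻¹ • f, ?_, fun y hy => ?_⟩
  · rw [LinearMap.smul_apply, smul_eq_mul, inv_mul_cancel₀ hf]
  · have h1 : f y ∈ p.map f := ⟨y, hy, rfl⟩
    rw [hp, Submodule.mem_bot] at h1
    rw [LinearMap.smul_apply, h1, smul_zero]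

private theorem simf_nilp {s : Submodule K (End K V)} {E z : End K V} (hEE : E * E = 0)
    (h1 : E * z - z * E ∈ s)
    (h2 : E * (E * z - z * E) - (E * z - z * E) * E ∈ s) : E * z * E ∈ s := by
  have h3 : E * (E * z - z * E) - (E * z - z * E) * E = (-2 : K) • (E * z * E) := by
    simp only [mul_sub, sub_mul, ← mul_assoc, hEE, zero_mul]
    rw [mul_assoc z E E, hEE, mul_zero, neg_smul, two_smul]
    abel
  have h4 := s.smul_mem (-2⁻¹ : K) h2
  rw [h3, smul_smul] at h4
  have h5 : (-2⁻¹ : K) * -2 = 1 := by norm_num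
  rwa [h5, one_smul] at h4

private theorem simf_trace_of_skew {ψ : V →ₗ[K] V →ₗ[K] K}
    (hnd : ∀ x, (∀ y, ψ x y = 0) → x = 0)
    {x : End K V} (hx : ∀ u v, ψ (x u) v + ψ u (x v) = 0) : LinearMap.trace K V x = 0 := by
  have hinj : Function.Injective ψ := by
    rw [injective_iff_map_eq_zero]
    exact fun x hx => hnd x fun y => by rw [hx, LinearMap.zero_apply]
  let J : V ≃ₗ[K] Module.Dual K V :=
    LinearMap.linearEquivOfInjective ψ hinj Subspace.dual_finrank_eq.symm
  have hJ : ∀ v, J v = ψ v := fun v => rfl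
  have h1 : J.conj x = (-1 : K) • (Module.Dual.transpose (R := K) x : End K (Module.Dual K V)) := by
    apply LinearMap.ext
    intro φ
    obtain ⟨u, rfl⟩ := J.surjective φ
    rw [LinearEquiv.conj_apply_apply, LinearEquiv.symm_apply_apply]
    apply LinearMap.ext
    intro v
    rw [hJ, LinearMap.smul_apply, LinearMap.smul_apply, smul_eq_mul]
    have h2 := hx u v
    have h3 : (Module.Dual.transpose (R := K) x) (J u) v = ψ u (x v) := rfl
    rw [h3]
    linear_combination h2
  have h2 : LinearMap.trace K V x = LinearMap.trace K (Module.Dual K V) (J.conj x) :=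
    (LinearMap.trace_conj' x J).symm
  have h3 : LinearMap.trace K (Module.Dual K V) (Module.Dual.transpose (R := K) x) =
      LinearMap.trace K V x := LinearMap.trace_transpose' x
  rw [h1, map_smul, h3, smul_eq_mul, neg_one_mul] at h2
  exact self_eq_neg.1 h2

private theorem simf_trace_of_sim {ψ : V →ₗ[K] V →ₗ[K] K}
    (hnd : ∀ x, (∀ y, ψ x y = 0) → x = 0)
    {x : End K V} {κ : K} (hx : ∀ u v, ψ (x u) v + ψ u (x v) = κ * ψ u v) :
    2 * LinearMap.trace K V x = κ * finrank K V := by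
  have h1 := simf_trace_of_skew (x := x - (κ / 2) • 1) hnd (fun u v => by
    simp only [LinearMap.sub_apply, LinearMap.smul_apply, Module.End.one_apply, map_sub, map_smul,
      smul_eq_mul]
    linear_combination hx u v)
  rw [map_sub, map_smul, LinearMap.trace_one, smul_eq_mul] at h1
  linear_combination 2 * h1

theorem ideal_all {s : Submodule K (End K V)} (hid : ∀ x, ∀ z ∈ s, x * z - z * x ∈ s)
    {z : End K V} (hz : z ∈ s) (hns : ∀ c : K, z ≠ c • 1) {x : End K V}
    (hx : LinearMap.trace K V x = 0) : x ∈ s := by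
  classical
  obtain ⟨v, hv⟩ : ∃ v, LinearIndependent K ![v, z v] := by
    by_contra hcon
    push Not at hcon
    obtain ⟨c, hc⟩ := LinearMap.exists_eq_smul_id_of_forall_notLinearIndependent hcon
    exact hns c hc
  have hv0 : v ≠ 0 := hv.ne_zero 0
  have hzv : z v ∉ K ∙ v := by
    intro h
    obtain ⟨a, ha⟩ := Submodule.mem_span_singleton.1 h
    exact (LinearIndependent.pair_iff' hv0).1 hv a ha
  obtain ⟨φ, hφ1, hφ0⟩ := simf_dual hzv
  have hφv : φ v = 0 := hφ0 v (Submodule.mem_span_singleton_self v)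
  have hid' : ∀ x, ∀ z ∈ s, z * x - x * z ∈ s := by
    intro x z hz
    have h1 := s.neg_mem (hid x z hz)
    rwa [neg_sub] at h1
  have hE : (φ.smulRight v : End K V) ∈ s := by
    have hEE : (φ.smulRight v * φ.smulRight v : End K V) = 0 := by
      rw [simf_mul, hφv, zero_smul]
    have h1 := hid (φ.smulRight v) z hz
    have h2 := simf_nilp hEE h1 (hid _ _ h1)
    have h3 : (φ.smulRight v * z * φ.smulRight v : End K V) = φ.smulRight v := by
      ext x
      simp only [Module.End.mul_apply, LinearMap.smulRight_apply, map_smul, hφ1, one_smul,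
        smul_eq_mul, mul_one]
    rwa [h3] at h2
  -- the general commutator
  have hcom : ∀ (η : Dual K V) (u : V), (η.smulRight u : End K V) ∈ s →
      ∀ (ξ : Dual K V) (w : V), (ξ u • η.smulRight w - η w • ξ.smulRight u : End K V) ∈ s := by
    intro η u h ξ w
    have h1 := hid (ξ.smulRight w) _ h
    rwa [simf_mul, simf_mul] at h1
  obtain ⟨ξ0, hξ0, -⟩ := simf_dual (p := (⊥ : Submodule K V)) (x := v)
    (fun h => hv0 ((Submodule.mem_bot K).1 h))
  have hw0 : φ (z v) = 1 := hφ1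
  obtain ⟨w0, hw0⟩ : ∃ w0, φ w0 = 1 := ⟨z v, hw0⟩
  have hA : ∀ w, φ w = 0 → (φ.smulRight w : End K V) ∈ s := by
    intro w hw
    have h1 := hcom φ v hE ξ0 w
    rwa [hξ0, one_smul, hw, zero_smul, sub_zero] at h1
  have hB : ∀ ξ : Dual K V, ξ v = 0 → (ξ.smulRight v : End K V) ∈ s := by
    intro ξ hξ
    have h1 := s.neg_mem (hcom φ v hE ξ w0)
    rwa [hξ, zero_smul, hw0, one_smul, zero_sub, neg_neg] at h1
  set c0 : End K V := φ.smulRight w0 with hc0
  have h4 : ∀ (ξ : Dual K V) (v' : V), φ v' = 0 →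
      (ξ.smulRight v' - ξ v' • c0 : End K V) ∈ s := by
    intro ξ v' hv'
    have h1 := s.neg_mem (hcom φ v' (hA v' hv') ξ w0)
    rwa [hw0, one_smul, neg_sub] at h1
  have h0v : (ξ0.smulRight v - c0 : End K V) ∈ s := by
    have h1 := h4 ξ0 v hφv
    rwa [hξ0, one_smul] at h1
  have h3 : ∀ (φ' : Dual K V) (w : V), φ' v = 0 →
      (φ'.smulRight w - φ' w • c0 : End K V) ∈ s := by
    intro φ' w hφ'
    have h1 := hcom φ' v (hB φ' hφ') ξ0 w
    rw [hξ0, one_smul] at h1
    have h2 := s.add_mem h1 (s.smul_mem (φ' w) h0v)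
    convert h2 using 1
    module
  have h5 : (ξ0.smulRight w0 - ξ0 w0 • c0 : End K V) ∈ s := by
    have h1 := hid' (ξ0.smulRight w0) _ h0v
    have e1 : (ξ0.smulRight v - c0) * ξ0.smulRight w0 - ξ0.smulRight w0 * (ξ0.smulRight v - c0) =
        ξ0 w0 • ξ0.smulRight v - ξ0.smulRight w0 - (ξ0.smulRight w0 - ξ0 w0 • c0) := by
      rw [sub_mul, mul_sub, hc0, simf_mul, simf_mul, simf_mul, simf_mul, hξ0, hw0, one_smul]
    rw [e1] at h1
    have h2 := s.smul_mem (-2⁻¹ : K) (s.sub_mem h1 (s.smul_mem (ξ0 w0) h0v))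
    convert h2 using 1
    have e2 : (-2⁻¹ : K) • (ξ0 w0 • (ξ0.smulRight v : End K V) - ξ0.smulRight w0 -
        (ξ0.smulRight w0 - ξ0 w0 • c0) - ξ0 w0 • (ξ0.smulRight v - c0)) =
        ((2⁻¹ : K) * 2) • (ξ0.smulRight w0 - ξ0 w0 • c0 : End K V) := by
      module
    rw [e2, inv_mul_cancel₀ two_ne_zero, one_smul]
  have h6 : ∀ (ξ : Dual K V) (w : V), (ξ.smulRight w - ξ w • c0 : End K V) ∈ s := by
    intro ξ w
    have e1 := h3 (ξ - ξ v • ξ0) w (by
      rw [LinearMap.sub_apply, LinearMap.smul_apply, hξ0, smul_eq_mul, mul_one, sub_self])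
    have e2 := h4 ξ0 (w - φ w • w0) (by
      rw [map_sub, map_smul, hw0, smul_eq_mul, mul_one, sub_self])
    have e3 := s.add_mem (s.add_mem e1 (s.smul_mem (ξ v) e2)) (s.smul_mem (ξ v * φ w) h5)
    convert e3 using 1
    ext y
    simp only [LinearMap.add_apply, LinearMap.sub_apply, LinearMap.smul_apply,
      LinearMap.smulRight_apply, map_sub, map_smul, smul_eq_mul]
    module
  -- every operator is a sum
  have h7 : (x - LinearMap.trace K V x • c0 : End K V) ∈ s := by
    let b := Module.finBasis K V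
    have e1 : x = ∑ i, (b.coord i).smulRight (x (b i)) := by
      apply b.ext
      intro j
      rw [LinearMap.sum_apply, Finset.sum_eq_single j]
      · simp
      · intro i _ hij
        simp [Finsupp.single_apply, Ne.symm hij]
      · intro h
        exact absurd (Finset.mem_univ j) h
    have e2 : x - LinearMap.trace K V x • c0 =
        ∑ i, ((b.coord i).smulRight (x (b i)) - (b.coord i) (x (b i)) • c0) := by
      rw [Finset.sum_sub_distrib, ← e1, ← Finset.sum_smul]
      congr 2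
      conv_lhs => rw [e1]
      rw [map_sum]
      exact Finset.sum_congr rfl fun i _ => LinearMap.trace_smulRight _ _
    rw [e2]
    exact s.sum_mem fun i _ => h6 _ _
  rwa [hx, zero_smul, sub_zero] at h7

theorem ideal_alt {ψ : V →ₗ[K] V →ₗ[K] K} (halt : ∀ x, ψ x x = 0)
    (hnd : ∀ x, (∀ y, ψ x y = 0) → x = 0) {g s : Submodule K (End K V)}
    (hgsp : ∀ x ∈ g, ∃ κ : K, ∀ u w, ψ (x u) w + ψ u (x w) = κ * ψ u w)
    (hfull : ∀ D : End K V, (∀ u w, ψ (D u) w + ψ u (D w) = 0) → D ∈ g) (hsg : s ≤ g)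
    (hid : ∀ x ∈ g, ∀ z ∈ s, x * z - z * x ∈ s) {z : End K V} (hz : z ∈ s)
    (hns : ∀ c : K, z ≠ c • 1) {x : End K V} (hxg : x ∈ g) (hx : LinearMap.trace K V x = 0) :
    x ∈ s := by
  have hneg : ∀ x y, ψ x y = -ψ y x := by
    intro x y
    have := halt (x + y)
    simp only [map_add, LinearMap.add_apply, halt, zero_add, add_zero] at this
    linear_combination this
  have hMs : ∀ u v a b, ψ (OddRank.mm ψ u v a) b + ψ a (OddRank.mm ψ u v b) = 0 := by
    intro u v a b
    simp only [OddRank.mm_apply, map_add, map_smul, LinearMap.add_apply, LinearMap.smul_apply,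
      smul_eq_mul]
    rw [hneg a v, hneg a u]
    ring
  have hMg : ∀ u v, OddRank.mm ψ u v ∈ g := fun u v => hfull _ (hMs u v)
  -- a skew element
  obtain ⟨u₀, hu₀⟩ : ∃ u, OddRank.mm ψ u u * z ≠ z * OddRank.mm ψ u u := by
    by_contra hcon
    push Not at hcon
    obtain ⟨c, hc⟩ := LinearMap.exists_eq_smul_id_of_forall_notLinearIndependent
      (f := z) (fun v hv => by
        have hv0 : v ≠ 0 := hv.ne_zero 0
        obtain ⟨a, ha⟩ : ∃ a, ψ v a ≠ 0 := by
          by_contra h
          push Not at h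
          exact hv0 (hnd v h)
        have h1 := LinearMap.congr_fun (hcon v) a
        simp only [Module.End.mul_apply, OddRank.mm_apply, map_add, map_smul] at h1
        refine (LinearIndependent.pair_iff' hv0).1 hv ((ψ v a)⁻¹ * ψ v (z a)) ?_
        rw [← two_smul K, ← two_smul K] at h1
        have h2 : ψ v (z a) • v = ψ v a • z v :=
          smul_right_injective V (two_ne_zero (α := K)) h1
        rw [mul_smul, h2, smul_smul, inv_mul_cancel₀ ha, one_smul])
    exact hns c hc
  set z' : End K V := OddRank.mm ψ u₀ u₀ * z - z * OddRank.mm ψ u₀ u₀ with hz'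
  have hz's : z' ∈ s := hid _ (hMg u₀ u₀) z hz
  have hz'0 : z' ≠ 0 := sub_ne_zero.2 hu₀
  have hz'k : ∀ a b, ψ (z' a) b + ψ a (z' b) = 0 := by
    obtain ⟨κ, hκ⟩ := hgsp z (hsg hz)
    intro a b
    simp only [hz', LinearMap.sub_apply, Module.End.mul_apply, map_sub]
    linear_combination hMs u₀ u₀ (z a) b - hκ (OddRank.mm ψ u₀ u₀ a) b +
      hMs u₀ u₀ a (z b) - hκ a (OddRank.mm ψ u₀ u₀ b) - κ * hMs u₀ u₀ a b
  have hsymm : ∀ a b, ψ (z' a) b = ψ (z' b) a := by
    intro a b
    have h1 := hz'k a b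
    rw [hneg a (z' b)] at h1
    linear_combination h1
  obtain ⟨a, ha⟩ : ∃ a, ψ (z' a) a ≠ 0 := by
    by_contra hcon
    push Not at hcon
    apply hz'0
    ext x
    rw [LinearMap.zero_apply]
    apply hnd
    intro y
    have h1 := hcon (x + y)
    simp only [map_add, LinearMap.add_apply, hcon, zero_add, add_zero] at h1
    rw [hsymm y x, ← two_mul] at h1
    rcases mul_eq_zero.1 h1 with h2 | h2
    · exact absurd h2 two_ne_zero
    · exact h2
  have haa : OddRank.mm ψ a a ∈ s := by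
    have hNN : OddRank.mm ψ a a * OddRank.mm ψ a a = 0 := by
      ext x
      simp only [Module.End.mul_apply, OddRank.mm_apply, map_add, map_smul, halt, zero_smul,
        add_zero, smul_zero, LinearMap.zero_apply]
    have h1 := hid _ (hMg a a) z' hz's
    have h2 := simf_nilp hNN h1 (hid _ (hMg a a) _ h1)
    have h3 : OddRank.mm ψ a a * z' * OddRank.mm ψ a a =
        (2 * ψ a (z' a)) • OddRank.mm ψ a a := by
      ext x
      simp only [Module.End.mul_apply, OddRank.mm_apply, map_add, map_smul, LinearMap.smul_apply]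
      module
    rw [h3] at h2
    have h4 : (2 * ψ a (z' a)) ≠ 0 := by
      rw [hneg]
      exact mul_ne_zero two_ne_zero (neg_ne_zero.2 ha)
    exact (s.smul_mem_iff h4).1 h2
  have hab' : ∀ b, ψ a b ≠ 0 → OddRank.mm ψ a b ∈ s := by
    intro b hb
    have h1 := hid _ (hMg b b) _ haa
    have h3 : OddRank.mm ψ b b * OddRank.mm ψ a a - OddRank.mm ψ a a * OddRank.mm ψ b b =
        (-(4 * ψ a b)) • OddRank.mm ψ a b := by
      ext x
      simp only [LinearMap.sub_apply, Module.End.mul_apply, OddRank.mm_apply, map_add, map_smul,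
        LinearMap.smul_apply]
      rw [hneg b a]
      module
    rw [h3] at h1
    exact (s.smul_mem_iff (neg_ne_zero.2 (mul_ne_zero (by norm_num : (4 : K) ≠ 0) hb))).1 h1
  have hadd : ∀ u v w, OddRank.mm ψ u (v + w) = OddRank.mm ψ u v + OddRank.mm ψ u w := by
    intro u v w
    ext x
    simp only [OddRank.mm_apply, LinearMap.add_apply, map_add]
    module
  have ha0 : a ≠ 0 := by
    rintro rfl
    exact ha (map_zero _)
  obtain ⟨b0, hb0⟩ : ∃ b, ψ a b ≠ 0 := by
    by_contra h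
    push Not at h
    exact ha0 (hnd a h)
  have hab : ∀ b, OddRank.mm ψ a b ∈ s := by
    intro b
    by_cases hb : ψ a b = 0
    · have h1 := hab' (b + b0) (by rw [map_add, hb, zero_add]; exact hb0)
      rw [hadd] at h1
      exact (s.add_mem_iff_left (hab' b0 hb0)).1 h1
    · exact hab' b hb
  have hbc' : ∀ b c, ψ a b ≠ 0 → OddRank.mm ψ b c ∈ s := by
    intro b c hb
    have h1 := hid _ (hMg b b) _ (hab c)
    have h3 : OddRank.mm ψ b b * OddRank.mm ψ a c - OddRank.mm ψ a c * OddRank.mm ψ b b =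
        (-(2 * ψ a b)) • OddRank.mm ψ b c + (2 * ψ b c) • OddRank.mm ψ a b := by
      ext x
      simp only [LinearMap.sub_apply, Module.End.mul_apply, OddRank.mm_apply, map_add, map_smul,
        LinearMap.smul_apply, LinearMap.add_apply]
      rw [hneg b a, hneg c b]
      module
    rw [h3] at h1
    have h4 := (s.add_mem_iff_left (s.smul_mem _ (hab b))).1 h1
    exact (s.smul_mem_iff (neg_ne_zero.2 (mul_ne_zero two_ne_zero hb))).1 h4
  have hall : ∀ b c, OddRank.mm ψ b c ∈ s := by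
    intro b c
    by_cases hb : ψ a b = 0
    · have h1 := hbc' (b + b0) c (by rw [map_add, hb, zero_add]; exact hb0)
      rw [OddRank.mm_comm, hadd, OddRank.mm_comm ψ c b, OddRank.mm_comm ψ c b0] at h1
      exact (s.add_mem_iff_left (hbc' b0 c hb0)).1 h1
    · exact hbc' b c hb
  obtain ⟨κ, hκ⟩ := hgsp x hxg
  have h1 := simf_trace_of_sim hnd hκ
  rw [hx, mul_zero] at h1
  have hnt : Nontrivial V := ⟨⟨a, 0, ha0⟩⟩
  have h2 : κ = 0 := by
    rcases mul_eq_zero.1 h1.symm with h3 | h3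
    · exact h3
    · rw [Nat.cast_eq_zero] at h3
      exact absurd h3 finrank_pos.ne'
  refine OddRank.skew_mem halt hnd hall fun u w => ?_
  rw [hκ, h2, zero_mul]

end Pool.Agent.FQA
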