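import Pool.Agent.FQA.Link

/-!
# The algebra is simple if the roots of the lattice are connected
-/

set_option autoImplicit false
set_option linter.unusedSectionVars false

namespace Pool.Agent.FQA

open Module Pool.Agent.CoprimeSig Pool.Agent.Mod4 Pool.Agent.NumRank
open Pool.Agent.PrimePow.CC (Rf Rt Lat)

variable {K V : Type*} [Field K] [CharZero K] [IsAlgClosed K] [AddCommGroup V] [Module K V]
  [FiniteDimensional K V]

namespace TD

variable {g t : Submodule K (End K V)} (T : TD g t) [Nontrivial V] {s : Submodule K (End K V)}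
  (hs : Idl g s)
include T hs

/-- A root vector with nonzero root is in `s` or commutes with `s`. -/
theorem root_cases {α : End K V → K} {z : End K V} (hz : IsRoot g t α z) (hz0 : z ≠ 0)
    (hα : ∃ τ ∈ t, α τ ≠ 0) : z ∈ s ∨ z ∈ cen g s := by
  obtain ⟨τ, hτ, h0⟩ := hα
  obtain ⟨a, ha, b, hb, rfl, hat, hbt⟩ := T.split_t hs hτ
  rw [root_add hz hz0 hat hbt] at h0
  by_cases h1 : α a = 0
  · right
    have h2 : α b ≠ 0 := by
      rwa [h1, zero_add] at h0
    have h3 := (T.cen_ideal hs z hz.mem b hb)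
    have h4 : z = -((α b)⁻¹ • (z * b - b * z)) := by
      rw [← smul_neg, neg_sub, hz.root b hbt, smul_smul, inv_mul_cancel₀ h2, one_smul]
    rw [h4]
    exact (cen g s).neg_mem ((cen g s).smul_mem _ h3)
  · left
    have h3 := hs.ideal z hz.mem a ha
    have h4 : z = -((α a)⁻¹ • (z * a - a * z)) := by
      rw [← smul_neg, neg_sub, hz.root a hat, smul_smul, inv_mul_cancel₀ h1, one_smul]
    rw [h4]
    exact s.neg_mem (s.smul_mem _ h3)

omit T [Nontrivial V] hs in
/-- The opposite of a root vector in an ideal is in the ideal. -/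
theorem opp_mem {r : Submodule K (End K V)} (hr : ∀ x ∈ g, ∀ z ∈ r, x * z - z * x ∈ r)
    {α : End K V → K} {x y : End K V} (P : Opp g t α x y) (hx : x ∈ r) :
    y ∈ r ∧ x * y - y * x ∈ r := by
  have h1 : x * y - y * x ∈ r := by
    have h2 := r.neg_mem (hr y P.ry.mem x hx)
    rwa [neg_sub] at h2
  refine ⟨?_, h1⟩
  have h2 := hr y P.ry.mem _ h1
  have h3 : y * (x * y - y * x) - (x * y - y * x) * y = (2 : K) • y := by
    rw [mul_sub, sub_mul, ← mul_assoc, P.yxy, ← mul_assoc y y x, P.yy, zero_mul, sub_zero,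
      mul_assoc x y y, P.yy, mul_zero, zero_sub, sub_neg_eq_add, two_smul]
  rw [h3] at h2
  have h4 := r.smul_mem (2 : K)⁻¹ h2
  rwa [smul_smul, inv_mul_cancel₀ two_ne_zero, one_smul] at h4

variable {I : Type} [Fintype I] (v : Basis I K V)
  (hv : ∀ x ∈ t, ∀ i, ∃ c : K, x (v i) = c • v i)
include hv

omit hs in
theorem ar_rt {r : Submodule K (End K V)} {h : I → ℚ} (H : AR g t r v h) : Rt (Lv t v) h := by
  obtain ⟨α, x, y, P, hx0, -, hh⟩ := H
  obtain ⟨h', π, R, hh', -⟩ := exists_rf v hv (T.hmult v hv) P hx0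
  rw [fun_eq v hh hh']
  exact ⟨π, R⟩

/-- The two sets of coroots. -/
theorem dec : Dec (Lv t v) (AR g t s v) (AR g t (cen g s) v) := by
  refine ⟨fun h hh => T.ar_rt v hv hh, fun h hh => T.ar_rt v hv hh, ?_, ?_⟩
  · rintro h k ⟨α, x, y, P, hx0, hxs, hh⟩ ⟨β, x', y', P', hx0', hxs', hk⟩
    have hyS := opp_mem hs.ideal P hxs
    have hyC := opp_mem (T.cen_ideal hs) P' hxs'
    have h1 := trace_pair v hh hk
    have h2 : LinearMap.trace K V ((x * y - y * x) * (x' * y' - y' * x')) = 0 := by
      have c1 := hyC.2.2 y hyS.1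
      have e1 : (x * y - y * x) * (x' * y' - y' * x') =
          x * (y * (x' * y' - y' * x')) - y * x * (x' * y' - y' * x') := by noncomm_ring
      rw [e1, ← c1, map_sub, ← mul_assoc, LinearMap.trace_mul_comm K _ y, mul_assoc y x,
        sub_self]
    rw [h2] at h1
    exact_mod_cast h1.symm
  · intro A hA hcl
    obtain ⟨U, hUdef⟩ : ∃ U, U = Submodule.span K (v '' A) := ⟨_, rfl⟩
    have key : ∀ (α : End K V → K) (z : End K V), IsRoot g t α z → ∀ i ∈ A, z (v i) ∈ U := by
      intro α z hz i hi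
      by_cases hz0 : z = 0
      · rw [hz0, LinearMap.zero_apply]
        exact U.zero_mem
      by_cases hα : ∃ τ ∈ t, α τ ≠ 0
      · obtain ⟨y, P⟩ := T.hopp α z hz hz0 hα
        obtain ⟨h, π, R, hh, hw⟩ := exists_rf v hv (T.hmult v hv) P hz0
        by_cases hzi : z (v i) = 0
        · rw [hzi]
          exact U.zero_mem
        · obtain ⟨r, hr⟩ := hw i
          have hAR : AR g t s v h ∨ AR g t (cen g s) v h := by
            rcases T.root_cases hs hz hz0 hα with h1 | h1
            · exact Or.inl ⟨α, z, y, P, hz0, h1, hh⟩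
            · exact Or.inr ⟨α, z, y, P, hz0, h1, hh⟩
          rw [← wl_of_ne v hv P hzi, hr, hUdef]
          exact Submodule.smul_mem _ r (Submodule.subset_span ⟨π i, hcl h π hAR R i hi, rfl⟩)
      · push Not at hα
        have hzt : z ∈ t := T.cent z hz.mem fun τ hτ => by
          have h1 := hz.root τ hτ
          rw [hα τ hτ, zero_smul, sub_eq_zero] at h1
          exact h1.symm
        obtain ⟨c, hc⟩ := hv z hzt i
        rw [hc, hUdef]
        exact Submodule.smul_mem _ c (Submodule.subset_span ⟨i, hi, rfl⟩)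
    have hU : ∀ a ∈ g, ∀ w ∈ U, a w ∈ U := by
      intro a ha w hw
      have h1 := mem_span_roots T.toCartan ha
      clear ha
      induction h1 using Submodule.span_induction with
      | mem z hz =>
        obtain ⟨α, hz⟩ := hz
        rw [hUdef] at hw
        induction hw using Submodule.span_induction with
        | mem u hu =>
          obtain ⟨i, hi, rfl⟩ := hu
          exact key α z hz i hi
        | zero =>
          rw [map_zero]
          exact U.zero_mem
        | add u u' _ _ h1 h2 =>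
          rw [map_add]
          exact U.add_mem h1 h2
        | smul c u _ h1 =>
          rw [map_smul]
          exact U.smul_mem c h1
      | zero =>
        rw [LinearMap.zero_apply]
        exact U.zero_mem
      | add z z' _ _ h1 h2 =>
        rw [LinearMap.add_apply]
        exact U.add_mem h1 h2
      | smul c z _ h1 =>
        rw [LinearMap.smul_apply]
        exact U.smul_mem c h1
    rcases T.irr U hU with h1 | h1
    · exfalso
      obtain ⟨i, hi⟩ := hA
      have h2 : v i ∈ U := by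
        rw [hUdef]
        exact Submodule.subset_span ⟨i, hi, rfl⟩
      rw [h1, Submodule.mem_bot] at h2
      exact v.ne_zero i h2
    · refine Set.eq_univ_of_forall fun i => ?_
      have h2 : v i ∈ Submodule.span K (v '' A) := by
        rw [← hUdef, h1]
        exact Submodule.mem_top
      rw [Basis.mem_span_image, Basis.repr_self] at h2
      apply h2
      simp

omit hs in
/-- The coroot of a root vector. -/
theorem ar_of {r : Submodule K (End K V)} {α : End K V → K} {z : End K V} (hz : IsRoot g t α z)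
    (hz0 : z ≠ 0) (hα : ∃ τ ∈ t, α τ ≠ 0) (hr : z ∈ r) : ∃ h, AR g t r v h := by
  obtain ⟨y, P⟩ := T.hopp α z hz hz0 hα
  obtain ⟨h, π, R, hh, -⟩ := exists_rf v hv (T.hmult v hv) P hz0
  exact ⟨h, α, z, y, P, hz0, hr, hh⟩

theorem ex_a (hne : s ≠ ⊥) : ∃ h, AR g t s v h := by
  by_contra hcon
  apply hne
  have hno : ∀ (α : End K V → K) (z : End K V), IsRoot g t α z → z ≠ 0 → (∃ τ ∈ t, α τ ≠ 0) →
      z ∈ cen g s := by
    intro α z hz hz0 hα
    rcases T.root_cases hs hz hz0 hα with h1 | h1
    · exact absurd (T.ar_of v hv hz hz0 hα h1) hcon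
    · exact h1
  rw [Submodule.eq_bot_iff]
  intro x hx
  obtain ⟨c, hc⟩ := T.scalar_of (x := x) (fun α z hz hz0 hα => ((hno α z hz hz0 hα).2 x hx).symm)
    fun τ hτ => by
      obtain ⟨a, ha, b, hb, rfl, hat, hbt⟩ := T.split_t hs hτ
      obtain ⟨c, hc⟩ := T.scalar_of (x := a)
        (fun α z hz hz0 hα => ((hno α z hz hz0 hα).2 a ha).symm) fun τ hτ => T.comm a hat τ hτ
      rw [mul_add, add_mul, hb.2 x hx, hc, mul_smul_comm, smul_mul_assoc, mul_one, one_mul]
  refine T.zero_of hs hx fun y hy => ?_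
  rw [hc, smul_mul_assoc, mul_smul_comm, one_mul, mul_one]

theorem ex_b (hne : ∃ x ∈ g, ∀ a ∈ s, ∀ c : K, x ≠ a + c • 1) :
    ∃ h, AR g t (cen g s) v h := by
  by_contra hcon
  obtain ⟨x, hx, hx2⟩ := hne
  obtain ⟨a, ha, b, hb, rfl⟩ := T.split hs hx
  have hno : ∀ (α : End K V → K) (z : End K V), IsRoot g t α z → z ≠ 0 → (∃ τ ∈ t, α τ ≠ 0) →
      z ∈ s := by
    intro α z hz hz0 hα
    rcases T.root_cases hs hz hz0 hα with h1 | h1
    · exact h1
    · exact absurd (T.ar_of v hv hz hz0 hα h1) hcon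
  obtain ⟨c, hc⟩ := T.scalar_of (x := b) (fun α z hz hz0 hα => hb.2 z (hno α z hz hz0 hα))
    fun τ hτ => by
      obtain ⟨a', ha', b', hb', rfl, hat', hbt'⟩ := T.split_t hs hτ
      obtain ⟨c, hc⟩ := T.scalar_of (x := b')
        (fun α z hz hz0 hα => hb'.2 z (hno α z hz hz0 hα)) fun τ hτ => T.comm b' hbt' τ hτ
      rw [mul_add, add_mul, hb.2 a' ha', hc, mul_smul_comm, smul_mul_assoc, mul_one, one_mul]
  exact hx2 a ha c (by rw [hc])

/-- **If the roots are connected and the dimension is not a power of two then `g` is simple up to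
scalars.** -/
theorem simple_of_conn (hc : Conn (Lv t v)) (hpow : ∀ m, finrank K V ≠ 2 ^ m) (hne : s ≠ ⊥) :
    ∀ x ∈ g, ∃ a ∈ s, ∃ c : K, x = a + c • 1 := by
  by_contra hcon
  push Not at hcon
  obtain ⟨x, hx, hx2⟩ := hcon
  obtain ⟨m, hm⟩ := (T.dec hs v hv).pow_two (T.lat v hv) (sat v) hc (T.ex_a hs v hv hne)
    (T.ex_b hs v hv ⟨x, hx, hx2⟩)
  exact hpow m (by rw [finrank_eq_card_basis v, hm])

end TD

end Pool.Agent.FQA
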