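import Pool.Agent.FQA.KindN

/-!
# Full algebras determine the lattice: no condition on the dimension

`T : TD g t` has the same lattice as a full symplectic or orthogonal algebra.
-/

set_option autoImplicit false
set_option linter.unusedSectionVars false

namespace Pool.Agent.FQA

open Module Pool.Agent.CoprimeSig Pool.Agent.Mod4 Pool.Agent.NumRank
open Pool.Agent.PrimePow.CC (Rf Rt Lat)
open Pool.Agent.SmallRank (rk)

variable {K V : Type*} [Field K] [CharZero K] [IsAlgClosed K] [AddCommGroup V] [Module K V]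
  [FiniteDimensional K V] {ψ : V →ₗ[K] V →ₗ[K] K}

/-- The multiplier and the trace. -/
theorem two_trace (hnd : ∀ x, (∀ y, ψ x y = 0) → x = 0) {x : End K V} {κ : K}
    (h : ∀ a b, ψ (x a) b + ψ a (x b) = κ * ψ a b) :
    2 * LinearMap.trace K V x = κ * (finrank K V : K) := by
  have hinj : Function.Injective ψ := by
    rw [← LinearMap.ker_eq_bot, LinearMap.ker_eq_bot']
    exact fun m hm => hnd m fun y => by rw [hm, LinearMap.zero_apply]
  obtain ⟨Φ, hΦ⟩ : ∃ Φ : V ≃ₗ[K] Dual K V, ∀ a, Φ a = ψ a :=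
    ⟨LinearMap.linearEquivOfInjective ψ hinj Subspace.dual_finrank_eq.symm, fun a => rfl⟩
  have h1 : Φ.conj x = κ • 1 - x.dualMap := by
    refine LinearMap.ext fun φ => LinearMap.ext fun b => ?_
    obtain ⟨a, rfl⟩ := Φ.surjective φ
    rw [LinearEquiv.conj_apply_apply, Φ.symm_apply_apply, hΦ, LinearMap.sub_apply,
      LinearMap.smul_apply, Module.End.one_apply, LinearMap.sub_apply, LinearMap.smul_apply,
      LinearMap.dualMap_apply, hΦ, smul_eq_mul]
    linear_combination h a b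
  have h3 : LinearMap.trace K (Dual K V) x.dualMap = LinearMap.trace K V x :=
    LinearMap.trace_transpose' x
  have h4 : LinearMap.trace K (Dual K V) (κ • 1 - x.dualMap) =
      κ * (finrank K V : K) - LinearMap.trace K V x := by
    refine ((LinearMap.trace K (Dual K V)).map_sub (κ • (1 : End K (Dual K V)))
      x.dualMap).trans ?_
    rw [LinearMap.map_smul, h3, LinearMap.trace_one, Subspace.dual_finrank_eq, smul_eq_mul]
  rw [← h1, LinearMap.trace_conj'] at h4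
  linear_combination h4

section
variable {Ω : Type} [Fintype Ω] [DecidableEq Ω] {L : AddSubgroup (Ω → ℚ)} {k : Ω → ℚ}

/-- A root without zeros has the same values at the two points of `tw`. -/
theorem Fl.eq_of_tw (hk : Fl L k) {i j : Ω} (hij : i ≠ j) (h : tw i j ∈ L)
    (hc : 4 < Fintype.card Ω) : k i = k j := by
  by_contra hne
  obtain ⟨z, hz⟩ := Rt_int hk.rt h
  have h1 : k ⬝ᵥ tw i j = k i - k j := by
    have h2 : ∀ ω, k ω * tw i j ω = (if ω = i then k ω else 0) - if ω = j then k ω else 0 := by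
      intro ω
      unfold tw
      by_cases h3 : ω = i
      · rw [if_pos h3, if_pos h3, if_neg (fun h4 => hij (h3.symm.trans h4))]
        ring
      · rw [if_neg h3, if_neg h3]
        by_cases h4 : ω = j
        · rw [if_pos h4, if_pos h4]
          ring
        · rw [if_neg h4, if_neg h4]
          ring
    simp only [dotProduct, h2, Finset.sum_sub_distrib, Finset.sum_ite_eq', Finset.mem_univ,
      if_true]
  have h2 : k ⬝ᵥ k = Fintype.card Ω := by
    have h3 : ∀ ω, k ω * k ω = 1 := by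
      intro ω
      rcases hk.val ω with h3 | h3 <;> rw [h3] <;> norm_num
    simp only [dotProduct, h3, Finset.sum_const, Finset.card_univ, nsmul_eq_mul, mul_one]
  have h3 : (k i - k j) ^ 2 = 4 := by
    rcases hk.val i with h3 | h3 <;> rcases hk.val j with h4 | h4 <;> rw [h3, h4] at hne ⊢
    · exact absurd rfl hne
    · norm_num
    · norm_num
    · exact absurd rfl hne
  have h4 : cf (tw i j) k * (Fintype.card Ω : ℚ) = 2 * (k i - k j) := by
    rw [← h2, ← h1]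
    exact cf_mul (by rw [h2]; positivity)
  rw [hz] at h4
  have h5 : (z * (Fintype.card Ω : ℚ)) ^ 2 = 16 := by
    rw [h4, mul_pow, h3]
    norm_num
  have h6 : (z * (Fintype.card Ω : ℤ)) ^ 2 = 16 := by exact_mod_cast h5
  have h7 : z ≠ 0 := by
    rintro rfl
    norm_num at h6
  have h8 : (1 : ℤ) ≤ z ^ 2 := by
    have := sq_pos_of_ne_zero h7
    omega
  have h9 : (5 : ℤ) ≤ (Fintype.card Ω : ℤ) := by exact_mod_cast hc
  have h10 : (25 : ℤ) ≤ (Fintype.card Ω : ℤ) ^ 2 := by nlinarith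
  have h11 : (1 : ℤ) * 25 ≤ z ^ 2 * (Fintype.card Ω : ℤ) ^ 2 :=
    mul_le_mul h8 h10 (by norm_num) (by positivity)
  rw [mul_pow] at h6
  omega

end

variable {g t : Submodule K (End K V)} (T : TD g t) [Nontrivial V] {I : Type} [Fintype I]
  [DecidableEq I] (v : Basis I K V) (hv : ∀ x ∈ t, ∀ i, ∃ c : K, x (v i) = c • v i)
include T hv

/-- If every index is in the support of a function `tw i j` of the lattice then there is no root
without zeros. -/
theorem TD.nofl_of_tw (hnd : ∀ x, (∀ y, ψ x y = 0) → x = 0)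
    (hgsp : ∀ x ∈ g, ∃ κ : K, ∀ u w, ψ (x u) w + ψ u (x w) = κ * ψ u w)
    (hc : 4 < finrank K V) {i j : I} (hij : i ≠ j) (hL : tw i j ∈ Lv t v) :
    ∀ k, ¬ Fl (Lv t v) k := by
  intro k hk
  -- the partner of `i`
  obtain ⟨b, hb⟩ : ∃ b, ψ (v i) (v b) ≠ 0 := by
    by_contra hcon
    push Not at hcon
    refine v.ne_zero i (hnd _ fun y => ?_)
    have h1 : ψ (v i) = 0 := v.ext fun j => by rw [hcon j, LinearMap.zero_apply]
    rw [h1, LinearMap.zero_apply]
  have hn0 : (finrank K V : K) ≠ 0 := by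
    rw [Nat.cast_ne_zero]
    omega
  have key : ∀ (f : I → ℚ) (τ : End K V), τ ∈ t → (∀ a, τ (v a) = (f a : K) • v a) →
      ∑ a, f a = 0 → f i + f b = 0 := by
    intro f τ hτ hf hs
    obtain ⟨κ, hκ⟩ := hgsp τ (T.le hτ)
    have h1 := two_trace hnd hκ
    rw [trace_dg v hf, hs, Rat.cast_zero, mul_zero] at h1
    have h2 : κ = 0 := (mul_eq_zero.1 h1.symm).resolve_right hn0
    have h3 := hκ (v i) (v b)
    rw [hf, hf, map_smul, LinearMap.smul_apply, map_smul, smul_eq_mul, smul_eq_mul, h2, zero_mul,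
      ← add_mul] at h3
    have h4 := (mul_eq_zero.1 h3).resolve_right hb
    exact_mod_cast h4
  obtain ⟨-, τ, hτ, hf⟩ := hL
  have hsum : ∑ a, tw i j a = 0 := by
    have h2 : ∀ ω, tw i j ω = (if ω = i then (1 : ℚ) else 0) - if ω = j then 1 else 0 := by
      intro ω
      unfold tw
      by_cases h3 : ω = i
      · rw [if_pos h3, if_pos h3, if_neg (fun h4 => hij (h3.symm.trans h4))]
        ring
      · rw [if_neg h3, if_neg h3]
        by_cases h4 : ω = j
        · rw [if_pos h4, if_pos h4]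
          ring
        · rw [if_neg h4, if_neg h4]
          ring
    simp only [h2, Finset.sum_sub_distrib, Finset.sum_ite_eq', Finset.mem_univ, if_true, sub_self]
  have h1 := key (tw i j) τ hτ hf hsum
  have hbj : b = j := by
    by_contra h2
    have h3 : tw i j i = 1 := if_pos rfl
    rw [h3] at h1
    by_cases h4 : b = i
    · rw [h4, h3] at h1
      norm_num at h1
    · have h5 : tw i j b = 0 := by
        unfold tw
        rw [if_neg h4, if_neg h2]
      rw [h5] at h1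
      norm_num at h1
  obtain ⟨-, κ, hκ, hkv⟩ := (show k ∈ Lv t v from (by
    obtain ⟨π, hπ⟩ := hk.rt
    exact hπ.mem))
  have h2 := key k κ hκ hkv (Rt_sum hk.rt)
  rw [hbj, ← hk.eq_of_tw hij ⟨fun a => by
    unfold tw
    by_cases h3 : a = i
    · exact ⟨1, by rw [if_pos h3, Int.cast_one]⟩
    · by_cases h4 : a = j
      · exact ⟨-1, by rw [if_neg h3, if_pos h4]; simp⟩
      · exact ⟨0, by rw [if_neg h3, if_neg h4, Int.cast_zero]⟩, τ, hτ, hf⟩
    (by rw [← finrank_eq_card_basis v]; exact hc)] at h2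
  rcases hk.val i with h3 | h3 <;> rw [h3] at h2 <;> norm_num at h2

omit T [Nontrivial V] in
/-- The lattice of a full algebra contains the functions `tw i j`. -/
theorem exists_tws {V' : Type*} [AddCommGroup V'] [Module K V'] [FiniteDimensional K V']
    {g' t' : Submodule K (End K V')} (T' : TD g' t') (v' : Basis I K V')
    (hv' : ∀ x ∈ t', ∀ i, ∃ c : K, x (v' i) = c • v' i) (hL : Lv t v = Lv t' v')
    {ψ' : V' →ₗ[K] V' →ₗ[K] K} (hform' : (∀ x, ψ' x x = 0) ∨ ∀ u w, ψ' u w = ψ' w u)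
    (hnd' : ∀ x, (∀ y, ψ' x y = 0) → x = 0)
    (hgsp' : ∀ x ∈ g', ∃ κ : K, ∀ u w, ψ' (x u) w + ψ' u (x w) = κ * ψ' u w)
    {e' : End K V'} (he' : e' ∈ t') (hee' : e' * e' = e')
    (hmul' : ∀ u w, ψ' (e' u) w + ψ' u (e' w) = ψ' u w)
    (hfull : ∀ D : End K V', (∀ a b, ψ' (D a) b + ψ' a (D b) = 0) → D ∈ g') (i : I) :
    ∃ j, i ≠ j ∧ tw i j ∈ Lv t v := by
  have hV' : Nontrivial V' := ⟨⟨v' i, 0, v'.ne_zero i⟩⟩
  rw [hL]
  rcases hform' with halt' | hsymm'
  · exact exists_tw T'.toCartan v' hv' (T'.hmult v' hv') halt' hnd' hgsp' hfull i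
  · exact exists_twS T'.toCartan v' hv' (T'.hmult v' hv') hsymm' hnd' hgsp' hfull he' hee' hmul' i

/-- The symplectic kind. -/
theorem TD.spread_sp (hcn : ∀ h h', Rt (Lv t v) h → Rt (Lv t v) h' → Cn (Lv t v) h h')
    (halt : ∀ x, ψ x x = 0) (hnd : ∀ x, (∀ y, ψ x y = 0) → x = 0)
    (hgsp : ∀ x ∈ g, ∃ κ : K, ∀ u w, ψ (x u) w + ψ u (x w) = κ * ψ u w)
    {e : End K V} (he : e ∈ t) (hee : e * e = e)
    (hmul : ∀ u w, ψ (e u) w + ψ u (e w) = ψ u w)
    {V' : Type*} [AddCommGroup V'] [Module K V'] [FiniteDimensional K V']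
    {g' t' : Submodule K (End K V')} (T' : TD g' t') (v' : Basis I K V')
    (hv' : ∀ x ∈ t', ∀ i, ∃ c : K, x (v' i) = c • v' i) (hL : Lv t v = Lv t' v')
    {ψ' : V' →ₗ[K] V' →ₗ[K] K} (hform' : (∀ x, ψ' x x = 0) ∨ ∀ u w, ψ' u w = ψ' w u)
    (hnd' : ∀ x, (∀ y, ψ' x y = 0) → x = 0)
    (hgsp' : ∀ x ∈ g', ∃ κ : K, ∀ u w, ψ' (x u) w + ψ' u (x w) = κ * ψ' u w)
    {e' : End K V'} (he' : e' ∈ t') (hee' : e' * e' = e')
    (hmul' : ∀ u w, ψ' (e' u) w + ψ' u (e' w) = ψ' u w)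
    (hfull : ∀ D : End K V', (∀ a b, ψ' (D a) b + ψ' a (D b) = 0) → D ∈ g') {D : End K V}
    (hD : ∀ a b, ψ (D a) b + ψ a (D b) = 0) : D ∈ g := by
  obtain ⟨i⟩ : Nonempty I := v.index_nonempty
  obtain ⟨j, hij, hj⟩ := exists_tws v hv T' v' hv' hL hform' hnd' hgsp' he' hee' hmul' hfull i
  obtain ⟨-, τ, hτ, hf⟩ := id hj
  refine T.sp_small v hv hcn halt hnd hgsp (fun m hm h => ?_) he hee hmul hτ (ns_tw v hij hf)
    (rk_tw v hf) hD
  have h1 : 2 ^ 3 ≤ 2 ^ m := Nat.pow_le_pow_right (by norm_num) hm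
  exact T.nofl_of_tw v hv hnd hgsp (by omega) hij hj

/-- The orthogonal kind. -/
theorem TD.spread_so (hcn : ∀ h h', Rt (Lv t v) h → Rt (Lv t v) h' → Cn (Lv t v) h h')
    (hsymm : ∀ u w, ψ u w = ψ w u) (hnd : ∀ x, (∀ y, ψ x y = 0) → x = 0)
    (hgsp : ∀ x ∈ g, ∃ κ : K, ∀ u w, ψ (x u) w + ψ u (x w) = κ * ψ u w)
    (h8 : finrank K V ≠ 8) (h4 : finrank K V = 4 → ∀ k, ¬ Fl (Lv t v) k)
    {e : End K V} (he : e ∈ t) (hee : e * e = e)
    (hmul : ∀ u w, ψ (e u) w + ψ u (e w) = ψ u w)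
    {V' : Type*} [AddCommGroup V'] [Module K V'] [FiniteDimensional K V']
    {g' t' : Submodule K (End K V')} (T' : TD g' t') (v' : Basis I K V')
    (hv' : ∀ x ∈ t', ∀ i, ∃ c : K, x (v' i) = c • v' i) (hL : Lv t v = Lv t' v')
    {ψ' : V' →ₗ[K] V' →ₗ[K] K} (hform' : (∀ x, ψ' x x = 0) ∨ ∀ u w, ψ' u w = ψ' w u)
    (hnd' : ∀ x, (∀ y, ψ' x y = 0) → x = 0)
    (hgsp' : ∀ x ∈ g', ∃ κ : K, ∀ u w, ψ' (x u) w + ψ' u (x w) = κ * ψ' u w)
    {e' : End K V'} (he' : e' ∈ t') (hee' : e' * e' = e')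
    (hmul' : ∀ u w, ψ' (e' u) w + ψ' u (e' w) = ψ' u w)
    (hfull : ∀ D : End K V', (∀ a b, ψ' (D a) b + ψ' a (D b) = 0) → D ∈ g') {D : End K V}
    (hD : ∀ a b, ψ (D a) b + ψ a (D b) = 0) : D ∈ g := by
  obtain ⟨i⟩ : Nonempty I := v.index_nonempty
  obtain ⟨j, hij, hj⟩ := exists_tws v hv T' v' hv' hL hform' hnd' hgsp' he' hee' hmul' hfull i
  obtain ⟨-, τ, hτ, hf⟩ := id hj
  refine T.so_small v hv hcn hsymm hnd hgsp h8 (fun m hm h => ?_) he hee hmul hτ
    (ns_tw v hij hf) (rk_tw v hf) hD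
  rcases Nat.eq_or_lt_of_le hm with h1 | h1
  · exact h4 (by rw [h, ← h1]; rfl)
  · have h2 : 2 ^ 3 ≤ 2 ^ m := Nat.pow_le_pow_right (by norm_num) h1
    exact T.nofl_of_tw v hv hnd hgsp (by omega) hij hj

end Pool.Agent.FQA
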