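import Pool.Agent.FQA.ModN
import Pool.Agent.FQA.SpreadN

/-!
# If the roots are not connected then the dimension splits

If the roots of the lattice of `T : TD g t` are not connected then the dimension is `a * b` with
`a, b > 1` such that the rank of every idempotent of the torus is divisible by `a` or by `b`, and
both occur for the nontrivial idempotents of every set which spans the torus
(`TD.exists_split`). `TD.cn_of_num` is a numerical criterion for the connectedness.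
-/

set_option autoImplicit false
set_option linter.unusedSectionVars false

namespace Pool.Agent.FQA

open Module Pool.Agent.CoprimeSig Pool.Agent.Mod4 Pool.Agent.NumRank
open Pool.Agent.PrimePow.CC (Rf Rt Lat)
open Pool.Agent.SmallRank (rk)

section Comb

variable {Ω : Type*} [Fintype Ω] {L : AddSubgroup (Ω → ℚ)} {A B : (Ω → ℚ) → Prop} {f : Ω → ℚ}

/-- A root takes two values. -/
theorem Rt_ne {h : Ω → ℚ} (H : Rt L h) : ∃ ω ω', h ω ≠ h ω' := by
  obtain ⟨ω, hω⟩ := Rt_one H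
  by_contra hcon
  push Not at hcon
  have h1 : ∀ ω', h ω' = 1 := fun ω' => by rw [hcon ω' ω, hω]
  have h2 := Rt_sum H
  have : Nonempty Ω := ⟨ω⟩
  rw [Finset.sum_congr rfl fun ω' _ => h1 ω', Finset.sum_const, Finset.card_univ, nsmul_eq_mul,
    mul_one] at h2
  exact Fintype.card_ne_zero (by exact_mod_cast h2)

/-- The sum of a function with the values `0`, `1` which is induced by a projection of a
product. -/
private theorem sum_fst {X Y : Type*} [Fintype X] [Fintype Y] (e : Ω ≃ X × Y) (F : X → ℚ)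
    (hF : ∀ x, F x = 0 ∨ F x = 1) (hf : ∀ ω, f ω = F (e ω).1) :
    ∃ m : ℕ, ∑ ω, f ω = ((Fintype.card Y * m : ℕ) : ℚ) := by
  classical
  refine ⟨∑ x, if F x = 1 then 1 else 0, ?_⟩
  have h1 : ∑ ω, f ω = ∑ x : X × Y, F x.1 := by
    rw [← Equiv.sum_comp e]
    exact Finset.sum_congr rfl fun ω _ => hf ω
  rw [h1, Fintype.sum_prod_type]
  simp only [Finset.sum_const, Finset.card_univ, nsmul_eq_mul]
  rw [← Finset.mul_sum]
  push_cast
  congr 1
  refine Finset.sum_congr rfl fun x _ => ?_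
  rcases hF x with h | h <;> rw [h] <;> norm_num

private theorem sum_snd {X Y : Type*} [Fintype X] [Fintype Y] (e : Ω ≃ X × Y) (F : Y → ℚ)
    (hF : ∀ x, F x = 0 ∨ F x = 1) (hf : ∀ ω, f ω = F (e ω).2) :
    ∃ m : ℕ, ∑ ω, f ω = ((Fintype.card X * m : ℕ) : ℚ) :=
  sum_fst (e.trans (Equiv.prodComm X Y)) F hF hf

/-- **The points are a product.** -/
theorem Dec.exists_ab (hL : Lat L) (D : Dec L A B) (hA : ∃ h, A h) (hB : ∃ h, B h) :
    ∃ a b : ℕ, 1 < a ∧ 1 < b ∧ Fintype.card Ω = a * b ∧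
      (∀ f ∈ L, (∀ ω, f ω = 0 ∨ f ω = 1) → (∀ h, A h → h ⬝ᵥ f = 0) →
        ∃ m : ℕ, ∑ ω, f ω = ((a * m : ℕ) : ℚ)) ∧
      ∀ f ∈ L, (∀ ω, f ω = 0 ∨ f ω = 1) → (∀ h, B h → h ⬝ᵥ f = 0) →
        ∃ m : ℕ, ∑ ω, f ω = ((b * m : ℕ) : ℚ) := by
  classical
  let X := Quotient (eqv (Submodule.span ℚ {h | A h} : Set (Ω → ℚ)))
  let Y := Quotient (eqv (perp L A))
  let e : Ω ≃ X × Y := Equiv.ofBijective _ (D.bij hL)
  refine ⟨Fintype.card X, Fintype.card Y, ?_, ?_, ?_, fun f hf hval hfA => ?_,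
    fun f hf hval hfB => ?_⟩
  · obtain ⟨h, hh⟩ := hA
    obtain ⟨ω, ω', hne⟩ := Rt_ne (D.ra h hh)
    rw [Fintype.one_lt_card_iff]
    refine ⟨Quotient.mk _ ω, Quotient.mk _ ω', fun h1 => hne ?_⟩
    exact Quotient.exact h1 h (Submodule.subset_span hh)
  · obtain ⟨h, hh⟩ := hB
    obtain ⟨ω, ω', hne⟩ := Rt_ne (D.rb h hh)
    rw [Fintype.one_lt_card_iff]
    refine ⟨Quotient.mk _ ω, Quotient.mk _ ω', fun h1 => hne ?_⟩
    exact Quotient.exact h1 h ⟨mem_LQ (Rt_mem (D.rb h hh)), fun k hk => D.orth k h hk hh⟩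
  · rw [Fintype.card_congr e, Fintype.card_prod]
  · refine sum_snd e (Quotient.lift f fun ω ω' h => h f ⟨mem_LQ hf, hfA⟩) (fun y => ?_)
      fun ω => rfl
    induction y using Quotient.inductionOn with | _ y => ?_
    exact hval y
  · have hdep : ∀ ω ω', (∀ f ∈ Submodule.span ℚ {h | A h}, f ω = f ω') → f ω = f ω' := by
      intro ω ω' h
      obtain ⟨g, gS, gp⟩ := exists_proj (Submodule.span ℚ {h | A h}) f
      have h3 := D.const (f := f - g) ((LQ L).sub_mem (mem_LQ hf) (D.span_le gS))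
        (fun x hx => gp x (Submodule.subset_span hx))
        (fun x hx => by rw [dotProduct_sub, hfB x hx, D.orth_span gS hx, sub_zero]) ω ω'
      have h4 := h g gS
      rw [Pi.sub_apply, Pi.sub_apply, h4] at h3
      linarith
    refine sum_fst e (Quotient.lift f fun ω ω' h => hdep ω ω' h) (fun y => ?_) fun ω => rfl
    induction y using Quotient.inductionOn with | _ y => ?_
    exact hval y

end Comb

variable {K V : Type*} [Field K] [CharZero K] [IsAlgClosed K] [AddCommGroup V] [Module K V]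
  [FiniteDimensional K V]

namespace TD

variable {g t : Submodule K (End K V)} (T : TD g t) [Nontrivial V] {I : Type} [Fintype I]
  (v : Basis I K V) (hv : ∀ x ∈ t, ∀ i, ∃ c : K, x (v i) = c • v i)
include T hv

/-- Each root is touched by an idempotent of a set which spans the torus. -/
theorem exists_tched {S : Set (End K V)} (hS : ∀ e ∈ S, e ∈ t ∧ e * e = e)
    (hspan : t ≤ Submodule.span K S) {h : I → ℚ} (H : Rt (Lv t v) h) :
    ∃ e ∈ S, ∃ f : I → ℚ, (∀ i, e (v i) = (f i : K) • v i) ∧ f ∈ Lv t v ∧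
      (∀ i, f i = 0 ∨ f i = 1) ∧ h ⬝ᵥ f ≠ 0 := by
  obtain ⟨-, x, hx, hxv⟩ := Rt_mem H
  by_contra hcon
  push Not at hcon
  have key : ∀ y ∈ t, LinearMap.trace K V (x * y) = 0 := by
    intro y hy
    have h1 := hspan hy
    clear hy
    induction h1 using Submodule.span_induction with
    | mem e he =>
      obtain ⟨he', hee⟩ := hS e he
      obtain ⟨f, hf, hval, hfe, -⟩ := T.idem_val v hv he' hee
      rw [trace_pair v hxv hfe, hcon e he f hfe hf hval, Rat.cast_zero]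
    | zero => rw [mul_zero, map_zero]
    | add a b _ _ ha hb => rw [mul_add, map_add, ha, hb, add_zero]
    | smul a b _ hb => rw [mul_smul_comm, map_smul, hb, smul_zero]
  have h1 := key x hx
  rw [trace_pair v hxv hxv] at h1
  exact Rt_sq_ne H (by exact_mod_cast h1)

/-- **The dimension splits if the roots are not connected.** -/
theorem exists_split (hcon : ¬ ∀ h h', Rt (Lv t v) h → Rt (Lv t v) h' → Cn (Lv t v) h h')
    {S : Set (End K V)} (hS : ∀ e ∈ S, e ∈ t ∧ e * e = e) (hspan : t ≤ Submodule.span K S) :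
    ∃ a b : ℕ, 1 < a ∧ 1 < b ∧ finrank K V = a * b ∧
      (∀ e ∈ t, e * e = e → a ∣ rk e ∨ b ∣ rk e) ∧
      (∃ e ∈ S, e ≠ 0 ∧ e ≠ 1 ∧ a ∣ rk e) ∧ ∃ e ∈ S, e ≠ 0 ∧ e ≠ 1 ∧ b ∣ rk e := by
  push Not at hcon
  obtain ⟨h, h', H, H', hcon⟩ := hcon
  have hL := T.lat v hv
  let P : (I → ℚ) → Prop := Cn (Lv t v) h
  have D : Dec (Lv t v) (fun k => Rt (Lv t v) k ∧ P k) (fun k => Rt (Lv t v) k ∧ ¬ P k) := by
    refine ⟨fun k hk => hk.1, fun k hk => hk.1, fun a b ha hb => ?_, fun X hX hX2 => ?_⟩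
    · by_contra h0
      exact hb.2 (Cn.stb h a b ha.1 hb.1 ha.2 h0)
    · refine hL.tr X hX fun k π K' ω hω => hX2 k π ?_ K' ω hω
      by_cases h1 : P k
      · exact Or.inl ⟨⟨π, K'⟩, h1⟩
      · exact Or.inr ⟨⟨π, K'⟩, h1⟩
  obtain ⟨a, b, ha, hb, hab, h1, h2⟩ := D.exists_ab hL ⟨h, H, Relation.ReflTransGen.refl⟩
    ⟨h', H', hcon⟩
  have hrk : ∀ e : End K V, e * e = e → ∀ f : I → ℚ, (∀ i, e (v i) = (f i : K) • v i) →
      ∀ m : ℕ, ∑ i, f i = (m : ℚ) → rk e = m := by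
    intro e hee f hf m hm
    have h3 := trace_dg v hf
    rw [SmallRank.trace_idem hee, hm, Rat.cast_natCast] at h3
    exact_mod_cast h3
  have hPstb : Stb (Lv t v) P := Cn.stb h
  have hone : ∀ f ∈ Lv t v, (∀ i, f i = 0 ∨ f i = 1) → ∀ k, Rt (Lv t v) k → P k →
      k ⬝ᵥ f ≠ 0 → ∀ k', Rt (Lv t v) k' ∧ ¬ P k' → k' ⬝ᵥ f = 0 := by
    intro f hf hval k hk hPk h0 k' hk'
    by_contra h0'
    exact hk'.2 (one_comp hL hf hval P hPstb hk hPk h0 hk'.1 h0')
  have hnt : ∀ e : End K V, ∀ f : I → ℚ, (∀ i, e (v i) = (f i : K) • v i) →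
      ∀ k, Rt (Lv t v) k → k ⬝ᵥ f ≠ 0 → e ≠ 0 ∧ e ≠ 1 := by
    intro e f hf k hk h0
    constructor
    · rintro rfl
      apply h0
      have h3 : ∀ i, f i = 0 := by
        intro i
        have h4 := hf i
        rw [LinearMap.zero_apply] at h4
        exact_mod_cast (smul_eq_zero.1 h4.symm).resolve_right (v.ne_zero i)
      rw [show f = 0 from funext h3, dotProduct_zero]
    · rintro rfl
      apply h0
      have h3 : ∀ i, f i = 1 := by
        intro i
        have h4 := hf i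
        rw [Module.End.one_apply] at h4
        nth_rewrite 1 [← one_smul K (v i)] at h4
        exact_mod_cast (smul_left_injective K (v.ne_zero i) h4).symm
      simp only [dotProduct, h3, mul_one]
      exact Rt_sum hk
  refine ⟨a, b, ha, hb, by rw [finrank_eq_card_basis v, hab], fun e he hee => ?_, ?_, ?_⟩
  · obtain ⟨f, hf, hval, hfe, -⟩ := T.idem_val v hv he hee
    by_cases h0 : ∀ k, Rt (Lv t v) k ∧ P k → k ⬝ᵥ f = 0
    · left
      obtain ⟨m, hm⟩ := h1 f hf hval h0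
      rw [hrk e hee f hfe _ hm]
      exact dvd_mul_right a m
    · right
      push Not at h0
      obtain ⟨k, ⟨hk, hPk⟩, h0⟩ := h0
      obtain ⟨m, hm⟩ := h2 f hf hval (hone f hf hval k hk hPk h0)
      rw [hrk e hee f hfe _ hm]
      exact dvd_mul_right b m
  · obtain ⟨e, he, f, hfe, hf, hval, h0⟩ := T.exists_tched v hv hS hspan H'
    obtain ⟨n0, n1⟩ := hnt e f hfe h' H' h0
    refine ⟨e, he, n0, n1, ?_⟩
    obtain ⟨m, hm⟩ := h1 f hf hval fun k hk => by
      by_contra h3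
      exact hcon (one_comp hL hf hval P hPstb hk.1 hk.2 h3 H' h0)
    rw [hrk e (hS e he).2 f hfe _ hm]
    exact dvd_mul_right a m
  · obtain ⟨e, he, f, hfe, hf, hval, h0⟩ := T.exists_tched v hv hS hspan H
    obtain ⟨n0, n1⟩ := hnt e f hfe h H h0
    refine ⟨e, he, n0, n1, ?_⟩
    obtain ⟨m, hm⟩ := h2 f hf hval (hone f hf hval h H Relation.ReflTransGen.refl h0)
    rw [hrk e (hS e he).2 f hfe _ hm]
    exact dvd_mul_right b m

/-- **A numerical criterion.** `R` contains the ranks of the idempotents. -/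
theorem cn_of_num (R : Set ℕ) (hspan : t ≤ Submodule.span K {e : End K V | e ∈ t ∧ e * e = e ∧
      ∃ ρ ∈ R, LinearMap.trace K V e = (ρ : K)})
    (hex : ∀ ρ ∈ R, ∃ e ∈ t, e * e = e ∧ LinearMap.trace K V e = (ρ : K))
    (hnum : ∀ a b : ℕ, 1 < a → 1 < b → finrank K V = a * b → (∀ ρ ∈ R, a ∣ ρ ∨ b ∣ ρ) →
      (∃ ρ ∈ R, 0 < ρ ∧ ρ < finrank K V ∧ a ∣ ρ) →
        ¬ ∃ ρ ∈ R, 0 < ρ ∧ ρ < finrank K V ∧ b ∣ ρ) :
    ∀ h h', Rt (Lv t v) h → Rt (Lv t v) h' → Cn (Lv t v) h h' := by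
  by_contra hcon
  obtain ⟨a, b, ha, hb, hab, h1, h2, h3⟩ := T.exists_split v hv hcon
    (S := {e : End K V | e ∈ t ∧ e * e = e ∧ ∃ ρ ∈ R, LinearMap.trace K V e = (ρ : K)})
    (fun e he => ⟨he.1, he.2.1⟩) hspan
  have hrk : ∀ e : End K V, e * e = e → ∀ ρ : ℕ, LinearMap.trace K V e = (ρ : K) → rk e = ρ := by
    intro e hee ρ h4
    rw [SmallRank.trace_idem hee] at h4
    exact_mod_cast h4
  have hpos : ∀ e : End K V, e * e = e → e ≠ 0 → e ≠ 1 → 0 < rk e ∧ rk e < finrank K V := by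
    intro e hee h0 h1
    refine ⟨SmallRank.rk_pos h0, ?_⟩
    have h4 := SmallRank.rk_compl hee
    have h5 : 0 < rk (1 - e) := SmallRank.rk_pos (sub_ne_zero.2 (Ne.symm h1))
    omega
  refine hnum a b ha hb hab (fun ρ hρ => ?_) ?_ ?_
  · obtain ⟨e, he, hee, h4⟩ := hex ρ hρ
    have h5 := h1 e he hee
    rwa [hrk e hee ρ h4] at h5
  · obtain ⟨e, ⟨-, hee, ρ, hρ, h4⟩, n0, n1, h5⟩ := h2
    have h6 := hpos e hee n0 n1
    rw [hrk e hee ρ h4] at h5 h6
    exact ⟨ρ, hρ, h6.1, h6.2, h5⟩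
  · obtain ⟨e, ⟨-, hee, ρ, hρ, h4⟩, n0, n1, h5⟩ := h3
    have h6 := hpos e hee n0 n1
    rw [hrk e hee ρ h4] at h5 h6
    exact ⟨ρ, hρ, h6.1, h6.2, h5⟩

end TD

end Pool.Agent.FQA
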