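import Pool.Agent.FQA.Iface
import Pool.Agent.SmallRank.Full

/-!
# The symplectic algebra is determined by the lattice
-/

set_option autoImplicit false
set_option linter.unusedSectionVars false

namespace Pool.Agent.FQA

open Module Pool.Agent.CoprimeSig Pool.Agent.Mod4 Pool.Agent.NumRank
open Pool.Agent.SmallRank (rk)

variable {K V : Type*} [Field K] [CharZero K] [IsAlgClosed K] [AddCommGroup V] [Module K V]
  [FiniteDimensional K V]

/-- The function with the values `1` at `i` and `-1` at `j`. -/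
def tw {I : Type} [DecidableEq I] (i j : I) : I → ℚ :=
  fun k => if k = i then 1 else if k = j then -1 else 0

/-- The lattice of the symplectic algebra contains a function with support of two elements. -/
theorem exists_tw {g t : Submodule K (End K V)} (C : Cartan g t) {I : Type} [Fintype I]
    [DecidableEq I] (v : Basis I K V) (hv : ∀ x ∈ t, ∀ i, ∃ c : K, x (v i) = c • v i)
    (hmult : ∀ i j, (∀ τ ∈ t, wv v i τ = wv v j τ) → i = j) {ψ : V →ₗ[K] V →ₗ[K] K}
    (halt : ∀ x, ψ x x = 0) (hnd : ∀ x, (∀ y, ψ x y = 0) → x = 0)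
    (hgsp : ∀ x ∈ g, ∃ κ : K, ∀ u w, ψ (x u) w + ψ u (x w) = κ * ψ u w)
    (hsp : ∀ D : End K V, (∀ u w, ψ (D u) w + ψ u (D w) = 0) → D ∈ g) (i : I) :
    ∃ j, i ≠ j ∧ tw i j ∈ Lv t v := by
  have hskew : ∀ u w, ψ u w = -ψ w u := by
    intro u w
    have h1 := halt (u + w)
    simp only [map_add, LinearMap.add_apply, halt, zero_add, add_zero] at h1
    exact eq_neg_of_add_eq_zero_right h1
  have huniq : ∀ a b c : I, ψ (v a) (v b) ≠ 0 → ψ (v a) (v c) ≠ 0 → b = c := by
    intro a b c hb hc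
    refine hmult b c fun τ hτ => ?_
    obtain ⟨κ, hκ⟩ := hgsp τ (C.le hτ)
    have h1 := hκ (v a) (v b)
    have h2 := hκ (v a) (v c)
    rw [wv_apply v hv hτ a, wv_apply v hv hτ b, map_smul, LinearMap.smul_apply, map_smul,
      smul_eq_mul, smul_eq_mul, ← add_mul] at h1
    rw [wv_apply v hv hτ a, wv_apply v hv hτ c, map_smul, LinearMap.smul_apply, map_smul,
      smul_eq_mul, smul_eq_mul, ← add_mul] at h2
    have h3 := mul_right_cancel₀ hb h1
    have h4 := mul_right_cancel₀ hc h2
    rw [← h4] at h3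
    exact add_left_cancel h3
  obtain ⟨j, hj⟩ : ∃ j, ψ (v i) (v j) ≠ 0 := by
    by_contra hcon
    push Not at hcon
    refine v.ne_zero i (hnd _ fun y => ?_)
    have h1 : ψ (v i) = 0 := v.ext fun j => by rw [hcon j, LinearMap.zero_apply]
    rw [h1, LinearMap.zero_apply]
  have hij : i ≠ j := by
    rintro rfl
    exact hj (halt _)
  have hji : ψ (v j) (v i) ≠ 0 := by
    rw [hskew]
    exact neg_ne_zero.2 hj
  refine ⟨j, hij, ?_⟩
  set d : I → ℚ := tw i j with hd
  let D : End K V := v.constr K fun k => (d k : K) • v k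
  have hDv : ∀ k, D (v k) = (d k : K) • v k := fun k => v.constr_basis K _ k
  have hdi : d i = 1 := by rw [hd, tw, if_pos rfl]
  have hdj : d j = -1 := by rw [hd, tw, if_neg hij.symm, if_pos rfl]
  have hd0 : ∀ k, k ≠ i → k ≠ j → d k = 0 := fun k h1 h2 => by
    rw [hd, tw, if_neg h1, if_neg h2]
  have hDs : ∀ a b, ψ (D (v a)) (v b) + ψ (v a) (D (v b)) = 0 := by
    intro a b
    rw [hDv, hDv, map_smul, LinearMap.smul_apply, map_smul, smul_eq_mul, smul_eq_mul, ← add_mul]
    by_cases hab : ψ (v a) (v b) = 0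
    · rw [hab, mul_zero]
    have hba : ψ (v b) (v a) ≠ 0 := by
      rw [hskew]
      exact neg_ne_zero.2 hab
    by_cases hai : a = i
    · subst hai
      have h1 := huniq _ _ _ hab hj
      rw [h1, hdi, hdj]
      norm_num
    by_cases haj : a = j
    · subst haj
      have h1 := huniq _ _ _ hab hji
      rw [h1, hdi, hdj]
      norm_num
    have hbi : b ≠ i := by
      rintro rfl
      exact haj (huniq _ _ _ hba hj)
    have hbj : b ≠ j := by
      rintro rfl
      exact hai (huniq _ _ _ hba hji)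
    rw [hd0 a hai haj, hd0 b hbi hbj, Rat.cast_zero, add_zero, zero_mul]
  have hDψ : ∀ u w, ψ (D u) w + ψ u (D w) = 0 := by
    have h1 : ψ ∘ₗ D + ψ.compl₂ D = 0 := by
      refine v.ext fun a => v.ext fun b => ?_
      simpa using hDs a b
    intro u w
    have h2 := LinearMap.congr_fun (LinearMap.congr_fun h1 u) w
    simpa using h2
  have hDt : D ∈ t := by
    refine C.cent D (hsp D hDψ) fun τ hτ => v.ext fun k => ?_
    rw [Module.End.mul_apply, Module.End.mul_apply, wv_apply v hv hτ k, map_smul, hDv, map_smul,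
      wv_apply v hv hτ k, smul_smul, smul_smul, mul_comm]
  refine ⟨fun k => ?_, D, hDt, hDv⟩
  by_cases h1 : k = i
  · exact ⟨1, by rw [h1, hdi, Int.cast_one]⟩
  by_cases h2 : k = j
  · exact ⟨-1, by rw [h2, hdj, Int.cast_neg, Int.cast_one]⟩
  · exact ⟨0, by rw [hd0 k h1 h2, Int.cast_zero]⟩

/-- An element with two nonzero values. -/
theorem rk_tw {I : Type} [Fintype I] [DecidableEq I] (v : Basis I K V) {τ : End K V} {i j : I}
    (hτ : ∀ k, τ (v k) = (tw i j k : K) • v k) : rk τ ≤ 2 := by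
  classical
  have h1 : LinearMap.range τ ≤ Submodule.span K (({v i, v j} : Finset V) : Set V) := by
    rintro _ ⟨w, rfl⟩
    rw [← v.sum_repr w, map_sum]
    refine Submodule.sum_mem _ fun k _ => ?_
    rw [map_smul, hτ]
    refine Submodule.smul_mem _ _ ?_
    by_cases h1 : k = i
    · subst h1
      exact Submodule.smul_mem _ _ (Submodule.subset_span (by simp))
    by_cases h2 : k = j
    · subst h2
      exact Submodule.smul_mem _ _ (Submodule.subset_span (by simp))
    · rw [tw, if_neg h1, if_neg h2, Rat.cast_zero, zero_smul]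
      exact Submodule.zero_mem _
  calc rk τ = finrank K (LinearMap.range τ) := rfl
    _ ≤ finrank K (Submodule.span K (({v i, v j} : Finset V) : Set V)) :=
        Submodule.finrank_mono h1
    _ ≤ ({v i, v j} : Finset V).card := finrank_span_finset_le_card _
    _ ≤ 2 := Finset.card_le_two

theorem ns_tw {I : Type} [Fintype I] [DecidableEq I] (v : Basis I K V) {τ : End K V} {i j : I}
    (hij : i ≠ j) (hτ : ∀ k, τ (v k) = (tw i j k : K) • v k) (c : K) : τ ≠ c • 1 := by
  intro hc
  have h1 := hτ i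
  have h2 := hτ j
  rw [hc, LinearMap.smul_apply, Module.End.one_apply] at h1 h2
  have h3 := smul_left_injective K (v.ne_zero i) h1
  have h4 := smul_left_injective K (v.ne_zero j) h2
  rw [tw, if_pos rfl, Rat.cast_one] at h3
  rw [tw, if_neg hij.symm, if_pos rfl, h3, Rat.cast_neg, Rat.cast_one] at h4
  have h5 : (2 : K) = 0 := by linear_combination h4
  exact two_ne_zero h5

/-- If the torus contains an element with two nonzero values then a simple algebra of symplectic
similitudes is the full algebra. -/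
theorem full_of_tw {g : Submodule K (End K V)} {e : End K V}
    (G : SmallRank.Gr g e) {ψ : V →ₗ[K] V →ₗ[K] K} (halt : ∀ x, ψ x x = 0)
    (hnd : ∀ x, (∀ y, ψ x y = 0) → x = 0)
    (hgsp : ∀ x ∈ g, ∃ κ : K, ∀ u w, ψ (x u) w + ψ u (x w) = κ * ψ u w)
    (hmul : ∀ u w, ψ (e u) w + ψ u (e w) = ψ u w) {τ : End K V} (hτ : τ ∈ g)
    (hns : ∀ c : K, τ ≠ c • 1) (hrk : rk τ ≤ 2) {D : End K V}
    (hD : ∀ u w, ψ (D u) w + ψ u (D w) = 0) : D ∈ g := by
  have hbal := SmallRank.two_rk hnd G.idem hmul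
  have hadd := G.rk_add
  by_cases h8 : 8 < finrank K V
  · refine SmallRank.skew_of_small G halt hnd hgsp hmul hτ hns ?_ hD
    have h2 : rk (1 - e) = rk e := by omega
    rw [h2, ← hbal]
    have h3 : 4 < rk e := by omega
    nlinarith
  · push Not at h8
    refine SmallRank.skew_of_simple G halt hnd hgsp hmul (fun m hm h => ?_)
      (fun k _ hk h => ?_) hD
    · have h1 : 2 ^ 5 ≤ 2 ^ m := Nat.pow_le_pow_right (by norm_num) hm
      omega
    · have h1 : (2 * k).choose 2 ≤ (2 * k).choose k := by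
        have := Nat.choose_le_centralBinom 2 k
        rwa [Nat.centralBinom] at this
      have h2 : (6 : ℕ).choose 2 ≤ (2 * k).choose 2 := Nat.choose_le_choose 2 (by omega)
      have h3 : (6 : ℕ).choose 2 = 15 := by decide
      omega

/-- (S4) If the lattice contains the lattice of a full symplectic algebra then a simple algebra of
symplectic similitudes is the full algebra. -/
theorem spread {g t : Submodule K (End K V)} {e : End K V}
    (G : SmallRank.Gr g e) (htg : t ≤ g) {I : Type} [Fintype I] (v : Basis I K V)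
    {ψ : V →ₗ[K] V →ₗ[K] K} (halt : ∀ x, ψ x x = 0) (hnd : ∀ x, (∀ y, ψ x y = 0) → x = 0)
    (hgsp : ∀ x ∈ g, ∃ κ : K, ∀ u w, ψ (x u) w + ψ u (x w) = κ * ψ u w)
    (hmul : ∀ u w, ψ (e u) w + ψ u (e w) = ψ u w)
    {V' : Type*} [AddCommGroup V'] [Module K V'] [FiniteDimensional K V']
    {g' t' : Submodule K (End K V')} (C' : Cartan g' t') {I' : Type} [Fintype I']
    (v' : Basis I' K V') (hv' : ∀ x ∈ t', ∀ i, ∃ c : K, x (v' i) = c • v' i)
    (hmult' : ∀ i j, (∀ τ ∈ t', wv v' i τ = wv v' j τ) → i = j) {ψ' : V' →ₗ[K] V' →ₗ[K] K}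
    (halt' : ∀ x, ψ' x x = 0) (hnd' : ∀ x, (∀ y, ψ' x y = 0) → x = 0)
    (hgsp' : ∀ x ∈ g', ∃ κ : K, ∀ u w, ψ' (x u) w + ψ' u (x w) = κ * ψ' u w)
    (hsp' : ∀ D : End K V', (∀ u w, ψ' (D u) w + ψ' u (D w) = 0) → D ∈ g')
    (π : I' ≃ I) (hL : ∀ f ∈ Lv t' v', (fun i => f (π.symm i)) ∈ Lv t v) {D : End K V}
    (hD : ∀ u w, ψ (D u) w + ψ u (D w) = 0) : D ∈ g := by
  classical
  have := G.nontrivial
  obtain ⟨i⟩ : Nonempty I' := by
    have : Nonempty I := v.index_nonempty
    exact this.map π.symm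
  obtain ⟨j, hij, hj⟩ := exists_tw C' v' hv' hmult' halt' hnd' hgsp' hsp' i
  obtain ⟨-, τ, hτ, hf⟩ := hL _ hj
  have hf' : ∀ k, τ (v k) = (tw (π i) (π j) k : K) • v k := by
    intro k
    rw [hf k]
    congr 2
    simp only [tw, Equiv.symm_apply_eq]
  exact full_of_tw G halt hnd hgsp hmul (htg hτ)
    (ns_tw v (fun h => hij (π.injective h)) hf') (rk_tw v hf') hD

end Pool.Agent.FQA
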