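import Pool.Agent.FQA.Top

/-!
# The central element
-/

set_option autoImplicit false
set_option linter.unusedSectionVars false

namespace Pool.Agent.FQA

open Module Pool.Agent.SmallRank

variable {K V : Type*} [Field K] [CharZero K] [IsAlgClosed K] [AddCommGroup V] [Module K V]
  [FiniteDimensional K V]

/-- Linear functionals are given by the trace form. -/
theorem exists_repr {g : Submodule K (End K V)}
    (hnd : ∀ x ∈ g, (∀ y ∈ g, LinearMap.trace K V (x * y) = 0) → x = 0)
    (φ : End K V →ₗ[K] K) : ∃ θ ∈ g, ∀ z ∈ g, LinearMap.trace K V (z * θ) = φ z := by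
  let L : g →ₗ[K] Dual K g :=
    { toFun := fun x => (LinearMap.trace K V) ∘ₗ (LinearMap.mulRight K (x : End K V)) ∘ₗ g.subtype
      map_add' := fun x y => by
        ext z
        simp [mul_add]
      map_smul' := fun s x => by
        ext z
        simp }
  have hL : ∀ x z : g, L x z = LinearMap.trace K V ((z : End K V) * x) := fun x z => rfl
  have hinj : Function.Injective L := by
    rw [injective_iff_map_eq_zero]
    intro x hx
    refine Subtype.ext (hnd x x.2 fun y hy => ?_)
    have h1 := LinearMap.congr_fun hx ⟨y, hy⟩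
    rw [hL] at h1
    rw [LinearMap.trace_mul_comm]
    exact h1
  have hsurj : Function.Surjective L :=
    (LinearMap.injective_iff_surjective_of_finrank_eq_finrank
      (Subspace.dual_finrank_eq (K := K) (V := g)).symm).1 hinj
  obtain ⟨θ, hθ⟩ := hsurj (φ ∘ₗ g.subtype)
  exact ⟨θ, θ.2, fun z hz => by
    have h1 := LinearMap.congr_fun hθ ⟨z, hz⟩
    rw [hL] at h1
    exact h1⟩

namespace Ex

variable {g : Submodule K (End K V)} {c f : End K V} (E : Ex g c f)
include E

/-- The element which represents the trace of `P + Q`, up to a scalar. -/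
theorem theta : ∃ θ ∈ g, ∃ t : K, (∀ D ∈ g0 g c f, D * θ = θ * D) ∧ c * θ = θ * c ∧
    f * θ = θ * f ∧ θ * (c * f) = 0 ∧ θ * (f * c) = 0 ∧
    ∀ z ∈ g, LinearMap.trace K V (z * θ) =
      LinearMap.trace K V (z * (c * f + f * c)) - t * LinearMap.trace K V z := by
  obtain ⟨θ, hθ, hr⟩ := exists_repr E.nd
    ((LinearMap.trace K V) ∘ₗ (LinearMap.mulRight K (c * f + f * c)))
  replace hr : ∀ z ∈ g, LinearMap.trace K V (z * θ) =
      LinearMap.trace K V (z * (c * f + f * c)) := hr
  -- `θ` commutes with the elements of degree zero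
  have h0 : ∀ D ∈ g0 g c f, D * θ = θ * D := by
    intro D hD
    rw [← sub_eq_zero]
    refine E.nd _ (E.lie D hD.1 θ hθ) fun y hy => ?_
    have h1 : LinearMap.trace K V ((D * θ - θ * D) * y) =
        LinearMap.trace K V ((y * D - D * y) * θ) := by
      rw [sub_mul, sub_mul, map_sub, map_sub]
      have e1 : LinearMap.trace K V (D * θ * y) = LinearMap.trace K V (y * D * θ) := by
        rw [LinearMap.trace_mul_comm K (D * θ) y, mul_assoc]
      have e2 : LinearMap.trace K V (θ * D * y) = LinearMap.trace K V (D * y * θ) := by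
        rw [mul_assoc, LinearMap.trace_mul_comm]
      rw [e1, e2]
    have h2 : D * (c * f + f * c) = (c * f + f * c) * D := by
      rw [mul_add, add_mul, hD.2.1, hD.2.2]
    have h3 : LinearMap.trace K V ((y * D - D * y) * (c * f + f * c)) = 0 := by
      rw [sub_mul, map_sub, mul_assoc y, h2, ← mul_assoc y, LinearMap.trace_mul_comm K _ D,
        mul_assoc D y, sub_self]
    rw [h1, hr _ (E.lie y hy D hD.1), h3]
  -- it has degree zero
  have hh := h0 _ E.h0
  have hsq : (c * f - f * c) * (c * f - f * c) = c * f + f * c := by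
    rw [mul_sub, sub_mul, sub_mul, E.PP, E.PQ, E.QP, E.QQ]
    abel
  have hs : (c * f + f * c) * θ = θ * (c * f + f * c) := by
    rw [← hsq, mul_assoc, hh, ← mul_assoc, hh, mul_assoc]
  have hP : c * f * θ = θ * (c * f) := by
    have h1 : (2 : K) • (c * f) = (c * f + f * c) + (c * f - f * c) := by
      rw [two_smul]
      abel
    have e1 : (2 : K) • (c * f * θ) = (2 : K) • (c * f) * θ := (smul_mul_assoc _ _ _).symm
    have e2 : (2 : K) • (θ * (c * f)) = θ * ((2 : K) • (c * f)) := (mul_smul_comm _ _ _).symm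
    have h2 : (2 : K) • (c * f * θ - θ * (c * f)) = 0 := by
      rw [smul_sub, e1, e2, h1, add_mul, mul_add, hs, hh, sub_self]
    exact sub_eq_zero.1 ((smul_eq_zero.1 h2).resolve_left two_ne_zero)
  have hQ : f * c * θ = θ * (f * c) := by
    have h1 : f * c = (c * f + f * c) - c * f := by abel
    rw [h1, sub_mul, mul_sub, hs, hP]
  have hθ0 : θ ∈ g0 g c f := ⟨hθ, hP, hQ⟩
  have htr0 : LinearMap.trace K V ((c * f - f * c) * θ) = 0 := by
    rw [hr _ E.hg, mul_add, sub_mul, sub_mul, E.PP, E.QP, E.PQ, E.QQ, sub_zero, zero_sub, map_add,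
      map_neg, E.trc, E.trf, add_neg_cancel]
  -- it commutes with `c` and `f`
  have hc : c * θ = θ * c := by
    obtain ⟨s, hs⟩ := E.com0c hθ0
    have h1 : LinearMap.trace K V ((θ * c - c * θ) * f) = 0 := by
      rw [sub_mul, map_sub, mul_assoc θ, LinearMap.trace_mul_comm K θ,
        LinearMap.trace_mul_comm K (c * θ) f, ← mul_assoc f c θ, ← map_sub, ← sub_mul]
      exact htr0
    rw [hs, smul_mul_assoc, map_smul, E.trc, smul_eq_mul] at h1
    have h2 : s = 0 := (mul_eq_zero.1 h1).resolve_right two_ne_zero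
    rw [h2, zero_smul, sub_eq_zero] at hs
    exact hs.symm
  have hf : f * θ = θ * f := by
    obtain ⟨s, hs⟩ := E.com0f hθ0
    have h1 : LinearMap.trace K V ((θ * f - f * θ) * c) = 0 := by
      rw [sub_mul, map_sub, mul_assoc θ, LinearMap.trace_mul_comm K θ,
        LinearMap.trace_mul_comm K (f * θ) c, ← mul_assoc c f θ, ← map_sub, ← sub_mul,
        ← neg_sub, neg_mul, map_neg, htr0, neg_zero]
    rw [hs, smul_mul_assoc, map_smul, E.trf, smul_eq_mul] at h1
    have h2 : s = 0 := (mul_eq_zero.1 h1).resolve_right two_ne_zero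
    rw [h2, zero_smul, sub_eq_zero] at hs
    exact hs.symm
  -- it is a scalar on the range of `P`
  have hfix : ∀ a ∈ LinearMap.range (c * f), (c * f) a = a := by
    rintro _ ⟨w, rfl⟩
    exact LinearMap.congr_fun E.PP w
  obtain ⟨t, ht⟩ : ∃ t : K, θ * (c * f) = t • (c * f) := by
    have hmap : ∀ a ∈ LinearMap.range (c * f), θ a ∈ LinearMap.range (c * f) := by
      intro a ha
      exact ⟨θ a, by rw [← Module.End.mul_apply, hP, Module.End.mul_apply, hfix a ha]⟩
    have hnt : Nontrivial (LinearMap.range (c * f)) := by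
      rw [← finrank_pos_iff (R := K)]
      have h1 := E.rkP
      change 0 < rk (c * f)
      omega
    obtain ⟨t, ht⟩ := Module.End.exists_eigenvalue (θ.restrict hmap)
    obtain ⟨⟨a, ha⟩, hav⟩ := ht.exists_hasEigenvector
    refine ⟨t, ?_⟩
    let A : Submodule K V := LinearMap.range (c * f) ⊓ LinearMap.ker (θ - t • 1)
    have hA : A ≤ LinearMap.range (c * f) := inf_le_left
    have hAmem : ∀ b, b ∈ A ↔ b ∈ LinearMap.range (c * f) ∧ θ b = t • b := by
      intro b
      change b ∈ LinearMap.range (c * f) ∧ (θ - t • 1) b = 0 ↔ _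
      rw [LinearMap.sub_apply, LinearMap.smul_apply, Module.End.one_apply, sub_eq_zero]
    have hst : ∀ z ∈ g0 g c f, ∀ b ∈ A, z b ∈ A := by
      intro z hz b hb
      rw [hAmem] at hb ⊢
      refine ⟨⟨z b, ?_⟩, ?_⟩
      · rw [← Module.End.mul_apply, hz.2.1, Module.End.mul_apply, hfix b hb.1]
      · rw [← Module.End.mul_apply, ← h0 z hz, Module.End.mul_apply, hb.2, map_smul]
    have haA : a ∈ A := by
      rw [hAmem]
      refine ⟨ha, ?_⟩
      have h1 := congrArg Subtype.val hav.apply_eq_smul
      simpa using h1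
    have ha0 : a ≠ 0 := fun h => hav.2 (Subtype.ext h)
    rcases E.top_irr hA hst with h1 | h1
    · rw [h1, Submodule.mem_bot] at haA
      exact absurd haA ha0
    · ext w
      have h2 : (c * f) w ∈ A := by
        rw [h1]
        exact ⟨w, rfl⟩
      rw [hAmem] at h2
      rw [Module.End.mul_apply, h2.2, LinearMap.smul_apply]
  have ht' : θ * (f * c) = t • (f * c) := by
    have h1 : θ * (f * c) = f * (θ * (c * f)) * c := by
      rw [← mul_assoc f θ, hf]
      have h2 : θ * f * (c * f) * c = θ * (f * c * f) * c := by simp only [mul_assoc]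
      rw [h2, E.fcf, mul_assoc]
    rw [h1, ht, mul_smul_comm, smul_mul_assoc, E.fP]
  refine ⟨θ - t • 1, g.sub_mem hθ (g.smul_mem _ E.one), t, ?_, ?_, ?_, ?_, ?_, ?_⟩
  · intro D hD
    rw [mul_sub, sub_mul, h0 D hD, mul_smul_comm, smul_mul_assoc, mul_one, one_mul]
  · rw [mul_sub, sub_mul, hc, mul_smul_comm, smul_mul_assoc, mul_one, one_mul]
  · rw [mul_sub, sub_mul, hf, mul_smul_comm, smul_mul_assoc, mul_one, one_mul]
  · rw [sub_mul, ht, smul_mul_assoc, one_mul, sub_self]
  · rw [sub_mul, ht', smul_mul_assoc, one_mul, sub_self]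
  · intro z hz
    rw [mul_sub, map_sub, hr z hz, mul_smul_comm, mul_one, map_smul, smul_eq_mul]

end Ex

end Pool.Agent.FQA
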