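import Pool.Agent.FQA.Ex

/-!
# The top component of an irreducible representation is irreducible
-/

set_option autoImplicit false
set_option linter.unusedSectionVars false

namespace Pool.Agent.FQA

open Module Pool.Agent.SmallRank

variable {K V : Type*} [Field K] [CharZero K] [IsAlgClosed K] [AddCommGroup V] [Module K V]
  [FiniteDimensional K V]

/-- The generators of the subspace generated by `A`. -/
def GS (g : Submodule K (End K V)) (c f : End K V) {U : Type*} [AddCommGroup U] [Module K U]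
    (ρ : End K V →ₗ[K] End K U) (A : Submodule K U) : Set U :=
  {w | w ∈ A ∨ (∃ x ∈ g1 g f c, ∃ a ∈ A, w = ρ x a) ∨
    (∃ x ∈ g1 g f c, ∃ y ∈ g1 g f c, ∃ a ∈ A, w = ρ x (ρ y a)) ∨ ∃ a ∈ A, w = ρ f a}

namespace Ex

variable {g : Submodule K (End K V)} {c f : End K V} (E : Ex g c f)
include E

/-- The subspace generated by the elements of degrees `-1` and `-2` from a subspace of highest
degree is stable. -/
theorem gen {U : Type*} [AddCommGroup U] [Module K U] (ρ : End K V →ₗ[K] End K U)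
    (hρ : ∀ x ∈ g, ∀ y ∈ g, ρ (x * y - y * x) = ρ x * ρ y - ρ y * ρ x) {A : Submodule K U}
    (h0 : ∀ z ∈ g0 g c f, ∀ a ∈ A, ρ z a ∈ A) (h1 : ∀ z ∈ g1 g c f, ∀ a ∈ A, ρ z a = 0)
    (h2 : ∀ a ∈ A, ρ c a = 0)
    (m3 : ∀ x ∈ g1 g f c, ∀ y ∈ g1 g f c, ∀ z ∈ g1 g f c, ∀ a ∈ A, ρ x (ρ y (ρ z a)) = 0)
    (mf : ∀ x ∈ g1 g f c, ∀ a ∈ A, ρ x (ρ f a) = 0) (ff : ∀ a ∈ A, ρ f (ρ f a) = 0) :
    ∀ x ∈ g, ∀ w ∈ Submodule.span K (GS g c f ρ A), ρ x w ∈ Submodule.span K (GS g c f ρ A) := by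
  set Z := Submodule.span K (GS g c f ρ A) with hZ
  -- commutation
  have com : ∀ x ∈ g, ∀ y ∈ g, ∀ w, ρ x (ρ y w) = ρ (x * y - y * x) w + ρ y (ρ x w) := by
    intro x hx y hy w
    have h3 := LinearMap.congr_fun (hρ x hx y hy) w
    rw [LinearMap.sub_apply, Module.End.mul_apply, Module.End.mul_apply] at h3
    rw [h3, sub_add_cancel]
  have zA : ∀ a ∈ A, a ∈ Z := fun a ha => Submodule.subset_span (Or.inl ha)
  have z1 : ∀ x ∈ g1 g f c, ∀ a ∈ A, ρ x a ∈ Z := fun x hx a ha =>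
    Submodule.subset_span (Or.inr (Or.inl ⟨x, hx, a, ha, rfl⟩))
  have z2 : ∀ x ∈ g1 g f c, ∀ y ∈ g1 g f c, ∀ a ∈ A, ρ x (ρ y a) ∈ Z := fun x hx y hy a ha =>
    Submodule.subset_span (Or.inr (Or.inr (Or.inl ⟨x, hx, y, hy, a, ha, rfl⟩)))
  have zf : ∀ a ∈ A, ρ f a ∈ Z := fun a ha =>
    Submodule.subset_span (Or.inr (Or.inr (Or.inr ⟨a, ha, rfl⟩)))
  have com0m : ∀ z ∈ g0 g c f, ∀ x ∈ g1 g f c, z * x - x * z ∈ g1 g f c := fun z hz x hx =>
    E.symm.com01 (by rwa [g0_symm]) hx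
  -- degree zero on the generators
  have a1 : ∀ z ∈ g0 g c f, ∀ x ∈ g1 g f c, ∀ a ∈ A, ρ z (ρ x a) ∈ Z := by
    intro z hz x hx a ha
    rw [com z hz.1 x hx.1]
    exact Z.add_mem (z1 _ (com0m z hz x hx) a ha) (z1 x hx _ (h0 z hz a ha))
  have a2 : ∀ z ∈ g0 g c f, ∀ x ∈ g1 g f c, ∀ y ∈ g1 g f c, ∀ a ∈ A, ρ z (ρ x (ρ y a)) ∈ Z := by
    intro z hz x hx y hy a ha
    rw [com z hz.1 x hx.1, com z hz.1 y hy.1, map_add]
    exact Z.add_mem (z2 _ (com0m z hz x hx) y hy a ha) (Z.add_mem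
      (z2 x hx _ (com0m z hz y hy) a ha) (z2 x hx y hy _ (h0 z hz a ha)))
  have a3 : ∀ z ∈ g0 g c f, ∀ a ∈ A, ρ z (ρ f a) ∈ Z := by
    intro z hz a ha
    obtain ⟨s, hs⟩ := E.com0f hz
    rw [com z hz.1 f E.fg, hs, map_smul, LinearMap.smul_apply]
    exact Z.add_mem (Z.smul_mem s (zf a ha)) (zf _ (h0 z hz a ha))
  -- degree one on the generators
  have b1 : ∀ w ∈ g1 g c f, ∀ x ∈ g1 g f c, ∀ a ∈ A, ρ w (ρ x a) ∈ A := by
    intro w hw x hx a ha
    rw [com w hw.1 x hx.1, h1 w hw a ha, map_zero, add_zero]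
    exact h0 _ (E.com1m hw hx) a ha
  have b2 : ∀ w ∈ g1 g c f, ∀ x ∈ g1 g f c, ∀ y ∈ g1 g f c, ∀ a ∈ A,
      ρ w (ρ x (ρ y a)) ∈ Z := by
    intro w hw x hx y hy a ha
    rw [com w hw.1 x hx.1]
    exact Z.add_mem (a1 _ (E.com1m hw hx) y hy a ha) (z1 x hx _ (b1 w hw y hy a ha))
  have b3 : ∀ w ∈ g1 g c f, ∀ a ∈ A, ρ w (ρ f a) ∈ Z := by
    intro w hw a ha
    rw [com w hw.1 f E.fg, h1 w hw a ha, map_zero, add_zero, ← neg_sub, map_neg,
      LinearMap.neg_apply]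
    exact Z.neg_mem (z1 _ (E.comf1 hw) a ha)
  -- `c` on the generators
  have c1 : ∀ x ∈ g1 g f c, ∀ a ∈ A, ρ c (ρ x a) = 0 := by
    intro x hx a ha
    rw [com c E.cg x hx.1, h2 a ha, map_zero, add_zero]
    exact h1 _ (E.symm.comf1 hx) a ha
  have c2 : ∀ x ∈ g1 g f c, ∀ y ∈ g1 g f c, ∀ a ∈ A, ρ c (ρ x (ρ y a)) ∈ Z := by
    intro x hx y hy a ha
    rw [com c E.cg x hx.1, c1 y hy a ha, map_zero, add_zero]
    exact zA _ (b1 _ (E.symm.comf1 hx) y hy a ha)
  have c3 : ∀ a ∈ A, ρ c (ρ f a) ∈ Z := by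
    intro a ha
    rw [com c E.cg f E.fg, h2 a ha, map_zero, add_zero]
    exact zA _ (h0 _ E.h0 a ha)
  -- `f` on the generators
  have hfx : ∀ x ∈ g1 g f c, ∀ w, ρ f (ρ x w) = ρ x (ρ f w) := by
    intro x hx w
    rw [com f E.fg x hx.1, E.symm.c_mul hx, E.symm.mul_c hx, sub_self, map_zero,
      LinearMap.zero_apply, zero_add]
  intro x hx w hw
  have key : ∀ x' : End K V, (∀ w ∈ GS g c f ρ A, ρ x' w ∈ Z) → ρ x' w ∈ Z := by
    intro x' h
    clear hx x
    induction hw using Submodule.span_induction with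
    | mem w hw => exact h w hw
    | zero => rw [map_zero]; exact Z.zero_mem
    | add p q _ _ hp hq => rw [map_add]; exact Z.add_mem hp hq
    | smul s p _ hp => rw [map_smul]; exact Z.smul_mem s hp
  obtain ⟨x0, hx0, x1, hx1, y1, hy1, s, s', rfl⟩ := E.decomp hx
  simp only [map_add, map_smul, LinearMap.add_apply, LinearMap.smul_apply]
  refine Z.add_mem (Z.add_mem (Z.add_mem (Z.add_mem (key x0 ?_) (key x1 ?_)) (key y1 ?_))
    (Z.smul_mem s (key c ?_))) (Z.smul_mem s' (key f ?_))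
  · rintro w (hw | ⟨x, hx, a, ha, rfl⟩ | ⟨x, hx, y, hy, a, ha, rfl⟩ | ⟨a, ha, rfl⟩)
    · exact zA _ (h0 x0 hx0 w hw)
    · exact a1 x0 hx0 x hx a ha
    · exact a2 x0 hx0 x hx y hy a ha
    · exact a3 x0 hx0 a ha
  · rintro w (hw | ⟨x, hx, a, ha, rfl⟩ | ⟨x, hx, y, hy, a, ha, rfl⟩ | ⟨a, ha, rfl⟩)
    · rw [h1 x1 hx1 w hw]
      exact Z.zero_mem
    · exact zA _ (b1 x1 hx1 x hx a ha)
    · exact b2 x1 hx1 x hx y hy a ha
    · exact b3 x1 hx1 a ha
  · rintro w (hw | ⟨x, hx, a, ha, rfl⟩ | ⟨x, hx, y, hy, a, ha, rfl⟩ | ⟨a, ha, rfl⟩)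
    · exact z1 y1 hy1 w hw
    · exact z2 y1 hy1 x hx a ha
    · rw [m3 y1 hy1 x hx y hy a ha]
      exact Z.zero_mem
    · rw [mf y1 hy1 a ha]
      exact Z.zero_mem
  · rintro w (hw | ⟨x, hx, a, ha, rfl⟩ | ⟨x, hx, y, hy, a, ha, rfl⟩ | ⟨a, ha, rfl⟩)
    · rw [h2 w hw]
      exact Z.zero_mem
    · rw [c1 x hx a ha]
      exact Z.zero_mem
    · exact c2 x hx y hy a ha
    · exact c3 a ha
  · rintro w (hw | ⟨x, hx, a, ha, rfl⟩ | ⟨x, hx, y, hy, a, ha, rfl⟩ | ⟨a, ha, rfl⟩)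
    · exact zf w hw
    · rw [hfx x hx, mf x hx a ha]
      exact Z.zero_mem
    · rw [hfx x hx, hfx y hy, mf y hy a ha, map_zero]
      exact Z.zero_mem
    · rw [ff a ha]
      exact Z.zero_mem

/-- products of elements of degree minus one -/
theorem mmm {x y z : End K V} (hx : x ∈ g1 g f c) (hy : y ∈ g1 g f c) (hz : z ∈ g1 g f c) :
    x * (y * z) = 0 := by
  have h1 : y * z = f * c * (y * z) := by
    conv_lhs => rw [← hy.2.2.2]
    rw [add_mul, mul_assoc y, hz.2.2.1, mul_zero, add_zero, mul_assoc]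
  rw [h1, ← mul_assoc, hx.2.1, zero_mul]

/-- The component of degree one of `V` is irreducible for the elements of degree zero. -/
theorem top_irr {A : Submodule K V} (hA : A ≤ LinearMap.range (c * f))
    (h : ∀ z ∈ g0 g c f, ∀ a ∈ A, z a ∈ A) : A = ⊥ ∨ A = LinearMap.range (c * f) := by
  have hfix : ∀ a ∈ LinearMap.range (c * f), (c * f) a = a := by
    rintro _ ⟨w, rfl⟩
    exact LinearMap.congr_fun E.PP w
  have hst := E.gen LinearMap.id (fun x _ y _ => rfl) (A := A) h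
    (fun z hz a ha => by
      rw [LinearMap.id_apply, ← hfix a (hA ha), ← Module.End.mul_apply, hz.2.1,
        LinearMap.zero_apply])
    (fun a ha => by
      rw [LinearMap.id_apply, ← hfix a (hA ha), ← Module.End.mul_apply, E.cP,
        LinearMap.zero_apply])
    (fun x hx y hy z hz a _ => by
      have h1 := LinearMap.congr_fun (E.mmm hx hy hz) a
      exact h1)
    (fun x hx a _ => by
      have h1 : x * f = 0 := E.symm.mul_c hx
      exact LinearMap.congr_fun h1 a)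
    (fun a _ => LinearMap.congr_fun E.ff a)
  rcases E.irr _ hst with h1 | h1
  · left
    rw [eq_bot_iff, ← h1]
    exact fun a ha => Submodule.subset_span (Or.inl ha)
  · right
    refine le_antisymm hA fun p hp => ?_
    have h2 : ∀ w ∈ Submodule.span K (GS g c f LinearMap.id A), (c * f) w ∈ A := by
      intro w hw
      induction hw using Submodule.span_induction with
      | mem w hw =>
        rcases hw with hw | ⟨x, hx, a, ha, rfl⟩ | ⟨x, hx, y, hy, a, ha, rfl⟩ | ⟨a, ha, rfl⟩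
        · rw [hfix w (hA hw)]
          exact hw
        · rw [LinearMap.id_apply, ← Module.End.mul_apply, hx.2.2.1, LinearMap.zero_apply]
          exact A.zero_mem
        · rw [LinearMap.id_apply, LinearMap.id_apply, ← Module.End.mul_apply, hx.2.2.1,
            LinearMap.zero_apply]
          exact A.zero_mem
        · rw [LinearMap.id_apply, ← Module.End.mul_apply, E.Pf, LinearMap.zero_apply]
          exact A.zero_mem
      | zero => rw [map_zero]; exact A.zero_mem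
      | add p q _ _ hp hq => rw [map_add]; exact A.add_mem hp hq
      | smul s p _ hp => rw [map_smul]; exact A.smul_mem s hp
    rw [← hfix p hp]
    exact h2 p (by rw [h1]; exact Submodule.mem_top)

end Ex

end Pool.Agent.FQA
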