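import Pool.Agent.FQ.ExpStab
import Pool.Agent.FQA.Simple

/-!
# Conjugate idempotents of the torus touch the same component of the roots
-/

set_option autoImplicit false
set_option linter.unusedSectionVars false

namespace Pool.Agent.FQA

open Module Pool.Agent.CoprimeSig Pool.Agent.Mod4 Pool.Agent.NumRank
open Pool.Agent.PrimePow.CC (Rf Rt Lat)

variable {K V : Type*} [Field K] [CharZero K] [IsAlgClosed K] [AddCommGroup V] [Module K V]
  [FiniteDimensional K V]

/-- A set of roots which is stable under non-orthogonality. -/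
def Stb {Ω : Type*} [Fintype Ω] (L : AddSubgroup (Ω → ℚ)) (P : (Ω → ℚ) → Prop) : Prop :=
  ∀ h k, Rt L h → Rt L k → P h → h ⬝ᵥ k ≠ 0 → P k

namespace TD

variable {g t : Submodule K (End K V)} {I : Type} [Fintype I] (v : Basis I K V)

/-- `z` is a root vector with a coroot outside `P`. -/
def Out (g t : Submodule K (End K V)) (v : Basis I K V) (P : (I → ℚ) → Prop) (z : End K V) :
    Prop :=
  ∃ (α : End K V → K) (y : End K V) (h : I → ℚ), Opp g t α z y ∧ z ≠ 0 ∧
    (∀ i, (z * y - y * z) (v i) = (h i : K) • v i) ∧ ¬ P h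

/-- The elements of `g` which commute with the root vectors outside `P`. -/
def sP (g t : Submodule K (End K V)) (v : Basis I K V) (P : (I → ℚ) → Prop) :
    Submodule K (End K V) where
  carrier := {x | x ∈ g ∧ ∀ z, Out g t v P z → x * z = z * x}
  add_mem' := fun {a b} ha hb => ⟨g.add_mem ha.1 hb.1, fun z hz => by
    rw [add_mul, mul_add, ha.2 z hz, hb.2 z hz]⟩
  zero_mem' := ⟨g.zero_mem, fun z _ => by rw [zero_mul, mul_zero]⟩
  smul_mem' := fun c a ha => ⟨g.smul_mem c ha.1, fun z hz => by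
    rw [smul_mul_assoc, mul_smul_comm, ha.2 z hz]⟩

/-- The values of an idempotent. -/
theorem val01 {e : End K V} (hee : e * e = e) {f : I → ℚ}
    (hf : ∀ i, e (v i) = (f i : K) • v i) (i : I) : f i = 0 ∨ f i = 1 := by
  have h1 := LinearMap.congr_fun hee (v i)
  rw [Module.End.mul_apply, hf, map_smul, hf, smul_smul] at h1
  have h2 : (f i : K) * f i = f i := smul_left_injective K (v.ne_zero i) h1
  have h3 : f i * (f i - 1) = 0 := by
    have h4 : f i * f i = f i := by exact_mod_cast h2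
    linear_combination h4
  rcases mul_eq_zero.1 h3 with h4 | h4
  · exact Or.inl h4
  · exact Or.inr (sub_eq_zero.1 h4)

theorem mem_Lv {e : End K V} (he : e ∈ t) (hee : e * e = e) {f : I → ℚ}
    (hf : ∀ i, e (v i) = (f i : K) • v i) : f ∈ Lv t v := by
  refine ⟨fun i => ?_, e, he, hf⟩
  rcases val01 v hee hf i with h1 | h1
  · exact ⟨0, by rw [h1, Int.cast_zero]⟩
  · exact ⟨1, by rw [h1, Int.cast_one]⟩

theorem dot_eq {α : End K V → K} {x y τ : End K V} (P : Opp g t α x y) (hτ : τ ∈ t)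
    {h f : I → ℚ} (hh : ∀ i, (x * y - y * x) (v i) = (h i : K) • v i)
    (hf : ∀ i, τ (v i) = (f i : K) • v i) :
    α τ * LinearMap.trace K V (x * y) = ((h ⬝ᵥ f : ℚ) : K) := by
  rw [← trace_h P hτ, trace_pair v hf hh, dotProduct_comm]

theorem dot_ne {α : End K V → K} {x y τ : End K V} (P : Opp g t α x y) (hx0 : x ≠ 0)
    (hτ : τ ∈ t) {h f : I → ℚ} (hh : ∀ i, (x * y - y * x) (v i) = (h i : K) • v i)
    (hf : ∀ i, τ (v i) = (f i : K) • v i) : α τ ≠ 0 ↔ h ⬝ᵥ f ≠ 0 := by
  have h1 := dot_eq v P hτ hh hf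
  have h2 := trace_xy_ne P hx0
  constructor
  · intro h3 h4
    rw [h4, Rat.cast_zero] at h1
    exact (mul_ne_zero h3 h2) h1
  · intro h3 h4
    rw [h4, zero_mul] at h1
    exact h3 (by exact_mod_cast h1.symm)

variable (T : TD g t) [Nontrivial V]
  (hv : ∀ x ∈ t, ∀ i, ∃ c : K, x (v i) = c • v i) {P : (I → ℚ) → Prop}
  (hP : Stb (Lv t v) P)
include T hv hP

/-- Root vectors with coroots in `P` and outside `P` commute. -/
theorem comm_of {β : End K V → K} {w w' z : End K V} {k : I → ℚ} (Q : Opp g t β w w')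
    (hw0 : w ≠ 0) (hk : ∀ i, (w * w' - w' * w) (v i) = (k i : K) • v i) (hPk : P k)
    (hz : Out g t v P z) : w * z = z * w := by
  obtain ⟨α, y, h, R, hz0, hh, hPh⟩ := hz
  have Hh : Rt (Lv t v) h := T.ar_rt v hv (r := g) ⟨α, z, y, R, hz0, R.rx.mem, hh⟩
  have Hk : Rt (Lv t v) k := T.ar_rt v hv (r := g) ⟨β, w, w', Q, hw0, Q.rx.mem, hk⟩
  have hkh : k ⬝ᵥ h = 0 := by
    by_contra h0
    exact hPh (hP k h Hk Hh hPk h0)
  by_contra hne
  have hc0 : w * z - z * w ≠ 0 := sub_ne_zero.2 hne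
  have hβh : β (z * y - y * z) = 0 := by
    by_contra h0
    exact (dot_ne v Q hw0 R.mem hk hh).1 h0 hkh
  have hαk : α (w * w' - w' * w) = 0 := by
    by_contra h0
    exact (dot_ne v R hz0 Q.mem hh hk).1 h0 (by rw [dotProduct_comm, hkh])
  have hroot : IsRoot g t (fun τ => β τ + α τ) (w * z - z * w) := by
    refine ⟨T.lie w Q.rx.mem z R.rx.mem, fun τ hτ => ?_⟩
    have h1 := Q.rx.root τ hτ
    have h2 := R.rx.root τ hτ
    have e1 : τ * (w * z - z * w) - (w * z - z * w) * τ =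
        ((τ * w - w * τ) * z - z * (τ * w - w * τ)) +
          (w * (τ * z - z * τ) - (τ * z - z * τ) * w) := by noncomm_ring
    rw [e1, h1, h2, smul_mul_assoc, mul_smul_comm, ← smul_sub, mul_smul_comm, smul_mul_assoc,
      ← smul_sub, ← add_smul]
  have g1 : β (z * y - y * z) + α (z * y - y * z) ≠ 0 := by
    rw [hβh, zero_add, opp_two R hz0]
    exact two_ne_zero
  have g2 : β (w * w' - w' * w) + α (w * w' - w' * w) ≠ 0 := by
    rw [hαk, add_zero, opp_two Q hw0]
    exact two_ne_zero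
  obtain ⟨c', S⟩ := T.hopp _ _ hroot hc0 ⟨_, R.mem, g1⟩
  obtain ⟨m, π, hm, hmv, -⟩ := exists_rf v hv (T.hmult v hv) S hc0
  have Hm : Rt (Lv t v) m := ⟨π, hm⟩
  have hmh : m ⬝ᵥ h ≠ 0 := (dot_ne v S hc0 R.mem hmv hh).1 g1
  have hmk : m ⬝ᵥ k ≠ 0 := (dot_ne v S hc0 Q.mem hmv hk).1 g2
  exact hPh (hP m h Hm Hh (hP k m Hk Hm hPk (by rwa [dotProduct_comm])) hmh)

theorem sP_ideal : ∀ x ∈ g, ∀ b ∈ sP g t v P, x * b - b * x ∈ sP g t v P := by
  intro x hx b hb
  have h1 := mem_span_roots T.toCartan hx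
  clear hx
  induction h1 using Submodule.span_induction with
  | mem w hw =>
    obtain ⟨β, hw⟩ := hw
    refine ⟨T.lie w hw.mem b hb.1, fun z hz => ?_⟩
    have e1 : (w * b - b * w) * z - z * (w * b - b * w) =
        w * (b * z - z * b) - (b * z - z * b) * w - (b * (w * z - z * w) - (w * z - z * w) * b) := by
      noncomm_ring
    have h2 : b * z - z * b = 0 := sub_eq_zero.2 (hb.2 z hz)
    have h3 : b * (w * z - z * w) - (w * z - z * w) * b = 0 ∨ w * b - b * w = 0 := by
      by_cases hw0 : w = 0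
      · right
        rw [hw0, zero_mul, mul_zero, sub_zero]
      by_cases hβ : ∃ τ ∈ t, β τ ≠ 0
      · obtain ⟨w', Q⟩ := T.hopp β w hw hw0 hβ
        obtain ⟨k, π, hk, hkv, -⟩ := exists_rf v hv (T.hmult v hv) Q hw0
        by_cases hPk : P k
        · left
          rw [T.comm_of v hv hP Q hw0 hkv hPk hz, sub_self, mul_zero, zero_mul, sub_zero]
        · right
          rw [hb.2 w ⟨β, w', k, Q, hw0, hkv, hPk⟩, sub_self]
      · left
        push Not at hβ
        have hwt : w ∈ t := T.cent w hw.mem fun τ hτ => by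
          have h4 := hw.root τ hτ
          rw [hβ τ hτ, zero_smul, sub_eq_zero] at h4
          exact h4.symm
        obtain ⟨α, y, h, R, hz0, hh, hPh⟩ := hz
        rw [R.rx.root w hwt, mul_smul_comm, smul_mul_assoc, ← smul_sub, h2, smul_zero]
    rcases h3 with h3 | h3
    · rw [h2, h3, mul_zero, zero_mul, sub_zero, sub_zero] at e1
      exact sub_eq_zero.1 e1
    · rw [h3, zero_mul, mul_zero]
  | zero =>
    rw [zero_mul, mul_zero, sub_zero]
    exact (sP g t v P).zero_mem
  | add a c _ _ ha hc =>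
    rw [add_mul, mul_add, add_sub_add_comm]
    exact (sP g t v P).add_mem ha hc
  | smul r a _ ha =>
    rw [smul_mul_assoc, mul_smul_comm, ← smul_sub]
    exact (sP g t v P).smul_mem r ha

/-- **Conjugate idempotents of the torus touch the same component.** -/
theorem touch {e e' : End K V} (he : e ∈ t) (hee : e * e = e) (he' : e' ∈ t)
    (hee' : e' * e' = e') {u : (End K V)ˣ} (hu : u ∈ FQ.expG K g)
    (hue : e' = (u : End K V) * e * ((u⁻¹ : (End K V)ˣ) : End K V)) {f f' : I → ℚ}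
    (hf : ∀ i, e (v i) = (f i : K) • v i) (hf' : ∀ i, e' (v i) = (f' i : K) • v i)
    {h h' : I → ℚ} (H : Rt (Lv t v) h) (h0 : h ⬝ᵥ f ≠ 0) (hh : P h) (H' : Rt (Lv t v) h')
    (h0' : h' ⬝ᵥ f' ≠ 0) : P h' := by
  have hL := T.lat v hv
  have hfL := mem_Lv v he hee hf
  have hfL' := mem_Lv v he' hee' hf'
  have hes : e ∈ sP g t v P := by
    refine ⟨T.le he, ?_⟩
    rintro z ⟨α, y, k, R, hz0, hk, hPk⟩
    have Hk : Rt (Lv t v) k := T.ar_rt v hv (r := g) ⟨α, z, y, R, hz0, R.rx.mem, hk⟩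
    have h1 : α e = 0 := by
      by_contra h2
      exact hPk (one_comp hL hfL (val01 v hee hf) P hP H hh h0 Hk
        ((dot_ne v R hz0 he hk hf).1 h2))
    have h2 := R.rx.root e he
    rw [h1, zero_smul, sub_eq_zero] at h2
    exact h2
  have hes' : e' ∈ sP g t v P := by
    rw [hue]
    exact FQ.conj_mem (T.sP_ideal v hv hP) hu hes
  obtain ⟨α, z, hz, hz0, hα, hαe⟩ : ∃ (α : End K V → K) (z : End K V), IsRoot g t α z ∧ z ≠ 0 ∧
      (∃ τ ∈ t, α τ ≠ 0) ∧ α e' ≠ 0 := by
    by_contra hcon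
    push Not at hcon
    obtain ⟨c, hc⟩ := T.scalar_of (x := e') (fun α z hz hz0 hα => by
      have h1 := hz.root e' he'
      rw [hcon α z hz hz0 hα, zero_smul, sub_eq_zero] at h1
      exact h1) fun τ hτ => T.comm e' he' τ hτ
    apply h0'
    have h1 : ∀ i j, f' i = f' j := by
      intro i j
      have h2 := hf' i
      have h3 := hf' j
      rw [hc, LinearMap.smul_apply, Module.End.one_apply] at h2 h3
      have h4 : c = f' i := smul_left_injective K (v.ne_zero i) h2
      have h5 : c = f' j := smul_left_injective K (v.ne_zero j) h3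
      exact_mod_cast h4.symm.trans h5
    obtain ⟨i, -⟩ := Rt_one H'
    have h4 : f' = fun _ => f' i := funext fun j => h1 j i
    rw [h4]
    simp only [dotProduct]
    rw [← Finset.sum_mul, Rt_sum H', zero_mul]
  obtain ⟨y, R⟩ := T.hopp α z hz hz0 hα
  obtain ⟨k, π, hk, hkv, -⟩ := exists_rf v hv (T.hmult v hv) R hz0
  have hPk : P k := by
    by_contra h1
    have h2 := hes'.2 z ⟨α, y, k, R, hz0, hkv, h1⟩
    have h3 := hz.root e' he'
    rw [h2, sub_self] at h3
    exact (smul_ne_zero hαe hz0) h3.symm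
  exact one_comp hL hfL' (val01 v hee' hf') P hP ⟨π, hk⟩ hPk
    ((dot_ne v R hz0 he' hkv hf').1 hαe) H' h0'

end TD

end Pool.Agent.FQA
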