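import Pool.Agent.FQA.SplitN

/-!
# Dimension eight (symplectic) and four (orthogonal): roots without zeros

Let `T : TD g t` be a symplectic algebra of dimension eight or an orthogonal algebra of dimension
four, with connected roots of the lattice and a root without zeros. Then the coroots of all root
vectors are without zeros (`TD.all_fl_sp`, `TD.all_fl_so`), and conjugate idempotents of the torus
touch the same root without zeros, up to the sign (`TD.fl_touch`).
-/

set_option autoImplicit false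
set_option linter.unusedSectionVars false

namespace Pool.Agent.FQA

open Module Pool.Agent.CoprimeSig Pool.Agent.Mod4 Pool.Agent.NumRank
open Pool.Agent.PrimePow.CC (Rf Rt Lat)
open Pool.Agent.SmallRank (rk)

section Comb

variable {Ω : Type*} [Fintype Ω] {L : AddSubgroup (Ω → ℚ)} {k f : Ω → ℚ}

theorem Fl.sq (hk : Fl L k) : k ⬝ᵥ k = Fintype.card Ω := by
  have h3 : ∀ ω, k ω * k ω = 1 := by
    intro ω
    rcases hk.val ω with h3 | h3 <;> rw [h3] <;> norm_num
  simp only [dotProduct, h3, Finset.sum_const, Finset.card_univ, nsmul_eq_mul, mul_one]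

/-- A root is without zeros or has half the norm of such a root. -/
theorem Cube.sq_or {S : Finset (Ω → ℚ)} (C : Cube L S) (hL : Lat L) {h : Ω → ℚ} (H : Rt L h) :
    Fl L h ∨ 2 * (h ⬝ᵥ h) = Fintype.card Ω := by
  classical
  obtain ⟨k, hk, h0⟩ : ∃ k ∈ S, h ⬝ᵥ k ≠ 0 := by
    by_contra hcon
    push Not at hcon
    obtain ⟨ω, ω', hne⟩ := Rt_ne H
    obtain ⟨c, hc⟩ := C.dec h (Rt_mem H)
    have h1 : ∑ k ∈ S, cf h k * k ω = 0 := Finset.sum_eq_zero fun k hk => by
      rw [(cf_eq_zero (Rt_sq_ne (C.fl k hk).rt)).2 (by rw [dotProduct_comm]; exact hcon k hk),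
        zero_mul]
    have h2 : ∑ k ∈ S, cf h k * k ω' = 0 := Finset.sum_eq_zero fun k hk => by
      rw [(cf_eq_zero (Rt_sq_ne (C.fl k hk).rt)).2 (by rw [dotProduct_comm]; exact hcon k hk),
        zero_mul]
    have h3 := hc ω
    have h4 := hc ω'
    rw [h1] at h3
    rw [h2] at h4
    apply hne
    linarith
  have K := C.fl k hk
  rcases K.cases hL H h0 with h1 | h1 | ⟨k', K', h2, h3⟩
  · left
    rw [h1]
    exact K
  · left
    rw [h1]
    exact K.neg
  · right
    have h4 : h ⬝ᵥ h = (1 / 4 : ℚ) * ((k - k') ⬝ᵥ (k - k')) := by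
      rcases h3 with h3 | h3 <;> rw [h3]
      · rw [smul_dotProduct, dotProduct_smul, smul_eq_mul, smul_eq_mul]
        ring
      · rw [neg_dotProduct_neg, smul_dotProduct, dotProduct_smul, smul_eq_mul, smul_eq_mul]
        ring
    rw [h4, sub_dotProduct, dotProduct_sub, dotProduct_sub, K.sq, K'.sq, dotProduct_comm k' k, h2]
    ring

/-- An idempotent touches only one root without zeros, up to the sign. -/
theorem Fl.one_of (hL : Lat L) (hk : Fl L k) {k' : Ω → ℚ} (hk' : Fl L k') (hf : f ∈ L)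
    (hval : ∀ ω, f ω = 0 ∨ f ω = 1) (h0 : k ⬝ᵥ f ≠ 0) (h0' : k' ⬝ᵥ f ≠ 0) :
    k' = k ∨ k' = -k := by
  rcases hk.eq_or_orth hL hk' with h1 | h1 | h1
  · exact Or.inl h1
  · exact Or.inr h1
  exfalso
  -- `f = (1 ± k) / 2`
  have key : ∀ {k : Ω → ℚ}, Fl L k → k ⬝ᵥ f ≠ 0 → ∃ s : ℚ, (s = 1 ∨ s = -1) ∧
      ∀ ω, f ω = (1 + s * k ω) / 2 := by
    intro k K h0
    have h2 : k ⬝ᵥ k = Fintype.card Ω := K.sq
    have h3 := cf_mul (f := f) (Rt_sq_ne K.rt)
    have hsum : ∑ ω, k ω = 0 := Rt_sum K.rt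
    -- `2 (k . f)` is the sum of `k (2 f - 1)`
    have h4 : 2 * (k ⬝ᵥ f) = ∑ ω, k ω * (2 * f ω - 1) := by
      have h5 : ∀ ω, k ω * (2 * f ω - 1) = 2 * (k ω * f ω) - k ω := fun ω => by ring
      simp only [h5, Finset.sum_sub_distrib, hsum, sub_zero, dotProduct, Finset.mul_sum]
    have h6 : ∀ ω, k ω * (2 * f ω - 1) = 1 ∨ k ω * (2 * f ω - 1) = -1 := by
      intro ω
      rcases K.val ω with h7 | h7 <;> rcases hval ω with h8 | h8 <;> rw [h7, h8] <;> norm_num
    obtain ⟨z, hz⟩ := Rt_int K.rt hf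
    rw [hz, h2, h4] at h3
    have hz0 : z ≠ 0 := by
      rintro rfl
      rw [Int.cast_zero, zero_mul, ← h4] at h3
      exact h0 (by linarith)
    rcases lt_or_gt_of_ne hz0 with h7 | h7
    · have h8 : (z : ℚ) ≤ -1 := by exact_mod_cast Int.le_sub_one_of_lt h7
      have h9 : ∀ ω ∈ Finset.univ, (0 : ℚ) ≤ k ω * (2 * f ω - 1) + 1 := fun ω _ => by
        rcases h6 ω with h | h <;> rw [h] <;> norm_num
      have h10 : ∑ ω, (k ω * (2 * f ω - 1) + 1) ≤ 0 := by
        rw [Finset.sum_add_distrib, ← h3]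
        simp only [Finset.sum_const, Finset.card_univ, nsmul_eq_mul, mul_one]
        have : (0 : ℚ) ≤ Fintype.card Ω := by positivity
        nlinarith
      have h11 := (Finset.sum_eq_zero_iff_of_nonneg h9).1
        (le_antisymm h10 (Finset.sum_nonneg h9))
      refine ⟨-1, Or.inr rfl, fun ω => ?_⟩
      have h12 := h11 ω (Finset.mem_univ _)
      rcases K.val ω with h | h <;> rw [h] at h12 ⊢ <;> linarith
    · have h8 : (1 : ℚ) ≤ (z : ℚ) := by exact_mod_cast Int.add_one_le_of_lt h7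
      have h9 : ∀ ω ∈ Finset.univ, (0 : ℚ) ≤ 1 - k ω * (2 * f ω - 1) := fun ω _ => by
        rcases h6 ω with h | h <;> rw [h] <;> norm_num
      have h10 : ∑ ω, (1 - k ω * (2 * f ω - 1)) ≤ 0 := by
        rw [Finset.sum_sub_distrib, ← h3]
        simp only [Finset.sum_const, Finset.card_univ, nsmul_eq_mul, mul_one]
        have : (0 : ℚ) ≤ Fintype.card Ω := by positivity
        nlinarith
      have h11 := (Finset.sum_eq_zero_iff_of_nonneg h9).1
        (le_antisymm h10 (Finset.sum_nonneg h9))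
      refine ⟨1, Or.inl rfl, fun ω => ?_⟩
      have h12 := h11 ω (Finset.mem_univ _)
      rcases K.val ω with h | h <;> rw [h] at h12 ⊢ <;> linarith
  obtain ⟨s, hs, h2⟩ := key hk h0
  obtain ⟨s', hs', h3⟩ := key hk' h0'
  have h4 : ∀ ω, k' ω = s * s' * k ω := by
    intro ω
    have h5 := h2 ω
    rw [h3 ω] at h5
    have h6 : s' * k' ω = s * k ω := by linarith
    have h7 : s' * s' = 1 := by rcases hs' with h | h <;> rw [h] <;> norm_num
    calc k' ω = (s' * s') * k' ω := by rw [h7, one_mul]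
      _ = s * s' * k ω := by rw [mul_assoc, h6]; ring
  have h5 : k' ⬝ᵥ k = s * s' * (k ⬝ᵥ k) := by
    simp only [dotProduct, Finset.mul_sum]
    exact Finset.sum_congr rfl fun ω _ => by rw [h4 ω]; ring
  rw [h1] at h5
  rcases mul_eq_zero.1 h5.symm with h6 | h6
  · rcases hs with h | h <;> rcases hs' with h' | h' <;> rw [h, h'] at h6 <;> norm_num at h6
  · exact Rt_sq_ne hk.rt h6

end Comb

variable {K V : Type*} [Field K] [CharZero K] [IsAlgClosed K] [AddCommGroup V] [Module K V]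
  [FiniteDimensional K V]

/-- A set of coroots of root vectors which is stable under non-orthogonality. -/
def StbA (g t : Submodule K (End K V)) {I : Type} [Fintype I] (v : Basis I K V)
    (P : (I → ℚ) → Prop) : Prop :=
  ∀ h k, AR g t g v h → AR g t g v k → P h → h ⬝ᵥ k ≠ 0 → P k

namespace TD

variable {g t : Submodule K (End K V)} {I : Type} [Fintype I] (v : Basis I K V)
  (T : TD g t) [Nontrivial V] (hv : ∀ x ∈ t, ∀ i, ∃ c : K, x (v i) = c • v i)
include T hv

section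
variable {P : (I → ℚ) → Prop} (hP : StbA g t v P)
include hP

/-- Root vectors with coroots in `P` and outside `P` commute. -/
theorem comm_ofA {β : End K V → K} {w w' z : End K V} {k : I → ℚ} (Q : Opp g t β w w')
    (hw0 : w ≠ 0) (hk : ∀ i, (w * w' - w' * w) (v i) = (k i : K) • v i) (hPk : P k)
    (hz : Out g t v P z) : w * z = z * w := by
  obtain ⟨α, y, h, R, hz0, hh, hPh⟩ := hz
  have Hh : AR g t g v h := ⟨α, z, y, R, hz0, R.rx.mem, hh⟩
  have Hk : AR g t g v k := ⟨β, w, w', Q, hw0, Q.rx.mem, hk⟩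
  have hkh : k ⬝ᵥ h = 0 := by
    by_contra h0
    exact hPh (hP k h Hk Hh hPk h0)
  by_contra hne
  have hc0 : w * z - z * w ≠ 0 := sub_ne_zero.2 hne
  have hβh : β (z * y - y * z) = 0 := by
    by_contra h0
    exact (dot_ne v Q hw0 R.mem hk hh).1 h0 hkh
  have hαk : α (w * w' - w' * w) = 0 := by
    by_contra h0
    exact (dot_ne v R hz0 Q.mem hh hk).1 h0 (by rw [dotProduct_comm, hkh])
  have hroot : IsRoot g t (fun τ => β τ + α τ) (w * z - z * w) := by
    refine ⟨T.lie w Q.rx.mem z R.rx.mem, fun τ hτ => ?_⟩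
    have h1 := Q.rx.root τ hτ
    have h2 := R.rx.root τ hτ
    have e1 : τ * (w * z - z * w) - (w * z - z * w) * τ =
        ((τ * w - w * τ) * z - z * (τ * w - w * τ)) +
          (w * (τ * z - z * τ) - (τ * z - z * τ) * w) := by noncomm_ring
    rw [e1, h1, h2, smul_mul_assoc, mul_smul_comm, ← smul_sub, mul_smul_comm, smul_mul_assoc,
      ← smul_sub, ← add_smul]
  have g1 : β (z * y - y * z) + α (z * y - y * z) ≠ 0 := by
    rw [hβh, zero_add, opp_two R hz0]
    exact two_ne_zero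
  have g2 : β (w * w' - w' * w) + α (w * w' - w' * w) ≠ 0 := by
    rw [hαk, add_zero, opp_two Q hw0]
    exact two_ne_zero
  obtain ⟨c', S⟩ := T.hopp _ _ hroot hc0 ⟨_, R.mem, g1⟩
  obtain ⟨m, π, hm, hmv, -⟩ := exists_rf v hv (T.hmult v hv) S hc0
  have Hm : AR g t g v m := ⟨_, _, _, S, hc0, hroot.mem, hmv⟩
  have hmh : m ⬝ᵥ h ≠ 0 := (dot_ne v S hc0 R.mem hmv hh).1 g1
  have hmk : m ⬝ᵥ k ≠ 0 := (dot_ne v S hc0 Q.mem hmv hk).1 g2
  exact hPh (hP m h Hm Hh (hP k m Hk Hm hPk (by rwa [dotProduct_comm])) hmh)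

theorem sPA_ideal : ∀ x ∈ g, ∀ b ∈ sP g t v P, x * b - b * x ∈ sP g t v P := by
  intro x hx b hb
  have h1 := mem_span_roots T.toCartan hx
  clear hx
  induction h1 using Submodule.span_induction with
  | mem w hw =>
    obtain ⟨β, hw⟩ := hw
    refine ⟨T.lie w hw.mem b hb.1, fun z hz => ?_⟩
    have e1 : (w * b - b * w) * z - z * (w * b - b * w) =
        w * (b * z - z * b) - (b * z - z * b) * w - (b * (w * z - z * w) - (w * z - z * w) * b) := by
      noncomm_ring
    have h2 : b * z - z * b = 0 := sub_eq_zero.2 (hb.2 z hz)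
    have h3 : b * (w * z - z * w) - (w * z - z * w) * b = 0 ∨ w * b - b * w = 0 := by
      by_cases hw0 : w = 0
      · right
        rw [hw0, zero_mul, mul_zero, sub_zero]
      by_cases hβ : ∃ τ ∈ t, β τ ≠ 0
      · obtain ⟨w', Q⟩ := T.hopp β w hw hw0 hβ
        obtain ⟨k, π, hk, hkv, -⟩ := exists_rf v hv (T.hmult v hv) Q hw0
        by_cases hPk : P k
        · left
          rw [T.comm_ofA v hv hP Q hw0 hkv hPk hz, sub_self, mul_zero, zero_mul, sub_zero]
        · right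
          rw [hb.2 w ⟨β, w', k, Q, hw0, hkv, hPk⟩, sub_self]
      · left
        push Not at hβ
        have hwt : w ∈ t := T.cent w hw.mem fun τ hτ => by
          have h4 := hw.root τ hτ
          rw [hβ τ hτ, zero_smul, sub_eq_zero] at h4
          exact h4.symm
        obtain ⟨α, y, h, R, hz0, hh, hPh⟩ := hz
        rw [R.rx.root w hwt, mul_smul_comm, smul_mul_assoc, ← smul_sub, h2, smul_zero]
    rcases h3 with h3 | h3
    · rw [h2, h3, mul_zero, zero_mul, sub_zero, sub_zero] at e1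
      exact sub_eq_zero.1 e1
    · rw [h3, zero_mul, mul_zero]
  | zero =>
    rw [zero_mul, mul_zero, sub_zero]
    exact (sP g t v P).zero_mem
  | add a c _ _ ha hc =>
    rw [add_mul, mul_add, add_sub_add_comm]
    exact (sP g t v P).add_mem ha hc
  | smul r a _ ha =>
    rw [smul_mul_assoc, mul_smul_comm, ← smul_sub]
    exact (sP g t v P).smul_mem r ha

/-- Conjugate idempotents of the torus touch the same sets of coroots. -/
theorem touchA {e e' : End K V} (he : e ∈ t) (he' : e' ∈ t) {u : (End K V)ˣ}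
    (hu : u ∈ FQ.expG K g) (hue : e' = (u : End K V) * e * ((u⁻¹ : (End K V)ˣ) : End K V))
    {f f' : I → ℚ} (hf : ∀ i, e (v i) = (f i : K) • v i)
    (hf' : ∀ i, e' (v i) = (f' i : K) • v i) (h1 : ∀ h, AR g t g v h → h ⬝ᵥ f ≠ 0 → P h)
    {h' : I → ℚ} (H' : AR g t g v h') (h0' : h' ⬝ᵥ f' ≠ 0) : P h' := by
  have hes : e ∈ sP g t v P := by
    refine ⟨T.le he, ?_⟩
    rintro z ⟨α, y, k, R, hz0, hk, hPk⟩
    have Hk : AR g t g v k := ⟨α, z, y, R, hz0, R.rx.mem, hk⟩
    have h2 : α e = 0 := by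
      by_contra h3
      exact hPk (h1 k Hk ((dot_ne v R hz0 he hk hf).1 h3))
    have h3 := R.rx.root e he
    rw [h2, zero_smul, sub_eq_zero] at h3
    exact h3
  have hes' : e' ∈ sP g t v P := by
    rw [hue]
    exact FQ.conj_mem (T.sPA_ideal v hv hP) hu hes
  obtain ⟨α, z, y, R, hz0, -, hh⟩ := H'
  by_contra hPk
  have h2 := hes'.2 z ⟨α, y, h', R, hz0, hh, hPk⟩
  have h3 := R.rx.root e' he'
  rw [h2, sub_self] at h3
  exact (smul_ne_zero ((dot_ne v R hz0 he' hh hf').2 h0') hz0) h3.symm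

end

/-- An idempotent which touches a root touches the coroot of a root vector. -/
theorem exists_ar {e : End K V} (he : e ∈ t) {f : I → ℚ}
    (hf : ∀ i, e (v i) = (f i : K) • v i) {h : I → ℚ} (H : Rt (Lv t v) h) (h0 : h ⬝ᵥ f ≠ 0) :
    ∃ k, AR g t g v k ∧ k ⬝ᵥ f ≠ 0 := by
  obtain ⟨α, z, hz, hz0, hα, hαe⟩ : ∃ (α : End K V → K) (z : End K V), IsRoot g t α z ∧ z ≠ 0 ∧
      (∃ τ ∈ t, α τ ≠ 0) ∧ α e ≠ 0 := by
    by_contra hcon
    push Not at hcon
    obtain ⟨c, hc⟩ := T.scalar_of (x := e) (fun α z hz hz0 hα => by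
      have h1 := hz.root e he
      rw [hcon α z hz hz0 hα, zero_smul, sub_eq_zero] at h1
      exact h1) fun τ hτ => T.comm e he τ hτ
    apply h0
    have h1 : ∀ i j, f i = f j := by
      intro i j
      have h2 := hf i
      have h3 := hf j
      rw [hc, LinearMap.smul_apply, Module.End.one_apply] at h2 h3
      have h4 : c = f i := smul_left_injective K (v.ne_zero i) h2
      have h5 : c = f j := smul_left_injective K (v.ne_zero j) h3
      exact_mod_cast h4.symm.trans h5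
    obtain ⟨i, -⟩ := Rt_one H
    have h4 : f = fun _ => f i := funext fun j => h1 j i
    rw [h4]
    simp only [dotProduct]
    rw [← Finset.sum_mul, Rt_sum H, zero_mul]
  obtain ⟨y, R⟩ := T.hopp α z hz hz0 hα
  obtain ⟨k, π, hk, hkv, -⟩ := exists_rf v hv (T.hmult v hv) R hz0
  exact ⟨k, ⟨α, z, y, R, hz0, hz.mem, hkv⟩, (dot_ne v R hz0 he hkv hf).1 hαe⟩

/-- **Conjugate idempotents of the torus touch the same root without zeros.** -/
theorem fl_touch (hall : ∀ h, AR g t g v h → Fl (Lv t v) h) {e e' : End K V} (he : e ∈ t)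
    (hee : e * e = e) (he' : e' ∈ t) (hee' : e' * e' = e') {u : (End K V)ˣ}
    (hu : u ∈ FQ.expG K g) (hue : e' = (u : End K V) * e * ((u⁻¹ : (End K V)ˣ) : End K V))
    {f f' : I → ℚ} (hf : ∀ i, e (v i) = (f i : K) • v i)
    (hf' : ∀ i, e' (v i) = (f' i : K) • v i) {k k' : I → ℚ} (hk : Fl (Lv t v) k)
    (h0 : k ⬝ᵥ f ≠ 0) (hk' : Fl (Lv t v) k') (h0' : k' ⬝ᵥ f' ≠ 0) : k' = k ∨ k' = -k := by
  have hL := T.lat v hv
  have hfL := mem_Lv v he hee hf
  have hfL' := mem_Lv v he' hee' hf'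
  obtain ⟨m, Hm, hm0⟩ := T.exists_ar v hv he' hf' hk'.rt h0'
  have h1 : m = k ∨ m = -k := by
    refine T.touchA v hv (P := fun h => h = k ∨ h = -k) ?_ he he' hu hue hf hf' ?_ Hm hm0
    · rintro h k₁ Hh Hk (rfl | rfl) h2
      · rcases (hall _ Hh).eq_or_orth hL (hall _ Hk) with h3 | h3 | h3
        · exact Or.inl h3
        · exact Or.inr h3
        · exact absurd (by rw [dotProduct_comm]; exact h3) h2
      · rcases (hall _ Hh).eq_or_orth hL (hall _ Hk) with h3 | h3 | h3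
        · exact Or.inr h3
        · exact Or.inl (by rw [h3, neg_neg])
        · exact absurd (by rw [dotProduct_comm]; exact h3) h2
    · intro h Hh h2
      exact hk.one_of hL (hall _ Hh) hfL (fun i => val01 v hee hf i) h0 h2
  have h2 := (hall _ Hm).one_of hL hk' hfL' (fun i => val01 v hee' hf' i) hm0 h0'
  rcases h1 with rfl | rfl
  · exact h2
  · rcases h2 with h3 | h3
    · exact Or.inr h3
    · exact Or.inl (by rw [h3, neg_neg])

/-- The rank of a root vector whose coroot has a zero. -/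
theorem ar_rk (hcn : ∀ h h', Rt (Lv t v) h → Rt (Lv t v) h' → Cn (Lv t v) h h')
    (hfl : ∃ k, Fl (Lv t v) k) {h : I → ℚ} (H : AR g t g v h) :
    Fl (Lv t v) h ∨ ∃ x ∈ g, x * x = 0 ∧ 4 * rk x = finrank K V := by
  have hL := T.lat v hv
  obtain ⟨S, C⟩ := exists_cube hL (conn_of_cn hcn) hfl
  rcases C.sq_or hL (T.ar_rt v hv H) with h1 | h1
  · exact Or.inl h1
  right
  obtain ⟨α, x, y, P, hx0, hx, hh⟩ := H
  refine ⟨x, hx, P.xx, ?_⟩
  have h2 := dot_eq v P P.mem hh hh
  rw [opp_two P hx0, trace_xy P] at h2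
  have h3 : ((2 * finrank K (LinearMap.range x) : ℕ) : K) = ((h ⬝ᵥ h : ℚ) : K) := by
    rw [← h2]
    push_cast
    ring
  have h4 : ((2 * finrank K (LinearMap.range x) : ℕ) : ℚ) = h ⬝ᵥ h := by exact_mod_cast h3
  rw [← h4, ← finrank_eq_card_basis v] at h1
  have h5 : 2 * (2 * finrank K (LinearMap.range x)) = finrank K V := by exact_mod_cast h1
  change 4 * finrank K (LinearMap.range x) = _
  omega

/-- **The symplectic case of dimension eight.** -/
theorem all_fl_sp {ψ : V →ₗ[K] V →ₗ[K] K}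
    (hcn : ∀ h h', Rt (Lv t v) h → Rt (Lv t v) h' → Cn (Lv t v) h h')
    (halt : ∀ x, ψ x x = 0) (hnd : ∀ x, (∀ y, ψ x y = 0) → x = 0)
    (hgsp : ∀ x ∈ g, ∃ κ : K, ∀ u w, ψ (x u) w + ψ u (x w) = κ * ψ u w)
    (h8 : finrank K V = 8) (hfl : ∃ k, Fl (Lv t v) k) {h : I → ℚ} (H : AR g t g v h) :
    Fl (Lv t v) h := by
  classical
  rcases T.ar_rk v hv hcn hfl H with h1 | ⟨x, hx, hxx, hr⟩
  · exact h1
  exfalso
  have hψ : ∀ e ∈ NI g, ∀ u v, ψ (e u) v + ψ u (e v) = ψ u v := fun e he => by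
    obtain ⟨κ, h⟩ := hgsp e he.1
    exact mult_idem hnd halt he.2.1 he.2.2.1 he.2.2.2 h
  have hfull : ∀ D : End K V, (∀ a b, ψ (D a) b + ψ a (D b) = 0) → D ∈ g := by
    intro D hD
    refine OddRank.skew_mem halt hnd (fun u v => ?_) hD
    exact OddRank.irred_two halt hnd T.lie hgsp (fun e he => he.1) (fun e he => he.2.1) hψ
      T.irr_ni hx hxx (by
        change 4 * finrank K (LinearMap.range x) = _ at hr
        omega) u v
  obtain ⟨i⟩ : Nonempty I := v.index_nonempty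
  obtain ⟨j, hij, hj⟩ := exists_tw T.toCartan v hv (T.hmult v hv) halt hnd hgsp hfull i
  obtain ⟨k, hk⟩ := hfl
  exact T.nofl_of_tw v hv hnd hgsp (by omega) hij hj k hk

/-- **The orthogonal case of dimension four.** -/
theorem all_fl_so {ψ : V →ₗ[K] V →ₗ[K] K}
    (hcn : ∀ h h', Rt (Lv t v) h → Rt (Lv t v) h' → Cn (Lv t v) h h')
    (hsymm : ∀ u w, ψ u w = ψ w u) (hnd : ∀ x, (∀ y, ψ x y = 0) → x = 0)
    (hgsp : ∀ x ∈ g, ∃ κ : K, ∀ u w, ψ (x u) w + ψ u (x w) = κ * ψ u w)
    (h4 : finrank K V = 4) (hfl : ∃ k, Fl (Lv t v) k) {h : I → ℚ} (H : AR g t g v h) :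
    Fl (Lv t v) h := by
  rcases T.ar_rk v hv hcn hfl H with h1 | ⟨x, hx, hxx, hr⟩
  · exact h1
  · exact absurd (by omega) (rk_up_ne_one hsymm hnd hgsp hx hxx)

/-- In the orthogonal case of dimension four there is a root without zeros. -/
theorem exists_fl_so {ψ : V →ₗ[K] V →ₗ[K] K}
    (hcn : ∀ h h', Rt (Lv t v) h → Rt (Lv t v) h' → Cn (Lv t v) h h')
    (hsymm : ∀ u w, ψ u w = ψ w u) (hnd : ∀ x, (∀ y, ψ x y = 0) → x = 0)
    (hgsp : ∀ x ∈ g, ∃ κ : K, ∀ u w, ψ (x u) w + ψ u (x w) = κ * ψ u w)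
    (h4 : finrank K V = 4) {e : End K V} (he : e ∈ t) (hee : e * e = e)
    (hmul : ∀ u w, ψ (e u) w + ψ u (e w) = ψ u w) : ∃ k, Fl (Lv t v) k := by
  by_contra hcon
  push Not at hcon
  have G := T.so_gr v hv hcn hsymm hnd hgsp (fun m _ _ => hcon) he hee hmul
  rcases dich G (SmallRank.two_rk hnd hee hmul) with ⟨⟨k, hk⟩, -⟩ | ⟨c, f, ρ, B, hρ, h5⟩ |
    ⟨c, f, x, y, T2⟩
  · rcases k with _ | _ | _ | k
    · rw [h4, mul_zero, Nat.choose_self] at hk
      omega
    · rw [h4] at hk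
      revert hk
      decide
    · rw [h4] at hk
      revert hk
      decide
    · change finrank K V = (2 * (k + 3)).choose (k + 3) at hk
      have h1 : (2 * (k + 3)).choose 2 ≤ (2 * (k + 3)).choose (k + 3) := by
        have := Nat.choose_le_centralBinom 2 (k + 3)
        rwa [Nat.centralBinom] at this
      have h2 : (6 : ℕ).choose 2 ≤ (2 * (k + 3)).choose 2 := Nat.choose_le_choose 2 (by omega)
      have h3 : (6 : ℕ).choose 2 = 15 := by decide
      omega
  · have h6 := B.rho_pos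
    omega
  · obtain ⟨j, hj⟩ := T2.pow_two
    have r1 := G.rk_add
    have hcard : finrank K V = 2 ^ (j + 1) := by
      have r2 := SmallRank.two_rk hnd hee hmul
      rw [pow_succ, ← hj]
      omega
    have h5 := T2.mod4_symm hsymm hnd hgsp hmul hj
    rw [h4] at hcard
    rcases j with _ | _ | j
    · norm_num at hcard
    · norm_num at h5
    · have h6 : 2 ^ 3 ≤ 2 ^ (j + 2 + 1) := Nat.pow_le_pow_right (by norm_num) (by omega)
      omega

end TD

end Pool.Agent.FQA
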