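import Pool.Agent.FQA.Theta

/-!
# Elements of degree one and rank two
-/

set_option autoImplicit false
set_option linter.unusedSectionVars false

namespace Pool.Agent.FQA

open Module Pool.Agent.SmallRank

variable {K V : Type*} [Field K] [CharZero K] [IsAlgClosed K] [AddCommGroup V] [Module K V]
  [FiniteDimensional K V]

/-- The trace of an operator whose range is in a line. -/
theorem trace_line {T : End K V} {a : V} (ha : a ≠ 0) (h : ∀ w, ∃ s : K, T w = s • a) {ω : K}
    (hω : T a = ω • a) : LinearMap.trace K V T = ω := by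
  obtain ⟨δ, hδ⟩ : ∃ δ : Dual K V, δ a = 1 := by
    obtain ⟨δ, hδ⟩ := (Module.forall_dual_apply_eq_zero_iff K a).not.2 ha |> not_forall.1
    exact ⟨(δ a)⁻¹ • δ, by rw [LinearMap.smul_apply, smul_eq_mul, inv_mul_cancel₀ hδ]⟩
  have h1 : T = (δ ∘ₗ T).smulRight a := by
    ext w
    obtain ⟨s, hs⟩ := h w
    rw [LinearMap.smulRight_apply, LinearMap.comp_apply, hs, map_smul, hδ, smul_eq_mul, mul_one]
  rw [h1, LinearMap.trace_smulRight, LinearMap.comp_apply, hω, map_smul, hδ, smul_eq_mul, mul_one]

namespace Ex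

variable {g : Submodule K (End K V)} {c f : End K V} (E : Ex g c f)
include E

theorem Pyf {y : End K V} (hy : y ∈ g1 g c f) : f * (y * f) = 0 := by
  have h1 : c * f * (y * f) = 0 := by
    have h2 : y * f = c * f * y * f + y * f := by
      conv_lhs => rw [← hy.2.2.2, add_mul, mul_assoc y, E.Qf]
    have h3 : c * f * y * f = 0 := by
      have h4 := sub_eq_zero.2 h2
      have h5 : y * f - (c * f * y * f + y * f) = -(c * f * y * f) := by abel
      rw [h5, neg_eq_zero] at h4
      exact h4
    rw [← mul_assoc, h3]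
  have h6 : f * (y * f) = f * (c * f * (y * f)) := by rw [← mul_assoc f (c * f), E.fP]
  rw [h6, h1, mul_zero]

/-- The dichotomy for an element of degree one. -/
theorem types {x : End K V} (hx : x ∈ g1 g c f) (hxfx : x * f * x = 0) :
    (∀ y ∈ g1 g c f, ∃ s : K, x * y * f = s • (c * f)) ∨
    ∀ y ∈ g1 g c f, LinearMap.trace K V (x * y * f) + LinearMap.trace K V (y * x * f) = 0 := by
  by_cases h1 : x * f = 0
  · left
    intro y hy
    obtain ⟨s, hs⟩ := E.com11 hx hy
    refine ⟨s, ?_⟩
    have h2 : x * y * f = (x * y - y * x) * f + y * (x * f) := by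
      rw [sub_mul, mul_assoc y x f, sub_add_cancel]
    rw [h2, hs, h1, mul_zero, add_zero, smul_mul_assoc]
  by_cases h2 : f * x = 0
  · left
    intro y hy
    refine ⟨0, ?_⟩
    have h3 : x = x * (f * c) := by
      conv_lhs => rw [← hx.2.2.2]
      rw [mul_assoc, h2, mul_zero, zero_add]
    rw [h3, mul_assoc x, mul_assoc f, E.c_mul hy, mul_zero, mul_zero, zero_mul, zero_smul]
  right
  intro y hy
  -- the range of `P x` is a line
  have hfix : ∀ a ∈ LinearMap.range (c * f), (c * f) a = a := by
    rintro _ ⟨w, rfl⟩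
    exact LinearMap.congr_fun E.PP w
  have hle : LinearMap.range (c * f * x) ≤ LinearMap.range (c * f) :=
    LinearMap.range_comp_le_range x (c * f)
  have hr : rk (c * f * x) = 1 := by
    have h3 : rk (c * f * x) ≤ 2 := by
      have h4 := Submodule.finrank_mono hle
      have h5 := E.rkP
      change rk (c * f * x) ≤ rk (c * f) at h4
      omega
    have h4 : rk (c * f * x) ≠ 0 := by
      intro h5
      rw [rk_eq_zero] at h5
      apply h2
      rw [← E.fcf, mul_assoc (f * c), mul_assoc f c, ← mul_assoc c f x, h5, mul_zero]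
    have h5 : rk (c * f * x) ≠ 2 := by
      intro h6
      have h7 : LinearMap.range (c * f * x) = LinearMap.range (c * f) :=
        Submodule.eq_of_le_of_finrank_eq hle (h6.trans E.rkP.symm)
      apply h1
      have h8 : x * f * (c * f) = x * f := by rw [mul_assoc, E.fP]
      rw [← h8]
      ext w
      have h9 : (c * f) w ∈ LinearMap.range (c * f * x) := by
        rw [h7]
        exact ⟨w, rfl⟩
      obtain ⟨u, hu⟩ := h9
      rw [Module.End.mul_apply, ← hu, ← Module.End.mul_apply, ← mul_assoc, h8, hxfx,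
        LinearMap.zero_apply, LinearMap.zero_apply]
    omega
  obtain ⟨⟨a, ha⟩, ha0, hspan⟩ := finrank_eq_one_iff'.1 hr
  replace ha0 : a ≠ 0 := fun h => ha0 (Subtype.ext h)
  have hline : ∀ w, ∃ s : K, (c * f * x) w = s • a := by
    intro w
    obtain ⟨s, hs⟩ := hspan ⟨(c * f * x) w, w, rfl⟩
    exact ⟨s, (congrArg Subtype.val hs).symm⟩
  have hPa : (c * f) a = a := hfix a (hle ha)
  have hxfa : x (f a) = 0 := by
    obtain ⟨w, rfl⟩ := ha
    have h3 : x * f * (c * f * x) = 0 := by
      have h4 : x * f * (c * f * x) = x * (f * c * f) * x := by simp only [mul_assoc]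
      rw [h4, E.fcf, hxfx]
    exact LinearMap.congr_fun h3 w
  obtain ⟨ω, hω⟩ := E.com11 hx hy
  have hT : x * y * f = c * f * x * (y * f) := by
    have h3 : x * (y * f) = c * f * x * (y * f) + x * (f * c) * (y * f) := by
      conv_lhs => rw [← hx.2.2.2]
      rw [add_mul]
    rw [mul_assoc, h3, mul_assoc x, mul_assoc f, ← mul_assoc c y f, E.c_mul hy, zero_mul, mul_zero,
      mul_zero, add_zero]
  have hTa : (x * y * f) a = ω • a := by
    have h3 : x * y * f = ω • (c * f) + y * x * f := by
      rw [← smul_mul_assoc, ← hω, sub_mul, sub_add_cancel]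
    rw [h3, LinearMap.add_apply, LinearMap.smul_apply, hPa, Module.End.mul_apply,
      Module.End.mul_apply, hxfa, map_zero, add_zero]
  have h3 : LinearMap.trace K V (x * y * f) = ω := by
    refine trace_line ha0 (fun w => ?_) hTa
    rw [hT]
    exact hline _
  have h4 : LinearMap.trace K V (x * y * f) - LinearMap.trace K V (y * x * f) = ω * 2 := by
    rw [← map_sub, ← sub_mul, hω, smul_mul_assoc, map_smul, E.trc, smul_eq_mul]
  rw [h3] at h4 ⊢
  linear_combination -h4

end Ex

end Pool.Agent.FQA
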