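import Pool.Agent.SmallRank.Defs

/-!
# The skew operators of rank two of a symmetric form
-/

set_option autoImplicit false
set_option linter.unusedSectionVars false

namespace Pool.Agent.FQA

open Module Pool.Agent.SmallRank

variable {K V : Type*} [Field K] [CharZero K] [IsAlgClosed K] [AddCommGroup V] [Module K V]
  [FiniteDimensional K V]

/-- The operator `w ↦ ψ a w • b - ψ b w • a`. -/
def wd (ψ : V →ₗ[K] V →ₗ[K] K) (a b : V) : End K V :=
  (ψ a).smulRight b - (ψ b).smulRight a

variable {ψ : V →ₗ[K] V →ₗ[K] K}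

theorem wd_apply (a b w : V) : wd ψ a b w = ψ a w • b - ψ b w • a := rfl

theorem wd_swap (a b : V) : wd ψ a b = -wd ψ b a := by
  refine LinearMap.ext fun w => ?_
  rw [LinearMap.neg_apply, wd_apply, wd_apply]
  abel

theorem wd_add_left (a a' b : V) : wd ψ (a + a') b = wd ψ a b + wd ψ a' b := by
  refine LinearMap.ext fun w => ?_
  rw [LinearMap.add_apply, wd_apply, wd_apply, wd_apply, map_add, LinearMap.add_apply, add_smul,
    smul_add]
  abel

theorem wd_add_right (a b b' : V) : wd ψ a (b + b') = wd ψ a b + wd ψ a b' := by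
  rw [wd_swap, wd_add_left, wd_swap b a, wd_swap b' a, neg_add, neg_neg, neg_neg]

theorem wd_smul_left (c : K) (a b : V) : wd ψ (c • a) b = c • wd ψ a b := by
  refine LinearMap.ext fun w => ?_
  rw [LinearMap.smul_apply, wd_apply, wd_apply, map_smul, LinearMap.smul_apply, smul_sub,
    smul_eq_mul, mul_smul, smul_comm (ψ b w) c a]

theorem wd_smul_right (c : K) (a b : V) : wd ψ a (c • b) = c • wd ψ a b := by
  rw [wd_swap, wd_smul_left, wd_swap b a, smul_neg, neg_neg]

theorem wd_zero_left (b : V) : wd ψ 0 b = 0 := by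
  have h := wd_smul_left (ψ := ψ) (0 : K) 0 b
  rwa [zero_smul, zero_smul] at h

theorem wd_zero_right (a : V) : wd ψ a 0 = 0 := by rw [wd_swap, wd_zero_left, neg_zero]

theorem wd_skew (hsymm : ∀ u w, ψ u w = ψ w u) (a b u w : V) :
    ψ (wd ψ a b u) w + ψ u (wd ψ a b w) = 0 := by
  rw [wd_apply, wd_apply]
  simp only [map_sub, map_smul, LinearMap.sub_apply, LinearMap.smul_apply, smul_eq_mul]
  rw [hsymm u b, hsymm u a]
  ring

/-- The commutator with a similitude. -/
theorem wd_lie {z : End K V} {κ : K} (hz : ∀ u w, ψ (z u) w + ψ u (z w) = κ * ψ u w) (a b : V) :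
    z * wd ψ a b - wd ψ a b * z = wd ψ (z a) b + wd ψ a (z b) - κ • wd ψ a b := by
  refine LinearMap.ext fun w => ?_
  have h1 : ψ a (z w) = κ * ψ a w - ψ (z a) w := by linear_combination hz a w
  have h2 : ψ b (z w) = κ * ψ b w - ψ (z b) w := by linear_combination hz b w
  rw [LinearMap.sub_apply, Module.End.mul_apply, Module.End.mul_apply, LinearMap.sub_apply,
    LinearMap.add_apply, LinearMap.smul_apply]
  simp only [wd_apply, map_sub, map_smul, h1, h2]
  module

/-- A similitude of square zero is skew. -/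
theorem mult_zero [Nontrivial V] (hnd : ∀ x, (∀ y, ψ x y = 0) → x = 0) {z : End K V} {κ : K}
    (hz : ∀ u w, ψ (z u) w + ψ u (z w) = κ * ψ u w) (hzz : z * z = 0) : κ = 0 := by
  by_contra hκ
  have h0 : ∀ w, z (z w) = 0 := fun w => LinearMap.congr_fun hzz w
  obtain ⟨x, hx⟩ := exists_ne (0 : V)
  apply hx
  refine hnd x fun y => ?_
  have e1 : κ * ψ (z x) (z y) = 0 := by
    rw [← hz (z x) (z y), h0, h0, map_zero, map_zero, LinearMap.zero_apply, add_zero]
  have e2 : κ * ψ (z x) y = ψ (z x) (z y) := by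
    rw [← hz (z x) y, h0, map_zero, LinearMap.zero_apply, zero_add]
  have e3 : κ * ψ x (z y) = ψ (z x) (z y) := by
    rw [← hz x (z y), h0, map_zero, add_zero]
  have e4 : κ * (κ * ψ x y) = 2 * ψ (z x) (z y) := by
    rw [← hz x y, mul_add, e2, e3, two_mul]
  have e5 : ψ (z x) (z y) = 0 := (mul_eq_zero.1 e1).resolve_left hκ
  rw [e5, mul_zero] at e4
  exact (mul_eq_zero.1 ((mul_eq_zero.1 e4).resolve_left hκ)).resolve_left hκ

end Pool.Agent.FQA
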