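import Pool.Agent.FQA.WdC
import Pool.Agent.SmallRank.CoreA

/-!
# The operators between the ranges of the two pairs of a frame (PACKAGE FX10)

Proof. Let `b ∈ range c`, `a₂ ∈ range x`. If `b = 0`: `wd_zero_left`. Otherwise choose
`a ∈ range c` with `a, b` linearly independent (`rk c = 2`, `F.B.rkc`) and `α : End K V` with
`α a = a₂`, `α b = 0` (extend to a
basis, or `LinearIndependent` and `Basis.constr`). By `Fr.full` (`Pool/Agent/SmallRank/CoreA.lean`)
for
`z = c * w * y * α * (c * f)` there is `v ∈ g` with `c * f * z * (c * f) = c * w * y * v * (c *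
f)`; the left side is
`c * w * y * α * (c * f)` (`c * f * c = c`). Multiply by `w` from the left and use `F.wa : w * (c *
w * y) = x * y`: `x * y * α * (c * f) = x * y * v * (c * f)`.
Let `s = x * y * v * (c * f) + f * c * v * (y * x) ∈ g` (`F.w_m4`,
`Pool/Agent/SmallRank/FrWts.lean`). For `a' ∈ range c`:
`(c * f) a' = a'` and `(y * x) a' = 0` (`x * c = 0`, `F.xc`), so `s a' = (x * y * v * (c * f)) a' =
(x * y) (α a')`. Hence
`s a = (x * y) a₂ = a₂` and `s b = 0`. `s * s = 0` (`f * x = 0`, `f * f = 0`, `x * x = 0`, `x * f =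
0`), so
`s` is skew by `hgsp` and `mult_zero` (`Pool/Agent/FQA/Wd.lean`; `V` is nontrivial by
`F.G.nontrivial`). `c` is skew in the
same way, and `wd ψ a b ∈ g` by `wd_mem_of_rank_two`. `wd_lie` for `s` (`κ = 0`):
`s * wd ψ a b - wd ψ a b * s = wd ψ (s a) b + wd ψ a (s b) = wd ψ a₂ b`. So `wd ψ a₂ b ∈ g` and
`wd ψ b a₂ = - wd ψ a₂ b ∈ g`
(`wd_swap`).
-/

set_option autoImplicit false
set_option linter.unusedSectionVars false

namespace Pool.Agent.FQA

open Module Pool.Agent.SmallRank

variable {K V : Type*} [Field K] [CharZero K] [IsAlgClosed K] [AddCommGroup V] [Module K V]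
  [FiniteDimensional K V] {ψ : V →ₗ[K] V →ₗ[K] K}

theorem wd_frame (hsymm : ∀ u w, ψ u w = ψ w u) (hnd : ∀ x, (∀ y, ψ x y = 0) → x = 0)
    {g : Submodule K (End K V)} (hgsp : ∀ x ∈ g, ∃ κ : K, ∀ u w, ψ (x u) w + ψ u (x w) = κ * ψ u w)
    {e c f x y w : End K V} (F : Fr g e c f x y w 2) (hS : e - c * f - x * y ≠ 0) {b a₂ : V}
    (hb : b ∈ LinearMap.range c) (ha : a₂ ∈ LinearMap.range x) : wd ψ b a₂ ∈ g := by
  have hnt : Nontrivial V := F.G.nontrivial
  obtain ⟨a, haR, hab⟩ : ∃ a ∈ LinearMap.range c, a ∉ Submodule.span K ({b} : Set V) := by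
    by_contra hcon
    push Not at hcon
    have h1 : finrank K (LinearMap.range c) ≤ finrank K (Submodule.span K ({b} : Set V)) :=
      Submodule.finrank_mono hcon
    have h2 : finrank K (Submodule.span K ({b} : Set V)) ≤ 1 :=
      (finrank_span_le_card ({b} : Set V)).trans (by simp)
    have h3 : finrank K (LinearMap.range c) = 2 := F.B.rkc
    omega
  obtain ⟨φ, hφa, hφb⟩ := Submodule.exists_dual_map_eq_bot_of_notMem hab inferInstance
  have hφb' : φ b = 0 := by
    have h1 : φ b ∈ (Submodule.span K ({b} : Set V)).map φ :=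
      Submodule.mem_map_of_mem (Submodule.mem_span_singleton_self b)
    rw [hφb] at h1
    exact (Submodule.mem_bot K).1 h1
  set α : End K V := (φ a)⁻¹ • φ.smulRight a₂ with hα
  have hαa : α a = a₂ := by
    rw [hα, LinearMap.smul_apply, LinearMap.smulRight_apply, smul_smul, inv_mul_cancel₀ hφa,
      one_smul]
  have hαb : α b = 0 := by
    rw [hα, LinearMap.smul_apply, LinearMap.smulRight_apply, hφb', zero_smul, smul_zero]
  obtain ⟨v, hv, hvz⟩ := F.full hS (c * w * y * α * (c * f))
  have hL : c * f * (c * w * y * α * (c * f)) * (c * f) = c * w * y * α * (c * f) := by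
    have h1 : c * f * (c * w * y * α * (c * f)) * (c * f) =
        c * f * c * (w * y * α * (c * f * c * f)) := by
      simp only [mul_assoc]
    rw [h1, F.cfc]
    simp only [mul_assoc]
  rw [hL] at hvz
  have hxy : x * y * α * (c * f) = x * y * v * (c * f) := by
    have h1 : w * (c * w * y * α * (c * f)) = w * (c * w * y * v * (c * f)) := by rw [hvz]
    have h2 : w * (c * w * y * α * (c * f)) = w * (c * w * y) * α * (c * f) := by
      simp only [mul_assoc]
    have h3 : w * (c * w * y * v * (c * f)) = w * (c * w * y) * v * (c * f) := by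
      simp only [mul_assoc]
    rw [h2, h3, F.wa] at h1
    exact h1
  set s : End K V := x * y * v * (c * f) + f * c * v * (y * x) with hs
  have hsg : s ∈ g := F.w_m4 hv
  have hcf : ∀ a' ∈ LinearMap.range c, (c * f) a' = a' := by
    rintro a' ⟨u, rfl⟩
    have h1 : (c * f) (c u) = (c * f * c) u := rfl
    rw [h1, F.cfc]
  have hyx : ∀ a' ∈ LinearMap.range c, (y * x) a' = 0 := by
    rintro a' ⟨u, rfl⟩
    have h1 : (y * x) (c u) = y ((x * c) u) := rfl
    rw [h1, F.xc, LinearMap.zero_apply, map_zero]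
  have hsa : ∀ a' ∈ LinearMap.range c, s a' = (x * y) (α a') := by
    intro a' ha'
    have h1 : s a' = (x * y * v * (c * f)) a' + (f * c * v) ((y * x) a') := rfl
    rw [h1, hyx a' ha', map_zero, add_zero, ← hxy]
    have h2 : (x * y * α * (c * f)) a' = (x * y) (α ((c * f) a')) := rfl
    rw [h2, hcf a' ha']
  have hs1 : s a = a₂ := by
    rw [hsa a haR, hαa]
    obtain ⟨u, rfl⟩ := ha
    have h1 : (x * y) (x u) = (x * y * x) u := rfl
    rw [h1, F.xyx]
  have hs2 : s b = 0 := by rw [hsa b hb, hαb, map_zero]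
  have hss : s * s = 0 := by
    have e1 : x * y * v * (c * f) * (x * y * v * (c * f)) = 0 := by
      have h1 : x * y * v * (c * f) * (x * y * v * (c * f)) =
          x * y * v * c * (f * x) * (y * v * (c * f)) := by simp only [mul_assoc]
      rw [h1, F.fx, mul_zero, zero_mul]
    have e2 : x * y * v * (c * f) * (f * c * v * (y * x)) = 0 := by
      have h1 : x * y * v * (c * f) * (f * c * v * (y * x)) =
          x * y * v * c * (f * f) * (c * v * (y * x)) := by simp only [mul_assoc]
      rw [h1, F.ff, mul_zero, zero_mul]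
    have e3 : f * c * v * (y * x) * (x * y * v * (c * f)) = 0 := by
      have h1 : f * c * v * (y * x) * (x * y * v * (c * f)) =
          f * c * v * y * (x * x) * (y * v * (c * f)) := by simp only [mul_assoc]
      rw [h1, F.xx, mul_zero, zero_mul]
    have e4 : f * c * v * (y * x) * (f * c * v * (y * x)) = 0 := by
      have h1 : f * c * v * (y * x) * (f * c * v * (y * x)) =
          f * c * v * y * (x * f) * (c * v * (y * x)) := by simp only [mul_assoc]
      rw [h1, F.xf, mul_zero, zero_mul]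
    rw [hs, mul_add, add_mul, add_mul, e1, e2, e3, e4]
    simp only [add_zero]
  have hcg : c ∈ g := F.B.cu.1
  have hcskew : ∀ u t, ψ (c u) t + ψ u (c t) = 0 := by
    obtain ⟨κ, hκ⟩ := hgsp c hcg
    have h0 := mult_zero hnd hκ F.cc
    intro u t
    rw [hκ, h0, zero_mul]
  have hmem : wd ψ a b ∈ g := wd_mem_of_rank_two hsymm hcg hcskew F.B.rkc haR hb
  obtain ⟨κ, hκ⟩ := hgsp s hsg
  have h0 := mult_zero hnd hκ hss
  have hlie := wd_lie hκ a b
  rw [hs1, hs2, wd_zero_right, add_zero, h0, zero_smul, sub_zero] at hlie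
  have hfin : wd ψ a₂ b ∈ g := by
    rw [← hlie]
    exact F.G.lie _ hsg _ hmem
  rw [wd_swap]
  exact g.neg_mem hfin

end Pool.Agent.FQA
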