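import Pool.Agent.FQA.Wd

/-!
# Skew operators of rank two (PACKAGE FX7)

`wd_of_rank_two`. Proof. For all `w`:
`wd ψ (c u) (c u') w = ψ (c u) w • c u' - ψ (c u') w • c u = - ψ u (c w) • c u' + ψ u' (c w) • c u`
(`hc`). The
expression `ω u u' := ψ u (c u')` satisfies `ω u u' = - ω u' u` (`hc`, `hsymm`), `ω u u = 0`. The
claim is, with `w` in
place of the third vector,
`ω u u' • c w + ω u' w • c u + ω w u • c u' = 0` for all `u, u', w` (then
`wd ψ (c u) (c u') w = - ω u w • c u' + ω u' w • c u = ω w u • c u' + ω u' w • c u = - ω u u' • c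
w`).

The expression `T(u, u', w)` on the left is trilinear and alternating and depends only on `c u`,
`c u'`, `c w` (if
`c u = 0` then `ω u u' = ψ u (c u') = - ψ (c u) u' = 0` and `ω w u = ψ w (c u) = 0`). As `rk c = 2`
the vectors `c u, c u', c w` are linearly dependent: there are `α, β, γ`, not all zero, with
`c (α u + β u' + γ w) = 0`. If `γ ≠ 0` then `T(u, u', w) = γ⁻¹ T(u, u', γ w) = γ⁻¹ T(u, u', α u +
β u' + γ w) = 0` as `T` is alternating; the same for `α ≠ 0`, `β ≠ 0`. (Dependence of three vectors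
in a space of dimension two:
`exists_nontrivial_relation_of_finrank_lt_card` or
`LinearIndependent.fintype_card_le_finrank`.)

`wd_mem_of_rank_two`: `a = c u`, `b = c u'`.
-/

set_option autoImplicit false
set_option linter.unusedSectionVars false

namespace Pool.Agent.FQA

open Module Pool.Agent.SmallRank

variable {K V : Type*} [Field K] [CharZero K] [IsAlgClosed K] [AddCommGroup V] [Module K V]
  [FiniteDimensional K V] {ψ : V →ₗ[K] V →ₗ[K] K}

theorem wd_of_rank_two (hsymm : ∀ u w, ψ u w = ψ w u) {c : End K V}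
    (hc : ∀ u w, ψ (c u) w + ψ u (c w) = 0) (hrk : rk c = 2) (u u' : V) :
    wd ψ (c u) (c u') = (-ψ u (c u')) • c := by
  have hω : ∀ x y, ψ x (c y) = -ψ y (c x) := by
    intro x y
    rw [eq_neg_iff_add_eq_zero, add_comm, hsymm y (c x)]
    exact hc x y
  have hω0 : ∀ x, ψ x (c x) = 0 := fun x => self_eq_neg.1 (hω x x)
  refine LinearMap.ext fun w => ?_
  have h1 : ψ (c u) w = -ψ u (c w) := by
    rw [eq_neg_iff_add_eq_zero]
    exact hc u w
  have h2 : ψ (c u') w = -ψ u' (c w) := by
    rw [eq_neg_iff_add_eq_zero]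
    exact hc u' w
  rw [wd_apply, h1, h2, LinearMap.smul_apply]
  -- the trilinear expression vanishes
  have key : ψ u (c u') • c w + ψ u' (c w) • c u - ψ u (c w) • c u' = 0 := by
    have hdep : ¬ LinearIndependent K (![⟨c u, LinearMap.mem_range_self c u⟩,
        ⟨c u', LinearMap.mem_range_self c u'⟩,
        ⟨c w, LinearMap.mem_range_self c w⟩] : Fin 3 → LinearMap.range c) := by
      intro hli
      have h3 := hli.fintype_card_le_finrank
      have h4 : finrank K (LinearMap.range c) = 2 := hrk
      rw [h4, Fintype.card_fin] at h3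
      omega
    rw [Fintype.not_linearIndependent_iff] at hdep
    obtain ⟨g, hg, i, hi⟩ := hdep
    have hrel : g 0 • c u + g 1 • c u' + g 2 • c w = 0 := by
      have h5 := congrArg (fun x : LinearMap.range c => (x : V)) hg
      simpa [Fin.sum_univ_three] using h5
    have hu := congrArg (ψ u) hrel
    have hu' := congrArg (ψ u') hrel
    have hw := congrArg (ψ w) hrel
    simp only [map_add, map_smul, smul_eq_mul, map_zero, hω0, mul_zero, zero_add,
      add_zero] at hu hu' hw
    rw [hω u' u] at hu'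
    rw [hω w u, hω w u'] at hw
    have h6 : i = 0 ∨ i = 1 ∨ i = 2 := by
      fin_cases i <;> simp
    rcases h6 with rfl | rfl | rfl
    · have e1 : g 0 * ψ u (c u') = g 2 * ψ u' (c w) := by linear_combination -hu'
      have e2 : g 0 * ψ u (c w) = -(g 1 * ψ u' (c w)) := by linear_combination -hw
      have e3 : g 0 • (ψ u (c u') • c w + ψ u' (c w) • c u - ψ u (c w) • c u') = 0 := by
        calc g 0 • (ψ u (c u') • c w + ψ u' (c w) • c u - ψ u (c w) • c u')
            = (g 0 * ψ u (c u')) • c w + ψ u' (c w) • (g 0 • c u)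
              - (g 0 * ψ u (c w)) • c u' := by module
          _ = ψ u' (c w) • (g 0 • c u + g 1 • c u' + g 2 • c w) := by rw [e1, e2]; module
          _ = 0 := by rw [hrel, smul_zero]
      exact (smul_eq_zero.1 e3).resolve_left hi
    · have e1 : g 1 * ψ u (c u') = -(g 2 * ψ u (c w)) := by linear_combination hu
      have e2 : g 1 * ψ u' (c w) = -(g 0 * ψ u (c w)) := by linear_combination -hw
      have e3 : g 1 • (ψ u (c u') • c w + ψ u' (c w) • c u - ψ u (c w) • c u') = 0 := by
        calc g 1 • (ψ u (c u') • c w + ψ u' (c w) • c u - ψ u (c w) • c u')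
            = (g 1 * ψ u (c u')) • c w + (g 1 * ψ u' (c w)) • c u
              - ψ u (c w) • (g 1 • c u') := by module
          _ = -ψ u (c w) • (g 0 • c u + g 1 • c u' + g 2 • c w) := by rw [e1, e2]; module
          _ = 0 := by rw [hrel, smul_zero]
      exact (smul_eq_zero.1 e3).resolve_left hi
    · have e1 : g 2 * ψ u (c w) = -(g 1 * ψ u (c u')) := by linear_combination hu
      have e2 : g 2 * ψ u' (c w) = g 0 * ψ u (c u') := by linear_combination hu'
      have e3 : g 2 • (ψ u (c u') • c w + ψ u' (c w) • c u - ψ u (c w) • c u') = 0 := by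
        calc g 2 • (ψ u (c u') • c w + ψ u' (c w) • c u - ψ u (c w) • c u')
            = ψ u (c u') • (g 2 • c w) + (g 2 * ψ u' (c w)) • c u
              - (g 2 * ψ u (c w)) • c u' := by module
          _ = ψ u (c u') • (g 0 • c u + g 1 • c u' + g 2 • c w) := by rw [e1, e2]; module
          _ = 0 := by rw [hrel, smul_zero]
      exact (smul_eq_zero.1 e3).resolve_left hi
  have h7 : -ψ u (c w) • c u' - -ψ u' (c w) • c u - (-ψ u (c u')) • c w = 0 := by
    rw [← key]
    module
  exact sub_eq_zero.1 h7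

theorem wd_mem_of_rank_two (hsymm : ∀ u w, ψ u w = ψ w u) {g : Submodule K (End K V)}
    {c : End K V} (hcg : c ∈ g) (hc : ∀ u w, ψ (c u) w + ψ u (c w) = 0) (hrk : rk c = 2) {a b : V}
    (ha : a ∈ LinearMap.range c) (hb : b ∈ LinearMap.range c) : wd ψ a b ∈ g := by
  obtain ⟨u, rfl⟩ := ha
  obtain ⟨u', rfl⟩ := hb
  rw [wd_of_rank_two hsymm hc hrk]
  exact g.smul_mem _ hcg

end Pool.Agent.FQA
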