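import Pool.Agent.FQA.Wd

/-!
# The orthogonal Lie algebra is generated by the parts of degree one and minus one (PACKAGE FX8)

`skew_of_wd`. Proof. Let `b_i` (`i : Fin n`) be a basis of `V` (`finBasis`) and `b'_i` the vectors
with
`ψ (b'_i) w = ` the `i`-th coordinate of `w` (`ψ : V → Dual K V` is injective by `hnd`, so
bijective:
`LinearMap.linearEquivOfInjective` with `Subspace.dual_finrank_eq`, as in `trace_of_skew` in
`Pool/Agent/FQT/ConjW.lean`). Then `∑ ψ (b'_i) w • b_i = w`, and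
`∑ ψ (b_i) x • b'_i = x` for all `x` (the difference `d` satisfies `ψ d (b_j) = 0` for all `j`:
`ψ (∑ ψ (b_i) x • b'_i) (b_j) = ∑ ψ (b_i) x * ψ (b'_i) (b_j) = ψ (b_j) x = ψ x (b_j)`). So for all
`w`:
`∑ wd ψ (b'_i) (D b_i) w = ∑ (ψ (b'_i) w • D b_i - ψ (D b_i) w • b'_i) = D w + ∑ ψ (b_i) (D w) •
b'_i = 2 • D w`. Hence
`D = 2⁻¹ • ∑ wd ψ (b'_i) (D b_i) ∈ g`.

`wd_mem_of_parts`. Proof. `V1 = range e`, `V0 = range (1 - e)`. `ψ u w = 0` for `u, w ∈ V1`
(`hmul` for `e u = u`, `e w = w` gives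
`2 ψ u w = ψ u w`) and for `u, w ∈ V0` (`0 = ψ u w`). Let `a_i` (`i : Fin m`, `m = rk e`) be a
basis of `V1`. There are `α_i ∈ V0` with
`ψ (α_i) (a_j) = δ_ij`: `ψ` gives an injective map `V0 → Dual K V1` (if `u ∈ V0` and `ψ u w = 0`
for all `w ∈ V1` then `ψ u = 0`
because it is zero on `V0` too, so `u = 0`), and an injective map `V1 → Dual K V0`, so both
spaces have the same dimension and both maps are bijective. For `w ∈ V1`: `w = ∑ ψ (α_i) w • a_i`;
for `w ∈ V0`: `w = ∑ ψ (a_i) w • α_i` (the difference is in `V0` and orthogonal to every `a_j`, so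
to `V1` and to `V0`). So for all `w`:
`∑ wd ψ (α_i) (a_i) w = e w - (1 - e) w = ((2 : K) • e - 1) w`.

Let `b ∈ V1`, `β ∈ V0`. By `wd_lie` with `κ = 0` (`wd_skew`), `X_i = wd ψ (a_i) b ∈ g`:
`X_i * wd ψ (α_i) β - wd ψ (α_i) β * X_i = wd ψ (X_i α_i) β + wd ψ (α_i) (X_i β)`,
`X_i α_i = ψ (a_i) (α_i) • b - ψ b (α_i) • a_i`, `X_i β = ψ (a_i) β • b - ψ b β • a_i`. The sum
over `i`:
`wd ψ (m • b - ∑ ψ b (α_i) • a_i) β = (m - 1) • wd ψ b β`,
`∑ wd ψ (α_i) (ψ (a_i) β • b) = wd ψ (∑ ψ (a_i) β • α_i) b = wd ψ β b = - wd ψ b β`,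
`- ψ b β • ∑ wd ψ (α_i) (a_i) = - ψ b β • (2 • e - 1)`. Total:
`(m - 2) • wd ψ b β - ψ b β • (2 • e - 1) ∈ g` (`h1`, `h0`, `hlie`). `2 • e - 1 ∈ g` and `m ≥ 3`,
so
`wd ψ b β ∈ g`. For arbitrary `u, w`: `u = e u + (1 - e) u`, `w = e w + (1 - e) w` and bilinearity
(`wd_add_left`, `wd_add_right`, `wd_swap`).
-/

set_option autoImplicit false
set_option linter.unusedSectionVars false

namespace Pool.Agent.FQA

open Module Pool.Agent.SmallRank

variable {K V : Type*} [Field K] [CharZero K] [IsAlgClosed K] [AddCommGroup V] [Module K V]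
  [FiniteDimensional K V] {ψ : V →ₗ[K] V →ₗ[K] K}

/-- the vectors dual to the standard basis -/
private theorem dual_vectors (hsymm : ∀ u w, ψ u w = ψ w u) (hnd : ∀ x, (∀ y, ψ x y = 0) → x = 0) :
    ∃ b' : Fin (finrank K V) → V,
      (∀ i w, ψ (b' i) w = (finBasis K V).repr w i) ∧
      (∀ w, ∑ i, ψ (b' i) w • finBasis K V i = w) ∧
      (∀ x, ∑ i, ψ (finBasis K V i) x • b' i = x) := by
  have hinj : Function.Injective ψ := by
    rw [injective_iff_map_eq_zero]
    exact fun x hx => hnd x fun y => by rw [hx, LinearMap.zero_apply]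
  let J : V ≃ₗ[K] Module.Dual K V :=
    LinearMap.linearEquivOfInjective ψ hinj Subspace.dual_finrank_eq.symm
  have hJ : ∀ v, J v = ψ v := fun v => rfl
  have hb : ∀ i w, ψ (J.symm ((finBasis K V).coord i)) w = (finBasis K V).repr w i := by
    intro i w
    rw [← hJ, LinearEquiv.apply_symm_apply, Basis.coord_apply]
  refine ⟨fun i => J.symm ((finBasis K V).coord i), hb, fun w => ?_, fun x => ?_⟩
  · simp only [hb]
    exact (finBasis K V).sum_repr w
  · apply hinj
    refine (finBasis K V).ext fun j => ?_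
    simp only [map_sum, map_smul, LinearMap.sum_apply, LinearMap.smul_apply, smul_eq_mul, hb,
      Basis.repr_self]
    rw [Finset.sum_eq_single j, Finsupp.single_eq_same, mul_one, hsymm]
    · intro i _ hi
      rw [Finsupp.single_eq_of_ne hi, mul_zero]
    · intro h
      exact absurd (Finset.mem_univ j) h

theorem skew_of_wd (hsymm : ∀ u w, ψ u w = ψ w u) (hnd : ∀ x, (∀ y, ψ x y = 0) → x = 0)
    {g : Submodule K (End K V)} (h : ∀ a b, wd ψ a b ∈ g) {D : End K V}
    (hD : ∀ u w, ψ (D u) w + ψ u (D w) = 0) : D ∈ g := by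
  obtain ⟨b', -, h1, h2⟩ := dual_vectors hsymm hnd
  have h3 : ∑ i, wd ψ (b' i) (D (finBasis K V i)) = (2 : K) • D := by
    refine LinearMap.ext fun w => ?_
    rw [LinearMap.sum_apply, LinearMap.smul_apply]
    have h4 : ∀ i, wd ψ (b' i) (D (finBasis K V i)) w =
        D (ψ (b' i) w • finBasis K V i) + ψ (finBasis K V i) (D w) • b' i := by
      intro i
      have h5 : ψ (D (finBasis K V i)) w = -ψ (finBasis K V i) (D w) := by
        linear_combination hD (finBasis K V i) w
      rw [wd_apply, h5, map_smul, neg_smul, sub_neg_eq_add]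
    rw [Finset.sum_congr rfl fun i _ => h4 i, Finset.sum_add_distrib, ← map_sum, h1, h2, two_smul]
  have h6 : (2 : K) • D ∈ g := by
    rw [← h3]
    exact g.sum_mem fun i _ => h _ _
  have h7 := g.smul_mem (2⁻¹ : K) h6
  rwa [smul_smul, inv_mul_cancel₀ two_ne_zero, one_smul] at h7

theorem wd_mem_of_parts (hsymm : ∀ u w, ψ u w = ψ w u) (hnd : ∀ x, (∀ y, ψ x y = 0) → x = 0)
    {g : Submodule K (End K V)} (hlie : ∀ a ∈ g, ∀ b ∈ g, a * b - b * a ∈ g)
    (hone : (1 : End K V) ∈ g) {e : End K V} (he : e ∈ g) (hee : e * e = e)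
    (hmul : ∀ u w, ψ (e u) w + ψ u (e w) = ψ u w) (h3 : 3 ≤ rk e)
    (h1 : ∀ a ∈ LinearMap.range e, ∀ b ∈ LinearMap.range e, wd ψ a b ∈ g)
    (h0 : ∀ a ∈ LinearMap.range (1 - e), ∀ b ∈ LinearMap.range (1 - e), wd ψ a b ∈ g)
    (u w : V) : wd ψ u w ∈ g := by
  obtain ⟨b', hb, hs1, hs2⟩ := dual_vectors hsymm hnd
  have hee' : ∀ x, e (e x) = e x := fun x => LinearMap.congr_fun hee x
  have hf : ∀ x, (1 - e : End K V) x = x - e x := fun x => rfl
  -- the two subspaces are isotropic
  have iso1 : ∀ x y, ψ (e x) (e y) = 0 := by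
    intro x y
    have h := hmul (e x) (e y)
    rw [hee', hee'] at h
    linear_combination h
  have iso0 : ∀ x y, ψ ((1 - e : End K V) x) ((1 - e : End K V) y) = 0 := by
    intro x y
    have h := hmul ((1 - e : End K V) x) ((1 - e : End K V) y)
    have h4 : ∀ z, e ((1 - e : End K V) z) = 0 := fun z => by
      rw [hf, map_sub, hee', sub_self]
    rw [h4, h4, map_zero, map_zero, LinearMap.zero_apply, add_zero] at h
    exact h.symm
  have hsplit : ∀ x, e x + (1 - e : End K V) x = x := fun x => by rw [hf]; abel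
  have r1 : ∀ x y, ψ ((1 - e : End K V) x) (e y) = ψ x (e y) := by
    intro x y
    conv_rhs => rw [← hsplit x, map_add, LinearMap.add_apply, iso1, zero_add]
  have r0 : ∀ x y, ψ (e x) ((1 - e : End K V) y) = ψ x ((1 - e : End K V) y) := by
    intro x y
    conv_rhs => rw [← hsplit x, map_add, LinearMap.add_apply, iso0, add_zero]
  set B := finBasis K V with hB
  -- the two sums
  have s1 : ∀ x, ∑ i, ψ ((1 - e : End K V) (b' i)) (e x) • e (B i) = e x := by
    intro x
    have h4 : ∀ i, ψ ((1 - e : End K V) (b' i)) (e x) • e (B i) = e (ψ (b' i) (e x) • B i) := by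
      intro i
      rw [r1, map_smul]
    rw [Finset.sum_congr rfl fun i _ => h4 i, ← map_sum, hs1, hee']
  have s0 : ∀ x, ∑ i, ψ (e (B i)) ((1 - e : End K V) x) • (1 - e : End K V) (b' i) =
      (1 - e : End K V) x := by
    intro x
    have h4 : ∀ i, ψ (e (B i)) ((1 - e : End K V) x) • (1 - e : End K V) (b' i) =
        (1 - e : End K V) (ψ (B i) ((1 - e : End K V) x) • b' i) := by
      intro i
      rw [r0, map_smul]
    rw [Finset.sum_congr rfl fun i _ => h4 i, ← map_sum, hs2, hf, hf, map_sub, hee', sub_self,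
      sub_zero]
  have tr : ∑ i, ψ (e (B i)) ((1 - e : End K V) (b' i)) = (rk e : K) := by
    rw [← trace_idem hee, LinearMap.trace_eq_matrix_trace K B, Matrix.trace]
    refine Finset.sum_congr rfl fun i _ => ?_
    rw [Matrix.diag_apply, LinearMap.toMatrix_apply, hsymm, r1, hb]
  -- the sum of the mixed operators
  have hS : ∑ i, wd ψ ((1 - e : End K V) (b' i)) (e (B i)) = (2 : K) • e - 1 := by
    refine LinearMap.ext fun x => ?_
    rw [LinearMap.sum_apply, LinearMap.sub_apply, LinearMap.smul_apply, Module.End.one_apply]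
    have h4 : ∀ i, wd ψ ((1 - e : End K V) (b' i)) (e (B i)) x =
        ψ ((1 - e : End K V) (b' i)) (e x) • e (B i) -
          ψ (e (B i)) ((1 - e : End K V) x) • (1 - e : End K V) (b' i) := by
      intro i
      rw [wd_apply]
      congr 2
      · conv_lhs => rw [← hsplit x, map_add, iso0, add_zero]
      · conv_lhs => rw [← hsplit x, map_add, iso1, zero_add]
    rw [Finset.sum_congr rfl fun i _ => h4 i, Finset.sum_sub_distrib, s1, s0, hf, two_smul]
    abel
  -- mixed operators belong to the algebra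
  have mix : ∀ x y, wd ψ (e x) ((1 - e : End K V) y) ∈ g := by
    intro x y
    set b := e x with hbx
    set β := (1 - e : End K V) y with hβ
    have hsum : ∑ i, (wd ψ (e (B i)) b * wd ψ ((1 - e : End K V) (b' i)) β -
        wd ψ ((1 - e : End K V) (b' i)) β * wd ψ (e (B i)) b) =
        ((rk e : K) - 2) • wd ψ b β - ψ b β • ((2 : K) • e - 1) := by
      have h4 : ∀ i, wd ψ (e (B i)) b * wd ψ ((1 - e : End K V) (b' i)) β -
          wd ψ ((1 - e : End K V) (b' i)) β * wd ψ (e (B i)) b =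
          ψ (e (B i)) ((1 - e : End K V) (b' i)) • wd ψ b β -
            wd ψ (ψ ((1 - e : End K V) (b' i)) b • e (B i)) β +
            wd ψ (ψ (e (B i)) β • (1 - e : End K V) (b' i)) b -
            ψ b β • wd ψ ((1 - e : End K V) (b' i)) (e (B i)) := by
        intro i
        have hz : ∀ u w, ψ (wd ψ (e (B i)) b u) w + ψ u (wd ψ (e (B i)) b w) = 0 * ψ u w := by
          intro u w
          rw [wd_skew hsymm, zero_mul]
        rw [wd_lie hz, zero_smul, sub_zero, wd_apply, wd_apply, hsymm b ((1 - e : End K V) (b' i))]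
        simp only [sub_eq_add_neg, ← neg_smul, wd_add_left, wd_add_right, wd_smul_left,
          wd_smul_right]
        module
      rw [Finset.sum_congr rfl fun i _ => h4 i, Finset.sum_sub_distrib, Finset.sum_add_distrib,
        Finset.sum_sub_distrib, ← Finset.sum_smul, tr, ← Finset.smul_sum, hS]
      have h5 : ∑ i, wd ψ (ψ ((1 - e : End K V) (b' i)) b • e (B i)) β = wd ψ b β := by
        have h6 : ∀ s : Finset (Fin (finrank K V)), ∑ i ∈ s, wd ψ (ψ ((1 - e : End K V) (b' i)) b •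
            e (B i)) β = wd ψ (∑ i ∈ s, ψ ((1 - e : End K V) (b' i)) b • e (B i)) β := by
          intro s
          induction s using Finset.induction_on with
          | empty => rw [Finset.sum_empty, Finset.sum_empty, wd_zero_left]
          | insert i s hi ih => rw [Finset.sum_insert hi, Finset.sum_insert hi, wd_add_left, ih]
        rw [h6, hbx, s1]
      have h7 : ∑ i, wd ψ (ψ (e (B i)) β • (1 - e : End K V) (b' i)) b = -wd ψ b β := by
        have h6 : ∀ s : Finset (Fin (finrank K V)), ∑ i ∈ s, wd ψ (ψ (e (B i)) β •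
            (1 - e : End K V) (b' i)) b =
            wd ψ (∑ i ∈ s, ψ (e (B i)) β • (1 - e : End K V) (b' i)) b := by
          intro s
          induction s using Finset.induction_on with
          | empty => rw [Finset.sum_empty, Finset.sum_empty, wd_zero_left]
          | insert i s hi ih => rw [Finset.sum_insert hi, Finset.sum_insert hi, wd_add_left, ih]
        rw [h6, hβ, s0, ← hβ, wd_swap]
      rw [h5, h7]
      module
    have h4 : ((rk e : K) - 2) • wd ψ b β - ψ b β • ((2 : K) • e - 1) ∈ g := by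
      rw [← hsum]
      exact g.sum_mem fun i _ => hlie _ (h1 _ ⟨_, rfl⟩ _ ⟨_, rfl⟩) _ (h0 _ ⟨_, rfl⟩ _ ⟨_, rfl⟩)
    have h5 : ((rk e : K) - 2) • wd ψ b β ∈ g := by
      have h6 := g.add_mem h4 (g.smul_mem (ψ b β) (g.sub_mem (g.smul_mem (2 : K) he) hone))
      rwa [sub_add_cancel] at h6
    have h6 : (rk e : K) - 2 ≠ 0 := by
      intro h7
      have h8 : (rk e : K) = ((2 : ℕ) : K) := by
        rw [Nat.cast_ofNat]
        exact sub_eq_zero.1 h7
      have h9 := Nat.cast_injective h8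
      omega
    have h7 := g.smul_mem ((rk e : K) - 2)⁻¹ h5
    rwa [smul_smul, inv_mul_cancel₀ h6, one_smul] at h7
  rw [← hsplit u, ← hsplit w, wd_add_left, wd_add_right, wd_add_right]
  refine g.add_mem (g.add_mem (h1 _ ⟨_, rfl⟩ _ ⟨_, rfl⟩) (mix u w)) (g.add_mem ?_
    (h0 _ ⟨_, rfl⟩ _ ⟨_, rfl⟩))
  rw [wd_swap]
  exact g.neg_mem (mix w u)

end Pool.Agent.FQA
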