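import Pool.Agent.FQA.WdA
import Pool.Agent.FQA.Bot
import Pool.Agent.FQA.WdSum
import Pool.Agent.SmallRank.Core

/-!
# The orthogonal case: minimal rank two (PACKAGE FX11, assembly)

`wd_up`. Proof. Let `n = finrank K V`. `exists_frame B` (`Pool/Agent/SmallRank/Core.lean`; `2 * n <
rk e * rk (1 - e) = (n / 2)²` as `8 < n`) gives `x y w`, `F : Fr g e c f x y w 2`. `S = e - c * f -
x * y ≠ 0` by
`Fr.rk_e` (`rk e = 4 + rk S`, `rk e > 4`, `rk_eq_zero`). `c` is skew (`hgsp`, `mult_zero`, `B.cc`).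
`P = c * f`, `range P = range c` (`P * c = c`).

Step 1. Let `N` be the submodule of the `m ∈ range (e - P)` with `wd ψ a m ∈ g` for all `a ∈ range
c`. It is stable under the `z ∈ g`
which commute with `e`, `c * f`, `f * c`: `z m ∈ range (e - P)`, and for `a ∈ range c`, by `wd_lie`:
`wd ψ a (z m) = (z * wd ψ a m - wd ψ a m * z) - wd ψ (z a) m + κ • wd ψ a m`, and `z a ∈ range c`
(`a = P a`, `z a = P (z a)`). By
`irr_bot`: `N = ⊥` or `N = range (e - P)`. `range x ≤ N`: `e * x = x`, `P * x = 0` (`F.fx`), and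
`wd_frame`. `x ≠ 0` (`F.B'.c0`), so
`N = range (e - P)`.

Step 2. For `a ∈ range c`, `v ∈ range e`: `v = P v + (e - P) v` (`e v = v`), so `wd ψ a v ∈ g` by
`wd_mem_of_rank_two` and Step 1.

Step 3. Let `M` be the submodule of the `m ∈ range e` with `wd ψ m v ∈ g` for all `v ∈ range e`. It
is stable under the `z ∈ g` with
`e * z = z * e` (as in Step 1), it contains `range c` (`e * c = c`, Step 2), `c ≠ 0`, so
`M = range e` by `irr_range` (`Pool/Agent/SmallRank/IrrOne.lean`).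

`skew_of_two`. Proof. `wd_up` for `B` and for `B.symm : Pr g (1 - e) f c 2`
(`Pool/Agent/SmallRank/PairEx.lean`; the multiplier of
`1 - e` is one, `rk (1 - e) = n - rk e`, `1 - (1 - e) = e`), then `wd_mem_of_parts`
(`3 ≤ rk e` from `8 < n = 2 * rk e`) and `skew_of_wd`.
-/

set_option autoImplicit false
set_option linter.unusedSectionVars false

namespace Pool.Agent.FQA

open Module Pool.Agent.SmallRank

variable {K V : Type*} [Field K] [CharZero K] [IsAlgClosed K] [AddCommGroup V] [Module K V]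
  [FiniteDimensional K V] {ψ : V →ₗ[K] V →ₗ[K] K}

private theorem wd_stab {g : Submodule K (End K V)} (hlie : ∀ a ∈ g, ∀ b ∈ g, a * b - b * a ∈ g)
    (hgsp : ∀ x ∈ g, ∃ κ : K, ∀ u w, ψ (x u) w + ψ u (x w) = κ * ψ u w) {z : End K V} (hz : z ∈ g)
    {a m : V} (h1 : wd ψ a m ∈ g) (h2 : wd ψ (z a) m ∈ g) : wd ψ a (z m) ∈ g := by
  obtain ⟨κ, hκ⟩ := hgsp z hz
  have h3 := wd_lie hκ a m
  have h4 : wd ψ a (z m) = (z * wd ψ a m - wd ψ a m * z) - wd ψ (z a) m + κ • wd ψ a m := by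
    rw [h3]
    abel
  rw [h4]
  exact g.add_mem (g.sub_mem (hlie _ hz _ h1) h2) (g.smul_mem _ h1)

private theorem wd_stab' {g : Submodule K (End K V)} (hlie : ∀ a ∈ g, ∀ b ∈ g, a * b - b * a ∈ g)
    (hgsp : ∀ x ∈ g, ∃ κ : K, ∀ u w, ψ (x u) w + ψ u (x w) = κ * ψ u w) {z : End K V} (hz : z ∈ g)
    {a m : V} (h1 : wd ψ a m ∈ g) (h2 : wd ψ a (z m) ∈ g) : wd ψ (z a) m ∈ g := by
  have h3 := wd_stab hlie hgsp hz (a := m) (m := a) (by rw [wd_swap]; exact g.neg_mem h1)
    (by rw [wd_swap]; exact g.neg_mem h2)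
  rw [wd_swap]
  exact g.neg_mem h3

theorem wd_up (hsymm : ∀ u w, ψ u w = ψ w u) (hnd : ∀ x, (∀ y, ψ x y = 0) → x = 0)
    {g : Submodule K (End K V)} (hgsp : ∀ x ∈ g, ∃ κ : K, ∀ u w, ψ (x u) w + ψ u (x w) = κ * ψ u w)
    {e c f : End K V} (B : Pr g e c f 2) (hbal : 2 * rk e = finrank K V) (h8 : 8 < finrank K V)
    {a b : V} (ha : a ∈ LinearMap.range e) (hb : b ∈ LinearMap.range e) : wd ψ a b ∈ g := by
  have G := B.G
  have := G.nontrivial
  have hadd := G.rk_add
  have hlt : 2 * finrank K V < rk e * rk (1 - e) := by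
    have h1 : rk (1 - e) = rk e := by omega
    have h2 : 4 < rk e := by omega
    rw [h1, ← hbal]
    nlinarith
  obtain ⟨x, y, w, F⟩ := exists_frame B hlt
  have hS : e - c * f - x * y ≠ 0 := by
    intro h0
    have h1 := F.rk_e
    rw [rk_eq_zero.2 h0] at h1
    omega
  obtain ⟨κc, hκc⟩ := hgsp c B.cu.1
  have hκ0 : κc = 0 := mult_zero hnd hκc B.cc
  have hc : ∀ u w, ψ (c u) w + ψ u (c w) = 0 := by
    intro u w
    rw [hκc, hκ0, zero_mul]
  have hPc : ∀ v ∈ LinearMap.range c, (c * f) v = v := by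
    rintro _ ⟨v, rfl⟩
    exact LinearMap.congr_fun B.cfc v
  have hev : ∀ v ∈ LinearMap.range e, e v = v := by
    rintro _ ⟨v, rfl⟩
    exact LinearMap.congr_fun G.idem v
  -- Step 1
  let N : Submodule K V :=
    { carrier := {m | m ∈ LinearMap.range (e - c * f) ∧ ∀ a ∈ LinearMap.range c, wd ψ a m ∈ g}
      add_mem' := fun {m m'} h h' => ⟨Submodule.add_mem _ h.1 h'.1, fun a ha => by
        rw [wd_add_right]
        exact g.add_mem (h.2 a ha) (h'.2 a ha)⟩
      zero_mem' := ⟨Submodule.zero_mem _, fun a _ => by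
        rw [wd_zero_right]
        exact g.zero_mem⟩
      smul_mem' := fun t m h => ⟨Submodule.smul_mem _ _ h.1, fun a ha => by
        rw [wd_smul_right]
        exact g.smul_mem _ (h.2 a ha)⟩ }
  have hNm : ∀ m, m ∈ N ↔ m ∈ LinearMap.range (e - c * f) ∧
    ∀ a ∈ LinearMap.range c, wd ψ a m ∈ g := fun m => Iff.rfl
  have hN : N = ⊥ ∨ N = LinearMap.range (e - c * f) := by
    refine irr_bot B (fun m hm => hm.1) ?_
    intro z hz hze hzP _ u hu
    obtain ⟨⟨v, hv⟩, hu2⟩ := hu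
    refine ⟨⟨z v, ?_⟩, fun a' ha' => ?_⟩
    · have h1 : (e - c * f) * z = z * (e - c * f) := by
        rw [sub_mul, mul_sub, hze, hzP]
      rw [← hv, ← Module.End.mul_apply, h1, Module.End.mul_apply]
    · refine wd_stab G.lie hgsp hz (hu2 a' ha') (hu2 _ ?_)
      have h1 : z a' = (c * f * z) a' := by
        rw [hzP, Module.End.mul_apply, hPc a' ha']
      rw [h1, mul_assoc, Module.End.mul_apply]
      exact ⟨_, rfl⟩
  have hNtop : N = LinearMap.range (e - c * f) := by
    rcases hN with h0 | h0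
    · exfalso
      apply F.B'.c0
      refine LinearMap.ext fun v => ?_
      have h1 : x v ∈ N := by
        refine ⟨⟨x v, ?_⟩, fun a' ha' => wd_frame hsymm hnd hgsp F hS ha' ⟨v, rfl⟩⟩
        have h2 : (e - c * f) * x = x := by
          rw [sub_mul, F.ex, mul_assoc, F.fx, mul_zero, sub_zero]
        rw [← Module.End.mul_apply, h2]
      rw [h0, Submodule.mem_bot] at h1
      rw [h1, LinearMap.zero_apply]
    · exact h0
  -- Step 2
  have hstep2 : ∀ a' ∈ LinearMap.range c, ∀ v ∈ LinearMap.range e, wd ψ a' v ∈ g := by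
    intro a' ha' v hv
    have h1 : v = (c * f) v + (e - c * f) v := by
      rw [LinearMap.sub_apply, hev v hv]
      abel
    have h2 : (e - c * f) v ∈ N := by
      rw [hNtop]
      exact ⟨v, rfl⟩
    rw [h1, wd_add_right]
    refine g.add_mem (wd_mem_of_rank_two hsymm B.cu.1 hc B.rkc ha' ?_) (h2.2 a' ha')
    rw [Module.End.mul_apply]
    exact ⟨_, rfl⟩
  -- Step 3
  let M : Submodule K V :=
    { carrier := {m | m ∈ LinearMap.range e ∧ ∀ v ∈ LinearMap.range e, wd ψ m v ∈ g}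
      add_mem' := fun {m m'} h h' => ⟨Submodule.add_mem _ h.1 h'.1, fun v hv => by
        rw [wd_add_left]
        exact g.add_mem (h.2 v hv) (h'.2 v hv)⟩
      zero_mem' := ⟨Submodule.zero_mem _, fun v _ => by
        rw [wd_zero_left]
        exact g.zero_mem⟩
      smul_mem' := fun t m h => ⟨Submodule.smul_mem _ _ h.1, fun v hv => by
        rw [wd_smul_left]
        exact g.smul_mem _ (h.2 v hv)⟩ }
  have hzr : ∀ z ∈ g, e * z = z * e → ∀ v ∈ LinearMap.range e, z v ∈ LinearMap.range e := by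
    intro z _ hze v hv
    refine ⟨z v, ?_⟩
    rw [← Module.End.mul_apply, hze, Module.End.mul_apply, hev v hv]
  have hM : M = ⊥ ∨ M = LinearMap.range e := by
    refine irr_range G (fun m hm => hm.1) ?_
    intro z hz hze u hu
    refine ⟨hzr z hz hze u hu.1, fun v hv => ?_⟩
    exact wd_stab' G.lie hgsp hz (hu.2 v hv) (hu.2 _ (hzr z hz hze v hv))
  have hMtop : M = LinearMap.range e := by
    rcases hM with h0 | h0
    · exfalso
      apply B.c0
      refine LinearMap.ext fun v => ?_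
      have h1 : c v ∈ M := by
        refine ⟨⟨c v, ?_⟩, fun v' hv' => hstep2 _ ⟨v, rfl⟩ v' hv'⟩
        rw [← Module.End.mul_apply, B.ec]
      rw [h0, Submodule.mem_bot] at h1
      rw [h1, LinearMap.zero_apply]
    · exact h0
  rw [← hMtop] at ha
  exact ha.2 b hb

theorem skew_of_two (hsymm : ∀ u w, ψ u w = ψ w u) (hnd : ∀ x, (∀ y, ψ x y = 0) → x = 0)
    {g : Submodule K (End K V)} (hgsp : ∀ x ∈ g, ∃ κ : K, ∀ u w, ψ (x u) w + ψ u (x w) = κ * ψ u w)
    {e c f : End K V} (B : Pr g e c f 2) (hmul : ∀ u w, ψ (e u) w + ψ u (e w) = ψ u w)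
    (hbal : 2 * rk e = finrank K V) (h8 : 8 < finrank K V) {D : End K V}
    (hD : ∀ u w, ψ (D u) w + ψ u (D w) = 0) : D ∈ g := by
  have G := B.G
  have hadd := G.rk_add
  have hbal' : 2 * rk (1 - e) = finrank K V := by omega
  refine skew_of_wd hsymm hnd (fun u w => ?_) hD
  exact wd_mem_of_parts hsymm hnd G.lie G.one G.mem G.idem hmul (by omega)
    (fun a ha b hb => wd_up hsymm hnd hgsp B hbal h8 ha hb)
    (fun a ha b hb => wd_up hsymm hnd hgsp B.symm hbal' h8 ha hb) u w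

end Pool.Agent.FQA
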